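import Pool.Agent.Work.MP_814647_an.FT.FibredStatement2

/-!
# Fibred diffeomorphisms with toral fibres: the notions in the statement, in short form
-/

open Set Filter Topology
open scoped Manifold ContDiff

noncomputable section

namespace Pool.Agent.OmegaStability

/-- The bijection `Φ` of `M` and `N × T` has the first component `π` and carries the map `f` to the
map `(x, e v) ↦ (f₁ x, e (P x v))`. -/
def CarriesToFibreMaps {N T M V : Type*} (Φ : M ≃ N × T) (π : M → N) (f : M → M) (f₁ : N → N)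
    (e : V → T) (P : N → V → V) : Prop :=
  (∀ p, (Φ p).1 = π p) ∧ ∀ x v, Φ (f (Φ.symm (x, e v))) = (f₁ x, e (P x v))

/-- The subspace `C` is the direct sum of `A` and `B`. -/
def IsDirectSum {W : Type*} [AddCommGroup W] [Module ℝ W] (A B C : Submodule ℝ W) : Prop :=
  Disjoint A B ∧ A ⊔ B = C

section

variable {E E₁ E₂ : Type*} [NormedAddCommGroup E] [NormedSpace ℝ E]
  [NormedAddCommGroup E₁] [NormedSpace ℝ E₁] [NormedAddCommGroup E₂] [NormedSpace ℝ E₂]
  {M N T : Type*} [MetricSpace M] [ChartedSpace E M]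
  [MetricSpace N] [ChartedSpace E₁ N] [MetricSpace T] [ChartedSpace E₂ T]

/-- There is a `C^∞` diffeomorphism from `M` to `N × T` with the first component `π` which carries
`f` to the map `(x, e v) ↦ (f₁ x, e (P x v))`. -/
def HasFibreMaps {r : ℕ∞} (π : M → N) (f : Diffeo E M r) (f₁ : Diffeo E₁ N r) (e : E₂ → T)
    (P : N → E₂ → E₂) : Prop :=
  ∃ Φ : Diffeomorph 𝓘(ℝ, E) (𝓘(ℝ, E₁).prod 𝓘(ℝ, E₂)) M (N × T) ∞,
    CarriesToFibreMaps Φ.toEquiv π f f₁ e P

variable (E E₁) in
/-- The tangent spaces of the fibres of `π`: the kernels of its derivative. -/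
def fibreTangent (π : M → N) : TFamily E M := fun p =>
  LinearMap.ker (mfderiv 𝓘(ℝ, E) 𝓘(ℝ, E₁) π p).toLinearMap

/-- Over `Λ` the family `V` of tangent subspaces is the direct sum of a uniformly contracted and a
uniformly expanded continuous invariant bundle, for the map `f` with inverse `f'`. -/
def HyperbolicIn [IsManifold 𝓘(ℝ, E) ∞ M] (V : TFamily E M) (f f' : M → M) (Λ : Set M) : Prop :=
  ∃ Es Eu : TFamily E M, ClosedOver Es Λ ∧ ClosedOver Eu Λ ∧
    (∀ x ∈ Λ, IsDirectSum (Es x) (Eu x) (V x)) ∧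
    InvariantOver f Es Λ ∧ InvariantOver f Eu Λ ∧
    ∃ (γ : RMetric E M) (c μ : ℝ), 0 < c ∧ 0 < μ ∧ μ < 1 ∧
      ContractedOver f γ Es Λ c μ ∧ ContractedOver f' γ Eu Λ c μ

variable (E₁) in
/-- `f` is uniformly hyperbolic along the fibres of `π` over `Λ`. -/
def FibreHyperbolicOver [IsManifold 𝓘(ℝ, E) ∞ M] {r : ℕ∞} (π : M → N) (f : Diffeo E M r)
    (Λ : Set M) : Prop :=
  HyperbolicIn (fibreTangent E E₁ π) f f.symm Λ

end

section

variable {m : ℕ}

/-- The map `g` of `ℝ^m` is continuous and `ℤ^m`-periodic. -/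
def IsPeriodicMap (g : EuclideanSpace ℝ (Fin m) → EuclideanSpace ℝ (Fin m)) : Prop :=
  Continuous g ∧ ∀ v k, g (v + intVec k) = g v

/-- The map `v ↦ A v + g v`. -/
def perturbedMap (A : Matrix (Fin m) (Fin m) ℤ)
    (g : EuclideanSpace ℝ (Fin m) → EuclideanSpace ℝ (Fin m)) (v : EuclideanSpace ℝ (Fin m)) :
    EuclideanSpace ℝ (Fin m) :=
  linMap A v + g v

end

variable {M N : ClosedManifold} {r : ℕ∞}

/-- `M` is the product of `N` and the torus `T` (with projection `π` on `N`) and `f` maps the fibre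
over `x` to the fibre over `f₁ x`, by a map which is homotopic to the automorphism of `T` with the
hyperbolic integer matrix `A`, that is, by `e v ↦ e (A v + g x v)` with a continuous function
`g x`, periodic in `v`. -/
def IsTorusSkewProduct (T : ClosedManifold) (π : M.carrier → N.carrier) (f : CrDiffeo M r)
    (f₁ : CrDiffeo N r) : Prop :=
  ∃ (e : EuclideanSpace ℝ (Fin T.dim) → T.carrier) (A : Matrix (Fin T.dim) (Fin T.dim) ℤ)
    (g : N.carrier → EuclideanSpace ℝ (Fin T.dim) → EuclideanSpace ℝ (Fin T.dim)),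
    IsTorusProjection T e ∧ HyperbolicMatrix A ∧ (∀ x, IsPeriodicMap (g x)) ∧
    HasFibreMaps π f f₁ e fun x => perturbedMap A (g x)

theorem IsTorusSkewProduct.ext {T : ClosedManifold} {π : M.carrier → N.carrier}
    {f : CrDiffeo M r} {f₁ : CrDiffeo N r} (h : IsTorusSkewProduct T π f f₁) :
    IsTorusExtension T π f f₁ := by
  obtain ⟨e, A, g, he, hA, hg, Φ, hΦ, hf⟩ := h
  exact ⟨Φ, e, A, g, hΦ, he, hA, fun x => (hg x).1, fun x => (hg x).2, hf⟩

theorem FibreHyperbolicOver.along {π : M.carrier → N.carrier}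
    {f : CrDiffeo M r} {Λ : Set M.carrier}
    (h : FibreHyperbolicOver (EuclideanSpace ℝ (Fin N.dim)) π f Λ) :
    HyperbolicAlongFibres π f Λ := by
  obtain ⟨Es, Eu, h1, h2, h3, h4, h5, γ, c, μ, h6⟩ := h
  exact ⟨Es, Eu, h1, h2, fun p hp => ⟨disjoint_iff.1 (h3 p hp).1, (h3 p hp).2⟩, h4, h5, γ, c, μ, h6⟩

end Pool.Agent.OmegaStability
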