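import Pool.Agent.Work.MP_814647_an.PS.ProductStatement

/-!
# Fibred diffeomorphisms with toral fibres: the notions in the statement
-/

open Set Filter Topology
open scoped Manifold ContDiff

noncomputable section

namespace Pool.Agent.OmegaStability

section Torus

variable {m : ℕ}

/-- The vector with integer coordinates `k`. -/
def intVec (k : Fin m → ℤ) : EuclideanSpace ℝ (Fin m) := WithLp.toLp 2 fun i => (k i : ℝ)

/-- The linear map with the matrix `A`. -/
def linMap (A : Matrix (Fin m) (Fin m) ℤ) (v : EuclideanSpace ℝ (Fin m)) :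
    EuclideanSpace ℝ (Fin m) :=
  WithLp.toLp 2 fun i => ∑ j, (A i j : ℝ) * v j

/-- The integer matrix `A` is invertible over the integers and has no complex eigenvalue of
modulus one. -/
def HyperbolicMatrix (A : Matrix (Fin m) (Fin m) ℤ) : Prop :=
  IsUnit A.det ∧ ∀ z : ℂ, ‖z‖ = 1 →
    (A.map (Int.cast : ℤ → ℂ) - z • (1 : Matrix (Fin m) (Fin m) ℂ)).det ≠ 0

end Torus

/-- `e` is the projection `ℝ^m → T = ℝ^m / ℤ^m`, `m > 0`: a smooth surjective local diffeomorphism
with `e v = e w` exactly if `w - v` is an integer vector. -/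
def IsTorusProjection (T : ClosedManifold) (e : EuclideanSpace ℝ (Fin T.dim) → T.carrier) : Prop :=
  0 < T.dim ∧
    IsLocalDiffeomorph 𝓘(ℝ, EuclideanSpace ℝ (Fin T.dim)) 𝓘(ℝ, EuclideanSpace ℝ (Fin T.dim)) ∞ e ∧
    Function.Surjective e ∧ ∀ v w, e v = e w ↔ ∃ k : Fin T.dim → ℤ, w = v + intVec k

variable {M N : ClosedManifold}

/-- `M` is the product of `N` and the torus `T` (with projection `π` on `N`) and `f` maps the fibre
over `x` to the fibre over `f₁ x`, by `e v ↦ e (A v + φ x v)` with a hyperbolic integer matrix `A`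
and a continuous function `φ`, periodic in `v`. -/
def IsToralExtension (T : ClosedManifold) {r : ℕ∞} (π : M.carrier → N.carrier)
    (f : CrDiffeo M r) (f₁ : CrDiffeo N r) : Prop :=
  ∃ (Φ : Diffeomorph 𝓘(ℝ, EuclideanSpace ℝ (Fin M.dim))
      (𝓘(ℝ, EuclideanSpace ℝ (Fin N.dim)).prod 𝓘(ℝ, EuclideanSpace ℝ (Fin T.dim)))
      M.carrier (N.carrier × T.carrier) ∞)
    (e : EuclideanSpace ℝ (Fin T.dim) → T.carrier) (A : Matrix (Fin T.dim) (Fin T.dim) ℤ)
    (φ : N.carrier → EuclideanSpace ℝ (Fin T.dim) → EuclideanSpace ℝ (Fin T.dim)),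
    (∀ p, (Φ p).1 = π p) ∧ IsTorusProjection T e ∧ HyperbolicMatrix A ∧
    (Continuous fun z : N.carrier × EuclideanSpace ℝ (Fin T.dim) => φ z.1 z.2) ∧
    (∀ x v k, φ x (v + intVec k) = φ x v) ∧
    ∀ x v, Φ (f (Φ.symm (x, e v))) = (f₁ x, e (linMap A v + φ x v))

/-- The chain recurrent set of `f`: the points which lie on closed pseudo-orbits with arbitrarily
small jumps. -/
def ChainRecurrentSet {r : ℕ∞} (f : CrDiffeo M r) : Set M.carrier :=
  {x | ∀ ε > 0, ∃ (n : ℕ) (z : ℕ → M.carrier), 0 < n ∧ z 0 = x ∧ z n = x ∧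
    ∀ i < n, dist (f (z i)) (z (i + 1)) ≤ ε}

/-- `f` is uniformly hyperbolic along the fibres of `π` over `Λ`: over `Λ` the kernel of the
derivative of `π` is the direct sum of a uniformly contracted and a uniformly expanded continuous
invariant bundle. -/
def HyperbolicAlongFibres {r : ℕ∞} (π : M.carrier → N.carrier) (f : CrDiffeo M r)
    (Λ : Set M.carrier) : Prop :=
  ∃ Es Eu : TFamily (EuclideanSpace ℝ (Fin M.dim)) M.carrier,
    ClosedOver Es Λ ∧ ClosedOver Eu Λ ∧
    (∀ p ∈ Λ, Es p ⊓ Eu p = ⊥ ∧ Es p ⊔ Eu p = LinearMap.ker (mfderiv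
      𝓘(ℝ, EuclideanSpace ℝ (Fin M.dim)) 𝓘(ℝ, EuclideanSpace ℝ (Fin N.dim)) π p).toLinearMap) ∧
    InvariantOver f Es Λ ∧ InvariantOver f Eu Λ ∧
    ∃ (γ : RMetric (EuclideanSpace ℝ (Fin M.dim)) M.carrier) (c μ : ℝ), 0 < c ∧ 0 < μ ∧ μ < 1 ∧
      ContractedOver f γ Es Λ c μ ∧ ContractedOver f.symm γ Eu Λ c μ

end Pool.Agent.OmegaStability
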