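import Pool.Agent.Work.MP_814647_an.Basic

/-!
# Fibred tori: notions used in the proof
-/

open Set Filter Topology Function
open scoped Manifold ContDiff

noncomputable section

namespace Pool.Agent.OmegaFT

open Pool.Agent.OmegaStab (EE HypLin)

/-- The integer vector `k`. -/
def iv {m : ℕ} (k : Fin m → ℤ) : EE m := WithLp.toLp 2 fun i => (k i : ℝ)

/-- `e` is, topologically, the projection `ℝ^m → ℝ^m/ℤ^m`. -/
structure TopTorus {m : ℕ} {T : Type*} [TopologicalSpace T] (e : EE m → T) : Prop where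
  cont : Continuous e
  isOpenMap : IsOpenMap e
  surj : Surjective e
  fibre : ∀ v w, e v = e w ↔ ∃ k : Fin m → ℤ, w = v + iv k

/-- The linear map `A` and its inverse map integer vectors to integer vectors. -/
def Integral {m : ℕ} (A : EE m ≃L[ℝ] EE m) : Prop :=
  (∀ k, ∃ l, A (iv k) = iv l) ∧ ∀ k, ∃ l, A.symm (iv k) = iv l

/-- `F` is fibred over `f₁` and has in the fibres the lifts `v ↦ A v + φ x v`. -/
structure Lifted {m : ℕ} {N T : Type*} [TopologicalSpace N] (e : EE m → T)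
    (A : EE m ≃L[ℝ] EE m) (φ : N → EE m → EE m) (f₁ : N → N) (F : N × T → N × T) : Prop where
  cont : Continuous (uncurry φ)
  per : ∀ x v k, φ x (v + iv k) = φ x v
  eq : ∀ x v, F (x, e v) = (f₁ x, e (A v + φ x v))

/-- Over every closed pseudo-orbit `X` of the base with small jumps, and for every periodic orbit
`η` of `B`, there is a closed sequence of points of the fibres which is an orbit of the fibre maps
along `X` and whose image under `θ` follows `η`. -/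
def Tracks {N T Y : Type*} [MetricSpace N] [MetricSpace Y] (f₁ : N → N) (F : N × T → N × T)
    (θ : N × T → Y) (B : Y → Y) : Prop :=
  ∀ ε > 0, ∃ δ > 0, ∀ (n : ℕ) (X : ℕ → N) (η : ℕ → Y), 0 < n → X n = X 0 → η n = η 0 →
    (∀ t < n, dist (f₁ (X t)) (X (t + 1)) ≤ δ) → (∀ t < n, B (η t) = η (t + 1)) →
    ∃ y : ℕ → T, y n = y 0 ∧ ∀ t < n, (F (X t, y t)).2 = y (t + 1) ∧
      dist (θ (F (X t, y t))) (η (t + 1)) ≤ ε

/-- As `Tracks`, for pseudo-orbits which consist of `p` orbit segments of lengths `l q`. -/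
def StageTracks {N T Y : Type*} [MetricSpace N] [MetricSpace Y] (f₁ : N → N)
    (F : N × T → N × T) (θ : N × T → Y) (B : Y → Y) : Prop :=
  ∀ ε > 0, ∃ δ > 0, ∀ (p : ℕ) (l : ℕ → ℕ) (a : ℕ → N) (η : ℕ → Y), 0 < p → a p = a 0 →
    η p = η 0 → (∀ q < p, 1 ≤ l q ∧ dist (f₁^[l q] (a q)) (a (q + 1)) ≤ δ ∧
      B^[l q] (η q) = η (q + 1)) →
    ∃ x : ℕ → T, x p = x 0 ∧ ∀ q < p, (F^[l q] (a q, x q)).2 = x (q + 1) ∧
      ∀ t, 0 < t → t ≤ l q → dist (θ (F^[t] (a q, x q))) (B^[t] (η q)) ≤ ε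

/-- Closed chains with `p` jumps, long stages and small jumps are followed by periodic orbits. -/
def ChainTrack {N : Type*} [MetricSpace N] (F : N → N) : Prop :=
  ∀ p : ℕ, 1 ≤ p → ∀ ε₁ > 0, ∃ (ε₂ : ℝ) (n₁ : ℕ), 0 < ε₂ ∧ ∀ (y : ZMod p → N) (n : ZMod p → ℕ),
    (∀ q, n₁ ≤ n q) → (∀ q, dist (F^[n q] (y q)) (y (q + 1)) ≤ ε₂) →
    ∃ u : ZMod p → N, (∀ q, F^[n q] (u q) = u (q + 1)) ∧
      ∀ q, ∀ t ≤ n q, dist (F^[t] (u q)) (F^[t] (y q)) ≤ ε₁

section Vertical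

variable {m : ℕ} {N : Type*}

/-- The maps `P x` are differentiable, with a derivative depending continuously on all
variables. -/
structure VertC1 [TopologicalSpace N] (P : N → EE m → EE m) : Prop where
  diff : ∀ x, Differentiable ℝ (P x)
  cont : Continuous fun z : N × EE m => fderiv ℝ (P z.1) z.2

/-- The product of the derivatives of the maps `P x` along the orbit of `(x, v)`. -/
def vder (f₁ : N → N) (P : N → EE m → EE m) : ℕ → N → EE m → (EE m →L[ℝ] EE m)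
  | 0, _, _ => ContinuousLinearMap.id ℝ (EE m)
  | n + 1, x, v => (vder f₁ P n (f₁ x) (P x v)).comp (fderiv ℝ (P x) v)

/-- A continuous periodic invariant splitting of `ℝ^m` over `N × ℝ^m`, contracted and expanded by
the derivatives of the fibre maps. -/
structure VSplit [TopologicalSpace N] (f₁ : N → N) (P : N → EE m → EE m)
    (Es Eu : N → EE m → Submodule ℝ (EE m)) (C μ : ℝ) : Prop where
  one_le : 1 ≤ C
  mu_pos : 0 < μ
  mu_lt : μ < 1
  closed_s : IsClosed {z : (N × EE m) × EE m | z.2 ∈ Es z.1.1 z.1.2}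
  closed_u : IsClosed {z : (N × EE m) × EE m | z.2 ∈ Eu z.1.1 z.1.2}
  compl : ∀ x v, IsCompl (Es x v) (Eu x v)
  per_s : ∀ x v k, Es x (v + iv k) = Es x v
  per_u : ∀ x v k, Eu x (v + iv k) = Eu x v
  inv_s : ∀ x v, ∀ c ∈ Es x v, fderiv ℝ (P x) v c ∈ Es (f₁ x) (P x v)
  inv_u : ∀ x v, ∀ c ∈ Eu x v, fderiv ℝ (P x) v c ∈ Eu (f₁ x) (P x v)
  con_s : ∀ x v, ∀ c ∈ Es x v, ∀ n : ℕ, ‖vder f₁ P n x v c‖ ≤ C * μ ^ n * ‖c‖
  exp_u : ∀ x v, ∀ c ∈ Eu x v, ∀ n : ℕ, ‖c‖ ≤ C * μ ^ n * ‖vder f₁ P n x v c‖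

/-- The closed sequence `(X t, v t)`, `t ≤ n`, is a pseudo-orbit of `(x, v) ↦ (f₁ x, P x v)` with
jumps at most `δ`, the vectors `v t` being considered modulo `ℤ^m`. -/
def PseudoOrb [MetricSpace N] (f₁ : N → N) (P : N → EE m → EE m) (δ : ℝ) (n : ℕ) (X : ℕ → N)
    (v : ℕ → EE m) : Prop :=
  0 < n ∧ X n = X 0 ∧ v n = v 0 ∧ ∀ t < n, dist (f₁ (X t)) (X (t + 1)) ≤ δ ∧
    ∃ k : Fin m → ℤ, ‖P (X t) (v t) + iv k - v (t + 1)‖ ≤ δ

/-- The linear a priori estimate along closed pseudo-orbits. -/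
def VBound [MetricSpace N] (f₁ : N → N) (P : N → EE m → EE m) : Prop :=
  ∃ K δ : ℝ, 0 < K ∧ 0 < δ ∧ ∀ (n : ℕ) (X : ℕ → N) (v : ℕ → EE m), PseudoOrb f₁ P δ n X v →
    ∀ (z : ℕ → EE m) (b : ℝ), z n = z 0 →
      (∀ t < n, ‖z (t + 1) - fderiv ℝ (P (X t)) (v t) (z t)‖ ≤ b) → ∀ t ≤ n, ‖z t‖ ≤ K * b

/-- Vertical shadowing over closed pseudo-orbits of the base. -/
def VShadow [MetricSpace N] (f₁ : N → N) (P : N → EE m → EE m) : Prop :=
  ∀ ε > 0, ∃ δ > 0, ∀ (n : ℕ) (X : ℕ → N) (v : ℕ → EE m), PseudoOrb f₁ P δ n X v →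
    ∃ z : ℕ → EE m, z n = z 0 ∧ (∀ t ≤ n, ‖z t‖ ≤ ε) ∧
      ∀ t < n, ∃ k : Fin m → ℤ, P (X t) (v t + z t) + iv k = v (t + 1) + z (t + 1)

end Vertical

/-- The products of the linear maps `a` along the orbits of the bijection `σ`. -/
def cocyc {X V : Type*} [NormedAddCommGroup V] [NormedSpace ℝ V] (σ : X ≃ X)
    (a : X → V ≃L[ℝ] V) : ℕ → X → (V ≃L[ℝ] V)
  | 0, _ => ContinuousLinearEquiv.refl ℝ V
  | n + 1, x => (a x).trans (cocyc σ a n (σ x))

/-- The products of the inverses of the linear maps `a` along the backward orbits of `σ`. -/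
def bcocyc {X V : Type*} [NormedAddCommGroup V] [NormedSpace ℝ V] (σ : X ≃ X)
    (a : X → V ≃L[ℝ] V) : ℕ → X → (V ≃L[ℝ] V) :=
  cocyc σ.symm fun x => (a (σ.symm x)).symm

/-- The vector `v` at `x` is uniformly contracted in the future, and expanded in the past. -/
def Contr {X V : Type*} [NormedAddCommGroup V] [NormedSpace ℝ V] (σ : X ≃ X)
    (a : X → V ≃L[ℝ] V) (C μ : ℝ) (x : X) (v : V) : Prop :=
  ∀ n : ℕ, ‖cocyc σ a n x v‖ ≤ C * μ ^ n * ‖v‖ ∧ ‖v‖ ≤ C * μ ^ n * ‖bcocyc σ a n x v‖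

/-- The vector `v` at `x` is uniformly contracted in the past, and expanded in the future. -/
def Expan {X V : Type*} [NormedAddCommGroup V] [NormedSpace ℝ V] (σ : X ≃ X)
    (a : X → V ≃L[ℝ] V) (C μ : ℝ) (x : X) (v : V) : Prop :=
  ∀ n : ℕ, ‖bcocyc σ a n x v‖ ≤ C * μ ^ n * ‖v‖ ∧ ‖v‖ ≤ C * μ ^ n * ‖cocyc σ a n x v‖

end Pool.Agent.OmegaFT
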