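import Pool.Agent.Work.MP_814647_an.FT.Stmts

/-!
# Item FibClosed: closed chains of the fibred map are approximated by periodic orbits
-/

open Set Filter Topology Function
open scoped Manifold ContDiff

noncomputable section

namespace Pool.Agent.OmegaFT

open Pool.Agent.OmegaStab (EE HypLin)

universe u v

namespace XFibClosed

theorem iv_zero {m : ℕ} : iv (0 : Fin m → ℤ) = 0 := by
  ext i
  simp [iv]

theorem iv_add {m : ℕ} (k l : Fin m → ℤ) : iv (k + l) = iv k + iv l := by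
  ext i
  simp [iv]

theorem iv_neg {m : ℕ} (k : Fin m → ℤ) : iv (-k) = -iv k := by
  ext i
  simp [iv]

/-- `e` is invariant -/
theorem e_add {m : ℕ} {T : Type*} [TopologicalSpace T] {e : EE m → T} (he : TopTorus e)
    (v : EE m) (k : Fin m → ℤ) : e (v + iv k) = e v :=
  ((he.fibre v (v + iv k)).2 ⟨k, rfl⟩).symm

/-- bounded representatives -/
theorem exists_rep {m : ℕ} {T : Type*} [TopologicalSpace T] [CompactSpace T] {e : EE m → T}
    (he : TopTorus e) : ∃ R : ℝ, ∀ v : EE m, ∃ k : Fin m → ℤ, ‖v + iv k‖ ≤ R := by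
  have hopen : ∀ n : ℕ, IsOpen (e '' Metric.ball 0 (n : ℝ)) := fun n =>
    he.isOpenMap _ Metric.isOpen_ball
  have hcov : (univ : Set T) ⊆ ⋃ n : ℕ, e '' Metric.ball 0 (n : ℝ) := by
    intro y _
    obtain ⟨v, rfl⟩ := he.surj y
    obtain ⟨n, hn⟩ := exists_nat_gt ‖v‖
    exact mem_iUnion.2 ⟨n, v, by simpa using hn, rfl⟩
  obtain ⟨n, hn⟩ := isCompact_univ.elim_directed_cover _ hopen hcov (by
    apply Monotone.directed_le
    intro a b hab
    exact image_mono (Metric.ball_subset_ball (by exact_mod_cast hab)))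
  refine ⟨n, fun v => ?_⟩
  obtain ⟨w, hw, hwe⟩ := hn (mem_univ (e v))
  obtain ⟨k, hk⟩ := (he.fibre v w).1 hwe.symm
  refine ⟨k, ?_⟩
  rw [← hk]
  simpa using (mem_ball_zero_iff.1 hw).le

/-- uniform continuity of `e` -/
theorem e_unif {m : ℕ} {T : Type*} [MetricSpace T] [CompactSpace T] {e : EE m → T}
    (he : TopTorus e) (ε : ℝ) (hε : 0 < ε) :
    ∃ ρ > 0, ∀ v z : EE m, ‖z‖ ≤ ρ → dist (e (v + z)) (e v) ≤ ε := by
  obtain ⟨R, hR⟩ := exists_rep he
  have hK : IsCompact (Metric.closedBall (0 : EE m) (R + 1)) := isCompact_closedBall _ _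
  have hu := hK.uniformContinuousOn_of_continuous he.cont.continuousOn
  rw [Metric.uniformContinuousOn_iff] at hu
  obtain ⟨δ, hδ, h⟩ := hu ε hε
  refine ⟨min (δ / 2) 1, lt_min (by linarith) one_pos, fun v z hz => ?_⟩
  obtain ⟨k, hk⟩ := hR v
  have h1 : e (v + z) = e (v + iv k + z) := by
    have : v + iv k + z = (v + z) + iv k := by abel
    rw [this, e_add he]
  have h2 : e v = e (v + iv k) := (e_add he v k).symm
  rw [h1, h2]
  have hz1 : ‖z‖ ≤ δ / 2 := hz.trans (min_le_left _ _)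
  have hz2 : ‖z‖ ≤ 1 := hz.trans (min_le_right _ _)
  refine (h _ ?_ _ ?_ ?_).le
  · rw [mem_closedBall_zero_iff]
    exact (norm_add_le _ _).trans (by linarith)
  · rw [mem_closedBall_zero_iff]
    linarith
  · rw [dist_eq_norm]
    have : v + iv k + z - (v + iv k) = z := by abel
    rw [this]
    linarith

/-- lifts of close points -/
theorem e_lift {m : ℕ} {T : Type*} [MetricSpace T] [CompactSpace T] {e : EE m → T}
    (he : TopTorus e) (δ : ℝ) (hδ : 0 < δ) :
    ∃ ρ > 0, ∀ v w : EE m, dist (e v) (e w) ≤ ρ → ∃ k : Fin m → ℤ, ‖v + iv k - w‖ ≤ δ := by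
  have hopen : ∀ w : EE m, IsOpen (e '' Metric.ball w (δ / 2)) := fun w =>
    he.isOpenMap _ Metric.isOpen_ball
  have hcov : (univ : Set T) ⊆ ⋃ w : EE m, e '' Metric.ball w (δ / 2) := by
    intro y _
    obtain ⟨v, rfl⟩ := he.surj y
    exact mem_iUnion.2 ⟨v, v, Metric.mem_ball_self (by linarith), rfl⟩
  obtain ⟨ρ, hρ, h⟩ := lebesgue_number_lemma_of_metric isCompact_univ hopen hcov
  refine ⟨ρ / 2, by linarith, fun v w hvw => ?_⟩
  obtain ⟨c, hc⟩ := h (e w) (mem_univ _)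
  obtain ⟨a, ha, hae⟩ := hc (show e v ∈ Metric.ball (e w) ρ from by
    rw [Metric.mem_ball]; linarith)
  obtain ⟨b, hb, hbe⟩ := hc (Metric.mem_ball_self hρ)
  obtain ⟨k, hk⟩ := (he.fibre v a).1 hae.symm
  obtain ⟨l, hl⟩ := (he.fibre w b).1 hbe.symm
  refine ⟨k - l, ?_⟩
  have h1 : v + iv (k - l) - w = a - b := by
    rw [sub_eq_add_neg k l, iv_add, iv_neg, hk, hl]
    abel
  rw [h1]
  have h2 : dist a b < δ := by
    calc dist a b ≤ dist a c + dist b c := dist_triangle_right _ _ _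
      _ < δ / 2 + δ / 2 := add_lt_add ha hb
      _ = δ := by ring
  rw [dist_eq_norm] at h2
  exact h2.le

/-- uniform continuity of `φ` in the base variable -/
theorem phi_unif {m : ℕ} {N T : Type*} [MetricSpace N] [CompactSpace N] [TopologicalSpace T]
    [CompactSpace T] {e : EE m → T} (he : TopTorus e) (φ : N → EE m → EE m)
    (hc : Continuous (uncurry φ)) (hp : ∀ x v k, φ x (v + iv k) = φ x v) (δ : ℝ) (hδ : 0 < δ) :
    ∃ ρ > 0, ∀ x x' : N, dist x x' ≤ ρ → ∀ v, ‖φ x v - φ x' v‖ ≤ δ := by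
  obtain ⟨R, hR⟩ := exists_rep he
  have hK : IsCompact ((univ : Set N) ×ˢ Metric.closedBall (0 : EE m) R) :=
    isCompact_univ.prod (isCompact_closedBall _ _)
  have hu := hK.uniformContinuousOn_of_continuous hc.continuousOn
  rw [Metric.uniformContinuousOn_iff] at hu
  obtain ⟨ρ, hρ, h⟩ := hu δ hδ
  refine ⟨ρ / 2, by linarith, fun x x' hx v => ?_⟩
  obtain ⟨k, hk⟩ := hR v
  rw [← hp x v k, ← hp x' v k]
  have h1 := h (x, v + iv k) ⟨mem_univ _, by rwa [mem_closedBall_zero_iff]⟩ (x', v + iv k)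
    ⟨mem_univ _, by rwa [mem_closedBall_zero_iff]⟩ (by
      rw [Prod.dist_eq, dist_self, max_eq_left dist_nonneg]
      linarith)
  rw [dist_eq_norm] at h1
  exact h1.le

/-! ### Unrolling of the stages -/

/-- one step of time -/
def stp {p : ℕ} (n : ZMod p → ℕ) (s : ZMod p × ℕ) : ZMod p × ℕ :=
  if s.2 + 1 = n s.1 then (s.1 + 1, 0) else (s.1, s.2 + 1)

theorem stp_iter {p : ℕ} (n : ZMod p → ℕ) (q : ZMod p) (t : ℕ) (ht : t < n q) :
    (stp n)^[t] (q, 0) = (q, t) := by
  induction t with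
  | zero => rfl
  | succ t ih =>
    rw [Function.iterate_succ_apply', ih (by omega)]
    unfold stp
    rw [if_neg (by simp only; omega)]

theorem stp_stage {p : ℕ} (n : ZMod p → ℕ) (q : ZMod p) (hn : 1 ≤ n q) :
    (stp n)^[n q] (q, 0) = (q + 1, 0) := by
  obtain ⟨t, ht⟩ := Nat.exists_eq_succ_of_ne_zero (by omega : n q ≠ 0)
  have h1 : (stp n)^[t] (q, 0) = (q, t) := stp_iter n q t (by omega)
  have h2 : (stp n)^[t + 1] (q, 0) = (q + 1, 0) := by
    rw [Function.iterate_succ_apply', h1]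
    unfold stp
    rw [if_pos (by simp only; omega)]
  rw [ht]
  exact h2

theorem stp_stages {p : ℕ} (n : ZMod p → ℕ) (hn : ∀ q, 1 ≤ n q) (j : ℕ) :
    ∃ τ : ℕ, j ≤ τ ∧ (stp n)^[τ] ((0 : ZMod p), 0) = ((j : ZMod p), 0) := by
  induction j with
  | zero => exact ⟨0, le_rfl, by simp⟩
  | succ j ih =>
    obtain ⟨τ, hτ, h⟩ := ih
    refine ⟨n (j : ZMod p) + τ, by have := hn (j : ZMod p); omega, ?_⟩
    rw [Function.iterate_add_apply, h, stp_stage n _ (hn _)]
    push_cast
    rfl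

theorem stp_inv {p : ℕ} (n : ZMod p → ℕ) (hn : ∀ q, 1 ≤ n q) (k : ℕ) :
    ((stp n)^[k] ((0 : ZMod p), 0)).2 < n ((stp n)^[k] ((0 : ZMod p), 0)).1 := by
  induction k with
  | zero => exact hn 0
  | succ k ih =>
    rw [Function.iterate_succ_apply']
    set s := (stp n)^[k] ((0 : ZMod p), 0) with hs
    unfold stp
    split_ifs with h
    · exact hn _
    · simp only
      omega

end XFibClosed

open XFibClosed in
theorem prf_FibClosed : FibClosed.{u, v} := by
  intro m N T _ _ _ _ e A φ f₁ F he _ _ hL hCT hVS p hp z hz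
  rw [Metric.mem_closure_iff]
  intro ε hε
  -- the first coordinate
  have hF1 : ∀ w, (F w).1 = f₁ w.1 := by
    rintro ⟨x, y⟩
    obtain ⟨v, rfl⟩ := he.surj y
    rw [hL.eq]
  have hFn : ∀ (t : ℕ) w, (F^[t] w).1 = f₁^[t] w.1 := by
    intro t
    induction t with
    | zero => intro w; rfl
    | succ t ih =>
      intro w
      rw [Function.iterate_succ_apply', Function.iterate_succ_apply', hF1, ih]
  -- constants
  obtain ⟨ρe, hρe, hEU⟩ := e_unif he (ε / 4) (by linarith)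
  obtain ⟨δ, hδ, hsh⟩ := hVS ρe hρe
  obtain ⟨ρφ, hρφ, hφU⟩ := phi_unif he φ hL.cont hL.per (δ / 2) (by linarith)
  obtain ⟨ρl, hρl, hEL⟩ := e_lift he (δ / 2) (by linarith)
  set ε₁ : ℝ := min ρφ (ε / 4) with hε₁
  have hε₁0 : 0 < ε₁ := lt_min hρφ (by linarith)
  obtain ⟨ε₂, n₁, hε₂, hct⟩ := hCT p hp ε₁ hε₁0
  set ε₃ : ℝ := min ε₂ (min ρl (ε / 4)) with hε₃
  have hε₃0 : 0 < ε₃ := lt_min hε₂ (lt_min hρl (by linarith))
  obtain ⟨y, n, hy0, hn, hyc⟩ := hz ε₃ hε₃0 (max n₁ 1)
  have hn1 : ∀ q, 1 ≤ n q := fun q => (le_max_right _ _).trans (hn q)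
  obtain ⟨uu, hu1, hu2⟩ := hct (fun q => (y q).1) n (fun q => (le_max_left _ _).trans (hn q))
    (fun q => by
      rw [← hFn]
      refine le_trans ?_ ((hyc q).trans (min_le_left _ _))
      rw [Prod.dist_eq]
      exact le_max_left _ _)
  -- time
  obtain ⟨τ, hτp, hτ⟩ := stp_stages n hn1 p
  have hτ0 : (stp n)^[τ] ((0 : ZMod p), 0) = ((0 : ZMod p), 0) := by
    rw [hτ, ZMod.natCast_self]
  set s : ℕ → ZMod p × ℕ := fun k => (stp n)^[k] ((0 : ZMod p), 0) with hs
  have hsucc : ∀ k, s (k + 1) = stp n (s k) := fun k => Function.iterate_succ_apply' _ _ _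
  have hs0 : s 0 = ((0 : ZMod p), 0) := rfl
  have hsτ : s τ = s 0 := hτ0
  have hinv : ∀ k, (s k).2 < n (s k).1 := fun k => stp_inv n hn1 k
  let ℓ : T → EE m := Function.surjInv he.surj
  have hℓ : ∀ a, e (ℓ a) = a := Function.surjInv_eq he.surj
  let X : ℕ → N := fun k => f₁^[(s k).2] (uu (s k).1)
  let V : ℕ → EE m := fun k => ℓ (F^[(s k).2] (y (s k).1)).2
  have hX : ∀ k, X (k + 1) = f₁ (X k) := by
    intro k
    simp only [X, hsucc k]
    unfold stp
    split_ifs with h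
    · simp only
      rw [← Function.iterate_succ_apply' f₁, Nat.succ_eq_add_one, h, hu1]
      rfl
    · simp only
      rw [Function.iterate_succ_apply']
  have hXd : ∀ k, dist (X k) (F^[(s k).2] (y (s k).1)).1 ≤ ε₁ := by
    intro k
    rw [hFn]
    exact hu2 _ _ (hinv k).le
  have hstep : ∀ k, (F^[(s k).2 + 1] (y (s k).1)).2 =
      e (A (V k) + φ (F^[(s k).2] (y (s k).1)).1 (V k)) := by
    intro k
    rw [Function.iterate_succ_apply']
    have h1 : F^[(s k).2] (y (s k).1) = ((F^[(s k).2] (y (s k).1)).1, e (V k)) := by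
      have h2 : e (V k) = (F^[(s k).2] (y (s k).1)).2 := hℓ _
      rw [h2]
    have h3 := hL.eq (F^[(s k).2] (y (s k).1)).1 (V k)
    rw [← h1] at h3
    rw [h3]
  have hV : ∀ k, dist (e (A (V k) + φ (F^[(s k).2] (y (s k).1)).1 (V k))) (e (V (k + 1)))
      ≤ ρl := by
    intro k
    rw [← hstep k]
    have h1 : e (V (k + 1)) = (F^[(s (k + 1)).2] (y (s (k + 1)).1)).2 := hℓ _
    rw [h1, hsucc k]
    unfold stp
    split_ifs with h
    · simp only
      rw [h]
      refine le_trans ?_ ((hyc (s k).1).trans ((min_le_right _ _).trans (min_le_left _ _)))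
      rw [Prod.dist_eq]
      exact le_max_right _ _
    · simp only
      rw [dist_self]
      exact hρl.le
  have hPO : PseudoOrb f₁ (fun x v => A v + φ x v) δ τ X V := by
    refine ⟨by omega, ?_, ?_, fun k _ => ⟨?_, ?_⟩⟩
    · simp only [X, hsτ]
    · simp only [V, hsτ]
    · rw [hX k, dist_self]
      exact hδ.le
    · obtain ⟨l, hl⟩ := hEL _ _ (hV k)
      refine ⟨l, ?_⟩
      have h1 := hφU _ _ ((hXd k).trans (min_le_left _ _)) (V k)
      have h2 : A (V k) + φ (X k) (V k) + iv l - V (k + 1) =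
          (A (V k) + φ (F^[(s k).2] (y (s k).1)).1 (V k) + iv l - V (k + 1)) +
          (φ (X k) (V k) - φ (F^[(s k).2] (y (s k).1)).1 (V k)) := by abel
      rw [h2]
      exact (norm_add_le _ _).trans (by linarith)
  obtain ⟨zz, hzτ, hzb, hzs⟩ := hsh τ X V hPO
  have hτ1 : 0 < τ := by omega
  -- the periodic orbit
  have horb : ∀ k, k ≤ τ → F^[k] (X 0, e (V 0 + zz 0)) = (X k, e (V k + zz k)) := by
    intro k
    induction k with
    | zero => intro _; rfl
    | succ k ih =>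
      intro hk
      rw [Function.iterate_succ_apply', ih (by omega), hL.eq, hX k]
      obtain ⟨l, hl⟩ := hzs k (by omega)
      rw [← hl]
      have := e_add he (A (V k + zz k) + φ (X k) (V k + zz k)) l
      rw [this]
  refine ⟨(X 0, e (V 0 + zz 0)), ?_, ?_⟩
  · refine ⟨τ, hτ1, ?_⟩
    have h1 := horb τ le_rfl
    have h2 : X τ = X 0 := by simp only [X, hsτ]
    have h3 : V τ = V 0 := by simp only [V, hsτ]
    rw [h2, h3, hzτ] at h1
    exact h1
  · have h1 : dist (y 0) (X 0, e (V 0 + zz 0)) ≤ ε / 4 := by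
      rw [Prod.dist_eq]
      apply max_le
      · have h2 := hXd 0
        rw [dist_comm]
        exact h2.trans (min_le_right _ _)
      · have h2 : e (V 0) = (y 0).2 := hℓ _
        have h3 := hEU (V 0) (zz 0) (hzb 0 (by omega))
        rw [dist_comm, h2] at h3
        exact h3
    have h2 : dist (y 0) z ≤ ε / 4 := hy0.trans ((min_le_right _ _).trans (min_le_right _ _))
    calc dist z (X 0, e (V 0 + zz 0)) ≤ dist z (y 0) + dist (y 0) (X 0, e (V 0 + zz 0)) :=
          dist_triangle _ _ _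
      _ ≤ ε / 4 + ε / 4 := add_le_add (by rw [dist_comm]; exact h2) h1
      _ < ε := by linarith

end Pool.Agent.OmegaFT
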