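import Pool.Agent.Work.MP_814647_an.FT.Stmts
import Pool.Agent.Work.MP_476501_co.Brouwer

/-!
# Item BrBdd: a bounded continuous self-map of a finite-dimensional space has a fixed point
-/

set_option autoImplicit false

open Set Filter Topology Function

noncomputable section

namespace Pool.Agent.OmegaFT

namespace XBrBdd

theorem pi_fixed (n : ℕ) (G : (Fin n → ℝ) → (Fin n → ℝ)) (hG : Continuous G) (R : ℝ) (hR : 0 < R)
    (hb : ∀ x i, |G x i| ≤ R) : ∃ x, G x = x := by
  obtain ⟨u, -, hu⟩ := Pool.Agent.Brouwer.brouwer_cube n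
    (fun u i => G (fun j => 2 * R * u j - R) i / (2 * R) + 1 / 2) (by
      refine Continuous.continuousOn ?_
      refine continuous_pi fun i => ?_
      have h1 : Continuous fun u : Fin n → ℝ => (fun j => 2 * R * u j - R : Fin n → ℝ) := by
        fun_prop
      have h2 : Continuous fun u : Fin n → ℝ => G (fun j => 2 * R * u j - R) i :=
        (continuous_apply i).comp (hG.comp h1)
      exact (h2.div_const _).add continuous_const) (by
      intro u _
      rw [Set.mem_Icc]
      constructor
      · intro i
        have h := abs_le.mp (hb (fun j => 2 * R * u j - R) i)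
        have h3 : -(1 / 2) ≤ G (fun j => 2 * R * u j - R) i / (2 * R) := by
          rw [le_div_iff₀ (by positivity)]
          linarith [h.1]
        simp only [Pi.zero_apply]
        linarith
      · intro i
        have h := abs_le.mp (hb (fun j => 2 * R * u j - R) i)
        have h3 : G (fun j => 2 * R * u j - R) i / (2 * R) ≤ 1 / 2 := by
          rw [div_le_iff₀ (by positivity)]
          linarith [h.2]
        simp only [Pi.one_apply]
        linarith)
  refine ⟨fun j => 2 * R * u j - R, ?_⟩
  funext i
  have h : G (fun j => 2 * R * u j - R) i / (2 * R) + 1 / 2 = u i := congrFun hu i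
  have hR2 : 0 < 2 * R := by positivity
  have h2 : G (fun j => 2 * R * u j - R) i / (2 * R) = u i - 1 / 2 := by linarith
  rw [div_eq_iff hR2.ne'] at h2
  rw [h2]
  ring

end XBrBdd

open XBrBdd in
theorem prf_BrBdd : BrBdd := by
  intro E _ _ _ F hF hB
  obtain ⟨B, hB⟩ := hB
  let e : E ≃L[ℝ] (Fin (Module.finrank ℝ E) → ℝ) := ContinuousLinearEquiv.ofFinrankEq (by simp)
  have hB0 : 0 ≤ B := (norm_nonneg _).trans (hB 0)
  obtain ⟨x, hx⟩ := pi_fixed (Module.finrank ℝ E) (fun x => e (F (e.symm x)))
    (e.continuous.comp (hF.comp e.symm.continuous))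
    (‖(e : E →L[ℝ] (Fin (Module.finrank ℝ E) → ℝ))‖ * B + 1) (by positivity) (by
      intro x i
      have h1 : ‖e (F (e.symm x))‖ ≤ ‖(e : E →L[ℝ] (Fin (Module.finrank ℝ E) → ℝ))‖ * B := by
        refine ((e : E →L[ℝ] (Fin (Module.finrank ℝ E) → ℝ)).le_opNorm _).trans ?_
        exact mul_le_mul_of_nonneg_left (hB _) (norm_nonneg _)
      have h2 := norm_le_pi_norm (e (F (e.symm x))) i
      rw [Real.norm_eq_abs] at h2
      linarith)
  refine ⟨e.symm x, ?_⟩
  have h := congrArg e.symm hx
  simpa using h

end Pool.Agent.OmegaFT
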