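import Pool.Agent.Work.MP_814647_an.FT.Stmts2

/-!
# Item MatConv: the linear automorphism of a hyperbolic integer matrix
-/

open Set Filter Topology Function

noncomputable section

namespace Pool.Agent.OmegaFT

open Pool.Agent.OmegaStab (EE HypLin)

namespace XMatConv

variable {m : ℕ}

/-- The linear equivalence of two inverse matrices. -/
def eqv (A B : Matrix (Fin m) (Fin m) ℝ) (h1 : A * B = 1) (h2 : B * A = 1) :
    EE m ≃ₗ[ℝ] EE m where
  toFun v := WithLp.toLp 2 (A.mulVec v.ofLp)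
  map_add' v w := by
    ext i
    simp [Matrix.mulVec_add]
  map_smul' c v := by
    ext i
    simp [Matrix.mulVec_smul]
  invFun v := WithLp.toLp 2 (B.mulVec v.ofLp)
  left_inv v := by
    ext i
    simp [Matrix.mulVec_mulVec, h2]
  right_inv v := by
    ext i
    simp [Matrix.mulVec_mulVec, h1]

theorem eqv_apply (A B : Matrix (Fin m) (Fin m) ℝ) (h1 : A * B = 1) (h2 : B * A = 1) (v : EE m)
    (i : Fin m) : eqv A B h1 h2 v i = ∑ j, A i j * v j := rfl

theorem eqv_symm_apply (A B : Matrix (Fin m) (Fin m) ℝ) (h1 : A * B = 1) (h2 : B * A = 1)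
    (v : EE m) (i : Fin m) : (eqv A B h1 h2).symm v i = ∑ j, B i j * v j := rfl

theorem kernel (A : Matrix (Fin m) (Fin m) ℤ)
    (h : ∀ z : ℂ, ‖z‖ = 1 →
      (A.map (Int.cast : ℤ → ℂ) - z • (1 : Matrix (Fin m) (Fin m) ℂ)).det ≠ 0)
    (θ : ℝ) (v w : EE m)
    (hv : ∀ i, ∑ j, (A i j : ℝ) * v j = Real.cos θ * v i - Real.sin θ * w i)
    (hw : ∀ i, ∑ j, (A i j : ℝ) * w j = Real.sin θ * v i + Real.cos θ * w i) :
    v = 0 ∧ w = 0 := by
  have hz : ‖Complex.exp (θ * Complex.I)‖ = 1 := Complex.norm_exp_ofReal_mul_I θ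
  have h0 := Matrix.eq_zero_of_mulVec_eq_zero (h _ hz)
    (v := fun i => (v i : ℂ) + (w i : ℂ) * Complex.I) (by
      ext i
      rw [Matrix.sub_mulVec, Matrix.smul_mulVec, Matrix.one_mulVec]
      simp only [Pi.sub_apply, Pi.smul_apply, Pi.zero_apply, smul_eq_mul, Matrix.mulVec,
        dotProduct, Matrix.map_apply]
      have e1 : ∑ j, ((A i j : ℤ) : ℂ) * ((v j : ℂ) + (w j : ℂ) * Complex.I)
          = ((∑ j, (A i j : ℝ) * v j : ℝ) : ℂ) + ((∑ j, (A i j : ℝ) * w j : ℝ) : ℂ) * Complex.I := by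
        push_cast
        rw [Finset.sum_mul, ← Finset.sum_add_distrib]
        refine Finset.sum_congr rfl fun j _ => ?_
        ring
      rw [e1, hv i, hw i, Complex.exp_mul_I, ← Complex.ofReal_cos, ← Complex.ofReal_sin]
      push_cast
      linear_combination (-(Complex.sin θ) * (w i : ℂ)) * Complex.I_sq)
  have hvw : ∀ i, v i = 0 ∧ w i = 0 := by
    intro i
    have hi := congrFun h0 i
    have hr := congrArg Complex.re hi
    have hm := congrArg Complex.im hi
    simp at hr hm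
    exact ⟨hr, hm⟩
  constructor
  · ext i
    simpa using (hvw i).1
  · ext i
    simpa using (hvw i).2

end XMatConv

open XMatConv in
/-- Item MatConv. -/
theorem prf_MatConv : MatConv := by
  intro m A hA h
  have e1 : A * A⁻¹ = 1 := Matrix.mul_nonsing_inv A hA
  have e2 : A⁻¹ * A = 1 := Matrix.nonsing_inv_mul A hA
  have r1 : A.map (Int.cast : ℤ → ℝ) * (A⁻¹).map (Int.cast : ℤ → ℝ) = 1 := by
    refine (Matrix.map_mul (L := A) (M := A⁻¹) (f := Int.castRingHom ℝ)).symm.trans ?_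
    rw [e1]
    exact Matrix.map_one _ (map_zero _) (map_one _)
  have r2 : (A⁻¹).map (Int.cast : ℤ → ℝ) * A.map (Int.cast : ℤ → ℝ) = 1 := by
    refine (Matrix.map_mul (L := A⁻¹) (M := A) (f := Int.castRingHom ℝ)).symm.trans ?_
    rw [e2]
    exact Matrix.map_one _ (map_zero _) (map_one _)
  refine ⟨(eqv _ _ r1 r2).toContinuousLinearEquiv, ?_, ⟨?_, ?_⟩, ?_⟩
  · intro v i
    exact eqv_apply _ _ r1 r2 v i
  · intro k
    refine ⟨fun i => ∑ j, A i j * k j, ?_⟩
    ext i
    refine (eqv_apply _ _ r1 r2 (iv k) i).trans ?_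
    simp [iv]
  · intro k
    refine ⟨fun i => ∑ j, A⁻¹ i j * k j, ?_⟩
    ext i
    refine (eqv_symm_apply _ _ r1 r2 (iv k) i).trans ?_
    simp [iv]
  · intro θ v w hv hw
    refine kernel A h θ v w (fun i => ?_) (fun i => ?_)
    · have := congrArg (fun x : EE m => x i) hv
      simpa using (eqv_apply _ _ r1 r2 v i).symm.trans this
    · have := congrArg (fun x : EE m => x i) hw
      simpa using (eqv_apply _ _ r1 r2 w i).symm.trans this

end Pool.Agent.OmegaFT
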