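import Pool.Agent.Work.MP_814647_an.FT.Stmts4

/-!
# Item AffClosed: prescribed phases, closed solutions
-/

open Set Filter Topology Function
open scoped Manifold ContDiff

noncomputable section

namespace Pool.Agent.OmegaFT

open Pool.Agent.OmegaStab (EE HypLin)

namespace XAffClosed

lemma kap_add {m : ℕ} (k : Fin m → ℤ) (v w : EE m) : kap k (v + w) = kap k v + kap k w := by
  unfold kap
  rw [← Finset.sum_add_distrib]
  refine Finset.sum_congr rfl fun i _ => ?_
  simp only [PiLp.add_apply]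
  ring

lemma kap_iv {m : ℕ} (k l : Fin m → ℤ) : kap k (iv l) = ((∑ i, k i * l i : ℤ) : ℝ) := by
  unfold kap iv
  push_cast
  rfl

lemma kap_le {m : ℕ} (k : Fin m → ℤ) (v : EE m) : |kap k v| ≤ (∑ i, |(k i : ℝ)|) * ‖v‖ := by
  unfold kap
  rw [Finset.sum_mul]
  refine (Finset.abs_sum_le_sum_abs _ _).trans (Finset.sum_le_sum fun i _ => ?_)
  rw [abs_mul]
  refine mul_le_mul_of_nonneg_left ?_ (abs_nonneg _)
  have := PiLp.norm_apply_le v i
  simpa using this

lemma norm_le_of_coord {m : ℕ} (d : EE m) (c : ℝ) (hc : 0 ≤ c) (h : ∀ i, |d i| ≤ c) :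
    ‖d‖ ≤ m * c := by
  rw [EuclideanSpace.norm_eq]
  refine Real.sqrt_le_iff.mpr ⟨by positivity, ?_⟩
  have h1 : ∑ i, ‖d i‖ ^ 2 ≤ ∑ _i : Fin m, c ^ 2 := by
    refine Finset.sum_le_sum fun i _ => ?_
    rw [Real.norm_eq_abs]
    exact pow_le_pow_left₀ (abs_nonneg _) (h i) 2
  refine h1.trans ?_
  rw [Finset.sum_const, Finset.card_univ, Fintype.card_fin, nsmul_eq_mul, mul_pow]
  refine mul_le_mul_of_nonneg_right ?_ (by positivity)
  rcases Nat.eq_zero_or_pos m with rfl | hm
  · simp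
  · have : (1 : ℝ) ≤ m := by exact_mod_cast hm
    nlinarith

/-- pigeonhole modulo integer vectors -/
lemma pigeon {m : ℕ} (M : ℕ) (hM : 0 < M) (x : ℕ → EE m) :
    ∃ r r' : ℕ, r < r' ∧ r' ≤ M ^ m ∧ ∃ l : Fin m → ℤ, ‖x r' - x r - iv l‖ ≤ m * (1 / (M : ℝ)) := by
  classical
  have hM' : (0 : ℝ) < M := by exact_mod_cast hM
  let f : Fin (M ^ m + 1) → (Fin m → Fin M) := fun r i =>
    ⟨⌊(M : ℝ) * Int.fract (x r i)⌋₊, by
      rw [Nat.floor_lt (by positivity)]
      nlinarith [Int.fract_lt_one (x r i)]⟩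
  have hcard : Fintype.card (Fin m → Fin M) < Fintype.card (Fin (M ^ m + 1)) := by
    simp
  obtain ⟨a, b, hab, hf⟩ := Fintype.exists_ne_map_eq_of_card_lt f hcard
  have key : ∀ a b : Fin (M ^ m + 1), f a = f b → ∃ l : Fin m → ℤ,
      ‖x b - x a - iv l‖ ≤ m * (1 / (M : ℝ)) := by
    intro a b hf
    refine ⟨fun i => ⌊x b i⌋ - ⌊x a i⌋, norm_le_of_coord _ _ (by positivity) fun i => ?_⟩
    have h1 : ⌊(M : ℝ) * Int.fract (x a i)⌋₊ = ⌊(M : ℝ) * Int.fract (x b i)⌋₊ := by
      have := congrFun hf i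
      simpa [f] using this
    have ha1 := Nat.floor_le (show (0 : ℝ) ≤ (M : ℝ) * Int.fract (x a i) by positivity)
    have ha2 := Nat.lt_floor_add_one ((M : ℝ) * Int.fract (x a i))
    have hb1 := Nat.floor_le (show (0 : ℝ) ≤ (M : ℝ) * Int.fract (x b i) by positivity)
    have hb2 := Nat.lt_floor_add_one ((M : ℝ) * Int.fract (x b i))
    rw [h1] at ha1 ha2
    have h2 : |(M : ℝ) * (Int.fract (x b i) - Int.fract (x a i))| ≤ 1 := by
      rw [abs_le]; constructor <;> nlinarith
    rw [abs_mul, abs_of_pos hM'] at h2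
    have h3 : (x b - x a - iv (fun i => ⌊x b i⌋ - ⌊x a i⌋)) i
        = Int.fract (x b i) - Int.fract (x a i) := by
      simp only [PiLp.sub_apply, iv, Int.fract]
      push_cast
      ring
    rw [h3, le_div_iff₀ hM', mul_comm]
    exact h2
  rcases lt_or_gt_of_ne hab with h | h
  · obtain ⟨l, hl⟩ := key a b hf
    exact ⟨a, b, h, Nat.lt_succ_iff.mp b.2, l, hl⟩
  · obtain ⟨l, hl⟩ := key b a hf.symm
    exact ⟨b, a, h, Nat.lt_succ_iff.mp a.2, l, hl⟩

lemma per_mul {α : Type*} {f : ℕ → α} {n : ℕ} (h : ∀ t, f (t + n) = f t) (q t : ℕ) :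
    f (t + q * n) = f t := by
  induction q with
  | zero => simp
  | succ q ih => rw [Nat.succ_mul, ← add_assoc, h, ih]

/-- the solution of the recursion with a given start -/
def sol {m : ℕ} (A : EE m ≃L[ℝ] EE m) (b : ℕ → EE m) (v : EE m) : ℕ → EE m
  | 0 => v
  | t + 1 => A (sol A b v t) + b t

end XAffClosed

open XAffClosed

theorem prf_AffClosed (h1 : Force) (h2 : PerSolve) (h3 : PerBound) : AffClosed := by
  intro m A k hA hH hk ε hε
  obtain ⟨s, hs, hF⟩ := h1 m A k hA hH hk (ε / 2) (by positivity)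
  obtain ⟨C, hC, hB⟩ := h3 m (A : EE m →L[ℝ] EE m) hH
  refine ⟨s, hs, fun n b g hn hb hg hg2 => ?_⟩
  set S : ℝ := ∑ i, |(k i : ℝ)| with hS
  have hS0 : 0 ≤ S := Finset.sum_nonneg fun i _ => abs_nonneg _
  set e' : ℝ := ε / (2 * (S + 1) * C) with he'
  have he'0 : 0 < e' := by positivity
  obtain ⟨M, hM⟩ := exists_nat_gt ((m : ℝ) / e')
  have hM0 : 0 < M := by
    have : (0 : ℝ) < M := lt_of_le_of_lt (by positivity) hM
    exact_mod_cast this
  have hM' : (0 : ℝ) < M := by exact_mod_cast hM0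
  have hMe : (m : ℝ) * (1 / (M : ℝ)) ≤ e' := by
    rw [mul_one_div, div_le_iff₀ hM']
    rw [div_lt_iff₀ he'0] at hM
    linarith
  obtain ⟨η, hη, hph⟩ := hF g hg2 b (M ^ m * n)
  obtain ⟨r, r', hrr, hrM, l, hl⟩ := pigeon M hM0 (fun r => η (r * n))
  set Q := r' - r with hQ
  have hQ0 : 0 < Q := by omega
  have hr' : r' = r + Q := by omega
  set N := Q * n with hN
  have hN0 : 0 < N := Nat.mul_pos hQ0 hn
  set d : EE m := η (r' * n) - η (r * n) - iv l with hd
  have hdn : ‖d‖ ≤ e' := hl.trans hMe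
  obtain ⟨z, hz0, hzρ, hz⟩ := h2 m N (fun _ => (A : EE m →L[ℝ] EE m)) C (C * e') hN0 hC
    (by positivity) (fun z b hz h => hB N z b hN0 hz h)
    (fun t _ => if t + 1 = N then d else 0) (fun t => continuousOn_const) (by
      intro t ht z hz
      split_ifs
      · exact mul_le_mul_of_nonneg_left hdn hC.le
      · simp only [norm_zero, mul_zero]; positivity)
  set ζ := sol A b (η (r * n) + z 0) with hζ
  have hζs : ∀ t, ζ (t + 1) = A (ζ t) + b t := fun t => rfl
  have hbr : ∀ t, b (r * n + t) = b t := fun t => by rw [add_comm, per_mul hb]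
  have hζt : ∀ t, t < N → ζ t = η (r * n + t) + z t := by
    intro t
    induction t with
    | zero => intro _; rfl
    | succ t ih =>
      intro ht
      have h1 := ih (by omega)
      have h2 := hz t (by omega)
      rw [if_neg (by omega), add_zero] at h2
      rw [hζs, h1, h2, ← add_assoc (r * n) t 1, hη, hbr, map_add]
      simp only [ContinuousLinearEquiv.coe_coe]
      abel
  have hζN : ζ N = ζ 0 + iv l := by
    obtain ⟨t, ht⟩ : ∃ t, N = t + 1 := ⟨N - 1, by omega⟩
    have h1 := hζt t (by omega)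
    have h2 := hz t (by omega)
    rw [if_pos (by omega)] at h2
    have h3 : η (r' * n) = A (η (r * n + t)) + b t := by
      have : r' * n = r * n + t + 1 := by rw [hr', Nat.add_mul]; omega
      rw [this, hη, hbr]
    have h4 : z (t + 1) = z 0 := by rw [← ht]; exact hz0
    have h5 : ζ 0 = η (r * n) + z 0 := rfl
    rw [ht, hζs, h1, map_add, h5]
    simp only [ContinuousLinearEquiv.coe_coe] at h2
    have h6 : A (z t) = z 0 - d := by rw [← h4, h2]; abel
    rw [h6, hd, h3]
    abel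
  have hζper : ∀ t, ∃ l, ζ (t + Q * n) = ζ t + iv l := by
    intro t
    induction t with
    | zero => exact ⟨l, by rw [zero_add]; exact hζN⟩
    | succ t ih =>
      obtain ⟨l, hl⟩ := ih
      obtain ⟨l', hl'⟩ := hA.1 l
      refine ⟨l', ?_⟩
      rw [show t + 1 + Q * n = t + Q * n + 1 by ring, hζs, hζs, hl, map_add, hl', per_mul hb]
      abel
  have hkz : ∀ t, t < N → |kap k (z t)| ≤ ε / 2 := by
    intro t ht
    refine (kap_le k (z t)).trans ?_
    rw [← hS]
    have h1 := hzρ t ht.le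
    have h2 : S * ‖z t‖ ≤ (S + 1) * (C * e') := by
      refine mul_le_mul (by linarith) h1 (norm_nonneg _) (by positivity)
    refine h2.trans (le_of_eq ?_)
    rw [he']
    field_simp
  refine ⟨Q, ζ, hQ0, hζs, hζper, ?_⟩
  intro t
  induction t using Nat.strong_induction_on with
  | _ t ih =>
    intro α hα
    rcases lt_or_ge t N with ht | ht
    · have h1 : g (r * n + t) = some α := by rw [add_comm, per_mul hg]; exact hα
      have h2 : r * n + t ≤ M ^ m * n := by
        have : r' * n ≤ M ^ m * n := Nat.mul_le_mul_right n hrM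
        have h3 : r' * n = r * n + N := by rw [hr', Nat.add_mul]
        omega
      obtain ⟨p, hp⟩ := hph (r * n + t) h2 α h1
      refine ⟨p, ?_⟩
      rw [hζt t ht, kap_add]
      have h3 := hkz t ht
      calc |kap k (η (r * n + t)) + kap k (z t) - α - p|
          = |(kap k (η (r * n + t)) - α - p) + kap k (z t)| := by ring_nf
        _ ≤ |kap k (η (r * n + t)) - α - p| + |kap k (z t)| := abs_add_le _ _
        _ ≤ ε / 2 + ε / 2 := add_le_add hp h3
        _ = ε := by ring
    · obtain ⟨t', rfl⟩ : ∃ t', t = t' + Q * n := ⟨t - N, by omega⟩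
      have h1 : g t' = some α := by rw [per_mul hg] at hα; exact hα
      obtain ⟨p, hp⟩ := ih t' (by omega) α h1
      obtain ⟨l', hl'⟩ := hζper t'
      refine ⟨p + ∑ i, k i * l' i, ?_⟩
      rw [hl', kap_add, kap_iv]
      have : kap k (ζ t') + ((∑ i, k i * l' i : ℤ) : ℝ) - α - ((p + ∑ i, k i * l' i : ℤ) : ℝ)
          = kap k (ζ t') - α - p := by push_cast; ring
      rw [this]
      exact hp

end Pool.Agent.OmegaFT
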