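import Pool.Agent.Work.MP_814647_an.FT.Stmts4
import Pool.Agent.Work.MP_814647_an.FT.I_FibClosed

/-!
# Item AffSwitch: affine skew products have the switch
-/

open Set Filter Topology Function
open scoped Manifold ContDiff

noncomputable section

namespace Pool.Agent.OmegaFT

open Pool.Agent.OmegaStab (EE HypLin)

universe u v

namespace XAffSwitch

/-! ### Times -/

/-- the time of the beginning of stage `q` -/
def tau (l : ℕ → ℕ) (q : ℕ) : ℕ := ∑ i ∈ Finset.range q, l i

theorem tau_zero (l : ℕ → ℕ) : tau l 0 = 0 := by simp [tau]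

theorem tau_succ (l : ℕ → ℕ) (q : ℕ) : tau l (q + 1) = tau l q + l q :=
  Finset.sum_range_succ _ _

theorem tau_mono (l : ℕ → ℕ) : Monotone (tau l) := by
  apply monotone_nat_of_le_succ
  intro q
  rw [tau_succ]
  omega

theorem tau_per {l : ℕ → ℕ} {p : ℕ} (hl : ∀ q, l (q + p) = l q) (q : ℕ) :
    tau l (q + p) = tau l q + tau l p := by
  induction q with
  | zero => rw [tau_zero, Nat.zero_add, Nat.zero_add]
  | succ q ih =>
    have h : q + 1 + p = (q + p) + 1 := by omega
    rw [h, tau_succ, ih, hl, tau_succ]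
    omega

theorem tau_mul {l : ℕ → ℕ} {p : ℕ} (hl : ∀ q, l (q + p) = l q) (Q : ℕ) :
    tau l (Q * p) = Q * tau l p := by
  induction Q with
  | zero => rw [Nat.zero_mul, Nat.zero_mul, tau_zero]
  | succ Q ih => rw [Nat.succ_mul, tau_per hl, ih, Nat.succ_mul]

/-- one step of time -/
def stp (l : ℕ → ℕ) (c : ℕ × ℕ) : ℕ × ℕ := if c.2 + 1 = l c.1 then (c.1 + 1, 0) else (c.1, c.2 + 1)

/-- stage and time in the stage -/
def pos (l : ℕ → ℕ) (t : ℕ) : ℕ × ℕ := (stp l)^[t] (0, 0)

theorem pos_succ (l : ℕ → ℕ) (t : ℕ) : pos l (t + 1) = stp l (pos l t) := by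
  unfold pos
  rw [Function.iterate_succ_apply']

theorem pos_tau {l : ℕ → ℕ} (hl : ∀ q, 1 ≤ l q) :
    ∀ q t, t < l q → pos l (tau l q + t) = (q, t) := by
  have key : ∀ q, pos l (tau l q) = (q, 0) → ∀ t, t < l q → pos l (tau l q + t) = (q, t) := by
    intro q h0 t
    induction t with
    | zero => intro _; exact h0
    | succ t ih =>
      intro ht
      rw [← Nat.add_assoc, pos_succ, ih (by omega)]
      unfold stp
      rw [if_neg (by simp only; omega)]
  intro q
  induction q with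
  | zero => exact key 0 (by rw [tau_zero]; rfl)
  | succ q ih =>
    apply key
    have h : tau l (q + 1) = (tau l q + (l q - 1)) + 1 := by
      rw [tau_succ]
      have := hl q
      omega
    rw [h, pos_succ, ih (l q - 1) (by have := hl q; omega)]
    unfold stp
    rw [if_pos (by simp only; have := hl q; omega)]

theorem time_rep {l : ℕ → ℕ} (hl : ∀ q, 1 ≤ l q) (t' : ℕ) :
    ∃ q t, t < l q ∧ t' = tau l q + t := by
  induction t' with
  | zero => exact ⟨0, 0, hl 0, by rw [tau_zero]⟩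
  | succ t' ih =>
    obtain ⟨q, t, ht, rfl⟩ := ih
    by_cases h : t + 1 < l q
    · exact ⟨q, t + 1, h, rfl⟩
    · refine ⟨q + 1, 0, hl _, ?_⟩
      rw [tau_succ]
      omega

/-! ### Phases -/

theorem kap_add {m : ℕ} (k : Fin m → ℤ) (v w : EE m) : kap k (v + w) = kap k v + kap k w := by
  unfold kap
  rw [← Finset.sum_add_distrib]
  refine Finset.sum_congr rfl fun i _ => ?_
  rw [PiLp.add_apply]
  ring

theorem kap_iv {m : ℕ} (k l : Fin m → ℤ) : kap k (iv l) = ((∑ i, k i * l i : ℤ) : ℝ) := by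
  unfold kap
  push_cast
  rfl

theorem kap_le {m : ℕ} (k : Fin m → ℤ) (v : EE m) : |kap k v| ≤ (∑ i, |(k i : ℝ)|) * ‖v‖ := by
  unfold kap
  rw [Finset.sum_mul]
  refine (Finset.abs_sum_le_sum_abs _ _).trans (Finset.sum_le_sum fun i _ => ?_)
  rw [abs_mul]
  exact mul_le_mul_of_nonneg_left (by simpa using PiLp.norm_apply_le v i) (abs_nonneg _)

theorem kap_cont {m : ℕ} (k : Fin m → ℤ) : Continuous (kap k : EE m → ℝ) := by
  unfold kap
  fun_prop

theorem near_iff (ε α a : ℝ) : Near1 ε α a ↔ ‖((a - α : ℝ) : UnitAddCircle)‖ ≤ ε := by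
  rw [UnitAddCircle.norm_eq]
  constructor
  · rintro ⟨p, hp⟩
    exact (round_le _ _).trans hp
  · intro h
    exact ⟨round (a - α), h⟩

theorem isClosed_near (ε α : ℝ) : IsClosed {a : ℝ | Near1 ε α a} := by
  simp only [near_iff]
  exact isClosed_le (continuous_norm.comp ((AddCircle.continuous_mk' (1 : ℝ)).comp
    (continuous_id.sub continuous_const))) continuous_const

theorem near_disj (a : ℝ) (h0 : Near1 (1 / 10) 0 a) (h1 : Near1 (1 / 10) (1 / 2) a) : False := by
  obtain ⟨p, hp⟩ := h0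
  obtain ⟨r, hr⟩ := h1
  rw [abs_le] at hp hr
  have h2 : ((2 * (p - r) : ℤ) : ℝ) < 2 := by
    push_cast
    linarith [hp.1, hp.2, hr.1, hr.2]
  have h3 : (0 : ℝ) < ((2 * (p - r) : ℤ) : ℝ) := by
    push_cast
    linarith [hp.1, hp.2, hr.1, hr.2]
  have h4 : 2 * (p - r) < 2 := by exact_mod_cast h2
  have h5 : 0 < 2 * (p - r) := by exact_mod_cast h3
  omega

/-- the points of the torus with phase close to `α` -/
def KK {m : ℕ} {T : Type*} (e : EE m → T) (k : Fin m → ℤ) (α : ℝ) : Set T :=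
  {y | ∀ v, e v = y → Near1 (1 / 10) α (kap k v)}

theorem isClosed_KK {m : ℕ} {T : Type*} [TopologicalSpace T] {e : EE m → T} (he : TopTorus e)
    (k : Fin m → ℤ) (α : ℝ) : IsClosed (KK e k α) := by
  have h : KK e k α = (e '' {v | Near1 (1 / 10) α (kap k v)}ᶜ)ᶜ := by
    ext y
    constructor
    · rintro h ⟨v, hv, rfl⟩
      exact hv (h v rfl)
    · intro h v hv
      by_contra hn
      exact h ⟨v, hn, hv⟩
  rw [h, isClosed_compl_iff]
  apply he.isOpenMap
  rw [isOpen_compl_iff]
  exact (isClosed_near _ _).preimage (kap_cont k)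

theorem disj_KK {m : ℕ} {T : Type*} [TopologicalSpace T] {e : EE m → T} (he : TopTorus e)
    (k : Fin m → ℤ) (y : T) (h0 : y ∈ KK e k 0) (h1 : y ∈ KK e k (1 / 2)) : False := by
  obtain ⟨v, rfl⟩ := he.surj y
  exact near_disj _ (h0 v rfl) (h1 v rfl)

/-- closeness in the torus gives closeness of phases -/
theorem near_KK {m : ℕ} {T : Type*} [MetricSpace T] [CompactSpace T] {e : EE m → T}
    (he : TopTorus e) (k : Fin m → ℤ) :
    ∃ ρ > 0, ∀ (α : ℝ) (w : EE m) (y : T), Near1 (1 / 20) α (kap k w) → dist y (e w) ≤ ρ →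
      y ∈ KK e k α := by
  set S : ℝ := ∑ i, |(k i : ℝ)| with hS
  have hS0 : 0 ≤ S := Finset.sum_nonneg fun i _ => abs_nonneg _
  obtain ⟨ρ, hρ, h⟩ := XFibClosed.e_lift he (1 / (20 * (S + 1))) (by positivity)
  refine ⟨ρ, hρ, ?_⟩
  rintro α w y ⟨p, hp⟩ hy v rfl
  obtain ⟨l, hl⟩ := h v w hy
  have h1 : kap k (v + iv l - w) = kap k v + ((∑ i, k i * l i : ℤ) : ℝ) - kap k w := by
    have h2 : kap k (v + iv l) = kap k (v + iv l - w) + kap k w := by
      rw [← kap_add]
      congr 1
      abel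
    rw [kap_add, kap_iv] at h2
    linarith
  have h3 : |kap k (v + iv l - w)| ≤ 1 / 20 := by
    refine (kap_le k _).trans ?_
    rw [← hS]
    calc S * ‖v + iv l - w‖ ≤ S * (1 / (20 * (S + 1))) := mul_le_mul_of_nonneg_left hl hS0
      _ ≤ (S + 1) * (1 / (20 * (S + 1))) := by
        apply mul_le_mul_of_nonneg_right (by linarith) (by positivity)
      _ = 1 / 20 := by field_simp
  rw [h1] at h3
  refine ⟨p - ∑ i, k i * l i, ?_⟩
  have h4 : kap k v - α - ((p - ∑ i, k i * l i : ℤ) : ℝ) =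
      (kap k v + ((∑ i, k i * l i : ℤ) : ℝ) - kap k w) + (kap k w - α - p) := by
    push_cast
    ring
  rw [h4]
  exact (abs_add_le _ _).trans (by linarith)

/-! ### Following pseudo-orbits for a bounded time -/

theorem follow {Z : Type*} [MetricSpace Z] [CompactSpace Z] (B : Z → Z) (hB : Continuous B)
    (M : ℕ) (ρ : ℝ) (hρ : 0 < ρ) : ∃ δ > 0, ∀ (X : ℕ → Z) (z : Z) (t : ℕ),
      (∀ i, dist (B (X i)) (X (i + 1)) ≤ δ) → dist z (X t) ≤ δ →
        ∀ i ≤ M, dist (B^[i] z) (X (t + i)) ≤ ρ := by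
  have hu := CompactSpace.uniformContinuous_of_continuous hB
  rw [Metric.uniformContinuous_iff] at hu
  induction M generalizing ρ with
  | zero =>
    refine ⟨ρ, hρ, fun X z t _ h i hi => ?_⟩
    obtain rfl : i = 0 := by omega
    exact h
  | succ M ih =>
    obtain ⟨δ₁, hδ₁, h₁⟩ := hu (ρ / 2) (by linarith)
    obtain ⟨δ, hδ, h⟩ := ih (min (δ₁ / 2) ρ) (lt_min (by linarith) hρ)
    refine ⟨min δ (ρ / 2), lt_min hδ (by linarith), fun X z t hX hz i hi => ?_⟩
    have h2 := h X z t (fun i => (hX i).trans (min_le_left _ _)) (hz.trans (min_le_left _ _))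
    rcases Nat.lt_or_ge M i with hi' | hi'
    · obtain rfl : i = M + 1 := by omega
      rw [Function.iterate_succ_apply', ← Nat.add_assoc]
      have h3 := h2 M le_rfl
      have h4 : dist (B (B^[M] z)) (B (X (t + M))) < ρ / 2 := by
        apply h₁
        exact lt_of_le_of_lt (h3.trans (min_le_left _ _)) (by linarith)
      calc dist (B (B^[M] z)) (X (t + M + 1))
          ≤ dist (B (B^[M] z)) (B (X (t + M))) + dist (B (X (t + M))) (X (t + M + 1)) :=
            dist_triangle _ _ _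
        _ ≤ ρ / 2 + ρ / 2 := add_le_add h4.le ((hX _).trans (min_le_right _ _))
        _ = ρ := by ring
    · exact (h2 i hi').trans (min_le_right _ _)

theorem iter_fst {N T : Type*} (f₁ : N → N) (B : N × T → N × T) (h : ∀ z, (B z).1 = f₁ z.1)
    (t : ℕ) (z : N × T) : (B^[t] z).1 = f₁^[t] z.1 := by
  induction t with
  | zero => rfl
  | succ t ih => rw [Function.iterate_succ_apply', Function.iterate_succ_apply', h, ih]

end XAffSwitch

open XAffSwitch in
theorem prf_AffSwitch (h1 : AffClosed) (h2 : Pattern) : AffSwitch.{u, v} := by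
  intro m N T _ _ _ _ e A b f₁ B hm he hA hhyp hf₁ hB hBe k
  obtain ⟨κ, hκ⟩ : ∃ κ : Fin m → ℤ, κ ≠ 0 := by
    refine ⟨fun _ => 1, fun h => ?_⟩
    have := congrFun h ⟨0, hm⟩
    simp at this
  obtain ⟨s₀, hs₀, hclosed⟩ := h1 m A κ hA hhyp hκ (1 / 20) (by norm_num)
  obtain ⟨J, o, m₀, hm₀, hpat⟩ := h2 s₀ k hs₀
  obtain ⟨ρ, hρ, hnear⟩ := near_KK he κ
  obtain ⟨δ, hδ, hfol⟩ := follow B hB (∑ j ∈ Finset.range (J + k), o j) ρ hρ
  have hM : ∀ j < J + k, o j ≤ ∑ j ∈ Finset.range (J + k), o j := fun j hj =>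
    Finset.single_le_sum (f := o) (fun _ _ => Nat.zero_le _) (Finset.mem_range.2 hj)
  have hBfst : ∀ z, (B z).1 = f₁ z.1 := by
    rintro ⟨x, y⟩
    obtain ⟨w, rfl⟩ := he.surj y
    rw [hBe]
  have hcB : ∀ j, Continuous fun z => (B^[j] z).2 := fun j => continuous_snd.comp (hB.iterate j)
  refine ⟨m₀, fun i => {z | (∀ j < J, (B^[o j] z).2 ∈ KK e κ 0) ∧
    ∀ l : Fin k, (B^[o (J + l)] z).2 ∈ KK e κ (if l = i then 0 else 1 / 2)},
    {z | ∃ j < J, (B^[o j] z).2 ∈ KK e κ (1 / 2)}, δ, hm₀, hδ, ?_, ?_, ?_, ?_, ?_⟩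
  · intro i
    have h : {z : N × T | (∀ j < J, (B^[o j] z).2 ∈ KK e κ 0) ∧
        ∀ l : Fin k, (B^[o (J + l)] z).2 ∈ KK e κ (if l = i then 0 else 1 / 2)} =
        (⋂ j, ⋂ (_ : j < J), (fun z => (B^[o j] z).2) ⁻¹' KK e κ 0) ∩
        ⋂ l : Fin k, (fun z => (B^[o (J + l)] z).2) ⁻¹' KK e κ (if l = i then 0 else 1 / 2) := by
      ext z
      simp only [mem_ofPred_eq, mem_inter_iff, mem_iInter, mem_preimage]
    show IsClosed {z : N × T | (∀ j < J, (B^[o j] z).2 ∈ KK e κ 0) ∧
        ∀ l : Fin k, (B^[o (J + l)] z).2 ∈ KK e κ (if l = i then 0 else 1 / 2)}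
    rw [h]
    refine IsClosed.inter (isClosed_iInter fun j => isClosed_iInter fun _ => ?_)
      (isClosed_iInter fun l => ?_)
    · exact (isClosed_KK he κ 0).preimage (hcB _)
    · exact (isClosed_KK he κ _).preimage (hcB _)
  · have h : {z : N × T | ∃ j < J, (B^[o j] z).2 ∈ KK e κ (1 / 2)} =
        ⋃ j ∈ Finset.range J, (fun z => (B^[o j] z).2) ⁻¹' KK e κ (1 / 2) := by
      ext z
      simp only [mem_ofPred_eq, mem_iUnion, mem_preimage, Finset.mem_range, exists_prop]
    rw [h]
    exact isClosed_biUnion_finset fun j _ => (isClosed_KK he κ _).preimage (hcB _)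
  · intro i j hij
    rw [Set.disjoint_left]
    rintro z ⟨_, hi⟩ ⟨_, hj⟩
    have h3 := hi i
    have h4 := hj i
    rw [if_pos rfl] at h3
    rw [if_neg hij] at h4
    exact disj_KK he κ _ h3 h4
  · intro i
    rw [Set.disjoint_left]
    rintro z ⟨hi, _⟩ ⟨j, hj, hE⟩
    exact disj_KK he κ _ (hi j hj) hE
  intro p s l a hp hsp hlp hap hml hjump
  have hl : ∀ q, 1 ≤ l q := fun q => (Nat.succ_le_of_lt hm₀).trans (hml q)
  have hpos := pos_tau hl
  have hn : 0 < tau l p := by
    have h := tau_mono l (show 1 ≤ p from hp)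
    rw [tau_succ, tau_zero] at h
    have := hl 0
    omega
  -- the base pseudo-orbit and the special times
  set X : ℕ → N := fun t => f₁^[(pos l t).2] (a (pos l t).1) with hX
  set S : ℕ → Option (Fin k) := fun t => if (pos l t).2 = 0 then some (s (pos l t).1) else none
    with hS
  have hXt : ∀ q t, t < l q → X (tau l q + t) = f₁^[t] (a q) := by
    intro q t ht
    simp only [hX, hpos q t ht]
  have hSt : ∀ q t, t < l q → S (tau l q + t) = if t = 0 then some (s q) else none := by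
    intro q t ht
    simp only [hS, hpos q t ht]
  have hSq : ∀ q, S (tau l q) = some (s q) := by
    intro q
    have h := hSt q 0 (hl q)
    rwa [Nat.add_zero, if_pos rfl] at h
  have hXq : ∀ q, X (tau l q) = a q := by
    intro q
    have h := hXt q 0 (hl q)
    rwa [Nat.add_zero] at h
  have hXper : ∀ t, X (t + tau l p) = X t := by
    intro t'
    obtain ⟨q, t, ht, rfl⟩ := time_rep hl t'
    have h : tau l q + t + tau l p = tau l (q + p) + t := by
      rw [tau_per hlp]
      omega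
    rw [h, hXt q t ht, hXt (q + p) t (by rw [hlp]; exact ht), hap]
  have hSper : ∀ t, S (t + tau l p) = S t := by
    intro t'
    obtain ⟨q, t, ht, rfl⟩ := time_rep hl t'
    have h : tau l q + t + tau l p = tau l (q + p) + t := by
      rw [tau_per hlp]
      omega
    rw [h, hSt q t ht, hSt (q + p) t (by rw [hlp]; exact ht), hsp]
  have hXjump : ∀ t, dist (f₁ (X t)) (X (t + 1)) ≤ δ := by
    intro t'
    obtain ⟨q, t, ht, rfl⟩ := time_rep hl t'
    by_cases h : t + 1 < l q
    · rw [Nat.add_assoc, hXt q t ht, hXt q (t + 1) h, Function.iterate_succ_apply', dist_self]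
      exact hδ.le
    · have h3 : t + 1 = l q := by omega
      have h4 : tau l q + t + 1 = tau l (q + 1) := by
        rw [tau_succ]
        omega
      have h5 := hjump q
      rw [← h3, Function.iterate_succ_apply'] at h5
      rw [h4, hXt q t ht, hXq]
      exact h5
  have hSne : ∀ t', S t' ≠ none → ∃ q, t' = tau l q := by
    intro t' h
    obtain ⟨q, t, ht, rfl⟩ := time_rep hl t'
    rw [hSt q t ht] at h
    by_cases h0 : t = 0
    · exact ⟨q, by rw [h0, Nat.add_zero]⟩
    · rw [if_neg h0] at h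
      exact absurd rfl h
  obtain ⟨g, hgper, hgs, hg1, hg2⟩ := hpat (tau l p) S hn hSper
    ⟨0, by rw [← tau_zero l, hSq]; exact Option.some_ne_none _⟩ (by
      intro t t' htt h h'
      obtain ⟨q, rfl⟩ := hSne t h
      obtain ⟨q', rfl⟩ := hSne t' h'
      have hqq : q + 1 ≤ q' := by
        by_contra hc
        have := tau_mono l (show q' ≤ q by omega)
        omega
      have h5 := tau_mono l hqq
      rw [tau_succ] at h5
      have := hml q
      omega)
  obtain ⟨Q, η, hQ, hη, hηper, hηg⟩ := hclosed (tau l p) (fun t => b (X t)) g hn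
    (fun t => by simp only [hXper]) hgper hgs
  -- the pseudo-orbit in the total space
  set Z : ℕ → N × T := fun t => (X t, e (η t)) with hZ
  have hZB : ∀ t, B (Z t) = (f₁ (X t), e (η (t + 1))) := by
    intro t
    simp only [hZ, hBe, hη]
  have hZjump : ∀ t, dist (B (Z t)) (Z (t + 1)) ≤ δ := by
    intro t
    rw [hZB, Prod.dist_eq]
    simp only [hZ, dist_self]
    exact max_le (hXjump t) hδ.le
  have horb : ∀ q t, t ≤ l q → B^[t] (a q, e (η (tau l q))) =
      (f₁^[t] (a q), e (η (tau l q + t))) := by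
    intro q t
    induction t with
    | zero => intro _; rfl
    | succ t ih =>
      intro ht
      rw [Function.iterate_succ_apply', ih (by omega), ← hXt q t (by omega)]
      have h := hZB (tau l q + t)
      simp only [hZ] at h
      rw [h, hXt q t (by omega), ← Function.iterate_succ_apply' f₁, Nat.add_assoc]
  have hclose : ∀ q t, t ≤ l q → dist (B^[t] (a q, e (η (tau l q)))) (Z (tau l q + t)) ≤ δ := by
    intro q t ht
    rw [horb q t ht, Prod.dist_eq]
    simp only [hZ, dist_self]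
    refine max_le ?_ hδ.le
    rcases Nat.lt_or_ge t (l q) with h | h
    · rw [hXt q t h, dist_self]
      exact hδ.le
    · have h3 : t = l q := by omega
      rw [h3, ← tau_succ, hXq]
      exact hjump q
  have htest : ∀ q t, t ≤ l q → ∀ j < J + k, ∀ α, g (tau l q + t + o j) = some α →
      (B^[o j] (B^[t] (a q, e (η (tau l q))))).2 ∈ KK e κ α := by
    intro q t ht j hj α hgα
    have h3 := hfol Z _ (tau l q + t) hZjump (hclose q t ht) (o j) (hM j hj)
    refine hnear α (η (tau l q + t + o j)) _ (hηg _ _ hgα) ?_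
    refine le_trans ?_ h3
    rw [Prod.dist_eq]
    exact le_max_right _ _
  refine ⟨Q, fun q => e (η (tau l q)), hQ, ?_, ?_⟩
  · obtain ⟨c, hc⟩ := hηper 0
    rw [Nat.zero_add] at hc
    simp only [tau_mul hlp, tau_zero, hc]
    exact XFibClosed.e_add he _ _
  · intro q _
    refine ⟨?_, ?_, ?_⟩
    · rw [horb q (l q) le_rfl]
      simp only [tau_succ]
    · obtain ⟨h3, h4⟩ := hg1 _ _ (hSq (q + 1))
      rw [tau_succ] at h3 h4
      refine ⟨fun j hj => htest q (l q) le_rfl j (by omega) 0 (h3 j hj), fun i => ?_⟩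
      exact htest q (l q) le_rfl (J + i) (by have := i.2; omega) _ (h4 i)
    · intro t ht0 ht
      obtain ⟨j, hj, hgj⟩ := hg2 (tau l q + t) (by
        rw [hSt q t ht, if_neg (by omega)])
      exact ⟨j, hj, htest q t ht.le j (by omega) _ hgj⟩

end Pool.Agent.OmegaFT
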