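import Pool.Agent.Work.MP_814647_an.FT.Stmts

/-!
# Item BlockHyp: an extension of hyperbolic cocycles is hyperbolic
-/

open Set Filter Topology Function

noncomputable section

namespace Pool.Agent.OmegaFT

open Pool.Agent.OmegaStab (EE HypLin)

universe u

namespace XBlockHyp

section Coc

variable {X V : Type*} [NormedAddCommGroup V] [NormedSpace ℝ V]

theorem succ_apply (σ : X ≃ X) (a : X → V ≃L[ℝ] V) (n : ℕ) (x : X) (v : V) :
    cocyc σ a (n + 1) x v = cocyc σ a n (σ x) (a x v) := rfl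

theorem succ_apply' (σ : X ≃ X) (a : X → V ≃L[ℝ] V) (n : ℕ) (x : X) (v : V) :
    cocyc σ a (n + 1) x v = a (σ^[n] x) (cocyc σ a n x v) := by
  induction n generalizing x v with
  | zero => rfl
  | succ n ih =>
    rw [succ_apply, ih, Function.iterate_succ_apply, succ_apply]

theorem mem_iff (σ : X ≃ X) (a : X → V ≃L[ℝ] V) (W : X → Submodule ℝ V)
    (hW : ∀ x s, s ∈ W x ↔ a x s ∈ W (σ x)) (n : ℕ) (x : X) (v : V) :
    v ∈ W x ↔ cocyc σ a n x v ∈ W (σ^[n] x) := by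
  induction n generalizing x v with
  | zero => exact Iff.rfl
  | succ n ih =>
    rw [Function.iterate_succ_apply, succ_apply, ← ih, ← hW]

/-- The inverse cocycle. -/
def ainv (σ : X ≃ X) (a : X → V ≃L[ℝ] V) : X → V ≃L[ℝ] V := fun x => (a (σ.symm x)).symm

theorem bcocyc_eq (σ : X ≃ X) (a : X → V ≃L[ℝ] V) (n : ℕ) (x : X) :
    bcocyc σ a n x = cocyc σ.symm (ainv σ a) n x := rfl

theorem ainv_ainv (σ : X ≃ X) (a : X → V ≃L[ℝ] V) : ainv σ.symm (ainv σ a) = a := by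
  funext x
  simp [ainv]

theorem cocyc_eq_bcocyc (σ : X ≃ X) (a : X → V ≃L[ℝ] V) (n : ℕ) (x : X) :
    cocyc σ a n x = bcocyc σ.symm (ainv σ a) n x := by
  rw [bcocyc_eq, ainv_ainv]
  rfl

theorem inv_mem (σ : X ≃ X) (a : X → V ≃L[ℝ] V) (W : X → Submodule ℝ V)
    (hW : ∀ x s, s ∈ W x ↔ a x s ∈ W (σ x)) (x : X) (s : V) :
    s ∈ W x ↔ ainv σ a x s ∈ W (σ.symm x) := by
  rw [hW (σ.symm x)]
  simp [ainv]

theorem cocyc_bcocyc (σ : X ≃ X) (a : X → V ≃L[ℝ] V) (n : ℕ) (x : X) (v : V) :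
    cocyc σ a n (σ.symm^[n] x) (bcocyc σ a n x v) = v := by
  induction n generalizing x v with
  | zero => rfl
  | succ n ih =>
    have e : bcocyc σ a (n + 1) x v = bcocyc σ a n (σ.symm x) (ainv σ a x v) := rfl
    rw [e, succ_apply', Function.iterate_succ_apply, ih]
    have h1 : σ^[n] (σ.symm^[n] (σ.symm x)) = σ.symm x :=
      (Function.LeftInverse.iterate (fun y => σ.apply_symm_apply y) n) _
    rw [h1]
    simp [ainv]

theorem inv_con (σ : X ≃ X) (a : X → V ≃L[ℝ] V) (W : X → Submodule ℝ V) (C μ : ℝ)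
    (hW : ∀ x s, s ∈ W x ↔ a x s ∈ W (σ x))
    (h : ∀ x, ∀ u ∈ W x, ∀ n : ℕ, ‖u‖ ≤ C * μ ^ n * ‖cocyc σ a n x u‖) :
    ∀ x, ∀ u ∈ W x, ∀ n : ℕ, ‖cocyc σ.symm (ainv σ a) n x u‖ ≤ C * μ ^ n * ‖u‖ := by
  intro x u hu n
  have h1 := (mem_iff σ.symm (ainv σ a) W (inv_mem σ a W hW) n x u).1 hu
  have h2 := h _ _ h1 n
  rw [← bcocyc_eq, cocyc_bcocyc] at h2
  exact h2

theorem inv_exp (σ : X ≃ X) (a : X → V ≃L[ℝ] V) (W : X → Submodule ℝ V) (C μ : ℝ)
    (hW : ∀ x s, s ∈ W x ↔ a x s ∈ W (σ x))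
    (h : ∀ x, ∀ u ∈ W x, ∀ n : ℕ, ‖cocyc σ a n x u‖ ≤ C * μ ^ n * ‖u‖) :
    ∀ x, ∀ u ∈ W x, ∀ n : ℕ, ‖u‖ ≤ C * μ ^ n * ‖cocyc σ.symm (ainv σ a) n x u‖ := by
  intro x u hu n
  have h1 := (mem_iff σ.symm (ainv σ a) W (inv_mem σ a W hW) n x u).1 hu
  have h2 := h _ _ h1 n
  rw [← bcocyc_eq, cocyc_bcocyc] at h2
  exact h2

end Coc

/-- The data needed in one direction of time. -/
structure Fwd {X : Type u} {d d₁ : ℕ} (σ : X ≃ X) (a : X → EE d ≃L[ℝ] EE d)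
    (b : X → EE d₁ ≃L[ℝ] EE d₁) (S : X → EE d →L[ℝ] EE d₁) (K C μ : ℝ)
    (Ws Wu : X → Submodule ℝ (EE d)) (Qs : X → Submodule ℝ (EE d₁)) : Prop where
  hK : 1 ≤ K
  hC : 1 ≤ C
  μ0 : 0 < μ
  μ1 : μ < 1
  ha : ∀ x v, ‖a x v‖ ≤ K * ‖v‖
  hS : ∀ x v, ‖S x v‖ ≤ K * ‖v‖
  lift : ∀ x w, ∃ v, S x v = w ∧ ‖v‖ ≤ K * ‖w‖
  semi : ∀ x v, S (σ x) (a x v) = b x (S x v)
  ker : ∀ x v, S x v = 0 ↔ ∃ s ∈ Ws x, ∃ u ∈ Wu x, v = s + u
  ps : ∀ x, ∀ s ∈ Ws x, ∀ u ∈ Wu x, ‖s‖ ≤ C * ‖s + u‖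
  pu : ∀ x, ∀ s ∈ Ws x, ∀ u ∈ Wu x, ‖u‖ ≤ C * ‖s + u‖
  is : ∀ x s, s ∈ Ws x ↔ a x s ∈ Ws (σ x)
  iu : ∀ x u, u ∈ Wu x ↔ a x u ∈ Wu (σ x)
  cs : ∀ x, ∀ s ∈ Ws x, ∀ n : ℕ, ‖cocyc σ a n x s‖ ≤ C * μ ^ n * ‖s‖
  eu : ∀ x, ∀ u ∈ Wu x, ∀ n : ℕ, ‖u‖ ≤ C * μ ^ n * ‖cocyc σ a n x u‖
  iq : ∀ x s, s ∈ Qs x ↔ b x s ∈ Qs (σ x)
  cq : ∀ x, ∀ s ∈ Qs x, ∀ n : ℕ, ‖cocyc σ b n x s‖ ≤ C * μ ^ n * ‖s‖

variable {X : Type u} {d d₁ : ℕ} {σ : X ≃ X} {a : X → EE d ≃L[ℝ] EE d}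
    {b : X → EE d₁ ≃L[ℝ] EE d₁} {S : X → EE d →L[ℝ] EE d₁} {K C μ : ℝ}
    {Ws Wu : X → Submodule ℝ (EE d)} {Qs : X → Submodule ℝ (EE d₁)}

theorem nat_mul_pow_le {ν : ℝ} (h0 : 0 ≤ ν) (h1 : ν < 1) (n : ℕ) :
    (n : ℝ) * ν ^ n ≤ 1 / (1 - ν) := by
  have h2 : (n : ℝ) * ν ^ n ≤ ∑ k ∈ Finset.range n, ν ^ k := by
    have := Finset.card_nsmul_le_sum (Finset.range n) (fun k => ν ^ k) (ν ^ n) (fun k hk =>
      pow_le_pow_of_le_one h0 h1.le (Finset.mem_range.1 hk).le)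
    simpa [nsmul_eq_mul] using this
  have h3 := mul_neg_geom_sum ν n
  have h4 : 0 < 1 - ν := by linarith
  rw [le_div_iff₀ h4]
  have h5 : (n : ℝ) * ν ^ n * (1 - ν) ≤ (∑ k ∈ Finset.range n, ν ^ k) * (1 - ν) :=
    mul_le_mul_of_nonneg_right h2 h4.le
  have h6 : 0 ≤ ν ^ n := pow_nonneg h0 n
  nlinarith

theorem liftA (h : Fwd σ a b S K C μ Ws Wu Qs) : ∃ B : ℝ, 1 ≤ B ∧ ∀ x, ∀ w ∈ Qs x,
    ∃ s, S x s = w ∧ ∀ n : ℕ, ‖cocyc σ a n x s‖ ≤ B * (√μ) ^ n * ‖w‖ := by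
  have hK := h.hK
  have hC := h.hC
  have μ0 := h.μ0
  have μ1 := h.μ1
  obtain ⟨L, hL⟩ : ∃ L : X → EE d₁ → EE d, ∀ x w, S x (L x w) = w ∧ ‖L x w‖ ≤ K * ‖w‖ := by
    choose L hL using h.lift
    exact ⟨L, hL⟩
  set D : ℝ := C * ((K + K * K) * C) with hD
  have hD0 : 0 ≤ D := by positivity
  set ν : ℝ := √μ with hν
  have ν0 : 0 < ν := Real.sqrt_pos.2 μ0
  have ν1 : ν < 1 := by
    rw [hν, Real.sqrt_lt' one_pos]; simpa using μ1
  have νsq : ∀ n : ℕ, μ ^ n = ν ^ n * ν ^ n := by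
    intro n
    rw [← mul_pow, hν, Real.mul_self_sqrt μ0.le]
  have μν : ∀ n : ℕ, μ ^ n ≤ ν ^ n := by
    intro n
    rw [νsq n]
    have h1 : ν ^ n ≤ 1 := pow_le_one₀ ν0.le ν1.le
    have h2 : 0 ≤ ν ^ n := pow_nonneg ν0.le n
    nlinarith
  refine ⟨K * C + C * D / (1 - μ) + C * D / μ * (1 / (1 - ν)), ?_, ?_⟩
  · have h1 : 0 < 1 - μ := by linarith
    have h2 : 0 < 1 - ν := by linarith
    have h3 : 0 ≤ C * D / (1 - μ) := by positivity
    have h4 : 0 ≤ C * D / μ * (1 / (1 - ν)) := by positivity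
    nlinarith
  intro x w hw
  set y : ℕ → X := fun j => σ^[j] x with hy
  have hys : ∀ j, y (j + 1) = σ (y j) := fun j => Function.iterate_succ_apply' _ _ _
  set wj : ℕ → EE d₁ := fun j => cocyc σ b j x w with hwj
  have hws : ∀ j, wj (j + 1) = b (y j) (wj j) := fun j => succ_apply' σ b j x w
  have hwn : ∀ j, ‖wj j‖ ≤ C * μ ^ j * ‖w‖ := fun j => h.cq x w hw j
  set l : ℕ → EE d := fun j => L (y j) (wj j) with hl
  have hlS : ∀ j, S (y j) (l j) = wj j := fun j => (hL _ _).1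
  have hln : ∀ j, ‖l j‖ ≤ K * ‖wj j‖ := fun j => (hL _ _).2
  set c : ℕ → EE d := fun j => l (j + 1) - a (y j) (l j) with hc
  have hcS : ∀ j, S (y (j + 1)) (c j) = 0 := by
    intro j
    rw [hc]
    simp only [map_sub]
    rw [hlS, hws, hys, h.semi, hlS, sub_self]
  have hcn : ∀ j, ‖c j‖ ≤ (K + K * K) * C * μ ^ j * ‖w‖ := by
    intro j
    have h1 : ‖c j‖ ≤ ‖l (j + 1)‖ + ‖a (y j) (l j)‖ := norm_sub_le _ _
    have h2 : ‖l (j + 1)‖ ≤ K * (C * μ ^ j * ‖w‖) := by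
      refine (hln _).trans (mul_le_mul_of_nonneg_left ((hwn _).trans ?_) (by linarith))
      refine mul_le_mul_of_nonneg_right (mul_le_mul_of_nonneg_left ?_ (by linarith))
        (norm_nonneg _)
      exact pow_le_pow_of_le_one μ0.le μ1.le (Nat.le_succ j)
    have h3 : ‖a (y j) (l j)‖ ≤ K * (K * (C * μ ^ j * ‖w‖)) :=
      (h.ha _ _).trans (mul_le_mul_of_nonneg_left ((hln _).trans
        (mul_le_mul_of_nonneg_left (hwn _) (by linarith))) (by linarith))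
    calc ‖c j‖ ≤ K * (C * μ ^ j * ‖w‖) + K * (K * (C * μ ^ j * ‖w‖)) := by linarith
      _ = (K + K * K) * C * μ ^ j * ‖w‖ := by ring
  have hsplit : ∀ j, ∃ p q, p ∈ Ws (y (j + 1)) ∧ q ∈ Wu (y (j + 1)) ∧ c j = p + q := by
    intro j
    obtain ⟨s, hs, t, ht, e⟩ := (h.ker _ _).1 (hcS j)
    exact ⟨s, t, hs, ht, e⟩
  choose p q hp hq hpq using hsplit
  have hpn : ∀ j, ‖p j‖ ≤ D * μ ^ j * ‖w‖ := by
    intro j
    have h1 := h.ps _ _ (hp j) _ (hq j)
    rw [← hpq] at h1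
    calc ‖p j‖ ≤ C * ‖c j‖ := h1
      _ ≤ C * ((K + K * K) * C * μ ^ j * ‖w‖) :=
        mul_le_mul_of_nonneg_left (hcn j) (by linarith)
      _ = D * μ ^ j * ‖w‖ := by rw [hD]; ring
  have hqn : ∀ j, ‖q j‖ ≤ D * μ ^ j * ‖w‖ := by
    intro j
    have h1 := h.pu _ _ (hp j) _ (hq j)
    rw [← hpq] at h1
    calc ‖q j‖ ≤ C * ‖c j‖ := h1
      _ ≤ C * ((K + K * K) * C * μ ^ j * ‖w‖) :=
        mul_le_mul_of_nonneg_left (hcn j) (by linarith)
      _ = D * μ ^ j * ‖w‖ := by rw [hD]; ring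
  -- the unstable corrections
  set T : ℕ → ℕ → EE d := fun n i => (cocyc σ a (i + 1) (y n)).symm (q (n + i)) with hT
  have hyy : ∀ n i, σ^[i + 1] (y n) = y (n + i + 1) := by
    intro n i
    rw [hy]
    simp only
    rw [← Function.iterate_add_apply]
    congr 1
    ring
  have hTmem : ∀ n i, T n i ∈ Wu (y n) := by
    intro n i
    rw [mem_iff σ a Wu h.iu (i + 1) (y n)]
    rw [hT]
    simp only [ContinuousLinearEquiv.apply_symm_apply]
    rw [hyy]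
    exact hq (n + i)
  have hTn : ∀ n i, ‖T n i‖ ≤ C * D * ‖w‖ * μ ^ n * μ ^ i := by
    intro n i
    have h1 := h.eu _ _ (hTmem n i) (i + 1)
    have h2 : cocyc σ a (i + 1) (y n) (T n i) = q (n + i) := by
      rw [hT]
      simp only [ContinuousLinearEquiv.apply_symm_apply]
    rw [h2] at h1
    have h3 : C * μ ^ (i + 1) * ‖q (n + i)‖ ≤ C * 1 * (D * μ ^ (n + i) * ‖w‖) := by
      refine mul_le_mul (mul_le_mul_of_nonneg_left (pow_le_one₀ μ0.le μ1.le) (by linarith))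
        (hqn _) (norm_nonneg _) (by linarith)
    calc ‖T n i‖ ≤ C * 1 * (D * μ ^ (n + i) * ‖w‖) := h1.trans h3
      _ = C * D * ‖w‖ * μ ^ n * μ ^ i := by rw [pow_add]; ring
  have hgeo : Summable fun i : ℕ => μ ^ i := summable_geometric_of_lt_one μ0.le μ1
  have hTs : ∀ n, Summable (T n) := fun n =>
    Summable.of_norm_bounded (hgeo.mul_left (C * D * ‖w‖ * μ ^ n)) (hTn n)
  set r : ℕ → EE d := fun n => ∑' i, T n i with hr
  have hrn : ∀ n, ‖r n‖ ≤ C * D / (1 - μ) * μ ^ n * ‖w‖ := by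
    intro n
    have h1 : ‖r n‖ ≤ ∑' i, C * D * ‖w‖ * μ ^ n * μ ^ i :=
      tsum_of_norm_bounded (hgeo.mul_left (C * D * ‖w‖ * μ ^ n)).hasSum (hTn n)
    rw [tsum_mul_left, tsum_geometric_of_lt_one μ0.le μ1] at h1
    calc ‖r n‖ ≤ _ := h1
      _ = C * D / (1 - μ) * μ ^ n * ‖w‖ := by ring
  have hrS : ∀ n, S (y n) (r n) = 0 := by
    intro n
    rw [hr]
    simp only
    rw [ContinuousLinearMap.map_tsum _ (hTs n)]
    have : ∀ i, S (y n) (T n i) = 0 := by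
      intro i
      rw [h.ker]
      exact ⟨0, zero_mem _, T n i, hTmem n i, by simp⟩
    simp [this]
  have hrec : ∀ n, a (y n) (r n) = q n + r (n + 1) := by
    intro n
    rw [hr]
    simp only
    rw [ContinuousLinearEquiv.map_tsum]
    have h1 : ∀ i, a (y n) (T n i) = (cocyc σ a i (y (n + 1))).symm (q (n + i)) := by
      intro i
      rw [hT]
      simp only
      rw [hys]
      have h2 : (cocyc σ a (i + 1) (y n)) = (a (y n)).trans (cocyc σ a i (σ (y n))) := rfl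
      rw [h2]
      simp
    have h2 : Summable fun i => a (y n) (T n i) :=
      (hTs n).map (a (y n)) (a (y n)).continuous
    rw [h2.tsum_eq_zero_add, h1 0]
    congr 1
    refine tsum_congr fun i => ?_
    rw [h1 (i + 1), hT]
    simp only
    congr 2
    ring
  -- the stable corrections
  set e : ℕ → EE d := fun n => Nat.rec (motive := fun _ => EE d) 0
    (fun k z => a (y k) z - p k) n with he
  have he0 : e 0 = 0 := rfl
  have hes : ∀ n, e (n + 1) = a (y n) (e n) - p n := fun n => rfl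
  have hem : ∀ n, e n ∈ Ws (y n) := by
    intro n
    induction n with
    | zero => rw [he0]; exact zero_mem _
    | succ n ih =>
      rw [hes]
      refine Submodule.sub_mem _ ?_ (hp n)
      rw [hys]
      exact (h.is _ _).1 ih
  have hen : ∀ n m : ℕ, ‖cocyc σ a m (y n) (e n)‖ ≤ n * (C * D / μ * μ ^ (m + n) * ‖w‖) := by
    intro n
    induction n with
    | zero => intro m; rw [he0]; simp
    | succ n ih =>
      intro m
      have h1 : cocyc σ a m (y (n + 1)) (e (n + 1)) =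
          cocyc σ a (m + 1) (y n) (e n) - cocyc σ a m (y (n + 1)) (p n) := by
        rw [hes, map_sub, succ_apply, hys]
      have h2 := ih (m + 1)
      have h3 : ‖cocyc σ a m (y (n + 1)) (p n)‖ ≤ C * D / μ * μ ^ (m + (n + 1)) * ‖w‖ := by
        have h4 := h.cs _ _ (hp n) m
        calc ‖cocyc σ a m (y (n + 1)) (p n)‖ ≤ C * μ ^ m * ‖p n‖ := h4
          _ ≤ C * μ ^ m * (D * μ ^ n * ‖w‖) := by
            refine mul_le_mul_of_nonneg_left (hpn n) ?_
            positivity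
          _ = C * D / μ * μ ^ (m + (n + 1)) * ‖w‖ := by
            field_simp
            ring
      have h5 : m + 1 + n = m + (n + 1) := by ring
      rw [h5] at h2
      rw [h1]
      refine (norm_sub_le _ _).trans ?_
      push_cast
      linarith
  have hen0 : ∀ n : ℕ, ‖e n‖ ≤ C * D / μ * (1 / (1 - ν)) * ν ^ n * ‖w‖ := by
    intro n
    have h1 := hen n 0
    have h2 : cocyc σ a 0 (y n) (e n) = e n := rfl
    rw [h2, zero_add] at h1
    have h3 := nat_mul_pow_le ν0.le ν1 n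
    have h4 : (0 : ℝ) ≤ C * D / μ * ν ^ n * ‖w‖ := by positivity
    calc ‖e n‖ ≤ n * (C * D / μ * μ ^ n * ‖w‖) := h1
      _ = (C * D / μ * ν ^ n * ‖w‖) * (n * ν ^ n) := by rw [νsq n]; ring
      _ ≤ (C * D / μ * ν ^ n * ‖w‖) * (1 / (1 - ν)) := mul_le_mul_of_nonneg_left h3 h4
      _ = _ := by ring
  -- the orbit
  set z : ℕ → EE d := fun n => l n + r n + e n with hz
  have hzs : ∀ n, a (y n) (z n) = z (n + 1) := by
    intro n
    rw [hz]
    simp only [map_add]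
    rw [hrec, hes]
    have h1 : l (n + 1) = a (y n) (l n) + (p n + q n) := by
      rw [← hpq n, hc]
      simp
    rw [h1]
    abel
  have hzn : ∀ n, cocyc σ a n x (z 0) = z n := by
    intro n
    induction n with
    | zero => rfl
    | succ n ih => rw [succ_apply', ih]; exact hzs n
  refine ⟨z 0, ?_, fun n => ?_⟩
  · rw [hz]
    simp only [map_add]
    have h1 : S x (l 0) = w := hlS 0
    have h2 : S x (r 0) = 0 := hrS 0
    rw [h1, h2, he0]
    simp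
  · rw [hzn]
    have h1 : ‖z n‖ ≤ ‖l n‖ + ‖r n‖ + ‖e n‖ :=
      (norm_add_le _ _).trans (add_le_add (norm_add_le _ _) le_rfl)
    have h2 : ‖l n‖ ≤ K * C * ν ^ n * ‖w‖ := by
      calc ‖l n‖ ≤ K * ‖wj n‖ := hln n
        _ ≤ K * (C * μ ^ n * ‖w‖) := mul_le_mul_of_nonneg_left (hwn n) (by linarith)
        _ ≤ K * (C * ν ^ n * ‖w‖) := by
          refine mul_le_mul_of_nonneg_left (mul_le_mul_of_nonneg_right
            (mul_le_mul_of_nonneg_left (μν n) (by linarith)) (norm_nonneg _)) (by linarith)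
        _ = _ := by ring
    have h3 : ‖r n‖ ≤ C * D / (1 - μ) * ν ^ n * ‖w‖ := by
      refine (hrn n).trans ?_
      have h4 : 0 < 1 - μ := by linarith
      refine mul_le_mul_of_nonneg_right (mul_le_mul_of_nonneg_left (μν n) (by positivity))
        (norm_nonneg _)
    have h4 := hen0 n
    calc ‖z n‖ ≤ K * C * ν ^ n * ‖w‖ + C * D / (1 - μ) * ν ^ n * ‖w‖ +
          C * D / μ * (1 / (1 - ν)) * ν ^ n * ‖w‖ := by linarith
      _ = _ := by ring

theorem half (h : Fwd σ a b S K C μ Ws Wu Qs) : ∃ B : ℝ, 1 ≤ B ∧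
    (∀ x, ∀ w ∈ Qs x, ∃ s, S x s = w ∧ ∃ M, ∀ n : ℕ, ‖cocyc σ a n x s‖ ≤ M) ∧
    ∀ x v, S x v ∈ Qs x → (∃ M, ∀ n : ℕ, ‖cocyc σ a n x v‖ ≤ M) →
      Contr σ a B (√μ) x v := by
  obtain ⟨B, hB, hA⟩ := liftA h
  have hK := h.hK
  have hC := h.hC
  have μ0 := h.μ0
  have μ1 := h.μ1
  set ν : ℝ := √μ with hν
  have ν0 : 0 < ν := Real.sqrt_pos.2 μ0
  have ν1 : ν < 1 := by
    rw [hν, Real.sqrt_lt' one_pos]; simpa using μ1
  have μν : ∀ n : ℕ, μ ^ n ≤ ν ^ n := by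
    intro n
    have h0 : μ ^ n = ν ^ n * ν ^ n := by
      rw [← mul_pow, hν, Real.mul_self_sqrt μ0.le]
    rw [h0]
    have h1 : ν ^ n ≤ 1 := pow_le_one₀ ν0.le ν1.le
    have h2 : 0 ≤ ν ^ n := pow_nonneg ν0.le n
    nlinarith
  -- forward contraction of all vectors in the family
  have key : ∀ x v, S x v ∈ Qs x → (∃ M, ∀ n : ℕ, ‖cocyc σ a n x v‖ ≤ M) →
      ∀ n : ℕ, ‖cocyc σ a n x v‖ ≤ (B * K + C * (1 + B * K)) * ν ^ n * ‖v‖ := by
    intro x v hv hM n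
    obtain ⟨M, hM⟩ := hM
    obtain ⟨s, hs, hsn⟩ := hA x _ hv
    have hk : S x (v - s) = 0 := by rw [map_sub, hs, sub_self]
    obtain ⟨p, hp, q, hq, hpq⟩ := (h.ker _ _).1 hk
    have hq0 : q = 0 := by
      have h1 : ∀ n : ℕ, ‖q‖ ≤ C * μ ^ n * (M + B * ‖S x v‖ + C * ‖p‖) := by
        intro n
        refine (h.eu x q hq n).trans (mul_le_mul_of_nonneg_left ?_ (by positivity))
        have h2 : q = v - s - p := by rw [hpq]; abel
        have h3 : cocyc σ a n x q = cocyc σ a n x v - cocyc σ a n x s - cocyc σ a n x p := by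
          rw [h2, map_sub, map_sub]
        rw [h3]
        have h4 : ‖cocyc σ a n x s‖ ≤ B * ‖S x v‖ := by
          refine (hsn n).trans (mul_le_mul_of_nonneg_right ?_ (norm_nonneg _))
          have : ν ^ n ≤ 1 := pow_le_one₀ ν0.le ν1.le
          nlinarith
        have h5 : ‖cocyc σ a n x p‖ ≤ C * ‖p‖ := by
          refine (h.cs x p hp n).trans (mul_le_mul_of_nonneg_right ?_ (norm_nonneg _))
          have : μ ^ n ≤ 1 := pow_le_one₀ μ0.le μ1.le
          nlinarith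
        have h6 := hM n
        calc ‖cocyc σ a n x v - cocyc σ a n x s - cocyc σ a n x p‖
            ≤ ‖cocyc σ a n x v‖ + ‖cocyc σ a n x s‖ + ‖cocyc σ a n x p‖ :=
              (norm_sub_le _ _).trans (add_le_add (norm_sub_le _ _) le_rfl)
          _ ≤ _ := by linarith
      have h2 : Tendsto (fun n : ℕ => C * μ ^ n * (M + B * ‖S x v‖ + C * ‖p‖)) atTop (𝓝 0) := by
        have h3 := (tendsto_pow_atTop_nhds_zero_of_lt_one μ0.le μ1).const_mul C
        have h4 := h3.mul_const (M + B * ‖S x v‖ + C * ‖p‖)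
        simpa using h4
      have h3 : ‖q‖ ≤ 0 := ge_of_tendsto' h2 h1
      exact norm_le_zero_iff.1 h3
    have hv' : v = s + p := by
      rw [hq0, add_zero] at hpq
      rw [← hpq]; abel
    have h1 : ‖s‖ ≤ B * K * ‖v‖ := by
      have h2 := hsn 0
      have h3 : cocyc σ a 0 x s = s := rfl
      rw [h3] at h2
      calc ‖s‖ ≤ B * ν ^ 0 * ‖S x v‖ := h2
        _ = B * ‖S x v‖ := by simp
        _ ≤ B * (K * ‖v‖) := mul_le_mul_of_nonneg_left (h.hS x v) (by linarith)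
        _ = _ := by ring
    have h2 : ‖p‖ ≤ (1 + B * K) * ‖v‖ := by
      have h3 : p = v - s := by rw [hv']; abel
      calc ‖p‖ = ‖v - s‖ := by rw [h3]
        _ ≤ ‖v‖ + ‖s‖ := norm_sub_le _ _
        _ ≤ _ := by linarith
    have h3 : ‖cocyc σ a n x s‖ ≤ B * ν ^ n * (K * ‖v‖) :=
      (hsn n).trans (mul_le_mul_of_nonneg_left (h.hS x v) (by positivity))
    have h4 : ‖cocyc σ a n x p‖ ≤ C * ν ^ n * ((1 + B * K) * ‖v‖) := by
      refine (h.cs x p hp n).trans (mul_le_mul ?_ h2 (norm_nonneg _) (by positivity))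
      exact mul_le_mul_of_nonneg_left (μν n) (by linarith)
    calc ‖cocyc σ a n x v‖ = ‖cocyc σ a n x s + cocyc σ a n x p‖ := by rw [← map_add, ← hv']
      _ ≤ ‖cocyc σ a n x s‖ + ‖cocyc σ a n x p‖ := norm_add_le _ _
      _ ≤ B * ν ^ n * (K * ‖v‖) + C * ν ^ n * ((1 + B * K) * ‖v‖) := add_le_add h3 h4
      _ = _ := by ring
  have inv : ∀ x v, S x v ∈ Qs x → (∃ M, ∀ n : ℕ, ‖cocyc σ a n x v‖ ≤ M) →
      S (σ.symm x) (ainv σ a x v) ∈ Qs (σ.symm x) ∧
      ∃ M, ∀ n : ℕ, ‖cocyc σ a n (σ.symm x) (ainv σ a x v)‖ ≤ M := by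
    intro x v hv hM
    obtain ⟨M, hM⟩ := hM
    refine ⟨?_, max M ‖ainv σ a x v‖, fun n => ?_⟩
    · rw [h.iq, ← h.semi]
      simpa [ainv] using hv
    · cases n with
      | zero => exact le_max_right _ _
      | succ n =>
        rw [succ_apply]
        have h1 : a (σ.symm x) (ainv σ a x v) = v := by simp [ainv]
        rw [h1, σ.apply_symm_apply]
        exact (hM n).trans (le_max_left _ _)
  have inv' : ∀ (n : ℕ) x v, S x v ∈ Qs x → (∃ M, ∀ n : ℕ, ‖cocyc σ a n x v‖ ≤ M) →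
      S (σ.symm^[n] x) (bcocyc σ a n x v) ∈ Qs (σ.symm^[n] x) ∧
      ∃ M, ∀ k : ℕ, ‖cocyc σ a k (σ.symm^[n] x) (bcocyc σ a n x v)‖ ≤ M := by
    intro n
    induction n with
    | zero => intro x v hv hM; exact ⟨hv, hM⟩
    | succ n ih =>
      intro x v hv hM
      obtain ⟨h1, h2⟩ := inv x v hv hM
      have h3 := ih _ _ h1 h2
      rw [Function.iterate_succ_apply, bcocyc_eq, succ_apply, ← bcocyc_eq]
      exact h3
  refine ⟨B * K + C * (1 + B * K), ?_, ?_, ?_⟩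
  · have : 1 ≤ B * K := one_le_mul_of_one_le_of_one_le hB hK
    nlinarith
  · intro x w hw
    obtain ⟨s, hs, hn⟩ := hA x w hw
    refine ⟨s, hs, B * ‖w‖, fun n => (hn n).trans ?_⟩
    refine mul_le_mul_of_nonneg_right ?_ (norm_nonneg _)
    have : ν ^ n ≤ 1 := pow_le_one₀ ν0.le ν1.le
    nlinarith
  · intro x v hv hM n
    refine ⟨key x v hv hM n, ?_⟩
    obtain ⟨h1, h2⟩ := inv' n x v hv hM
    have h3 := key _ _ h1 h2 n
    rw [cocyc_bcocyc] at h3
    exact h3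

end XBlockHyp

open XBlockHyp in
theorem prf_BlockHyp : BlockHyp.{u} := by
  intro X σ d d₁ a b S K C μ Ws Wu Qs Qu hK hC μ0 μ1 ha hS hl hsemi hker hps hWs hWu cWs eWu
    hQ hQs hQu cQs eQu
  have hpu : ∀ x, ∀ s ∈ Ws x, ∀ t ∈ Wu x, ‖t‖ ≤ (C + 1) * ‖s + t‖ := by
    intro x s hs t ht
    have h1 := hps x s hs t ht
    have h2 : t = (s + t) - s := by abel
    calc ‖t‖ = ‖(s + t) - s‖ := by rw [← h2]
      _ ≤ ‖s + t‖ + ‖s‖ := norm_sub_le _ _
      _ ≤ _ := by linarith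
  have up : ∀ (n : ℕ) (t : ℝ), 0 ≤ t → C * μ ^ n * t ≤ (C + 1) * μ ^ n * t := by
    intro n t ht
    have : 0 ≤ μ ^ n * t := mul_nonneg (pow_nonneg μ0.le n) ht
    nlinarith
  have F1 : Fwd σ a b S K (C + 1) μ Ws Wu Qs :=
    { hK := hK
      hC := by linarith
      μ0 := μ0
      μ1 := μ1
      ha := fun x v => (ha x v).1
      hS := hS
      lift := hl
      semi := hsemi
      ker := hker
      ps := fun x s hs t ht => (hps x s hs t ht).trans (by
        have := norm_nonneg (s + t); nlinarith)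
      pu := hpu
      is := hWs
      iu := hWu
      cs := fun x s hs n => (cWs x s hs n).trans (up n _ (norm_nonneg _))
      eu := fun x s hs n => (eWu x s hs n).trans (up n _ (norm_nonneg _))
      iq := hQs
      cq := fun x s hs n => (cQs x s hs n).trans (up n _ (norm_nonneg _)) }
  have F2 : Fwd σ.symm (ainv σ a) (ainv σ b) S K (C + 1) μ Wu Ws Qu :=
    { hK := hK
      hC := by linarith
      μ0 := μ0
      μ1 := μ1
      ha := fun x v => by
        have := (ha (σ.symm x) (ainv σ a x v)).2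
        simpa [ainv] using this
      hS := hS
      lift := hl
      semi := fun x v => by
        have h1 := hsemi (σ.symm x) (ainv σ a x v)
        have h2 : a (σ.symm x) (ainv σ a x v) = v := by simp [ainv]
        rw [h2, σ.apply_symm_apply] at h1
        rw [h1]
        simp [ainv]
      ker := fun x v => by
        rw [hker]
        constructor
        · rintro ⟨s, hs, t, ht, e⟩
          exact ⟨t, ht, s, hs, by rw [e]; abel⟩
        · rintro ⟨s, hs, t, ht, e⟩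
          exact ⟨t, ht, s, hs, by rw [e]; abel⟩
      ps := fun x s hs t ht => by
        have := hpu x t ht s hs
        rwa [add_comm t s] at this
      pu := fun x s hs t ht => by
        have := hps x t ht s hs
        rw [add_comm t s] at this
        exact this.trans (by have := norm_nonneg (s + t); nlinarith)
      is := fun x s => inv_mem σ a Wu hWu x s
      iu := fun x s => inv_mem σ a Ws hWs x s
      cs := fun x s hs n =>
        (inv_con σ a Wu C μ hWu eWu x s hs n).trans (up n _ (norm_nonneg _))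
      eu := fun x s hs n =>
        (inv_exp σ a Ws C μ hWs cWs x s hs n).trans (up n _ (norm_nonneg _))
      iq := fun x s => inv_mem σ b Qu hQu x s
      cq := fun x s hs n =>
        (inv_con σ b Qu C μ hQu eQu x s hs n).trans (up n _ (norm_nonneg _)) }
  obtain ⟨B1, hB1, L1, R1⟩ := half F1
  obtain ⟨B2, hB2, L2, R2⟩ := half F2
  have ν0 : 0 < √μ := Real.sqrt_pos.2 μ0
  have ν1 : √μ < 1 := by
    rw [Real.sqrt_lt' one_pos]; simpa using μ1
  refine ⟨max B1 B2, √μ, le_max_of_le_left hB1, ν0, ν1, fun x v => ?_⟩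
  obtain ⟨ws, hws, wu, hwu, hw, -, -⟩ := hQ x (S x v)
  obtain ⟨s, hs, Ms, hMs⟩ := L1 x ws hws
  obtain ⟨t, ht, Mt, hMt⟩ := L2 x wu hwu
  have hk : S x (v - s - t) = 0 := by
    rw [map_sub, map_sub, hs, ht, hw]; abel
  obtain ⟨p, hp, q, hq, hpq⟩ := (hker _ _).1 hk
  have hSp : S x p = 0 := (hker _ _).2 ⟨p, hp, 0, zero_mem _, by simp⟩
  have hSq : S x q = 0 := (hker _ _).2 ⟨0, zero_mem _, q, hq, by simp⟩
  have c1 : Contr σ a B1 (√μ) x (s + p) := by
    refine R1 x (s + p) ?_ ⟨Ms + C * ‖p‖, fun n => ?_⟩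
    · rw [map_add, hs, hSp, add_zero]; exact hws
    · rw [map_add]
      refine (norm_add_le _ _).trans (add_le_add (hMs n) ((cWs x p hp n).trans ?_))
      have h1 : μ ^ n ≤ 1 := pow_le_one₀ μ0.le μ1.le
      refine mul_le_mul_of_nonneg_right ?_ (norm_nonneg _)
      nlinarith
  have c2 : Contr σ.symm (ainv σ a) B2 (√μ) x (t + q) := by
    refine R2 x (t + q) ?_ ⟨Mt + C * ‖q‖, fun n => ?_⟩
    · rw [map_add, ht, hSq, add_zero]; exact hwu
    · rw [map_add]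
      refine (norm_add_le _ _).trans (add_le_add (hMt n)
        ((inv_con σ a Wu C μ hWu eWu x q hq n).trans ?_))
      have h1 : μ ^ n ≤ 1 := pow_le_one₀ μ0.le μ1.le
      refine mul_le_mul_of_nonneg_right ?_ (norm_nonneg _)
      nlinarith
  have up1 : ∀ (n : ℕ) (r : ℝ), 0 ≤ r → B1 * (√μ) ^ n * r ≤ max B1 B2 * (√μ) ^ n * r := by
    intro n r hr
    exact mul_le_mul_of_nonneg_right (mul_le_mul_of_nonneg_right (le_max_left _ _)
      (pow_nonneg ν0.le n)) hr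
  have up2 : ∀ (n : ℕ) (r : ℝ), 0 ≤ r → B2 * (√μ) ^ n * r ≤ max B1 B2 * (√μ) ^ n * r := by
    intro n r hr
    exact mul_le_mul_of_nonneg_right (mul_le_mul_of_nonneg_right (le_max_right _ _)
      (pow_nonneg ν0.le n)) hr
  refine ⟨s + p, t + q, ?_, fun n => ?_, fun n => ?_⟩
  · have : v = (v - s - t) + s + t := by abel
    rw [this, hpq]; abel
  · exact ⟨(c1 n).1.trans (up1 n _ (norm_nonneg _)), (c1 n).2.trans (up1 n _ (norm_nonneg _))⟩
  · refine ⟨?_, ?_⟩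
    · have h1 := (c2 n).1
      rw [← bcocyc_eq] at h1
      exact h1.trans (up2 n _ (norm_nonneg _))
    · have h1 := (c2 n).2
      rw [← cocyc_eq_bcocyc] at h1
      exact h1.trans (up2 n _ (norm_nonneg _))

end Pool.Agent.OmegaFT
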