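import Pool.Agent.Work.MP_814647_an.FT.Stmts3

/-!
# Fibred tori: basic properties of the chain recurrent set (item CRBasic)
-/

open Set Filter Topology Function

noncomputable section

namespace Pool.Agent.OmegaFT

open Pool.Agent.OmegaStability (Omega)

universe u v

namespace XCRBasic

/-- uniform continuity on a compact space, with distances -/
theorem unif {M : Type*} {Y : Type*} [MetricSpace M] [CompactSpace M] [MetricSpace Y] {f : M → Y}
    (hf : Continuous f) {ε : ℝ} (hε : 0 < ε) :
    ∃ δ > 0, ∀ a b, dist a b ≤ δ → dist (f a) (f b) ≤ ε := by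
  have h := CompactSpace.uniformContinuous_of_continuous hf
  obtain ⟨δ, hδ, h1⟩ := Metric.uniformContinuous_iff.1 h ε hε
  refine ⟨δ / 2, by positivity, fun a b hab => (h1 ?_).le⟩
  linarith

/-- a closed chain whose end point is moved a little -/
theorem move {M : Type*} [MetricSpace M] [CompactSpace M] {f : M → M} (hf : Continuous f) {ε : ℝ}
    (hε : 0 < ε) : ∃ δ > 0, ∀ (x : M) (n : ℕ) (z : ℕ → M), 0 < n → dist x (z 0) ≤ δ →
      dist x (z n) ≤ δ → (∀ i < n, dist (f (z i)) (z (i + 1)) ≤ δ) →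
      ∃ (n : ℕ) (z : ℕ → M), 0 < n ∧ z 0 = x ∧ z n = x ∧
        ∀ i < n, dist (f (z i)) (z (i + 1)) ≤ ε := by
  obtain ⟨δ, hδ, h1⟩ := unif hf (show 0 < ε / 3 by positivity)
  refine ⟨min δ (ε / 3), lt_min hδ (by positivity), fun x n z hn h0 h2 h3 => ?_⟩
  set w : ℕ → M := fun j => if j = 0 ∨ j = n then x else z j with hw
  have hd : ∀ j, dist (w j) (z j) ≤ min δ (ε / 3) := by
    intro j
    by_cases hj : j = 0 ∨ j = n
    · rw [hw]
      simp only [hj, if_true]
      rcases hj with rfl | rfl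
      · exact h0
      · exact h2
    · rw [hw]
      simp only [hj, if_false, dist_self]
      exact (lt_min hδ (by positivity)).le
  refine ⟨n, w, hn, by simp [hw], by simp [hw], fun i hi => ?_⟩
  have a1 := h1 _ _ ((hd i).trans (min_le_left _ _))
  have a2 := (h3 i hi).trans (min_le_right _ _)
  have a3 := (hd (i + 1)).trans (min_le_right _ _)
  rw [dist_comm] at a3
  have b1 := dist_triangle (f (w i)) (f (z i)) (w (i + 1))
  have b2 := dist_triangle (f (z i)) (z (i + 1)) (w (i + 1))
  linarith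

theorem closed {M : Type*} [MetricSpace M] [CompactSpace M] {f : M → M} (hf : Continuous f) :
    IsClosed (ChainRec f) := by
  refine isClosed_of_closure_subset fun x hx ε hε => ?_
  obtain ⟨δ, hδ, h1⟩ := move hf hε
  obtain ⟨y, hy, hxy⟩ := Metric.mem_closure_iff.1 hx δ hδ
  obtain ⟨n, z, hn, z0, zn, h2⟩ := hy δ hδ
  exact h1 x n z hn (by rw [z0]; exact hxy.le) (by rw [zn]; exact hxy.le) h2

theorem omega {M : Type*} [MetricSpace M] [CompactSpace M] {f : M → M} (hf : Continuous f) :
    Omega f ⊆ ChainRec f := by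
  intro x hx ε hε
  obtain ⟨δ, hδ, h1⟩ := move hf hε
  obtain ⟨n, hn, w, ⟨y, hy, rfl⟩, h2⟩ := hx (Metric.ball x δ) (Metric.ball_mem_nhds x hδ)
  rw [Metric.mem_ball, dist_comm] at hy h2
  refine h1 x n (fun t => f^[t] y) hn hy.le h2.le fun i _ => ?_
  simp only [Function.iterate_succ_apply', dist_self]
  exact hδ.le

/-- images of chains -/
theorem image {M : Type*} {Y : Type*} [MetricSpace M] [CompactSpace M] [MetricSpace Y]
    {h : M → Y} (hh : Continuous h) {f : M → M} {F : Y → Y} (hF : ∀ x, h (f x) = F (h x)) {x : M}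
    (hx : x ∈ ChainRec f) : h x ∈ ChainRec F := by
  intro ε hε
  obtain ⟨δ, hδ, h1⟩ := unif hh hε
  obtain ⟨n, z, hn, z0, zn, h2⟩ := hx δ hδ
  refine ⟨n, fun t => h (z t), hn, by simp [z0], by simp [zn], fun i hi => ?_⟩
  simp only
  rw [← hF]
  exact h1 _ _ (h2 i hi)

end XCRBasic

theorem prf_CRBasic : CRBasic.{u, v} := by
  refine ⟨fun M _ _ f => ⟨XCRBasic.closed f.continuous, fun x hx => ?_, fun x hx => ?_,
    XCRBasic.omega f.continuous⟩, fun M Y _ _ _ _ h f F hF x => ⟨fun hx => ?_, fun hx => ?_⟩⟩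
  · exact XCRBasic.image f.continuous (fun _ => rfl) hx
  · exact XCRBasic.image f.symm.continuous (fun y => by simp) hx
  · exact XCRBasic.image h.continuous hF hx
  · have := XCRBasic.image h.symm.continuous (f := F) (F := f) (fun y => by
      rw [Homeomorph.symm_apply_eq, hF]; simp) hx
    simpa using this

end Pool.Agent.OmegaFT
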