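import Pool.Agent.Work.MP_814647_an.FT.Stmts2

/-!
# MP_814647_an, fibred tori, item CoreFib: a closed sequence of stages makes the product of the
transitions hyperbolic (helper27)
-/

open Set Filter Topology Function
open scoped Manifold ContDiff

noncomputable section

namespace Pool.Agent.OmegaFT

open Pool.Agent.OmegaStab (EE Dyn IsFam PP HypAt crTopology HypLin ConjClass)
open Pool.Agent.OmegaStab.FinHyp (der)
open Pool.Agent.OmegaPS
open Pool.Agent.OmegaStability

universe u v w x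

namespace XCoreFib

theorem hypLin_conj {E : Type*} [NormedAddCommGroup E] [NormedSpace ℝ E] {A B : E →L[ℝ] E}
    (T : E ≃L[ℝ] E) (h : ∀ v, T (A v) = B (T v)) (hA : HypLin A) : HypLin B := by
  intro θ v w h1 h2
  have h3 := hA θ (T.symm v) (T.symm w)
  have h4 : ∀ u, A (T.symm u) = T.symm (B u) := by
    intro u
    apply T.injective
    rw [h, T.apply_symm_apply, T.apply_symm_apply]
  have h5 := h3 (by rw [h4, h1]; simp) (by rw [h4, h2]; simp)
  refine ⟨?_, ?_⟩
  · have := congrArg T h5.1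
    rwa [T.apply_symm_apply, map_zero] at this
  · have := congrArg T h5.2
    rwa [T.apply_symm_apply, map_zero] at this

section One

variable {d : ℕ} {N : Type*} [MetricSpace N] [ChartedSpace (EE d) N] {r : ℕ∞}

theorem pow_eq {At : Atlas d N r} {F : Dyn d N r} {ε : ℝ} (G : GeoSys At F ε) (n : ℕ)
    (z : N) : (G.S.f ^ n) z = F^[n] z := by
  induction n generalizing z with
  | zero => rfl
  | succ n ih =>
    rw [pow_succ, Equiv.Perm.mul_apply, ih, G.f_eq, iterate_succ_apply]

theorem coc_frame (hr : 1 ≤ r) {At : Atlas d N r} {F : Dyn d N r} {ε : ℝ}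
    (G : GeoSys At F ε) (n : ℕ) (z : N) (v : EE d) :
    G.S.coc n z (G.frame z v) = G.frame (F^[n] z) (der (d := d) F^[n] z v) := by
  have hF := Pool.Agent.OmegaStab.FinHyp.mdiff hr F
  induction n generalizing z v with
  | zero =>
    have h1 : der (d := d) (F^[0]) z = 1 := Pool.Agent.OmegaStab.FinHyp.der_id z
    rw [h1]
    rfl
  | succ n ih =>
    have h1 : der (d := d) (F^[n + 1]) z = der (d := d) (F^[n]) (F z) * der (d := d) F z := by
      rw [iterate_succ]
      exact Pool.Agent.OmegaStab.FinHyp.der_comp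
        (Pool.Agent.OmegaStab.FinHyp.mdiff_iter hF n) hF z
    have h2 : G.S.coc (n + 1) z (G.frame z v) =
        G.S.coc n (G.S.f z) (G.S.a z (G.frame z v)) := rfl
    rw [h2, G.a_eq, G.f_eq, ih, h1, iterate_succ_apply]
    rfl

end One

end XCoreFib

open XCoreFib in
theorem prf_CoreFib (h1 : QuotHyp.{u, v, w}) : CoreFib.{u, v, w, x} := by
  intro d₁ d₂ d N T M Y _ _ _ _ _ _ _ _ _ _ _ _ _ r hr Φ f f₁ hf θ hθ g hhyp At ε G ι k emb U UE
    hU hUE τ jj ππ hmap hder hgE hgU p s l P hp hsp hl hP0 hPs x hxp hx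
  -- continuity
  have hgc : Continuous g := g.continuous
  have hfc : Continuous f := f.continuous
  have hfn : ∀ t, Continuous (f^[t]) := fun t => hfc.iterate t
  have hgn : ∀ t, Continuous (g^[t]) := fun t => hgc.iterate t
  have hΦc : Continuous Φ := Φ.continuous
  have hbase : ∀ t z, (Φ (f^[t] z)).1 = f₁^[t] (Φ z).1 := by
    intro t z
    induction t with
    | zero => rfl
    | succ t ih => rw [iterate_succ_apply', hf, ih, iterate_succ_apply']
  set a : ℕ → M := fun q => Φ.symm ((τ (s q)).tgt, x q) with ha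
  have hΦa : ∀ q, Φ (a q) = ((τ (s q)).tgt, x q) := fun q => Φ.apply_symm_apply _
  set Hq : ℕ → N → N := fun q y => At.h (jj (s (q + 1))) (ππ (s (q + 1))) (f₁^[l q] y) with hHq
  -- the iterates of `g` and `f` agree during a stage
  have hstep0 : ∀ q < p, ∀ t, t < l q → ∀ᶠ z in 𝓝 (a q), g^[t] z = f^[t] z := by
    intro q hq t
    induction t with
    | zero => intro _; exact Eventually.of_forall fun z => rfl
    | succ t ih =>
      intro ht
      have e1 := ih (by omega)
      have e2 : θ (Φ (f^[t + 1] (a q))) ∈ UE := (hx q hq).2.2 (t + 1) (by omega) ht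
      have e3 : ∀ᶠ z in 𝓝 (a q), θ (Φ (f^[t + 1] z)) ∈ UE :=
        ((hθ.comp (hΦc.comp (hfn (t + 1)))).continuousAt).eventually (hUE.mem_nhds e2)
      filter_upwards [e1, e3] with z hz1 hz2
      rw [iterate_succ_apply', hz1, iterate_succ_apply']
      rw [iterate_succ_apply'] at hz2
      exact Φ.injective (hgE _ hz2)
  have hstep : ∀ q < p, ∀ᶠ z in 𝓝 (a q),
      Φ (g^[l q] z) = (Hq q (Φ z).1, (Φ (f^[l q] z)).2) := by
    intro q hq
    have hlq : 1 ≤ l q := (hl q hq).1
    obtain ⟨t, ht⟩ := Nat.exists_eq_add_of_le' hlq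
    have e1 := hstep0 q hq t (by omega)
    have e2 : θ (Φ (f^[l q] (a q))) ∈ U (emb (s (q + 1))) := (hx q hq).2.1
    have e3 : ∀ᶠ z in 𝓝 (a q), θ (Φ (f^[l q] z)) ∈ U (emb (s (q + 1))) :=
      ((hθ.comp (hΦc.comp (hfn (l q)))).continuousAt).eventually ((hU _).mem_nhds e2)
    filter_upwards [e1, e3] with z hz1 hz2
    have e6 : f^[l q] z = f (f^[t] z) := by rw [ht, iterate_succ_apply']
    have e4 : Φ (g (f^[t] z)) = (At.h (jj (s (q + 1))) (ππ (s (q + 1))) (Φ (f (f^[t] z))).1,
        (Φ (f (f^[t] z))).2) := by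
      refine hgU (s (q + 1)) (f^[t] z) ?_
      rw [← e6]
      exact hz2
    have e5 : g^[l q] z = g (f^[t] z) := by
      rw [ht, iterate_succ_apply', hz1]
    rw [e5, e4, ← e6, hbase]
  have hnext : ∀ q < p, g^[l q] (a q) = a (q + 1) := by
    intro q hq
    have e1 := (hstep q hq).self_of_nhds
    apply Φ.injective
    change Φ (g^[l q] (a q)) = Φ (a (q + 1))
    rw [e1, hΦa, hΦa]
    refine Prod.ext ?_ (hx q hq).1
    change At.h (jj (s (q + 1))) (ππ (s (q + 1))) (f₁^[l q] (τ (s q)).tgt) = _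
    rw [← pow_eq G, (hl q hq).2, hmap]
  let HH : ℕ → N → N := fun q => Nat.rec id (fun q H => Hq q ∘ H) q
  have hHH0 : HH 0 = id := rfl
  have hHHs : ∀ q, HH (q + 1) = Hq q ∘ HH q := fun q => rfl
  have horb : ∀ q, q ≤ p → g^[∑ q' ∈ Finset.range q, l q'] (a 0) = a q := by
    intro q
    induction q with
    | zero => intro _; rfl
    | succ q ih =>
      intro hq
      rw [Finset.sum_range_succ, add_comm, iterate_add_apply, ih (by omega), hnext q (by omega)]
  have hcomp : ∀ q, q ≤ p → ∀ᶠ z in 𝓝 (a 0),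
      (Φ (g^[∑ q' ∈ Finset.range q, l q'] z)).1 = HH q (Φ z).1 := by
    intro q
    induction q with
    | zero => intro _; exact Eventually.of_forall fun z => rfl
    | succ q ih =>
      intro hq
      have e1 := ih (by omega)
      have e2 : Tendsto (g^[∑ q' ∈ Finset.range q, l q']) (𝓝 (a 0)) (𝓝 (a q)) := by
        have := (hgn (∑ q' ∈ Finset.range q, l q')).tendsto (a 0)
        rwa [horb q (by omega)] at this
      have e3 := e2.eventually (hstep q (by omega))
      filter_upwards [e1, e3] with z hz1 hz2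
      rw [Finset.sum_range_succ, add_comm, iterate_add_apply, hz2, hHHs, comp_apply, hz1]
  have hpt : ∀ q, q ≤ p → HH q (τ (s 0)).tgt = (τ (s q)).tgt := by
    intro q
    induction q with
    | zero => intro _; rw [hHH0]; rfl
    | succ q ih =>
      intro hq
      rw [hHHs, Function.comp_apply, ih (by omega)]
      simp only [hHq]
      rw [← pow_eq G, (hl q (by omega)).2, hmap]
  have hmd1 : ∀ t, MDifferentiable (𝓡 d₁) (𝓡 d₁) f₁^[t] := fun t =>
    Pool.Agent.OmegaStab.FinHyp.mdiff_iter (Pool.Agent.OmegaStab.FinHyp.mdiff hr f₁) t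
  have hmdq : ∀ q, MDifferentiable (𝓡 d₁) (𝓡 d₁) (Hq q) := fun q =>
    (Pool.Agent.OmegaStab.FinHyp.mdiff hr
      (At.h (jj (s (q + 1))) (ππ (s (q + 1))))).comp (hmd1 (l q))
  have hmdH : ∀ q, MDifferentiable (𝓡 d₁) (𝓡 d₁) (HH q) := by
    intro q
    induction q with
    | zero => exact mdifferentiable_id
    | succ q ih => exact (hmdq q).comp ih
  have hderq : ∀ q, ∀ z v, der (d := d₁) (Hq q) z v =
      der (d := d₁) (At.h (jj (s (q + 1))) (ππ (s (q + 1)))) (f₁^[l q] z)
        (der (d := d₁) f₁^[l q] z v) := by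
    intro q z v
    have := Pool.Agent.OmegaStab.FinHyp.der_comp
      (Pool.Agent.OmegaStab.FinHyp.mdiff hr
        (At.h (jj (s (q + 1))) (ππ (s (q + 1))))) (hmd1 (l q)) z
    exact congrArg (fun T : EE d₁ →L[ℝ] EE d₁ => T v) this
  have hframe : ∀ q, q ≤ p → ∀ v, G.frame (τ (s q)).tgt (der (d := d₁) (HH q) (τ (s 0)).tgt v) =
      P q (G.frame (τ (s 0)).tgt v) := by
    intro q
    induction q with
    | zero =>
      intro _ v
      rw [hHH0, hP0, Pool.Agent.OmegaStab.FinHyp.der_id]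
      rfl
    | succ q ih =>
      intro hq v
      have e1 : der (d := d₁) (HH (q + 1)) (τ (s 0)).tgt v =
          der (d := d₁) (Hq q) (HH q (τ (s 0)).tgt) (der (d := d₁) (HH q) (τ (s 0)).tgt v) := by
        have := Pool.Agent.OmegaStab.FinHyp.der_comp (hmdq q) (hmdH q) (τ (s 0)).tgt
        exact congrArg (fun T : EE d₁ →L[ℝ] EE d₁ => T v) this
      rw [e1, hpt q (by omega), hderq, hPs q (by omega)]
      have e2 : f₁^[l q] (τ (s q)).tgt = (τ (s (q + 1))).src := by
        rw [← pow_eq G, (hl q (by omega)).2]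
      have e3 := coc_frame hr G (l q) (τ (s q)).tgt (der (d := d₁) (HH q) (τ (s 0)).tgt v)
      rw [e2, ih (by omega) v] at e3
      rw [e2, ← hder (s (q + 1)), ← e3]
      rfl
  obtain ⟨n, hn⟩ : ∃ n, n = ∑ q ∈ Finset.range p, l q := ⟨_, rfl⟩
  have hnpos : 0 < n := by
    rw [hn]
    have e1 : l 0 ≤ ∑ q ∈ Finset.range p, l q :=
      Finset.single_le_sum (fun _ _ => Nat.zero_le _) (Finset.mem_range.2 hp)
    have e2 := (hl 0 hp).1
    omega
  have hfixa : g^[n] (a 0) = a 0 := by
    rw [hn, horb p le_rfl]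
    simp only [ha, hsp, hxp]
  have hper : a 0 ∈ periodicPts g := ⟨n, hnpos, hfixa⟩
  have hev : ∀ᶠ q in 𝓝 (a 0), (Φ (g^[n] q)).1 = HH p (Φ q).1 := by
    rw [hn]
    exact hcomp p le_rfl
  have hlin := h1 d₁ d₂ d N T M r hr Φ g n (a 0) (HH p) hnpos (hhyp _ hper) hfixa
    ((hmdH p) _) hev
  have hΦ0 : (Φ (a 0)).1 = (τ (s 0)).tgt := by rw [hΦa]
  rw [hΦ0] at hlin
  refine hypLin_conj (G.frame (τ (s 0)).tgt) (fun v => ?_) hlin
  have := hframe p le_rfl v
  rw [hsp] at this
  exact this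

end Pool.Agent.OmegaFT
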