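import Pool.Agent.Work.MP_814647_an.FT.Stmts3
import Pool.Agent.Work.MP_814647_an.FT.I_FibClosed

/-!
# Item FibClosedOn: closed chains of the fibred map are approximated by periodic orbits
(hyperbolicity along the fibres over the chain recurrent set only)
-/

open Set Filter Topology Function
open scoped Manifold ContDiff

noncomputable section

namespace Pool.Agent.OmegaFT

open Pool.Agent.OmegaStab (EE HypLin)

universe u v

namespace XFibClosedOn

/-- The first point of a closed pseudo-orbit with small jumps is close to the chain recurrent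
set. -/
theorem cr_first {M : Type*} [MetricSpace M] [CompactSpace M] {F : M → M} (hF : Continuous F)
    (δ : ℝ) (hδ : 0 < δ) :
    ∃ ε > 0, ∀ (n : ℕ) (z : ℕ → M), 0 < n → z n = z 0 →
      (∀ i < n, dist (F (z i)) (z (i + 1)) ≤ ε) → ∃ w ∈ ChainRec F, dist (z 0) w ≤ δ := by
  by_contra hcon
  push Not at hcon
  have hpos : ∀ k : ℕ, (0 : ℝ) < 1 / ((k : ℝ) + 1) := fun k => Nat.one_div_pos_of_nat
  choose n z hn hz hj hfar using fun k : ℕ => hcon (1 / ((k : ℝ) + 1)) (hpos k)
  obtain ⟨x, ψ, hψ, hx⟩ := CompactSpace.tendsto_subseq (fun k => z k 0)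
  have hlim0 : Tendsto (fun j : ℕ => 1 / (((ψ j : ℕ) : ℝ) + 1)) atTop (𝓝 0) :=
    tendsto_one_div_add_atTop_nhds_zero_nat.comp hψ.tendsto_atTop
  have hxC : x ∈ ChainRec F := by
    intro ε hε
    have hc : ∀ᶠ j in atTop, dist (F (z (ψ j) 0)) (F x) < ε / 3 := by
      have h1 : Tendsto (fun j => F (z (ψ j) 0)) atTop (𝓝 (F x)) := (hF.tendsto x).comp hx
      exact (Metric.tendsto_nhds.1 h1) (ε / 3) (by linarith)
    have hd : ∀ᶠ j in atTop, dist (z (ψ j) 0) x < ε / 3 :=
      (Metric.tendsto_nhds.1 hx) (ε / 3) (by linarith)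
    have he : ∀ᶠ j in atTop, 1 / (((ψ j : ℕ) : ℝ) + 1) < ε / 3 :=
      hlim0.eventually (gt_mem_nhds (by linarith))
    obtain ⟨j, hj1, hj2, hj3⟩ := (hc.and (hd.and he)).exists
    refine ⟨n (ψ j), fun i => if i = 0 ∨ i = n (ψ j) then x else z (ψ j) i, hn _, by simp,
      by simp, fun i hi => ?_⟩
    have e1 : dist (F (if i = 0 ∨ i = n (ψ j) then x else z (ψ j) i)) (F (z (ψ j) i))
        ≤ ε / 3 := by
      split_ifs with h
      · rcases h with h | h
        · rw [h, dist_comm]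
          exact hj1.le
        · omega
      · rw [dist_self]
        linarith
    have e2 : dist (z (ψ j) (i + 1))
        (if i + 1 = 0 ∨ i + 1 = n (ψ j) then x else z (ψ j) (i + 1)) ≤ ε / 3 := by
      by_cases h : i + 1 = 0 ∨ i + 1 = n (ψ j)
      · rw [if_pos h]
        rcases h with h | h
        · omega
        · rw [h, hz]
          exact hj2.le
      · rw [if_neg h, dist_self]
        linarith
    have e3 : dist (F (z (ψ j) i)) (z (ψ j) (i + 1)) ≤ ε / 3 := (hj (ψ j) i hi).trans hj3.le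
    calc _ ≤ dist (F (if i = 0 ∨ i = n (ψ j) then x else z (ψ j) i)) (F (z (ψ j) i)) +
          dist (F (z (ψ j) i)) (z (ψ j) (i + 1)) + dist (z (ψ j) (i + 1))
            (if i + 1 = 0 ∨ i + 1 = n (ψ j) then x else z (ψ j) (i + 1)) :=
          dist_triangle4 _ _ _ _
      _ ≤ ε := by linarith
  have hd : ∀ᶠ j in atTop, dist (z (ψ j) 0) x < δ :=
    (Metric.tendsto_nhds.1 hx) δ hδ
  obtain ⟨j, hj1⟩ := hd.exists
  exact absurd (hfar (ψ j) x hxC) (not_lt.2 hj1.le)

/-- All points of a closed pseudo-orbit with small jumps are close to the chain recurrent set. -/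
theorem cr_all {M : Type*} [MetricSpace M] [CompactSpace M] {F : M → M} (hF : Continuous F)
    (δ : ℝ) (hδ : 0 < δ) :
    ∃ ε > 0, ∀ (n : ℕ) (z : ℕ → M), 0 < n → z n = z 0 →
      (∀ i < n, dist (F (z i)) (z (i + 1)) ≤ ε) → ∀ i < n, ∃ w ∈ ChainRec F,
        dist (z i) w ≤ δ := by
  obtain ⟨ε, hε, h⟩ := cr_first hF δ hδ
  refine ⟨ε, hε, fun n z hn hz hj i hi => ?_⟩
  have h1 := h n (fun j => z ((i + j) % n)) hn (by simp) (fun j _ => by
    have h2 : z ((i + (j + 1)) % n) = z ((i + j) % n + 1) := by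
      by_cases h3 : (i + j) % n + 1 = n
      · rw [h3, hz]
        congr 1
        rw [← add_assoc, Nat.add_mod, ← h3]
        by_cases h4 : (i + j) % n = 0
        · rw [h4]
          simp [Nat.mod_one]
        · have h5 : 1 % ((i + j) % n + 1) = 1 := Nat.mod_eq_of_lt (by omega)
          have h6 : (i + j) % ((i + j) % n + 1) = (i + j) % n := by rw [h3]
          rw [h5, h6]
          exact Nat.mod_self _
      · congr 1
        have h4 : (i + j) % n < n := Nat.mod_lt _ hn
        rw [← add_assoc, ← Nat.mod_add_mod]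
        exact Nat.mod_eq_of_lt (by omega)
    rw [h2]
    exact hj _ (Nat.mod_lt _ hn))
  simpa [Nat.mod_eq_of_lt hi] using h1

end XFibClosedOn

open XFibClosed XFibClosedOn in
theorem prf_FibClosedOn : FibClosedOn.{u, v} := by
  intro m N T _ _ _ _ e A φ f₁ F he _ _ hFc hL hCT hVS p hp z hz
  rw [Metric.mem_closure_iff]
  intro ε hε
  -- the first coordinate
  have hF1 : ∀ w, (F w).1 = f₁ w.1 := by
    rintro ⟨x, y⟩
    obtain ⟨v, rfl⟩ := he.surj y
    rw [hL.eq]
  have hFn : ∀ (t : ℕ) w, (F^[t] w).1 = f₁^[t] w.1 := by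
    intro t
    induction t with
    | zero => intro w; rfl
    | succ t ih =>
      intro w
      rw [Function.iterate_succ_apply', Function.iterate_succ_apply', hF1, ih]
  -- constants
  obtain ⟨ρe, hρe, hEU⟩ := e_unif he (ε / 4) (by linarith)
  obtain ⟨δ, hδ, hsh⟩ := hVS ρe hρe
  obtain ⟨ρφ, hρφ, hφU⟩ := phi_unif he φ hL.cont hL.per (δ / 2) (by linarith)
  obtain ⟨ρl, hρl, hEL⟩ := e_lift he (δ / 2) (by linarith)
  obtain ⟨ε₄, hε₄, hCR⟩ := cr_all hFc (min (δ / 2) ρl) (lt_min (by linarith) hρl)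
  set ε₁ : ℝ := min (min ρφ (δ / 2)) (ε / 4) with hε₁
  have hε₁0 : 0 < ε₁ := lt_min (lt_min hρφ (by linarith)) (by linarith)
  obtain ⟨ε₂, n₁, hε₂, hct⟩ := hCT p hp ε₁ hε₁0
  set ε₃ : ℝ := min (min ε₂ ε₄) (min ρl (ε / 4)) with hε₃
  have hε₃0 : 0 < ε₃ := lt_min (lt_min hε₂ hε₄) (lt_min hρl (by linarith))
  obtain ⟨y, n, hy0, hn, hyc⟩ := hz ε₃ hε₃0 (max n₁ 1)
  have hn1 : ∀ q, 1 ≤ n q := fun q => (le_max_right _ _).trans (hn q)
  obtain ⟨uu, hu1, hu2⟩ := hct (fun q => (y q).1) n (fun q => (le_max_left _ _).trans (hn q))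
    (fun q => by
      rw [← hFn]
      refine le_trans ?_ ((hyc q).trans ((min_le_left _ _).trans (min_le_left _ _)))
      rw [Prod.dist_eq]
      exact le_max_left _ _)
  -- time
  obtain ⟨τ, hτp, hτ⟩ := stp_stages n hn1 p
  have hτ0 : (stp n)^[τ] ((0 : ZMod p), 0) = ((0 : ZMod p), 0) := by
    rw [hτ, ZMod.natCast_self]
  set s : ℕ → ZMod p × ℕ := fun k => (stp n)^[k] ((0 : ZMod p), 0) with hs
  have hsucc : ∀ k, s (k + 1) = stp n (s k) := fun k => Function.iterate_succ_apply' _ _ _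
  have hs0 : s 0 = ((0 : ZMod p), 0) := rfl
  have hsτ : s τ = s 0 := hτ0
  have hinv : ∀ k, (s k).2 < n (s k).1 := fun k => stp_inv n hn1 k
  let ℓ : T → EE m := Function.surjInv he.surj
  have hℓ : ∀ a, e (ℓ a) = a := Function.surjInv_eq he.surj
  let X : ℕ → N := fun k => f₁^[(s k).2] (uu (s k).1)
  let V : ℕ → EE m := fun k => ℓ (F^[(s k).2] (y (s k).1)).2
  have hX : ∀ k, X (k + 1) = f₁ (X k) := by
    intro k
    simp only [X, hsucc k]
    unfold stp
    split_ifs with h
    · simp only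
      rw [← Function.iterate_succ_apply' f₁, Nat.succ_eq_add_one, h, hu1]
      rfl
    · simp only
      rw [Function.iterate_succ_apply']
  have hXd : ∀ k, dist (X k) (F^[(s k).2] (y (s k).1)).1 ≤ ε₁ := by
    intro k
    rw [hFn]
    exact hu2 _ _ (hinv k).le
  have hstep : ∀ k, (F^[(s k).2 + 1] (y (s k).1)).2 =
      e (A (V k) + φ (F^[(s k).2] (y (s k).1)).1 (V k)) := by
    intro k
    rw [Function.iterate_succ_apply']
    have h1 : F^[(s k).2] (y (s k).1) = ((F^[(s k).2] (y (s k).1)).1, e (V k)) := by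
      have h2 : e (V k) = (F^[(s k).2] (y (s k).1)).2 := hℓ _
      rw [h2]
    have h3 := hL.eq (F^[(s k).2] (y (s k).1)).1 (V k)
    rw [← h1] at h3
    rw [h3]
  have hV : ∀ k, dist (e (A (V k) + φ (F^[(s k).2] (y (s k).1)).1 (V k))) (e (V (k + 1)))
      ≤ ρl := by
    intro k
    rw [← hstep k]
    have h1 : e (V (k + 1)) = (F^[(s (k + 1)).2] (y (s (k + 1)).1)).2 := hℓ _
    rw [h1, hsucc k]
    unfold stp
    split_ifs with h
    · simp only
      rw [h]
      refine le_trans ?_ ((hyc (s k).1).trans ((min_le_right _ _).trans (min_le_left _ _)))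
      rw [Prod.dist_eq]
      exact le_max_right _ _
    · simp only
      rw [dist_self]
      exact hρl.le
  have hPO : PseudoOrb f₁ (fun x v => A v + φ x v) δ τ X V := by
    refine ⟨by omega, ?_, ?_, fun k _ => ⟨?_, ?_⟩⟩
    · simp only [X, hsτ]
    · simp only [V, hsτ]
    · rw [hX k, dist_self]
      exact hδ.le
    · obtain ⟨l, hl⟩ := hEL _ _ (hV k)
      refine ⟨l, ?_⟩
      have h1 := hφU _ _ ((hXd k).trans ((min_le_left _ _).trans (min_le_left _ _))) (V k)
      have h2 : A (V k) + φ (X k) (V k) + iv l - V (k + 1) =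
          (A (V k) + φ (F^[(s k).2] (y (s k).1)).1 (V k) + iv l - V (k + 1)) +
          (φ (X k) (V k) - φ (F^[(s k).2] (y (s k).1)).1 (V k)) := by abel
      rw [h2]
      exact (norm_add_le _ _).trans (by linarith)
  have hτ1 : 0 < τ := by omega
  have hW : ∀ k < τ, dist (F (F^[(s k).2] (y (s k).1))) (F^[(s (k + 1)).2] (y (s (k + 1)).1))
      ≤ ε₄ := by
    intro k _
    rw [← Function.iterate_succ_apply' F, hsucc k]
    unfold stp
    split_ifs with h
    · simp only [Nat.succ_eq_add_one]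
      rw [h]
      exact (hyc (s k).1).trans ((min_le_left _ _).trans (min_le_right _ _))
    · simp only [Nat.succ_eq_add_one]
      rw [dist_self]
      exact hε₄.le
  have hPOn : PseudoOrbOn f₁ (fun x v => A v + φ x v) {z | (z.1, e z.2) ∈ ChainRec F} δ τ X V := by
    refine ⟨hPO, fun t ht => ?_⟩
    obtain ⟨w, hw, hwd⟩ := hCR τ (fun k => F^[(s k).2] (y (s k).1)) hτ1
      (by simp only [hsτ]) hW t ht
    have hd1 : dist (F^[(s t).2] (y (s t).1)).1 w.1 ≤ δ / 2 :=
      (le_trans (by rw [Prod.dist_eq]; exact le_max_left _ _) hwd).trans (min_le_left _ _)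
    have hd2 : dist (F^[(s t).2] (y (s t).1)).2 w.2 ≤ ρl :=
      (le_trans (by rw [Prod.dist_eq]; exact le_max_right _ _) hwd).trans (min_le_right _ _)
    obtain ⟨l, hl⟩ := hEL (V t) (ℓ w.2) (by
      have h1 : e (V t) = (F^[(s t).2] (y (s t).1)).2 := hℓ _
      rw [h1, hℓ]
      exact hd2)
    refine ⟨(w.1, ℓ w.2 + iv (-l)), ?_, ?_, ?_⟩
    · show (w.1, e (ℓ w.2 + iv (-l))) ∈ ChainRec F
      rw [e_add he, hℓ]
      exact hw
    · calc dist (X t) w.1 ≤ dist (X t) (F^[(s t).2] (y (s t).1)).1 +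
            dist (F^[(s t).2] (y (s t).1)).1 w.1 := dist_triangle _ _ _
        _ ≤ δ / 2 + δ / 2 := add_le_add
            ((hXd t).trans ((min_le_left _ _).trans (min_le_right _ _))) hd1
        _ = δ := by ring
    · have h1 : V t - (ℓ w.2 + iv (-l)) = V t + iv l - ℓ w.2 := by
        rw [iv_neg]
        abel
      simp only
      rw [h1]
      linarith
  obtain ⟨zz, hzτ, hzb, hzs⟩ := hsh τ X V hPOn
  -- the periodic orbit
  have horb : ∀ k, k ≤ τ → F^[k] (X 0, e (V 0 + zz 0)) = (X k, e (V k + zz k)) := by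
    intro k
    induction k with
    | zero => intro _; rfl
    | succ k ih =>
      intro hk
      rw [Function.iterate_succ_apply', ih (by omega), hL.eq, hX k]
      obtain ⟨l, hl⟩ := hzs k (by omega)
      rw [← hl]
      have := e_add he (A (V k + zz k) + φ (X k) (V k + zz k)) l
      rw [this]
  refine ⟨(X 0, e (V 0 + zz 0)), ?_, ?_⟩
  · refine ⟨τ, hτ1, ?_⟩
    have h1 := horb τ le_rfl
    have h2 : X τ = X 0 := by simp only [X, hsτ]
    have h3 : V τ = V 0 := by simp only [V, hsτ]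
    rw [h2, h3, hzτ] at h1
    exact h1
  · have h1 : dist (y 0) (X 0, e (V 0 + zz 0)) ≤ ε / 4 := by
      rw [Prod.dist_eq]
      apply max_le
      · have h2 := hXd 0
        rw [dist_comm]
        exact h2.trans (min_le_right _ _)
      · have h2 : e (V 0) = (y 0).2 := hℓ _
        have h3 := hEU (V 0) (zz 0) (hzb 0 (by omega))
        rw [dist_comm, h2] at h3
        exact h3
    have h2 : dist (y 0) z ≤ ε / 4 := hy0.trans ((min_le_right _ _).trans (min_le_right _ _))
    calc dist z (X 0, e (V 0 + zz 0)) ≤ dist z (y 0) + dist (y 0) (X 0, e (V 0 + zz 0)) :=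
          dist_triangle _ _ _
      _ ≤ ε / 4 + ε / 4 := add_le_add (by rw [dist_comm]; exact h2) h1
      _ < ε := by linarith

end Pool.Agent.OmegaFT
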