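import Pool.Agent.Work.MP_814647_an.FT.Stmts2
import Pool.Agent.Work.MP_814647_an.Bd.B06
import Pool.Agent.Work.MP_814647_an.Bd.B08
import Pool.Agent.Work.MP_814647_an.PS.ProdHyp
import Pool.Agent.Work.MP_814647_an.Metric

/-!
# Block FT, item FibHyp: hyperbolicity of an extension with hyperbolic fibres
-/

open Set Filter Topology Function
open scoped Manifold ContDiff

noncomputable section

namespace Pool.Agent.OmegaFT

open Pool.Agent.OmegaStab (EE Dyn)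
open Pool.Agent.OmegaStab.FinHyp (der)
open Pool.Agent.OmegaPS
open Pool.Agent.OmegaStability

universe u v w

namespace XFibHyp

/-- Vectors of a contracted and of an expanded subspace have a bounded angle. -/
theorem angle {X : Type*} (σ : X ≃ X) {d : ℕ} (a : X → EE d ≃L[ℝ] EE d) {K C μ : ℝ} (hK : 1 ≤ K)
    (hμ : 0 < μ) (hμ1 : μ < 1) (ha : ∀ x v, ‖a x v‖ ≤ K * ‖v‖)
    (Ws Wu : X → Submodule ℝ (EE d))
    (cs : ∀ x, ∀ s ∈ Ws x, ∀ n : ℕ, ‖cocyc σ a n x s‖ ≤ C * μ ^ n * ‖s‖)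
    (cu : ∀ x, ∀ u ∈ Wu x, ∀ n : ℕ, ‖u‖ ≤ C * μ ^ n * ‖cocyc σ a n x u‖) :
    ∃ C' : ℝ, 1 ≤ C' ∧ ∀ x, ∀ s ∈ Ws x, ∀ u ∈ Wu x, ‖s‖ ≤ C' * ‖s + u‖ ∧
      ‖u‖ ≤ C' * ‖s + u‖ := by
  obtain ⟨n, hn⟩ : ∃ n : ℕ, C * μ ^ n ≤ 1 / 4 := by
    have h := (tendsto_pow_atTop_nhds_zero_of_lt_one hμ.le hμ1).const_mul C
    rw [mul_zero] at h
    exact ((h.eventually (gt_mem_nhds (show (0 : ℝ) < 1 / 4 by norm_num))).mono
      fun n hn => hn.le).exists
  have hcoc : ∀ (n : ℕ) (x : X) (v : EE d), ‖cocyc σ a n x v‖ ≤ K ^ n * ‖v‖ := by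
    intro n
    induction n with
    | zero =>
      intro x v
      simp [cocyc]
    | succ n ih =>
      intro x v
      have h1 : cocyc σ a (n + 1) x v = cocyc σ a n (σ x) (a x v) := rfl
      rw [h1]
      calc ‖cocyc σ a n (σ x) (a x v)‖ ≤ K ^ n * ‖a x v‖ := ih _ _
        _ ≤ K ^ n * (K * ‖v‖) := by
          apply mul_le_mul_of_nonneg_left (ha x v)
          positivity
        _ = K ^ (n + 1) * ‖v‖ := by ring
  have hKn : 1 ≤ K ^ n := one_le_pow₀ hK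
  refine ⟨K ^ n + 2, by linarith, fun x s hs u hu => ?_⟩
  have h1 := hcoc n x (s + u)
  have h2 := cs x s hs n
  have h3 := cu x u hu n
  have h4 : cocyc σ a n x u = cocyc σ a n x (s + u) - cocyc σ a n x s := by
    rw [map_add]
    abel
  have h5 : ‖cocyc σ a n x u‖ ≤ ‖cocyc σ a n x (s + u)‖ + ‖cocyc σ a n x s‖ := by
    rw [h4]
    exact norm_sub_le _ _
  have h6 : ‖s‖ ≤ ‖s + u‖ + ‖u‖ := by
    have : s = (s + u) - u := by abel
    calc ‖s‖ = ‖(s + u) - u‖ := by rw [← this]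
      _ ≤ _ := norm_sub_le _ _
  have h7 : ‖cocyc σ a n x s‖ ≤ 1 / 4 * ‖s‖ := h2.trans (by
    apply mul_le_mul_of_nonneg_right hn (norm_nonneg _))
  have h8 : ‖u‖ ≤ 1 / 4 * ‖cocyc σ a n x u‖ := h3.trans (by
    apply mul_le_mul_of_nonneg_right hn (norm_nonneg _))
  have h9 := norm_nonneg (s + u)
  have h10 : ‖u‖ ≤ (K ^ n + 1) * ‖s + u‖ := by nlinarith [norm_nonneg u, norm_nonneg s]
  constructor
  · nlinarith
  · nlinarith

section

variable {d : ℕ} {M : Type*} [MetricSpace M] [ChartedSpace (EE d) M]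
  [IsManifold (𝓡 d) ∞ M]

/-- The tangent space as a bare vector space. -/
def Syn (d : ℕ) : Type := EE d

instance (d : ℕ) : AddCommGroup (Syn d) := inferInstanceAs (AddCommGroup (EE d))
instance (d : ℕ) : Module ℝ (Syn d) := inferInstanceAs (Module ℝ (EE d))

theorem finrank_syn (d : ℕ) : Module.finrank ℝ (Syn d) = d := by
  show Module.finrank ℝ (EE d) = d
  simp

instance (d : ℕ) : FiniteDimensional ℝ (Syn d) := inferInstanceAs (FiniteDimensional ℝ (EE d))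

theorem exists_frame_aux {d : ℕ} (B : EE d →L[ℝ] EE d →L[ℝ] ℝ) (hsym : ∀ v w, B v w = B w v)
    (hpos : ∀ v : EE d, v ≠ 0 → 0 < B v v) : ∃ F : EE d ≃L[ℝ] EE d, ∀ v, ‖F v‖ = √(B v v) := by
  have k0 : ∀ v : EE d, v = 0 → B v v = 0 := by
    rintro v rfl
    simp
  have k1 : ∀ x y z : EE d, B (x + y) z = B x z + B y z := by
    intro x y z
    rw [map_add]
    rfl
  have k2 : ∀ (x y : EE d) (r : ℝ), B (r • x) y = r * B x y := by
    intro x y r
    rw [map_smul]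
    rfl
  have k3 : ∀ v : EE d, 0 ≤ B v v := by
    intro v
    by_cases hv : v = 0
    · exact (k0 v hv).ge
    · exact (hpos v hv).le
  have k4 : ∀ v : EE d, B v v = 0 → v = 0 := by
    intro v hv
    by_contra h
    exact (hpos v h).ne' hv
  let core : InnerProductSpace.Core ℝ (Syn d) :=
    { inner := fun v w => B v w
      conj_inner_symm := fun v w => hsym w v
      re_inner_nonneg := fun v => k3 v
      add_left := fun x y z => k1 x y z
      smul_left := fun x y r => k2 x y r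
      definite := fun v hv => k4 v hv }
  let _ : NormedAddCommGroup (Syn d) := core.toNormedAddCommGroup
  let _ : InnerProductSpace ℝ (Syn d) := InnerProductSpace.ofCore core.toCore
  let b : OrthonormalBasis (Fin d) ℝ (Syn d) :=
    (stdOrthonormalBasis ℝ (Syn d)).reindex (finCongr (finrank_syn d))
  let L : EE d ≃ₗ[ℝ] EE d := b.repr.toLinearEquiv
  have key : ∀ v : Syn d, ‖b.repr v‖ = √(B v v) := fun v =>
    (b.repr.norm_map v).trans (norm_eq_sqrt_real_inner v)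
  exact ⟨L.toContinuousLinearEquiv, fun v => key v⟩

/-- A frame in which the Riemannian norm is the norm of the model space. -/
theorem exists_frame (γ : RMetric (EE d) M) (x : M) :
    ∃ F : EE d ≃L[ℝ] EE d, ∀ v : EE d, ‖F v‖ = rnorm γ x v :=
  exists_frame_aux (γ.inner x) (fun v w => γ.symm x v w) (fun v hv => γ.pos x v hv)

end


section

variable {d : ℕ} {M : Type*} [MetricSpace M] [ChartedSpace (EE d) M]
  [IsManifold (𝓡 d) ∞ M] {r : ℕ∞}

omit [IsManifold (𝓡 d) ∞ M] in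
/-- The cocycle in frames. -/
theorem cocyc_eq {X : Type*} (σ : X ≃ X) (π : X → M) (g : M → M) (hπ : ∀ x, π (σ x) = g (π x))
    (hg : MDifferentiable (𝓡 d) (𝓡 d) g) (F : M → (EE d ≃L[ℝ] EE d)) (a : X → EE d ≃L[ℝ] EE d)
    (ha : ∀ x v, a x v = F (g (π x)) (der (d := d) g (π x) ((F (π x)).symm v))) :
    ∀ (n : ℕ) (x : X) (v : EE d), cocyc σ a n x v =
      F (g^[n] (π x)) (der (d := d) g^[n] (π x) ((F (π x)).symm v)) := by
  intro n
  induction n with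
  | zero =>
    intro x v
    show v = F (π x) (der (d := d) id (π x) ((F (π x)).symm v))
    rw [OmegaStab.FinHyp.der_id]
    simp
  | succ n ih =>
    intro x v
    show cocyc σ a n (σ x) (a x v) = _
    rw [ih, ha, hπ, ContinuousLinearEquiv.symm_apply_apply]
    have h := OmegaStab.FinHyp.der_comp (OmegaStab.FinHyp.mdiff_iter hg n) hg (π x)
    rw [← Function.iterate_succ] at h
    rw [h]
    rfl

/-- The derivative as an equivalence. -/
def dE (hr : 1 ≤ r) (f : Dyn d M r) (x : M) : EE d ≃L[ℝ] EE d :=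
  f.mfderivToContinuousLinearEquiv (by
    intro h
    have : (r : WithTop ℕ∞) = 0 := h
    have h2 : r = 0 := by exact_mod_cast this
    rw [h2] at hr
    exact absurd hr (by norm_num)) x

theorem dE_apply (hr : 1 ≤ r) (f : Dyn d M r) (x : M) (v : EE d) :
    dE hr f x v = der (d := d) f x v := rfl

/-- The derivative in frames. -/
def A (hr : 1 ≤ r) (f : Dyn d M r) (F : M → (EE d ≃L[ℝ] EE d)) (x : M) : EE d ≃L[ℝ] EE d :=
  ((F x).symm.trans (dE hr f x)).trans (F (f x))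

theorem A_apply (hr : 1 ≤ r) (f : Dyn d M r) (F : M → (EE d ≃L[ℝ] EE d)) (x : M) (v : EE d) :
    A hr f F x v = F (f x) (der (d := d) f x ((F x).symm v)) := rfl

theorem der_iter_symm (hr : 1 ≤ r) (f : Dyn d M r) (n : ℕ) (x : M) (v : EE d) :
    der (d := d) f.symm^[n] (f^[n] x) (der (d := d) f^[n] x v) = v := by
  have h := OmegaStab.FinHyp.der_comp
    (OmegaStab.FinHyp.mdiff_iter (OmegaStab.FinHyp.mdiff hr f.symm) n)
    (OmegaStab.FinHyp.mdiff_iter (OmegaStab.FinHyp.mdiff hr f) n) x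
  have h2 : (f.symm^[n] ∘ f^[n] : M → M) = id := by
    funext y
    exact (Function.LeftInverse.iterate (fun z => f.symm_apply_apply z) n) y
  rw [h2, OmegaStab.FinHyp.der_id] at h
  exact (congrArg (fun T : EE d →L[ℝ] EE d => T v) h).symm

theorem der_symm (hr : 1 ≤ r) (f : Dyn d M r) (x : M) (v : EE d) :
    der (d := d) f.symm (f x) (der (d := d) f x v) = v := der_iter_symm hr f 1 x v

theorem der_symm' (hr : 1 ≤ r) (f : Dyn d M r) (x : M) (v : EE d) :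
    der (d := d) f (f.symm x) (der (d := d) f.symm x v) = v := der_symm hr f.symm x v

theorem A_symm_apply (hr : 1 ≤ r) (f : Dyn d M r) (F : M → (EE d ≃L[ℝ] EE d)) (x : M) (v : EE d) :
    (A hr f F (f.symm x)).symm v = F (f.symm x) (der (d := d) f.symm x ((F x).symm v)) := by
  apply (A hr f F (f.symm x)).injective
  rw [ContinuousLinearEquiv.apply_symm_apply, A_apply, ContinuousLinearEquiv.symm_apply_apply,
    der_symm' hr f, f.apply_symm_apply, ContinuousLinearEquiv.apply_symm_apply]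

variable {γ : RMetric (EE d) M} {F : M → (EE d ≃L[ℝ] EE d)}
  (hF : ∀ (x : M) (v : EE d), ‖F x v‖ = rnorm γ x v)

include hF in
theorem norm_symm (x : M) (v : EE d) : rnorm γ x ((F x).symm v) = ‖v‖ := by
  rw [← hF, ContinuousLinearEquiv.apply_symm_apply]

include hF in
theorem A_bound [CompactSpace M] (hr : 1 ≤ r) (f : Dyn d M r) : ∃ K : ℝ, 1 ≤ K ∧
    ∀ (x : M) (v : EE d), ‖A hr f F x v‖ ≤ K * ‖v‖ ∧ ‖v‖ ≤ K * ‖A hr f F x v‖ := by
  have c1 : ContMDiff (𝓡 d) (𝓡 d) 1 f := f.contMDiff.of_le (by exact_mod_cast hr)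
  have c2 : ContMDiff (𝓡 d) (𝓡 d) 1 f.symm := f.symm.contMDiff.of_le (by exact_mod_cast hr)
  obtain ⟨β, hβ, h1⟩ := rnorm_compare γ γ c1
  obtain ⟨β', hβ', h2⟩ := rnorm_compare γ γ c2
  refine ⟨β + β' + 1, by linarith, fun x v => ⟨?_, ?_⟩⟩
  · rw [A_apply, hF]
    have h := h1 x ((F x).symm v)
    have e := norm_symm hF x v
    have h' : rnorm γ (f x) (der (d := d) f x ((F x).symm v)) ≤ β * ‖v‖ := by
      rw [← e]
      exact h
    exact h'.trans (mul_le_mul_of_nonneg_right (by linarith) (norm_nonneg _))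
  · rw [A_apply, hF]
    have h := h2 (f x) (der (d := d) f x ((F x).symm v))
    have e1 : rnorm γ (f.symm (f x)) (der (d := d) f.symm (f x)
        (der (d := d) f x ((F x).symm v))) = ‖v‖ := by
      rw [der_symm hr f, ProdHyp.rnorm_congr γ (f.symm_apply_apply x)]
      exact norm_symm hF x v
    have h' : ‖v‖ ≤ β' * rnorm γ (f x) (der (d := d) f x ((F x).symm v)) := by
      rw [← e1]
      exact h
    exact h'.trans (mul_le_mul_of_nonneg_right (by linarith) (Real.sqrt_nonneg _))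

include hF in
theorem con_cocyc {X : Type*} (σ : X ≃ X) (π : X → M) (hr : 1 ≤ r) (f : Dyn d M r)
    (hπ : ∀ x, π (σ x) = f (π x)) {Λ : Set M} (hΛ : ∀ x, π x ∈ Λ) {V : TFamily (EE d) M}
    {c μ : ℝ} (h : ContractedOver f γ V Λ c μ) (x : X) (s : EE d)
    (hs : (((F (π x)).symm s : EE d)) ∈ V (π x)) (n : ℕ) :
    ‖cocyc σ (fun x => A hr f F (π x)) n x s‖ ≤ c * μ ^ n * ‖s‖ := by
  rw [cocyc_eq σ π f hπ (OmegaStab.FinHyp.mdiff hr f) F _ (fun x v => A_apply hr f F (π x) v), hF,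
    ← norm_symm hF (π x) s]
  exact h (π x) (hΛ x) _ hs n

theorem inv_iter (hr : 1 ≤ r) (f : Dyn d M r) {Λ : Set M} (hΛ : ∀ x ∈ Λ, f x ∈ Λ)
    {V : TFamily (EE d) M} (hi : InvariantOver f V Λ) (n : ℕ) : ∀ x ∈ Λ, ∀ v : EE d, v ∈ V x →
      f^[n] x ∈ Λ ∧ (der (d := d) f^[n] x v : EE d) ∈ V (f^[n] x) := by
  induction n with
  | zero =>
    intro x hx v hv
    refine ⟨hx, ?_⟩
    show (der (d := d) id x v : EE d) ∈ V x
    rw [OmegaStab.FinHyp.der_id]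
    exact hv
  | succ n ih =>
    intro x hx v hv
    have h := OmegaStab.FinHyp.der_comp
      (OmegaStab.FinHyp.mdiff_iter (OmegaStab.FinHyp.mdiff hr f) n)
      (OmegaStab.FinHyp.mdiff hr f) x
    rw [← Function.iterate_succ] at h
    have h2 := ih (f x) (hΛ x hx) (der (d := d) f x v) (hi x hx v hv)
    refine ⟨h2.1, ?_⟩
    rw [h]
    exact h2.2

include hF in
theorem exp_cocyc {X : Type*} (σ : X ≃ X) (π : X → M) (hr : 1 ≤ r) (f : Dyn d M r)
    (hπ : ∀ x, π (σ x) = f (π x)) {Λ : Set M} (hΛ : ∀ x, π x ∈ Λ) (hΛf : ∀ x ∈ Λ, f x ∈ Λ)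
    {V : TFamily (EE d) M} (hi : InvariantOver f V Λ)
    {c μ : ℝ} (h : ContractedOver f.symm γ V Λ c μ) (x : X) (u : EE d)
    (hu : (((F (π x)).symm u : EE d)) ∈ V (π x)) (n : ℕ) :
    ‖u‖ ≤ c * μ ^ n * ‖cocyc σ (fun x => A hr f F (π x)) n x u‖ := by
  rw [cocyc_eq σ π f hπ (OmegaStab.FinHyp.mdiff hr f) F _ (fun x v => A_apply hr f F (π x) v), hF]
  obtain ⟨h1, h2⟩ := inv_iter hr f hΛf hi n (π x) (hΛ x) _ hu
  have h3 := h _ h1 _ h2 n
  have e1 : f.symm^[n] (f^[n] (π x)) = π x :=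
    (Function.LeftInverse.iterate (fun z => f.symm_apply_apply z) n) (π x)
  have e2 : rnorm γ (f.symm^[n] (f^[n] (π x))) (der (d := d) f.symm^[n] (f^[n] (π x))
      (der (d := d) f^[n] (π x) ((F (π x)).symm u))) = ‖u‖ := by
    rw [der_iter_symm hr f, ProdHyp.rnorm_congr γ e1]
    exact norm_symm hF _ u
  rw [← e2]
  exact h3

end

section

variable {d : ℕ} {M : Type*} [MetricSpace M] [ChartedSpace (EE d) M]
  [IsManifold (𝓡 d) ∞ M] {r : ℕ∞}

/-- A vector whose image is in the family is in the family. -/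
theorem back (hr : 1 ≤ r) (f : Dyn d M r) {V W : TFamily (EE d) M} {Λ : Set M}
    (hV : InvariantOver f V Λ) (hW : InvariantOver f W Λ) {x : M} (hx : x ∈ Λ)
    (hd : ∀ z : EE d, z ∈ V (f x) → z ∈ W (f x) → z = 0) {v s u : EE d} (hs : s ∈ V x)
    (hu : u ∈ W x) (e : v = s + u) (h : (der (d := d) f x v : EE d) ∈ V (f x)) : v ∈ V x := by
  have h1 : (der (d := d) f x s : EE d) ∈ V (f x) := hV x hx s hs
  have h2 : (der (d := d) f x u : EE d) ∈ W (f x) := hW x hx u hu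
  have h3 : (der (d := d) f x u : EE d) = der (d := d) f x v - der (d := d) f x s := by
    rw [e, map_add]
    abel
  have h4 : (der (d := d) f x u : EE d) ∈ V (f x) := by
    rw [h3]
    exact (V (f x)).sub_mem h h1
  have h5 := hd _ h4 h2
  have h6 : u = 0 := by
    rw [← der_symm hr f x u, h5, map_zero]
  have h7 : v = s := by rw [e, h6, add_zero]
  rw [h7]
  exact hs

end

theorem mono_bound {c μ C μ' : ℝ} (hcC : c ≤ C) (hC : 0 ≤ C) (hμ : 0 ≤ μ) (hμμ : μ ≤ μ') (n : ℕ)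
    {y : ℝ} (hy : 0 ≤ y) : c * μ ^ n * y ≤ C * μ' ^ n * y := by
  apply mul_le_mul_of_nonneg_right _ hy
  apply mul_le_mul hcC (pow_le_pow_left₀ hμ hμμ n) (pow_nonneg hμ n) hC

theorem omega_semi {X Y : Type*} [TopologicalSpace X] [TopologicalSpace Y] {f : X → X} {g : Y → Y}
    {q : X → Y} (hq : Continuous q) (h : ∀ x, q (f x) = g (q x)) {x : X} (hx : x ∈ Omega f) :
    q x ∈ Omega g := by
  intro U hU
  obtain ⟨n, hn, y, ⟨z, hz, hzy⟩, hy⟩ := hx (q ⁻¹' U) (hq.continuousAt.preimage_mem_nhds hU)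
  refine ⟨n, hn, q y, ⟨q z, hz, ?_⟩, hy⟩
  rw [← hzy]
  exact ((show Function.Semiconj q f g from h).iterate_right n z).symm

section

variable {d₁ d₂ d : ℕ} {N : Type u} {T : Type v} {M : Type w}
  [MetricSpace N] [ChartedSpace (EE d₁) N] [IsManifold (𝓡 d₁) ∞ N] [CompactSpace N]
  [MetricSpace T] [ChartedSpace (EE d₂) T] [IsManifold (𝓡 d₂) ∞ T] [CompactSpace T]
  [MetricSpace M] [ChartedSpace (EE d) M] [IsManifold (𝓡 d) ∞ M] [CompactSpace M] {r : ℕ∞}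
  (Φ : Diffeomorph (𝓡 d) ((𝓡 d₁).prod (𝓡 d₂)) M (N × T) ∞)

omit [IsManifold (𝓡 d₁) ∞ N] [IsManifold (𝓡 d₂) ∞ T] [IsManifold (𝓡 d) ∞ M]
  [CompactSpace N] [CompactSpace T] [CompactSpace M] in
theorem dbase_eq (x : M) : dbase Φ x = ProdHyp.dd d d₁ (ProdHyp.q1 Φ) x := rfl

/-- Comparison of the norms of a vector and of its projections. -/
theorem compare (γ : RMetric (EE d) M) (γ₁ : RMetric (EE d₁) N) : ∃ K : ℝ, 1 ≤ K ∧
    (∀ (x : M) (v : EE d), rnorm γ₁ (Φ x).1 (dbase Φ x v) ≤ K * rnorm γ x v) ∧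
    ∀ (x : M) (w : EE d₁), ∃ v : EE d, dbase Φ x v = w ∧
      rnorm γ x v ≤ K * rnorm γ₁ (Φ x).1 w := by
  obtain ⟨γ₂⟩ := OmegaStab.exists_metric d₂ T
  have n1 := ProdHyp.continuous_comp_rnorm γ₁ (ProdHyp.q1_smooth Φ)
  have n2 := ProdHyp.continuous_comp_rnorm γ₂ (ProdHyp.q2_smooth Φ)
  have o1 : ∀ (x : M) (v : EE d) (t : ℝ),
      rnorm γ₁ (ProdHyp.q1 Φ x) (ProdHyp.dd d d₁ (ProdHyp.q1 Φ) x (t • v)) =
      |t| * rnorm γ₁ (ProdHyp.q1 Φ x) (ProdHyp.dd d d₁ (ProdHyp.q1 Φ) x v) := by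
    intro x v t
    rw [map_smul]
    exact rnorm_smul γ₁ _ _ _
  have o2 : ∀ (x : M) (v : EE d) (t : ℝ),
      rnorm γ₂ (ProdHyp.q2 Φ x) (ProdHyp.dd d d₂ (ProdHyp.q2 Φ) x (t • v)) =
      |t| * rnorm γ₂ (ProdHyp.q2 Φ x) (ProdHyp.dd d d₂ (ProdHyp.q2 Φ) x v) := by
    intro x v t
    rw [map_smul]
    exact rnorm_smul γ₂ _ _ _
  have o3 : ∀ (x : M) (v : EE d) (t : ℝ),
      rnorm γ₁ (ProdHyp.q1 Φ x) (ProdHyp.dd d d₁ (ProdHyp.q1 Φ) x (t • v)) +
      rnorm γ₂ (ProdHyp.q2 Φ x) (ProdHyp.dd d d₂ (ProdHyp.q2 Φ) x (t • v)) = |t| *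
        (rnorm γ₁ (ProdHyp.q1 Φ x) (ProdHyp.dd d d₁ (ProdHyp.q1 Φ) x v) +
          rnorm γ₂ (ProdHyp.q2 Φ x) (ProdHyp.dd d d₂ (ProdHyp.q2 Φ) x v)) := by
    intro x v t
    rw [o1, o2]
    ring
  have o4 : ∀ (x : M) (v : EE d), v ≠ 0 →
      0 < rnorm γ₁ (ProdHyp.q1 Φ x) (ProdHyp.dd d d₁ (ProdHyp.q1 Φ) x v) +
        rnorm γ₂ (ProdHyp.q2 Φ x) (ProdHyp.dd d d₂ (ProdHyp.q2 Φ) x v) := by
    intro x v hv
    have z1 : 0 ≤ rnorm γ₁ (ProdHyp.q1 Φ x) (ProdHyp.dd d d₁ (ProdHyp.q1 Φ) x v) :=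
      Real.sqrt_nonneg _
    have z2 : 0 ≤ rnorm γ₂ (ProdHyp.q2 Φ x) (ProdHyp.dd d d₂ (ProdHyp.q2 Φ) x v) :=
      Real.sqrt_nonneg _
    by_cases hw : ProdHyp.dd d d₁ (ProdHyp.q1 Φ) x v = 0
    · by_cases hw' : ProdHyp.dd d d₂ (ProdHyp.q2 Φ) x v = 0
      · exfalso
        apply hv
        exact ProdHyp.vec_eq Φ x (by rw [hw, map_zero]) (by rw [hw', map_zero])
      · have := rnorm_pos γ₂ (ProdHyp.q2 Φ x) (ProdHyp.dd d d₂ (ProdHyp.q2 Φ) x v) hw'
        linarith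
    · have := rnorm_pos γ₁ (ProdHyp.q1 Φ x) (ProdHyp.dd d d₁ (ProdHyp.q1 Φ) x v) hw
      linarith
  obtain ⟨β₁, hβ₁, b1⟩ := exists_comparison
    (fun v : TangentBundle (𝓡 d) M =>
      rnorm γ₁ (ProdHyp.q1 Φ v.1) (ProdHyp.dd d d₁ (ProdHyp.q1 Φ) v.1 v.2))
    (fun v : TangentBundle (𝓡 d) M => rnorm γ v.1 v.2) n1 (continuous_rnorm γ)
    (fun x v t => o1 x v t) (fun x v t => rnorm_smul γ x v t) (fun x v hv => rnorm_pos γ x v hv)
  obtain ⟨β, hβ, b0⟩ := exists_comparison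
    (fun v : TangentBundle (𝓡 d) M => rnorm γ v.1 v.2)
    (fun v : TangentBundle (𝓡 d) M =>
      rnorm γ₁ (ProdHyp.q1 Φ v.1) (ProdHyp.dd d d₁ (ProdHyp.q1 Φ) v.1 v.2) +
      rnorm γ₂ (ProdHyp.q2 Φ v.1) (ProdHyp.dd d d₂ (ProdHyp.q2 Φ) v.1 v.2))
    (continuous_rnorm γ) (n1.add n2)
    (fun x v t => rnorm_smul γ x v t)
    (fun x v t => o3 x v t) (fun x v hv => o4 x v hv)
  refine ⟨β₁ + β + 1, by linarith, fun x v => ?_, fun x w => ?_⟩
  · exact (b1 x v).trans (mul_le_mul_of_nonneg_right (by linarith) (Real.sqrt_nonneg _))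
  · obtain ⟨v, hv1, hv2⟩ := ProdHyp.exists_vec Φ x w 0
    refine ⟨v, hv1, ?_⟩
    have h := b0 x v
    have e0 : rnorm γ₂ (ProdHyp.q2 Φ x) (0 : EE d₂) = 0 := by
      have h3 : γ₂.inner (ProdHyp.q2 Φ x) (0 : EE d₂) = 0 :=
        map_zero (γ₂.inner (ProdHyp.q2 Φ x))
      unfold rnorm
      rw [h3]
      exact Real.sqrt_zero
    have h' : rnorm γ x v ≤ β * (rnorm γ₁ (ProdHyp.q1 Φ x)
        (ProdHyp.dd d d₁ (ProdHyp.q1 Φ) x v) + rnorm γ₂ (ProdHyp.q2 Φ x)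
        (ProdHyp.dd d d₂ (ProdHyp.q2 Φ) x v)) := h
    rw [hv1, hv2, e0, add_zero] at h'
    exact h'.trans (mul_le_mul_of_nonneg_right (by linarith) (Real.sqrt_nonneg _))

end

end XFibHyp

open XFibHyp in
/-- Item FibHyp. -/
theorem prf_FibHyp (hB : BlockHyp.{w}) : FibHyp.{u, v, w} := by
  intro d₁ d₂ d N T M _ _ _ _ _ _ _ _ _ _ _ _ r hr Φ f f₁ hf Es Eu γ c μ hV hH
  obtain ⟨-, -, isE, iuE, hdisj, hker, hc, hμ, hμ1, cs, cu⟩ := hV
  obtain ⟨Qs, Qu, -, -, hcompl, isQ, iuQ, γ₁, c₁, μ₁, hc₁, hμ₁, hμ₁1, ks, ku⟩ := hH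
  choose F hF using fun x : M => exists_frame γ x
  choose F₁ hF₁ using fun x : N => exists_frame γ₁ x
  have hΛ : ∀ x ∈ Omega f, f x ∈ Omega f := fun x hx => (Omega_map f.toHomeomorph hx).1
  have hΛ' : ∀ x ∈ Omega f, f.symm x ∈ Omega f := fun x hx => (Omega_map f.toHomeomorph hx).2
  have hΛ₁ : ∀ x ∈ Omega f₁, f₁ x ∈ Omega f₁ := fun x hx => (Omega_map f₁.toHomeomorph hx).1
  have hq : ∀ x ∈ Omega f, (Φ x).1 ∈ Omega f₁ := fun x hx =>
    omega_semi (q := fun x => (Φ x).1) (continuous_fst.comp Φ.continuous) hf hx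
  let σ : ↥(Omega f) ≃ ↥(Omega f) :=
    { toFun := fun x => ⟨f x, hΛ x x.2⟩
      invFun := fun x => ⟨f.symm x, hΛ' x x.2⟩
      left_inv := fun x => Subtype.ext (f.symm_apply_apply x)
      right_inv := fun x => Subtype.ext (f.apply_symm_apply x) }
  let a : ↥(Omega f) → EE d ≃L[ℝ] EE d := fun x => A hr f F x
  let π₁ : ↥(Omega f) → N := fun x => (Φ (x : M)).1
  let b : ↥(Omega f) → EE d₁ ≃L[ℝ] EE d₁ := fun x => A hr f₁ F₁ (π₁ x)
  let S : ↥(Omega f) → EE d →L[ℝ] EE d₁ := fun x =>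
    ((F₁ (π₁ x) : EE d₁ →L[ℝ] EE d₁).comp (dbase Φ (x : M))).comp
      ((F (x : M)).symm : EE d →L[ℝ] EE d)
  have hS : ∀ x v, S x v = F₁ (π₁ x) (dbase Φ (x : M) ((F (x : M)).symm v)) := fun x v => rfl
  let Ws : ↥(Omega f) → Submodule ℝ (EE d) := fun x =>
    Submodule.comap ((F (x : M)).symm : EE d →ₗ[ℝ] EE d) (Es (x : M))
  let Wu : ↥(Omega f) → Submodule ℝ (EE d) := fun x =>
    Submodule.comap ((F (x : M)).symm : EE d →ₗ[ℝ] EE d) (Eu (x : M))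
  let Rs : ↥(Omega f) → Submodule ℝ (EE d₁) := fun x =>
    Submodule.comap ((F₁ (π₁ x)).symm : EE d₁ →ₗ[ℝ] EE d₁) (Qs (π₁ x))
  let Ru : ↥(Omega f) → Submodule ℝ (EE d₁) := fun x =>
    Submodule.comap ((F₁ (π₁ x)).symm : EE d₁ →ₗ[ℝ] EE d₁) (Qu (π₁ x))
  have hWs : ∀ x v, v ∈ Ws x ↔ (((F (x : M)).symm v : EE d)) ∈ Es (x : M) := fun x v => Iff.rfl
  have hWu : ∀ x v, v ∈ Wu x ↔ (((F (x : M)).symm v : EE d)) ∈ Eu (x : M) := fun x v => Iff.rfl
  have hRs : ∀ x v, v ∈ Rs x ↔ (((F₁ (π₁ x)).symm v : EE d₁)) ∈ Qs (π₁ x) := fun x v => Iff.rfl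
  have hRu : ∀ x v, v ∈ Ru x ↔ (((F₁ (π₁ x)).symm v : EE d₁)) ∈ Qu (π₁ x) := fun x v => Iff.rfl
  have hπ₁ : ∀ x, π₁ (σ x) = f₁ (π₁ x) := fun x => hf (x : M)
  -- bounds
  obtain ⟨K₁, hK₁, hA⟩ := A_bound hF hr f
  obtain ⟨K₂, hK₂, hA₁⟩ := A_bound hF₁ hr f₁
  obtain ⟨K₃, hK₃, hP, hL⟩ := compare Φ γ γ₁
  have ca : ∀ x, ∀ s ∈ Ws x, ∀ n : ℕ, ‖cocyc σ a n x s‖ ≤ c * μ ^ n * ‖s‖ := fun x s hs n =>
    con_cocyc hF σ (fun x => (x : M)) hr f (fun x => rfl) (Λ := univ) (fun x => mem_univ _) cs x s hs n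
  have cua : ∀ x, ∀ u ∈ Wu x, ∀ n : ℕ, ‖u‖ ≤ c * μ ^ n * ‖cocyc σ a n x u‖ := fun x u hu n =>
    exp_cocyc hF σ (fun x => (x : M)) hr f (fun x => rfl) (Λ := univ) (fun x => mem_univ _)
      (fun x _ => mem_univ _) iuE cu x u hu n
  have cb : ∀ x, ∀ s ∈ Rs x, ∀ n : ℕ, ‖cocyc σ b n x s‖ ≤ c₁ * μ₁ ^ n * ‖s‖ := fun x s hs n =>
    con_cocyc hF₁ σ π₁ hr f₁ hπ₁ (fun x => hq x x.2) ks x s hs n
  have cub : ∀ x, ∀ u ∈ Ru x, ∀ n : ℕ, ‖u‖ ≤ c₁ * μ₁ ^ n * ‖cocyc σ b n x u‖ := fun x u hu n =>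
    exp_cocyc hF₁ σ π₁ hr f₁ hπ₁ (fun x => hq x x.2) hΛ₁ iuQ ku x u hu n
  obtain ⟨C₁, hC₁, ang⟩ := angle σ a hK₁ hμ hμ1 (fun x v => (hA x v).1) Ws Wu ca cua
  obtain ⟨C₂, hC₂, ang₁⟩ := angle σ b hK₂ hμ₁ hμ₁1 (fun x v => (hA₁ _ v).1) Rs Ru cb cub
  -- invariance of the fibre families
  have hz : ∀ (x : M) (z : EE d), z ∈ Es x → z ∈ Eu x → z = 0 := fun x z h h' =>
    Submodule.disjoint_def.1 (hdisj x) z h h'
  have hz₁ : ∀ y ∈ Omega f₁, ∀ z : EE d₁, z ∈ Qs y → z ∈ Qu y → z = 0 := fun y hy z h h' =>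
    Submodule.disjoint_def.1 (hcompl y hy).disjoint z h h'
  have semi : ∀ (x : M) (v : EE d), dbase Φ (f x) (der (d := d) f x v) =
      der (d := d₁) f₁ (Φ x).1 (dbase Φ x v) := fun x v =>
    ProdHyp.dd_semi (ProdHyp.q1_diff Φ) (OmegaStab.FinHyp.mdiff hr f)
      (OmegaStab.FinHyp.mdiff hr f₁) hf x v
  have dec : ∀ (x : M) (v : EE d), dbase Φ (f x) (der (d := d) f x v) = 0 →
      ∃ s : EE d, s ∈ Es x ∧ ∃ u : EE d, u ∈ Eu x ∧ v = s + u := by
    intro x v h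
    apply (hker x v).1
    rw [semi] at h
    have h2 := der_symm hr f₁ (Φ x).1 (dbase Φ x v)
    rw [h, map_zero] at h2
    exact h2.symm
  have iffs : ∀ (x : M) (v : EE d), v ∈ Es x ↔ (der (d := d) f x v : EE d) ∈ Es (f x) := by
    intro x v
    refine ⟨fun h => isE x (mem_univ _) v h, fun h => ?_⟩
    obtain ⟨s, hs, u, hu, e⟩ := dec x v ((hker (f x) _).2 ⟨_, h, 0, (Eu (f x)).zero_mem,
      (add_zero _).symm⟩)
    exact back hr f isE iuE (mem_univ x) (hz (f x)) hs hu e h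
  have iffu : ∀ (x : M) (v : EE d), v ∈ Eu x ↔ (der (d := d) f x v : EE d) ∈ Eu (f x) := by
    intro x v
    refine ⟨fun h => iuE x (mem_univ _) v h, fun h => ?_⟩
    obtain ⟨s, hs, u, hu, e⟩ := dec x v ((hker (f x) _).2 ⟨0, (Es (f x)).zero_mem, _, h,
      (zero_add _).symm⟩)
    exact back hr f iuE isE (mem_univ x) (fun z h h' => hz (f x) z h' h) hu hs
      (e.trans (add_comm _ _)) h
  have dec₁ : ∀ y ∈ Omega f₁, ∀ v : EE d₁, ∃ s : EE d₁, s ∈ Qs y ∧ ∃ u : EE d₁, u ∈ Qu y ∧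
      v = s + u := by
    intro y hy v
    have h : ∀ v : TangentSpace (𝓡 d₁) y, v ∈ Qs y ⊔ Qu y := by
      intro v
      rw [(hcompl y hy).sup_eq_top]
      trivial
    obtain ⟨s, hs, u, hu, e⟩ := Submodule.mem_sup.1 (h v)
    exact ⟨s, hs, u, hu, e.symm⟩
  have iffs₁ : ∀ y ∈ Omega f₁, ∀ v : EE d₁, v ∈ Qs y ↔
      (der (d := d₁) f₁ y v : EE d₁) ∈ Qs (f₁ y) := by
    intro y hy v
    refine ⟨fun h => isQ y hy v h, fun h => ?_⟩
    obtain ⟨s, hs, u, hu, e⟩ := dec₁ y hy v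
    exact back hr f₁ isQ iuQ hy (hz₁ (f₁ y) (hΛ₁ y hy)) hs hu e h
  have iffu₁ : ∀ y ∈ Omega f₁, ∀ v : EE d₁, v ∈ Qu y ↔
      (der (d := d₁) f₁ y v : EE d₁) ∈ Qu (f₁ y) := by
    intro y hy v
    refine ⟨fun h => iuQ y hy v h, fun h => ?_⟩
    obtain ⟨s, hs, u, hu, e⟩ := dec₁ y hy v
    exact back hr f₁ iuQ isQ hy (fun z h h' => hz₁ (f₁ y) (hΛ₁ y hy) z h' h) hu hs
      (e.trans (add_comm _ _)) h
  -- constants
  obtain ⟨C, hC⟩ : ∃ C : ℝ, C = 1 + c + c₁ + C₁ + C₂ := ⟨_, rfl⟩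
  obtain ⟨K, hK⟩ : ∃ K : ℝ, K = K₁ + K₂ + K₃ := ⟨_, rfl⟩
  obtain ⟨C', μ', hC', hμ', hμ'1, hres⟩ : ∃ C' μ' : ℝ, 1 ≤ C' ∧ 0 < μ' ∧ μ' < 1 ∧
      ∀ x v, ∃ s u, v = s + u ∧ Contr σ a C' μ' x s ∧ Expan σ a C' μ' x u := by
    refine hB ↥(Omega f) σ d d₁ a b S K C (max μ μ₁) Ws Wu Rs Ru
      (by linarith) (by linarith) (lt_of_lt_of_le hμ (le_max_left _ _)) (max_lt hμ1 hμ₁1)
      ?_ ?_ ?_ ?_ ?_ ?_ ?_ ?_ ?_ ?_ ?_ ?_ ?_ ?_ ?_
    · intro x v
      exact ⟨(hA x v).1.trans (mul_le_mul_of_nonneg_right (by linarith) (norm_nonneg _)),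
        (hA x v).2.trans (mul_le_mul_of_nonneg_right (by linarith) (norm_nonneg _))⟩
    · intro x v
      rw [hS, hF₁, ← norm_symm hF x v]
      exact (hP x _).trans (mul_le_mul_of_nonneg_right (by linarith) (Real.sqrt_nonneg _))
    · intro x w
      obtain ⟨v, hv1, hv2⟩ := hL x ((F₁ (π₁ x)).symm w)
      refine ⟨F x v, ?_, ?_⟩
      · rw [hS, ContinuousLinearEquiv.symm_apply_apply, hv1, ContinuousLinearEquiv.apply_symm_apply]
      · rw [hF]
        refine (hv2.trans ?_)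
        have e : rnorm γ₁ (Φ (x : M)).1 ((F₁ (π₁ x)).symm w) = ‖w‖ := norm_symm hF₁ _ w
        rw [e]
        exact mul_le_mul_of_nonneg_right (by linarith) (norm_nonneg _)
    · intro x v
      have e1 : S (σ x) (a x v) = F₁ (π₁ (σ x)) (dbase Φ (f (x : M))
          ((F (f (x : M))).symm (F (f (x : M)) (der (d := d) f x ((F (x : M)).symm v))))) := rfl
      have e2 : b x (S x v) = F₁ (f₁ (π₁ x)) (der (d := d₁) f₁ (π₁ x) ((F₁ (π₁ x)).symm
          (F₁ (π₁ x) (dbase Φ (x : M) ((F (x : M)).symm v))))) := rfl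
      rw [e1, e2, ContinuousLinearEquiv.symm_apply_apply, ContinuousLinearEquiv.symm_apply_apply,
        semi, hπ₁]
    · intro x v
      rw [hS]
      constructor
      · intro h
        have h1 : dbase Φ (x : M) ((F (x : M)).symm v) = 0 := by
          apply (F₁ (π₁ x)).injective
          rw [h, map_zero]
        obtain ⟨s, hs, u, hu, e⟩ := (hker x _).1 h1
        refine ⟨F x s, ?_, F x u, ?_, ?_⟩
        · rw [hWs, ContinuousLinearEquiv.symm_apply_apply]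
          exact hs
        · rw [hWu, ContinuousLinearEquiv.symm_apply_apply]
          exact hu
        · rw [← map_add, ← e, ContinuousLinearEquiv.apply_symm_apply]
      · rintro ⟨s, hs, u, hu, e⟩
        have h1 := (hker (x : M) ((F (x : M)).symm v)).2 ⟨(F (x : M)).symm s, hs,
          (F (x : M)).symm u, hu, by rw [e, map_add]⟩
        rw [h1, map_zero]
    · intro x s hs u hu
      exact (ang x s hs u hu).1.trans (mul_le_mul_of_nonneg_right (by linarith) (norm_nonneg _))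
    · intro x s
      rw [hWs, hWs]
      have e1 : (F ((σ x : ↥(Omega f)) : M)).symm (a x s) =
        der (d := d) f x ((F (x : M)).symm s) := (F (f (x : M))).symm_apply_apply _
      rw [e1]
      exact iffs x _
    · intro x s
      rw [hWu, hWu]
      have e1 : (F ((σ x : ↥(Omega f)) : M)).symm (a x s) =
        der (d := d) f x ((F (x : M)).symm s) := (F (f (x : M))).symm_apply_apply _
      rw [e1]
      exact iffu x _
    · intro x s hs n
      exact (ca x s hs n).trans (mono_bound (by linarith) (by linarith) hμ.le (le_max_left _ _) n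
        (norm_nonneg _))
    · intro x s hs n
      exact (cua x s hs n).trans (mono_bound (by linarith) (by linarith) hμ.le (le_max_left _ _) n
        (norm_nonneg _))
    · intro x w
      obtain ⟨s, hs, u, hu, e⟩ := dec₁ (π₁ x) (hq x x.2) ((F₁ (π₁ x)).symm w)
      have hs' : F₁ (π₁ x) s ∈ Rs x := by
        rw [hRs, ContinuousLinearEquiv.symm_apply_apply]
        exact hs
      have hu' : F₁ (π₁ x) u ∈ Ru x := by
        rw [hRu, ContinuousLinearEquiv.symm_apply_apply]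
        exact hu
      have hw : w = F₁ (π₁ x) s + F₁ (π₁ x) u := by
        rw [← map_add, ← e, ContinuousLinearEquiv.apply_symm_apply]
      have h := ang₁ x _ hs' _ hu'
      rw [← hw] at h
      exact ⟨_, hs', _, hu', hw, h.1.trans (mul_le_mul_of_nonneg_right (by linarith) (norm_nonneg _)),
        h.2.trans (mul_le_mul_of_nonneg_right (by linarith) (norm_nonneg _))⟩
    · intro x s
      rw [hRs, hRs]
      have e1 : (F₁ (f₁ (π₁ x))).symm (b x s) =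
        der (d := d₁) f₁ (π₁ x) ((F₁ (π₁ x)).symm s) := (F₁ (f₁ (π₁ x))).symm_apply_apply _
      rw [hπ₁, e1]
      exact iffs₁ _ (hq x x.2) _
    · intro x s
      rw [hRu, hRu]
      have e1 : (F₁ (f₁ (π₁ x))).symm (b x s) =
        der (d := d₁) f₁ (π₁ x) ((F₁ (π₁ x)).symm s) := (F₁ (f₁ (π₁ x))).symm_apply_apply _
      rw [hπ₁, e1]
      exact iffu₁ _ (hq x x.2) _
    · intro x s hs n
      exact (cb x s hs n).trans (mono_bound (by linarith) (by linarith) hμ₁.le (le_max_right _ _) n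
        (norm_nonneg _))
    · intro x s hs n
      exact (cub x s hs n).trans (mono_bound (by linarith) (by linarith) hμ₁.le (le_max_right _ _) n
        (norm_nonneg _))
  have hδ : 0 < - Real.log μ' := by
    have := Real.log_neg hμ' hμ'1
    linarith
  refine hyperbolicStructure_of_vecHyp hr f γ (isClosed_Omega _) hΛ hΛ' hC' hδ ?_
  intro x hx v
  obtain ⟨s, u, e, h1, h2⟩ := hres ⟨x, hx⟩ (F x v)
  have hexp : ∀ n : ℕ, Real.exp (-(-Real.log μ') * n) = μ' ^ n := by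
    intro n
    rw [neg_neg, mul_comm, Real.exp_nat_mul, Real.exp_log hμ']
  have fw : ∀ (n : ℕ) (z : EE d), ‖cocyc σ a n ⟨x, hx⟩ z‖ =
      rnorm γ (f^[n] x) (der (d := d) f^[n] x ((F x).symm z)) := by
    intro n z
    rw [← hF]
    exact congrArg norm (cocyc_eq σ (fun x => (x : M)) f (fun x => rfl)
      (OmegaStab.FinHyp.mdiff hr f) F a (fun x v => A_apply hr f F x v) n ⟨x, hx⟩ z)
  have bw : ∀ (n : ℕ) (z : EE d), ‖bcocyc σ a n ⟨x, hx⟩ z‖ =
      rnorm γ (f.symm^[n] x) (der (d := d) f.symm^[n] x ((F x).symm z)) := by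
    intro n z
    rw [← hF]
    exact congrArg norm (cocyc_eq σ.symm (fun x => (x : M)) f.symm (fun x => rfl)
      (OmegaStab.FinHyp.mdiff hr f.symm) F (fun x => (a (σ.symm x)).symm)
      (fun x v => A_symm_apply hr f F x v) n ⟨x, hx⟩ z)
  refine ⟨(F x).symm s, (F x).symm u, ?_, ?_, ?_, ?_, ?_⟩
  · rw [← map_add, ← e, ContinuousLinearEquiv.symm_apply_apply]
  · intro n
    rw [hexp, norm_symm hF]
    have := (h1 n).1
    rw [fw] at this
    exact this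
  · intro n
    rw [hexp, norm_symm hF]
    have := (h1 n).2
    rw [bw] at this
    exact this
  · intro n
    rw [hexp, norm_symm hF]
    have := (h2 n).1
    rw [bw] at this
    exact this
  · intro n
    rw [hexp, norm_symm hF]
    have := (h2 n).2
    rw [fw] at this
    exact this

end Pool.Agent.OmegaFT
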