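import Pool.Agent.Work.MP_814647_an.FT.Stmts3
import Pool.Agent.Work.MP_814647_an.FT.I_FibHyp

/-!
# Block FT, item FibHypOn: hyperbolicity of an extension with hyperbolic fibres over an invariant set
-/

open Set Filter Topology Function
open scoped Manifold ContDiff

noncomputable section

namespace Pool.Agent.OmegaFT

open Pool.Agent.OmegaStab (EE Dyn)
open Pool.Agent.OmegaStab.FinHyp (der)
open Pool.Agent.OmegaPS
open Pool.Agent.OmegaStability

universe u v w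

open XFibHyp in
/-- Item FibHypOn. -/
theorem prf_FibHypOn (hB : BlockHyp.{w}) : FibHypOn.{u, v, w} := by
  intro d₁ d₂ d N T M _ _ _ _ _ _ _ _ _ _ _ _ r hr Φ f f₁ hf L hOL hLf hLf' Es Eu γ c μ hV hH
  obtain ⟨-, -, isE, iuE, hdisj, hker, hc, hμ, hμ1, cs, cu⟩ := hV
  obtain ⟨Qs, Qu, -, -, hcompl, isQ, iuQ, γ₁, c₁, μ₁, hc₁, hμ₁, hμ₁1, ks, ku⟩ := hH
  choose F hF using fun x : M => exists_frame γ x
  choose F₁ hF₁ using fun x : N => exists_frame γ₁ x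
  have hΛ : ∀ x ∈ Omega f, f x ∈ Omega f := fun x hx => (Omega_map f.toHomeomorph hx).1
  have hΛ' : ∀ x ∈ Omega f, f.symm x ∈ Omega f := fun x hx => (Omega_map f.toHomeomorph hx).2
  have hΛ₁ : ∀ x ∈ Omega f₁, f₁ x ∈ Omega f₁ := fun x hx => (Omega_map f₁.toHomeomorph hx).1
  have hq : ∀ x ∈ Omega f, (Φ x).1 ∈ Omega f₁ := fun x hx =>
    omega_semi (q := fun x => (Φ x).1) (continuous_fst.comp Φ.continuous) hf hx
  let σ : ↥(Omega f) ≃ ↥(Omega f) :=
    { toFun := fun x => ⟨f x, hΛ x x.2⟩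
      invFun := fun x => ⟨f.symm x, hΛ' x x.2⟩
      left_inv := fun x => Subtype.ext (f.symm_apply_apply x)
      right_inv := fun x => Subtype.ext (f.apply_symm_apply x) }
  let a : ↥(Omega f) → EE d ≃L[ℝ] EE d := fun x => A hr f F x
  let π₁ : ↥(Omega f) → N := fun x => (Φ (x : M)).1
  let b : ↥(Omega f) → EE d₁ ≃L[ℝ] EE d₁ := fun x => A hr f₁ F₁ (π₁ x)
  let S : ↥(Omega f) → EE d →L[ℝ] EE d₁ := fun x =>
    ((F₁ (π₁ x) : EE d₁ →L[ℝ] EE d₁).comp (dbase Φ (x : M))).comp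
      ((F (x : M)).symm : EE d →L[ℝ] EE d)
  have hS : ∀ x v, S x v = F₁ (π₁ x) (dbase Φ (x : M) ((F (x : M)).symm v)) := fun x v => rfl
  let Ws : ↥(Omega f) → Submodule ℝ (EE d) := fun x =>
    Submodule.comap ((F (x : M)).symm : EE d →ₗ[ℝ] EE d) (Es (x : M))
  let Wu : ↥(Omega f) → Submodule ℝ (EE d) := fun x =>
    Submodule.comap ((F (x : M)).symm : EE d →ₗ[ℝ] EE d) (Eu (x : M))
  let Rs : ↥(Omega f) → Submodule ℝ (EE d₁) := fun x =>
    Submodule.comap ((F₁ (π₁ x)).symm : EE d₁ →ₗ[ℝ] EE d₁) (Qs (π₁ x))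
  let Ru : ↥(Omega f) → Submodule ℝ (EE d₁) := fun x =>
    Submodule.comap ((F₁ (π₁ x)).symm : EE d₁ →ₗ[ℝ] EE d₁) (Qu (π₁ x))
  have hWs : ∀ x v, v ∈ Ws x ↔ (((F (x : M)).symm v : EE d)) ∈ Es (x : M) := fun x v => Iff.rfl
  have hWu : ∀ x v, v ∈ Wu x ↔ (((F (x : M)).symm v : EE d)) ∈ Eu (x : M) := fun x v => Iff.rfl
  have hRs : ∀ x v, v ∈ Rs x ↔ (((F₁ (π₁ x)).symm v : EE d₁)) ∈ Qs (π₁ x) := fun x v => Iff.rfl
  have hRu : ∀ x v, v ∈ Ru x ↔ (((F₁ (π₁ x)).symm v : EE d₁)) ∈ Qu (π₁ x) := fun x v => Iff.rfl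
  have hπ₁ : ∀ x, π₁ (σ x) = f₁ (π₁ x) := fun x => hf (x : M)
  -- bounds
  obtain ⟨K₁, hK₁, hA⟩ := A_bound hF hr f
  obtain ⟨K₂, hK₂, hA₁⟩ := A_bound hF₁ hr f₁
  obtain ⟨K₃, hK₃, hP, hL⟩ := compare Φ γ γ₁
  have ca : ∀ x, ∀ s ∈ Ws x, ∀ n : ℕ, ‖cocyc σ a n x s‖ ≤ c * μ ^ n * ‖s‖ := fun x s hs n =>
    con_cocyc hF σ (fun x => (x : M)) hr f (fun x => rfl) (Λ := L) (fun x => hOL x.2) cs x s hs n
  have cua : ∀ x, ∀ u ∈ Wu x, ∀ n : ℕ, ‖u‖ ≤ c * μ ^ n * ‖cocyc σ a n x u‖ := fun x u hu n =>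
    exp_cocyc hF σ (fun x => (x : M)) hr f (fun x => rfl) (Λ := L) (fun x => hOL x.2)
      hLf iuE cu x u hu n
  have cb : ∀ x, ∀ s ∈ Rs x, ∀ n : ℕ, ‖cocyc σ b n x s‖ ≤ c₁ * μ₁ ^ n * ‖s‖ := fun x s hs n =>
    con_cocyc hF₁ σ π₁ hr f₁ hπ₁ (fun x => hq x x.2) ks x s hs n
  have cub : ∀ x, ∀ u ∈ Ru x, ∀ n : ℕ, ‖u‖ ≤ c₁ * μ₁ ^ n * ‖cocyc σ b n x u‖ := fun x u hu n =>
    exp_cocyc hF₁ σ π₁ hr f₁ hπ₁ (fun x => hq x x.2) hΛ₁ iuQ ku x u hu n
  obtain ⟨C₁, hC₁, ang⟩ := angle σ a hK₁ hμ hμ1 (fun x v => (hA x v).1) Ws Wu ca cua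
  obtain ⟨C₂, hC₂, ang₁⟩ := angle σ b hK₂ hμ₁ hμ₁1 (fun x v => (hA₁ _ v).1) Rs Ru cb cub
  -- invariance of the fibre families
  have hz : ∀ x ∈ L, ∀ (z : EE d), z ∈ Es x → z ∈ Eu x → z = 0 := fun x hx z h h' =>
    Submodule.disjoint_def.1 (hdisj x hx) z h h'
  have hz₁ : ∀ y ∈ Omega f₁, ∀ z : EE d₁, z ∈ Qs y → z ∈ Qu y → z = 0 := fun y hy z h h' =>
    Submodule.disjoint_def.1 (hcompl y hy).disjoint z h h'
  have semi : ∀ (x : M) (v : EE d), dbase Φ (f x) (der (d := d) f x v) =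
      der (d := d₁) f₁ (Φ x).1 (dbase Φ x v) := fun x v =>
    ProdHyp.dd_semi (ProdHyp.q1_diff Φ) (OmegaStab.FinHyp.mdiff hr f)
      (OmegaStab.FinHyp.mdiff hr f₁) hf x v
  have dec : ∀ x ∈ L, ∀ (v : EE d), dbase Φ (f x) (der (d := d) f x v) = 0 →
      ∃ s : EE d, s ∈ Es x ∧ ∃ u : EE d, u ∈ Eu x ∧ v = s + u := by
    intro x hx v h
    apply (hker x hx v).1
    rw [semi] at h
    have h2 := der_symm hr f₁ (Φ x).1 (dbase Φ x v)
    rw [h, map_zero] at h2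
    exact h2.symm
  have iffs : ∀ x ∈ L, ∀ (v : EE d), v ∈ Es x ↔ (der (d := d) f x v : EE d) ∈ Es (f x) := by
    intro x hx v
    refine ⟨fun h => isE x hx v h, fun h => ?_⟩
    obtain ⟨s, hs, u, hu, e⟩ := dec x hx v ((hker (f x) (hLf x hx) _).2 ⟨_, h, 0,
      (Eu (f x)).zero_mem, (add_zero _).symm⟩)
    exact back hr f isE iuE hx (hz (f x) (hLf x hx)) hs hu e h
  have iffu : ∀ x ∈ L, ∀ (v : EE d), v ∈ Eu x ↔ (der (d := d) f x v : EE d) ∈ Eu (f x) := by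
    intro x hx v
    refine ⟨fun h => iuE x hx v h, fun h => ?_⟩
    obtain ⟨s, hs, u, hu, e⟩ := dec x hx v ((hker (f x) (hLf x hx) _).2 ⟨0, (Es (f x)).zero_mem,
      _, h, (zero_add _).symm⟩)
    exact back hr f iuE isE hx (fun z h h' => hz (f x) (hLf x hx) z h' h) hu hs
      (e.trans (add_comm _ _)) h
  have dec₁ : ∀ y ∈ Omega f₁, ∀ v : EE d₁, ∃ s : EE d₁, s ∈ Qs y ∧ ∃ u : EE d₁, u ∈ Qu y ∧
      v = s + u := by
    intro y hy v
    have h : ∀ v : TangentSpace (𝓡 d₁) y, v ∈ Qs y ⊔ Qu y := by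
      intro v
      rw [(hcompl y hy).sup_eq_top]
      trivial
    obtain ⟨s, hs, u, hu, e⟩ := Submodule.mem_sup.1 (h v)
    exact ⟨s, hs, u, hu, e.symm⟩
  have iffs₁ : ∀ y ∈ Omega f₁, ∀ v : EE d₁, v ∈ Qs y ↔
      (der (d := d₁) f₁ y v : EE d₁) ∈ Qs (f₁ y) := by
    intro y hy v
    refine ⟨fun h => isQ y hy v h, fun h => ?_⟩
    obtain ⟨s, hs, u, hu, e⟩ := dec₁ y hy v
    exact back hr f₁ isQ iuQ hy (hz₁ (f₁ y) (hΛ₁ y hy)) hs hu e h
  have iffu₁ : ∀ y ∈ Omega f₁, ∀ v : EE d₁, v ∈ Qu y ↔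
      (der (d := d₁) f₁ y v : EE d₁) ∈ Qu (f₁ y) := by
    intro y hy v
    refine ⟨fun h => iuQ y hy v h, fun h => ?_⟩
    obtain ⟨s, hs, u, hu, e⟩ := dec₁ y hy v
    exact back hr f₁ iuQ isQ hy (fun z h h' => hz₁ (f₁ y) (hΛ₁ y hy) z h' h) hu hs
      (e.trans (add_comm _ _)) h
  -- constants
  obtain ⟨C, hC⟩ : ∃ C : ℝ, C = 1 + c + c₁ + C₁ + C₂ := ⟨_, rfl⟩
  obtain ⟨K, hK⟩ : ∃ K : ℝ, K = K₁ + K₂ + K₃ := ⟨_, rfl⟩
  obtain ⟨C', μ', hC', hμ', hμ'1, hres⟩ : ∃ C' μ' : ℝ, 1 ≤ C' ∧ 0 < μ' ∧ μ' < 1 ∧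
      ∀ x v, ∃ s u, v = s + u ∧ Contr σ a C' μ' x s ∧ Expan σ a C' μ' x u := by
    refine hB ↥(Omega f) σ d d₁ a b S K C (max μ μ₁) Ws Wu Rs Ru
      (by linarith) (by linarith) (lt_of_lt_of_le hμ (le_max_left _ _)) (max_lt hμ1 hμ₁1)
      ?_ ?_ ?_ ?_ ?_ ?_ ?_ ?_ ?_ ?_ ?_ ?_ ?_ ?_ ?_
    · intro x v
      exact ⟨(hA x v).1.trans (mul_le_mul_of_nonneg_right (by linarith) (norm_nonneg _)),
        (hA x v).2.trans (mul_le_mul_of_nonneg_right (by linarith) (norm_nonneg _))⟩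
    · intro x v
      rw [hS, hF₁, ← norm_symm hF x v]
      exact (hP x _).trans (mul_le_mul_of_nonneg_right (by linarith) (Real.sqrt_nonneg _))
    · intro x w
      obtain ⟨v, hv1, hv2⟩ := hL x ((F₁ (π₁ x)).symm w)
      refine ⟨F x v, ?_, ?_⟩
      · rw [hS, ContinuousLinearEquiv.symm_apply_apply, hv1, ContinuousLinearEquiv.apply_symm_apply]
      · rw [hF]
        refine (hv2.trans ?_)
        have e : rnorm γ₁ (Φ (x : M)).1 ((F₁ (π₁ x)).symm w) = ‖w‖ := norm_symm hF₁ _ w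
        rw [e]
        exact mul_le_mul_of_nonneg_right (by linarith) (norm_nonneg _)
    · intro x v
      have e1 : S (σ x) (a x v) = F₁ (π₁ (σ x)) (dbase Φ (f (x : M))
          ((F (f (x : M))).symm (F (f (x : M)) (der (d := d) f x ((F (x : M)).symm v))))) := rfl
      have e2 : b x (S x v) = F₁ (f₁ (π₁ x)) (der (d := d₁) f₁ (π₁ x) ((F₁ (π₁ x)).symm
          (F₁ (π₁ x) (dbase Φ (x : M) ((F (x : M)).symm v))))) := rfl
      rw [e1, e2, ContinuousLinearEquiv.symm_apply_apply, ContinuousLinearEquiv.symm_apply_apply,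
        semi, hπ₁]
    · intro x v
      rw [hS]
      constructor
      · intro h
        have h1 : dbase Φ (x : M) ((F (x : M)).symm v) = 0 := by
          apply (F₁ (π₁ x)).injective
          rw [h, map_zero]
        obtain ⟨s, hs, u, hu, e⟩ := (hker x (hOL x.2) _).1 h1
        refine ⟨F x s, ?_, F x u, ?_, ?_⟩
        · rw [hWs, ContinuousLinearEquiv.symm_apply_apply]
          exact hs
        · rw [hWu, ContinuousLinearEquiv.symm_apply_apply]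
          exact hu
        · rw [← map_add, ← e, ContinuousLinearEquiv.apply_symm_apply]
      · rintro ⟨s, hs, u, hu, e⟩
        have h1 := (hker (x : M) (hOL x.2) ((F (x : M)).symm v)).2 ⟨(F (x : M)).symm s, hs,
          (F (x : M)).symm u, hu, by rw [e, map_add]⟩
        rw [h1, map_zero]
    · intro x s hs u hu
      exact (ang x s hs u hu).1.trans (mul_le_mul_of_nonneg_right (by linarith) (norm_nonneg _))
    · intro x s
      rw [hWs, hWs]
      have e1 : (F ((σ x : ↥(Omega f)) : M)).symm (a x s) =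
        der (d := d) f x ((F (x : M)).symm s) := (F (f (x : M))).symm_apply_apply _
      rw [e1]
      exact iffs x (hOL x.2) _
    · intro x s
      rw [hWu, hWu]
      have e1 : (F ((σ x : ↥(Omega f)) : M)).symm (a x s) =
        der (d := d) f x ((F (x : M)).symm s) := (F (f (x : M))).symm_apply_apply _
      rw [e1]
      exact iffu x (hOL x.2) _
    · intro x s hs n
      exact (ca x s hs n).trans (mono_bound (by linarith) (by linarith) hμ.le (le_max_left _ _) n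
        (norm_nonneg _))
    · intro x s hs n
      exact (cua x s hs n).trans (mono_bound (by linarith) (by linarith) hμ.le (le_max_left _ _) n
        (norm_nonneg _))
    · intro x w
      obtain ⟨s, hs, u, hu, e⟩ := dec₁ (π₁ x) (hq x x.2) ((F₁ (π₁ x)).symm w)
      have hs' : F₁ (π₁ x) s ∈ Rs x := by
        rw [hRs, ContinuousLinearEquiv.symm_apply_apply]
        exact hs
      have hu' : F₁ (π₁ x) u ∈ Ru x := by
        rw [hRu, ContinuousLinearEquiv.symm_apply_apply]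
        exact hu
      have hw : w = F₁ (π₁ x) s + F₁ (π₁ x) u := by
        rw [← map_add, ← e, ContinuousLinearEquiv.apply_symm_apply]
      have h := ang₁ x _ hs' _ hu'
      rw [← hw] at h
      exact ⟨_, hs', _, hu', hw, h.1.trans (mul_le_mul_of_nonneg_right (by linarith) (norm_nonneg _)),
        h.2.trans (mul_le_mul_of_nonneg_right (by linarith) (norm_nonneg _))⟩
    · intro x s
      rw [hRs, hRs]
      have e1 : (F₁ (f₁ (π₁ x))).symm (b x s) =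
        der (d := d₁) f₁ (π₁ x) ((F₁ (π₁ x)).symm s) := (F₁ (f₁ (π₁ x))).symm_apply_apply _
      rw [hπ₁, e1]
      exact iffs₁ _ (hq x x.2) _
    · intro x s
      rw [hRu, hRu]
      have e1 : (F₁ (f₁ (π₁ x))).symm (b x s) =
        der (d := d₁) f₁ (π₁ x) ((F₁ (π₁ x)).symm s) := (F₁ (f₁ (π₁ x))).symm_apply_apply _
      rw [hπ₁, e1]
      exact iffu₁ _ (hq x x.2) _
    · intro x s hs n
      exact (cb x s hs n).trans (mono_bound (by linarith) (by linarith) hμ₁.le (le_max_right _ _) n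
        (norm_nonneg _))
    · intro x s hs n
      exact (cub x s hs n).trans (mono_bound (by linarith) (by linarith) hμ₁.le (le_max_right _ _) n
        (norm_nonneg _))
  have hδ : 0 < - Real.log μ' := by
    have := Real.log_neg hμ' hμ'1
    linarith
  refine hyperbolicStructure_of_vecHyp hr f γ (isClosed_Omega _) hΛ hΛ' hC' hδ ?_
  intro x hx v
  obtain ⟨s, u, e, h1, h2⟩ := hres ⟨x, hx⟩ (F x v)
  have hexp : ∀ n : ℕ, Real.exp (-(-Real.log μ') * n) = μ' ^ n := by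
    intro n
    rw [neg_neg, mul_comm, Real.exp_nat_mul, Real.exp_log hμ']
  have fw : ∀ (n : ℕ) (z : EE d), ‖cocyc σ a n ⟨x, hx⟩ z‖ =
      rnorm γ (f^[n] x) (der (d := d) f^[n] x ((F x).symm z)) := by
    intro n z
    rw [← hF]
    exact congrArg norm (cocyc_eq σ (fun x => (x : M)) f (fun x => rfl)
      (OmegaStab.FinHyp.mdiff hr f) F a (fun x v => A_apply hr f F x v) n ⟨x, hx⟩ z)
  have bw : ∀ (n : ℕ) (z : EE d), ‖bcocyc σ a n ⟨x, hx⟩ z‖ =
      rnorm γ (f.symm^[n] x) (der (d := d) f.symm^[n] x ((F x).symm z)) := by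
    intro n z
    rw [← hF]
    exact congrArg norm (cocyc_eq σ.symm (fun x => (x : M)) f.symm (fun x => rfl)
      (OmegaStab.FinHyp.mdiff hr f.symm) F (fun x => (a (σ.symm x)).symm)
      (fun x v => A_symm_apply hr f F x v) n ⟨x, hx⟩ z)
  refine ⟨(F x).symm s, (F x).symm u, ?_, ?_, ?_, ?_, ?_⟩
  · rw [← map_add, ← e, ContinuousLinearEquiv.symm_apply_apply]
  · intro n
    rw [hexp, norm_symm hF]
    have := (h1 n).1
    rw [fw] at this
    exact this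
  · intro n
    rw [hexp, norm_symm hF]
    have := (h1 n).2
    rw [bw] at this
    exact this
  · intro n
    rw [hexp, norm_symm hF]
    have := (h2 n).1
    rw [bw] at this
    exact this
  · intro n
    rw [hexp, norm_symm hF]
    have := (h2 n).2
    rw [fw] at this
    exact this

end Pool.Agent.OmegaFT
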