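import Pool.Agent.Work.MP_814647_an.FT.Stmts5

/-!
# Fibred tori: the fibre maps are differentiable, without continuity in the base (item LiftC1B)
-/

open Set Filter Topology Function
open scoped Manifold ContDiff

noncomputable section

namespace Pool.Agent.OmegaFT

open Pool.Agent.OmegaStab (EE Dyn)

universe u v w

namespace XLiftC1B

/-- small integral vectors vanish -/
lemma iv_small {m : ℕ} (k l : Fin m → ℤ) (h : ‖iv k - iv l‖ < 1) : iv k = iv l := by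
  have hkl : k = l := by
    funext i
    have h1 : ‖(iv k - iv l).ofLp i‖ ≤ ‖iv k - iv l‖ := PiLp.norm_apply_le (iv k - iv l) i
    have h2 : (iv k - iv l).ofLp i = ((k i - l i : ℤ) : ℝ) := by
      push_cast
      rfl
    rw [h2, Real.norm_eq_abs] at h1
    have h3 : |((k i - l i : ℤ) : ℝ)| < 1 := h1.trans_lt h
    have h4 : |k i - l i| < 1 := by exact_mod_cast h3
    have h5 := Int.abs_lt_one_iff.1 h4
    omega
  rw [hkl]

/-- Local form: around `z₀` there is a `C^1` map `β` with `e ∘ β = (fibre part of the map)`. -/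
theorem exists_beta {d₁ m d : ℕ} {N : Type u} {T : Type v} {M : Type w}
    [MetricSpace N] [ChartedSpace (EE d₁) N] [IsManifold (𝓡 d₁) ∞ N]
    [MetricSpace T] [ChartedSpace (EE m) T] [IsManifold (𝓡 m) ∞ T]
    [MetricSpace M] [ChartedSpace (EE d) M] [IsManifold (𝓡 d) ∞ M] {r : ℕ∞} (hr : 1 ≤ r)
    (Φ : Diffeomorph (𝓡 d) ((𝓡 d₁).prod (𝓡 m)) M (N × T) ∞) (f : Dyn d M r)
    (e : EE m → T) (he : IsLocalDiffeomorph (𝓡 m) (𝓡 m) ∞ e)
    (P : N → EE m → EE m)
    (h : ∀ x v, e (P x v) = (Φ (f (Φ.symm (x, e v)))).2) (z₀ : N × EE m) :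
    ∃ (β : N × EE m → EE m) (W : Set (N × EE m)), IsOpen W ∧ z₀ ∈ W ∧
      (∀ z ∈ W, ContMDiffAt ((𝓡 d₁).prod (𝓡 m)) (𝓡 m) 1 β z) ∧
      ∀ z ∈ W, e (β z) = e (P z.1 z.2) := by
  have hr1 : (1 : WithTop ℕ∞) ≤ (r : WithTop ℕ∞) := by exact_mod_cast hr
  have h1 : (1 : WithTop ℕ∞) ≤ ∞ := by exact_mod_cast le_top
  have hF : ContMDiff ((𝓡 d₁).prod (𝓡 m)) (𝓡 m) 1
      (fun z : N × EE m => (Φ (f (Φ.symm (z.1, e z.2)))).2) := by
    have e1 : ContMDiff ((𝓡 d₁).prod (𝓡 m)) ((𝓡 d₁).prod (𝓡 m)) 1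
        (fun z : N × EE m => (z.1, e z.2)) :=
      contMDiff_fst.prodMk ((he.contMDiff.of_le h1).comp contMDiff_snd)
    exact contMDiff_snd.comp ((Φ.contMDiff.of_le h1).comp ((f.contMDiff.of_le hr1).comp
      ((Φ.symm.contMDiff.of_le h1).comp e1)))
  have hl := he (P z₀.1 z₀.2)
  refine ⟨fun z => hl.localInverse (Φ (f (Φ.symm (z.1, e z.2)))).2,
    (fun z : N × EE m => (Φ (f (Φ.symm (z.1, e z.2)))).2) ⁻¹' hl.localInverse.source,
    hl.localInverse_open_source.preimage hF.continuous, ?_, ?_, ?_⟩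
  · show (Φ (f (Φ.symm (z₀.1, e z₀.2)))).2 ∈ hl.localInverse.source
    rw [← h z₀.1 z₀.2]
    exact hl.localInverse_mem_source
  · intro z hz
    have hinv : ContMDiffAt (𝓡 m) (𝓡 m) 1 hl.localInverse (Φ (f (Φ.symm (z.1, e z.2)))).2 :=
      (hl.localInverse_contMDiffOn.contMDiffAt
        (hl.localInverse_open_source.mem_nhds hz)).of_le h1
    exact ContMDiffAt.comp z hinv (hF z)
  · intro z hz
    rw [h z.1 z.2]
    exact hl.localInverse_right_inv hz

/-- A lift of a `C^1` fibre map, continuous in the fibre variable, has continuous fibre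
derivatives. -/
theorem vertC1 {d₁ m : ℕ} {N : Type u} {T : Type v} [MetricSpace N] [ChartedSpace (EE d₁) N]
    [IsManifold (𝓡 d₁) ∞ N] [MetricSpace T] (e : EE m → T) (ht : TopTorus e)
    (P : N → EE m → EE m) (hc : ∀ x, Continuous (P x))
    (hloc : ∀ z₀ : N × EE m, ∃ (β : N × EE m → EE m) (W : Set (N × EE m)), IsOpen W ∧ z₀ ∈ W ∧
      (∀ z ∈ W, ContMDiffAt ((𝓡 d₁).prod (𝓡 m)) (𝓡 m) 1 β z) ∧
      ∀ z ∈ W, e (β z) = e (P z.1 z.2)) :
    VertC1 P := by
  have : IsManifold (𝓡 d₁) 1 N := IsManifold.of_le (n := ∞) (by exact_mod_cast le_top)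
  -- the local comparison
  have key : ∀ (β : N × EE m → EE m) (W : Set (N × EE m)), IsOpen W →
      (∀ z ∈ W, ContMDiffAt ((𝓡 d₁).prod (𝓡 m)) (𝓡 m) 1 β z) →
      (∀ z ∈ W, e (β z) = e (P z.1 z.2)) → ∀ z ∈ W,
      DifferentiableAt ℝ (P z.1) z.2 ∧
        fderiv ℝ (P z.1) z.2 = fderiv ℝ (fun v => β (z.1, v)) z.2 := by
    intro β W hW hβ hE z hz
    have hd : ContMDiffAt (𝓡 m) (𝓡 m) 1 (fun v => β (z.1, v)) z.2 := by
      have h1 : ContMDiff (𝓡 m) ((𝓡 d₁).prod (𝓡 m)) 1 (fun v : EE m => (z.1, v)) :=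
        contMDiff_const.prodMk contMDiff_id
      have h2 : ContMDiffAt ((𝓡 d₁).prod (𝓡 m)) (𝓡 m) 1 β ((fun v : EE m => (z.1, v)) z.2) :=
        hβ z hz
      exact ContMDiffAt.comp z.2 h2 (h1 z.2)
    have hdiff : DifferentiableAt ℝ (fun v => β (z.1, v)) z.2 :=
      (contMDiffAt_iff_contDiffAt.1 hd).differentiableAt one_ne_zero
    have hWv : ∀ᶠ v in 𝓝 z.2, (z.1, v) ∈ W := by
      have h1 : Continuous fun v : EE m => (z.1, v) := by fun_prop
      exact h1.continuousAt.eventually (hW.mem_nhds hz)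
    obtain ⟨k, hk⟩ := (ht.fibre _ _).1 (hE z hz)
    have hcont : ContinuousAt (fun v => P z.1 v - β (z.1, v)) z.2 :=
      (hc z.1).continuousAt.sub hdiff.continuousAt
    have hnear : ∀ᶠ v in 𝓝 z.2, ‖(P z.1 v - β (z.1, v)) - (P z.1 z.2 - β (z.1, z.2))‖ < 1 := by
      have h1 := hcont.eventually (Metric.ball_mem_nhds _ (zero_lt_one (α := ℝ)))
      filter_upwards [h1] with v hv
      rw [← dist_eq_norm]
      exact hv
    have heq : P z.1 =ᶠ[𝓝 z.2] fun v => β (z.1, v) + iv k := by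
      filter_upwards [hWv, hnear] with v hv hn
      obtain ⟨l, hl⟩ := (ht.fibre _ _).1 (hE (z.1, v) hv)
      have hl' : P z.1 v = β (z.1, v) + iv l := hl
      have hk' : P z.1 z.2 = β (z.1, z.2) + iv k := hk
      rw [hl', hk', add_sub_cancel_left, add_sub_cancel_left] at hn
      rw [hl', iv_small l k hn]
    have hD : HasFDerivAt (P z.1) (fderiv ℝ (fun v => β (z.1, v)) z.2) z.2 :=
      (hdiff.hasFDerivAt.add_const (iv k)).congr_of_eventuallyEq heq
    exact ⟨hD.differentiableAt, hD.fderiv⟩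
  refine ⟨fun x v => ?_, ?_⟩
  · obtain ⟨β, W, hW, hz, hβ, hE⟩ := hloc (x, v)
    exact (key β W hW hβ hE (x, v) hz).1
  · rw [continuous_iff_continuousAt]
    intro z₀
    obtain ⟨β, W, hW, hz, hβ, hE⟩ := hloc z₀
    have hf : ContMDiffAt (((𝓡 d₁).prod (𝓡 m)).prod (𝓡 m)) (𝓡 m) 1
        (uncurry fun (z : N × EE m) (v : EE m) => β (z.1, v)) (z₀, z₀.2) := by
      have h1 : ContMDiff (((𝓡 d₁).prod (𝓡 m)).prod (𝓡 m)) ((𝓡 d₁).prod (𝓡 m)) 1
          (fun q : (N × EE m) × EE m => (q.1.1, q.2)) :=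
        (contMDiff_fst.comp contMDiff_fst).prodMk contMDiff_snd
      have h2 : ContMDiffAt ((𝓡 d₁).prod (𝓡 m)) (𝓡 m) 1 β
          ((fun q : (N × EE m) × EE m => (q.1.1, q.2)) (z₀, z₀.2)) := hβ z₀ hz
      exact ContMDiffAt.comp (z₀, z₀.2) h2 (h1 _)
    have hg : ContMDiffAt ((𝓡 d₁).prod (𝓡 m)) (𝓡 m) 0 (fun z : N × EE m => z.2) z₀ :=
      contMDiffAt_snd
    have h2 := ContMDiffAt.mfderiv (fun (z : N × EE m) (v : EE m) => β (z.1, v))
      (fun z : N × EE m => z.2) hf hg (by norm_num)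
    have h3 : inTangentCoordinates (𝓡 m) (𝓡 m) (fun z : N × EE m => z.2)
        (fun z : N × EE m => β (z.1, z.2))
        (fun z : N × EE m => mfderiv (𝓡 m) (𝓡 m) (fun v => β (z.1, v)) z.2) z₀ =
        fun z : N × EE m => fderiv ℝ (fun v => β (z.1, v)) z.2 := by
      simp only [mfderiv_eq_fderiv]
      exact inTangentCoordinates_model_space (fun z : N × EE m => z.2)
        (fun z : N × EE m => β (z.1, z.2))
        (fun z : N × EE m => fderiv ℝ (fun v => β (z.1, v)) z.2) z₀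
    have h4 := h2.continuousAt
    have h5 : ContinuousAt (fun z : N × EE m => fderiv ℝ (fun v => β (z.1, v)) z.2) z₀ :=
      h3 ▸ h4
    refine h5.congr ?_
    filter_upwards [hW.mem_nhds hz] with z hzW
    exact (key β W hW hβ hE z hzW).2.symm

end XLiftC1B

/-- Item LiftC1B. -/
theorem prf_LiftC1B : LiftC1B.{u, v, w} := by
  intro d₁ m d N T M _ _ _ _ _ _ _ _ _ r hr Φ f e he ht P f₁ hc h
  refine XLiftC1B.vertC1 (d₁ := d₁) e ht P hc fun z₀ => ?_
  exact XLiftC1B.exists_beta hr Φ f e he P (fun x v => (congrArg Prod.snd (h x v)).symm) z₀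

end Pool.Agent.OmegaFT
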