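import Pool.Agent.Work.MP_814647_an.FT.Stmts5
import Pool.Agent.Work.MP_814647_an.FT.I_FibClosed

/-!
# Item ModCont: uniform continuity modulo the integer lattice
-/

open Set Filter Topology Function
open scoped Manifold ContDiff

noncomputable section

namespace Pool.Agent.OmegaFT

open Pool.Agent.OmegaStab (EE)

universe u v

theorem prf_ModCont : ModCont.{u, v} := by
  intro m N T _ _ _ _ e P f₁ F he hF hFP ε hε
  obtain ⟨ρ, hρ, hL⟩ := XFibClosed.e_lift he ε hε
  have hu := CompactSpace.uniformContinuous_of_continuous hF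
  rw [Metric.uniformContinuous_iff] at hu
  obtain ⟨δF, hδF, hFu⟩ := hu ρ hρ
  obtain ⟨ρe, hρe, hE⟩ := XFibClosed.e_unif he (δF / 2) (by linarith)
  refine ⟨min (δF / 2) ρe, lt_min (by linarith) hρe, fun x x' v v' hx hv => ?_⟩
  have h1 : dist (e v) (e v') ≤ δF / 2 := by
    have := hE v' (v - v') (hv.trans (min_le_right _ _))
    rwa [add_sub_cancel] at this
  have h2 : dist (x, e v) (x', e v') < δF := by
    rw [Prod.dist_eq]
    exact max_lt (by linarith [hx.trans (min_le_left _ _)]) (by linarith)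
  have h3 := hFu h2
  rw [hFP, hFP, Prod.dist_eq] at h3
  have h4 : dist (e (P x' v')) (e (P x v)) ≤ ρ := by
    rw [dist_comm]
    exact (le_max_right _ _).trans h3.le
  obtain ⟨k, hk⟩ := hL _ _ h4
  refine ⟨k, ?_⟩
  rw [← norm_neg]
  have h5 : -(P x v - P x' v' - iv k) = P x' v' + iv k - P x v := by abel
  rw [h5]
  exact hk

end Pool.Agent.OmegaFT
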