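import Pool.Agent.Work.MP_814647_an.FT.Stmts4
import Pool.Agent.Work.MP_814647_an.FT.I_FibClosed

/-!
# Item Normal: normalisation of the lifts of the fibre maps
-/

open Set Filter Topology Function
open scoped Manifold ContDiff

noncomputable section

namespace Pool.Agent.OmegaFT

open Pool.Agent.OmegaStab (EE HypLin)

universe u v

namespace XNormal

/-- a short integer vector is zero -/
theorem iv_small {m : ℕ} (k : Fin m → ℤ) (h : ‖iv k‖ < 1) : k = 0 := by
  funext i
  have h1 : ‖(iv k) i‖ ≤ ‖iv k‖ := PiLp.norm_apply_le (iv k) i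
  have h2 : |(k i : ℝ)| < 1 := by
    have h3 : ‖(iv k) i‖ = |(k i : ℝ)| := by simp [iv]
    rw [← h3]
    exact h1.trans_lt h
  have h4 : |k i| < 1 := by
    exact_mod_cast h2
  simpa using Int.abs_lt_one_iff.1 h4

/-- a continuous function which is zero at zero and is close to integer vectors is small -/
theorem small {m : ℕ} (g : EE m → EE m) (hg : Continuous g) (h0 : g 0 = 0) (c : ℝ) (hc : 0 ≤ c)
    (hc1 : c < 1 / 2) (h : ∀ v, ∃ l : Fin m → ℤ, ‖g v + iv l‖ ≤ c) : ∀ v, ‖g v‖ ≤ c := by
  have hcl : IsClosed {v | ‖g v‖ ≤ c} := isClosed_le hg.norm continuous_const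
  have hop : {v | ‖g v‖ ≤ c} = {v | ‖g v‖ < 1 / 2} := by
    ext v
    simp only [mem_ofPred_eq]
    constructor
    · intro hv
      linarith
    · intro hv
      obtain ⟨l, hl⟩ := h v
      have h1 : ‖iv l‖ < 1 := by
        have h2 : iv l = (g v + iv l) - g v := by abel
        rw [h2]
        exact (norm_sub_le _ _).trans_lt (by linarith)
      have h3 := iv_small l h1
      rw [h3, XFibClosed.iv_zero, add_zero] at hl
      exact hl
  have hop' : IsOpen {v | ‖g v‖ ≤ c} := by
    rw [hop]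
    exact isOpen_lt hg.norm continuous_const
  have huniv : {v | ‖g v‖ ≤ c} = univ :=
    IsClopen.eq_univ ⟨hcl, hop'⟩ ⟨0, by simpa [h0] using hc⟩
  intro v
  have : v ∈ {v | ‖g v‖ ≤ c} := by
    rw [huniv]
    exact mem_univ v
  exact this

end XNormal

open XNormal in
theorem prf_Normal : Normal.{u, v} := by
  intro m N T _ _ _ _ e A ψ f₁ F he _ hF hψ hper hFe
  refine ⟨?_, ?_, ?_⟩
  · rw [continuous_iff_continuousAt]
    rintro ⟨x₀, v₀⟩
    rw [Metric.continuousAt_iff]
    intro ε hε
    -- a small constant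
    set c : ℝ := min (ε / 8) (1 / 8) with hc
    have hc0 : 0 < c := lt_min (by linarith) (by norm_num)
    have hc1 : c ≤ 1 / 8 := min_le_right _ _
    have hc2 : c ≤ ε / 8 := min_le_left _ _
    obtain ⟨ρ, hρ, hl⟩ := XFibClosed.e_lift he c hc0
    have hFu := CompactSpace.uniformContinuous_of_continuous hF
    rw [Metric.uniformContinuous_iff] at hFu
    obtain ⟨δ, hδ, hd⟩ := hFu ρ hρ
    have key : ∀ x, dist x x₀ < δ → ∀ v, ‖(ψ x v - ψ x 0) - (ψ x₀ v - ψ x₀ 0)‖ ≤ 2 * c := by
      intro x hx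
      have hlift : ∀ v, ∃ l : Fin m → ℤ, ‖A v + ψ x v + iv l - (A v + ψ x₀ v)‖ ≤ c := by
        intro v
        apply hl
        have h1 := hd (a := (x, e v)) (b := (x₀, e v)) (by
          rw [Prod.dist_eq]
          exact max_lt hx (by simpa using hδ))
        rw [hFe, hFe, Prod.dist_eq] at h1
        exact (le_max_right _ _).trans h1.le
      apply small
      · exact ((hψ x).sub continuous_const).sub ((hψ x₀).sub continuous_const)
      · simp
      · linarith
      · linarith
      · intro v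
        obtain ⟨l, h1⟩ := hlift v
        obtain ⟨l', h2⟩ := hlift 0
        refine ⟨l - l', ?_⟩
        have h3 : ψ x v - ψ x 0 - (ψ x₀ v - ψ x₀ 0) + iv (l - l') =
            (A v + ψ x v + iv l - (A v + ψ x₀ v)) -
              (A 0 + ψ x 0 + iv l' - (A 0 + ψ x₀ 0)) := by
          rw [sub_eq_add_neg l l', XFibClosed.iv_add, XFibClosed.iv_neg]
          abel
        rw [h3]
        exact (norm_sub_le _ _).trans (by linarith)
    have hc3 := (hψ x₀).continuousAt (x := v₀)
    rw [Metric.continuousAt_iff] at hc3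
    obtain ⟨δ', hδ', hd'⟩ := hc3 (ε / 2) (by linarith)
    refine ⟨min δ δ', lt_min hδ hδ', ?_⟩
    rintro ⟨x, v⟩ hxv
    rw [Prod.dist_eq, max_lt_iff] at hxv
    have h1 := key x (hxv.1.trans_le (min_le_left _ _)) v
    have h2 := hd' (hxv.2.trans_le (min_le_right _ _))
    simp only [uncurry]
    rw [dist_eq_norm] at h2 ⊢
    have h3 : ψ x v - ψ x 0 - (ψ x₀ v₀ - ψ x₀ 0) =
        ((ψ x v - ψ x 0) - (ψ x₀ v - ψ x₀ 0)) + (ψ x₀ v - ψ x₀ v₀) := by abel
    rw [h3]
    exact (norm_add_le _ _).trans_lt (by linarith)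
  · intro x v k
    simp only [hper]
  · intro x v
    rw [hFe]
    congr 2
    abel

end Pool.Agent.OmegaFT
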