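import Pool.Agent.Work.MP_814647_an.FT.Stmts4
import Pool.Agent.Work.MP_814647_an.Linear

/-!
# Item PairDense: density of pairs of phases on the unstable space
-/

open Set Filter Topology Function
open scoped Manifold ContDiff

noncomputable section

namespace Pool.Agent.OmegaFT

open Pool.Agent.OmegaStab (EE HypLin)

namespace XPairDense

/-- One-dimensional Kronecker theorem, uniform form. -/
theorem kron (r : ℝ) (hr : Irrational r) (ε : ℝ) (hε : 0 < ε) :
    ∃ B : ℝ, ∀ β : ℝ, ∃ p q : ℤ, |(p : ℝ)| ≤ B ∧ |r * p - β - q| ≤ ε := by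
  have hd : Dense (AddSubgroup.closure {r, 1} : Set ℝ) := by
    rw [dense_addSubgroupClosure_pair_iff, div_one]
    exact hr
  have h1 : ∀ x : ℝ, ∃ p q : ℤ, |r * p - x - q| ≤ ε / 2 := by
    intro x
    obtain ⟨y, hy, hxy⟩ := hd.exists_dist_lt x (half_pos hε)
    rw [SetLike.mem_coe, AddSubgroup.mem_closure_pair] at hy
    obtain ⟨p, q, hpq⟩ := hy
    refine ⟨p, -q, ?_⟩
    rw [Real.dist_eq, ← hpq] at hxy
    have e : r * p - x - ((-q : ℤ) : ℝ) = -(x - (p • r + q • (1 : ℝ))) := by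
      simp only [zsmul_eq_mul, mul_one, Int.cast_neg]
      ring
    rw [e, abs_neg]
    exact hxy.le
  choose p q hpq using h1
  obtain ⟨M, hM⟩ := exists_nat_gt (2 / ε)
  have hM0 : (0 : ℝ) < M := lt_trans (by positivity) hM
  obtain ⟨B, hB⟩ : ∃ B : ℝ, ∀ j ∈ Finset.range M, |(p ((j : ℝ) / M) : ℝ)| ≤ B := by
    set G : ℕ → ℝ := fun j => |(p ((j : ℝ) / (M : ℝ)) : ℝ)| with hG
    have hG0 : ∀ i ∈ Finset.range M, 0 ≤ G i := fun i _ => abs_nonneg _
    exact ⟨∑ j ∈ Finset.range M, G j, fun j hj => Finset.single_le_sum hG0 hj⟩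
  refine ⟨B, fun β => ?_⟩
  have hf0 := Int.fract_nonneg β
  have hf1 := Int.fract_lt_one β
  set j : ℕ := ⌊Int.fract β * M⌋₊ with hj
  have hj1 : (j : ℝ) ≤ Int.fract β * M := Nat.floor_le (by positivity)
  have hj2 : Int.fract β * M < j + 1 := Nat.lt_floor_add_one _
  have hjM : j < M := by
    have : (j : ℝ) < M := lt_of_le_of_lt hj1 (by nlinarith)
    exact_mod_cast this
  refine ⟨p ((j : ℝ) / M), q ((j : ℝ) / M) - ⌊β⌋, hB j (Finset.mem_range.2 hjM), ?_⟩
  have h3 := hpq ((j : ℝ) / M)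
  have h4 : |(j : ℝ) / M - Int.fract β| ≤ ε / 2 := by
    have e1 : (j : ℝ) / M ≤ Int.fract β := by
      rw [div_le_iff₀ hM0]
      exact hj1
    have e2 : Int.fract β < ((j : ℝ) + 1) / M := by
      rw [lt_div_iff₀ hM0]
      exact hj2
    have e3 : (1 : ℝ) / M ≤ ε / 2 := by
      rw [div_le_iff₀ hM0]
      rw [div_lt_iff₀ hε] at hM
      linarith
    rw [abs_le]
    rw [add_div] at e2
    constructor <;> linarith
  have e : r * (p ((j : ℝ) / M) : ℝ) - β - ((q ((j : ℝ) / M) - ⌊β⌋ : ℤ) : ℝ) =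
      (r * (p ((j : ℝ) / M) : ℝ) - (j : ℝ) / M - (q ((j : ℝ) / M) : ℝ)) +
        ((j : ℝ) / M - Int.fract β) := by
    rw [Int.fract]
    push_cast
    ring
  rw [e]
  exact (abs_add_le _ _).trans (by linarith)

variable {m : ℕ}

theorem kap_add (k : Fin m → ℤ) (v w : EE m) : kap k (v + w) = kap k v + kap k w := by
  unfold kap
  rw [← Finset.sum_add_distrib]
  refine Finset.sum_congr rfl fun i _ => ?_
  rw [PiLp.add_apply]
  ring

theorem kap_smul (k : Fin m → ℤ) (c : ℝ) (v : EE m) : kap k (c • v) = c * kap k v := by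
  unfold kap
  rw [Finset.mul_sum]
  refine Finset.sum_congr rfl fun i _ => ?_
  rw [PiLp.smul_apply, smul_eq_mul]
  ring

/-- The functional as a linear map. -/
def kapL (k : Fin m → ℤ) : EE m →L[ℝ] ℝ :=
  LinearMap.toContinuousLinearMap
    { toFun := kap k, map_add' := kap_add k, map_smul' := kap_smul k }

theorem kapL_apply (k : Fin m → ℤ) (v : EE m) : kapL k v = kap k v := rfl

theorem kap_le (k : Fin m → ℤ) (v : EE m) : |kap k v| ≤ ‖kapL k‖ * ‖v‖ :=
  (kapL k).le_opNorm v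

/-- The coordinate vector. -/
def ej (j : Fin m) : EE m := iv (Pi.single j 1)

theorem kap_ej (k : Fin m → ℤ) (j : Fin m) : kap k (ej j) = k j := by
  unfold kap ej iv
  rw [Finset.sum_eq_single j]
  · simp
  · intro i _ hij
    simp [Pi.single_eq_of_ne hij]
  · intro h
    exact absurd (Finset.mem_univ j) h

theorem sum_ej (v : EE m) : v = ∑ j, (v j) • (ej j) := by
  ext i
  have h1 : (∑ j, (v j) • (ej j) : EE m) i = ∑ j, ((v j) • (ej j) : EE m) i := by
    rw [← Finset.sum_apply]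
    simp
  rw [h1, Finset.sum_eq_single i]
  · simp [ej, iv]
  · intro j _ hij
    simp [ej, iv, Pi.single_eq_of_ne hij.symm]
  · intro h
    exact absurd (Finset.mem_univ i) h

theorem kap_iv (k l : Fin m → ℤ) : kap k (iv l) = ((∑ i, k i * l i : ℤ) : ℝ) := by
  unfold kap iv
  push_cast
  rfl

/-- A functional with integral values on the integer vectors is integral. -/
theorem kap_of_int (L : EE m →L[ℝ] ℝ) (h : ∀ j, ∃ z : ℤ, L (ej j) = z) :
    ∃ k' : Fin m → ℤ, ∀ v, L v = kap k' v := by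
  choose k' hk' using h
  refine ⟨k', fun v => ?_⟩
  conv_lhs => rw [sum_ej v]
  rw [map_sum]
  unfold kap
  refine Finset.sum_congr rfl fun j _ => ?_
  rw [map_smul, hk', smul_eq_mul, mul_comm]

theorem pull (A : EE m →L[ℝ] EE m) (hA : ∀ k, ∃ l, A (iv k) = iv l) (k : Fin m → ℤ) :
    ∃ k' : Fin m → ℤ, ∀ v, kap k (A v) = kap k' v := by
  refine kap_of_int ((kapL k).comp A) fun j => ?_
  obtain ⟨l, hl⟩ := hA (Pi.single j 1)
  exact ⟨∑ i, k i * l i, by
    show kap k (A (ej j)) = _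
    rw [ej, hl, kap_iv]⟩

theorem pull_iter (A : EE m →L[ℝ] EE m) (hA : ∀ k, ∃ l, A (iv k) = iv l) (k : Fin m → ℤ)
    (n : ℕ) : ∃ k' : Fin m → ℤ, ∀ v, kap k ((A ^ n) v) = kap k' v := by
  induction n with
  | zero => exact ⟨k, fun v => by simp⟩
  | succ n ih =>
    obtain ⟨k', hk'⟩ := ih
    obtain ⟨k'', hk''⟩ := pull A hA k'
    refine ⟨k'', fun v => ?_⟩
    rw [pow_succ]
    show kap k ((A ^ n) (A v)) = _
    rw [hk', hk'']

theorem eq_zero_of_kap (k : Fin m → ℤ) (h : ∀ v, kap k v = 0) : k = 0 := by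
  funext j
  have h1 := h (ej j)
  rw [kap_ej] at h1
  exact_mod_cast h1

theorem exists_zero (k : ℕ → Fin m → ℤ) (h : ∀ v, Tendsto (fun n => kap (k n) v) atTop (𝓝 0)) :
    ∃ n, k n = 0 := by
  have h1 : ∀ j : Fin m, ∀ᶠ n in atTop, k n j = 0 := by
    intro j
    have h2 := (h (ej j)).eventually (Metric.ball_mem_nhds 0 one_pos)
    filter_upwards [h2] with n hn
    rw [dist_zero_right, kap_ej, Real.norm_eq_abs] at hn
    have h3 : |k n j| < 1 := by exact_mod_cast hn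
    exact Int.abs_lt_one_iff.1 h3
  obtain ⟨n, hn⟩ := (eventually_all.2 h1).exists
  exact ⟨n, funext hn⟩

theorem pow_eq (A : EE m ≃L[ℝ] EE m) (n : ℕ) (v : EE m) :
    ((A : EE m →L[ℝ] EE m) ^ n) v = A^[n] v := by
  induction n generalizing v with
  | zero => simp
  | succ n ih =>
    rw [pow_succ, iterate_succ_apply, ← ih]
    rfl

theorem pow_symm (A : EE m ≃L[ℝ] EE m) (n : ℕ) (v : EE m) :
    ((A : EE m →L[ℝ] EE m) ^ n) (((A.symm : EE m →L[ℝ] EE m) ^ n) v) = v := by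
  rw [pow_eq, pow_eq A.symm]
  exact (RightInverse.iterate (f := A) (g := A.symm) A.apply_symm_apply n) v

theorem symm_pow (A : EE m ≃L[ℝ] EE m) (n : ℕ) (v : EE m) :
    ((A.symm : EE m →L[ℝ] EE m) ^ n) (((A : EE m →L[ℝ] EE m) ^ n) v) = v := by
  rw [pow_eq A.symm, pow_eq]
  exact (LeftInverse.iterate (f := A) (g := A.symm) A.symm_apply_apply n) v

theorem tendsto_of_le (k : Fin m → ℤ) (C μ : ℝ) (hμ : 0 < μ) (hμ1 : μ < 1) (f : ℕ → EE m)
    (h : ∀ n, ‖f n‖ ≤ C * μ ^ n) : Tendsto (fun n => kap k (f n)) atTop (𝓝 0) := by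
  have h1 : Tendsto (fun n : ℕ => ‖kapL k‖ * (C * μ ^ n)) atTop (𝓝 0) := by
    have h2 := (tendsto_pow_atTop_nhds_zero_of_lt_one hμ.le hμ1).const_mul (‖kapL k‖ * C)
    rw [mul_zero] at h2
    refine h2.congr fun n => ?_
    ring
  refine squeeze_zero_norm (fun n => ?_) h1
  rw [Real.norm_eq_abs]
  exact (kap_le k (f n)).trans (mul_le_mul_of_nonneg_left (h n) (norm_nonneg _))

/-- The data of the splitting. -/
structure Spl (A : EE m ≃L[ℝ] EE m) (Es Eu : Submodule ℝ (EE m)) (C μ : ℝ) : Prop where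
  compl : IsCompl Es Eu
  invu : ∀ v ∈ Eu, A v ∈ Eu
  invu' : ∀ v ∈ Eu, A.symm v ∈ Eu
  mu0 : 0 < μ
  mu1 : μ < 1
  cs : ∀ v ∈ Es, ∀ n : ℕ, ‖((A : EE m →L[ℝ] EE m) ^ n) v‖ ≤ C * μ ^ n * ‖v‖
  cu : ∀ v ∈ Eu, ∀ n : ℕ, ‖((A.symm : EE m →L[ℝ] EE m) ^ n) v‖ ≤ C * μ ^ n * ‖v‖

variable {A : EE m ≃L[ℝ] EE m} {Es Eu : Submodule ℝ (EE m)} {C μ : ℝ}

theorem Spl.powu (h : Spl A Es Eu C μ) (n : ℕ) : ∀ v ∈ Eu,
    ((A : EE m →L[ℝ] EE m) ^ n) v ∈ Eu := by
  induction n with
  | zero => intro v hv; simpa using hv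
  | succ n ih =>
    intro v hv
    rw [pow_succ]
    exact ih _ (h.invu v hv)

theorem Spl.decomp (h : Spl A Es Eu C μ) (v : EE m) : ∃ s ∈ Es, ∃ u ∈ Eu, s + u = v :=
  Submodule.mem_sup.1 (by rw [h.compl.sup_eq_top]; exact Submodule.mem_top)

theorem Spl.tends (h : Spl A Es Eu C μ) (k : Fin m → ℤ) (s : EE m) (hs : s ∈ Es) :
    Tendsto (fun n => kap k (((A : EE m →L[ℝ] EE m) ^ n) s)) atTop (𝓝 0) :=
  tendsto_of_le k (C * ‖s‖) μ h.mu0 h.mu1 _ fun n => by
    have := h.cs s hs n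
    linarith [this, mul_right_comm C (μ ^ n) ‖s‖]

theorem Spl.tendu (h : Spl A Es Eu C μ) (k : Fin m → ℤ) (u : EE m) (hu : u ∈ Eu) :
    Tendsto (fun n => kap k (((A.symm : EE m →L[ℝ] EE m) ^ n) u)) atTop (𝓝 0) :=
  tendsto_of_le k (C * ‖u‖) μ h.mu0 h.mu1 _ fun n => by
    have := h.cu u hu n
    linarith [this, mul_right_comm C (μ ^ n) ‖u‖]

/-- An integer functional which vanishes on the unstable space is zero. -/
theorem Spl.vanish (h : Spl A Es Eu C μ) (hI : Integral A) (k : Fin m → ℤ)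
    (hk : ∀ u ∈ Eu, kap k u = 0) : k = 0 := by
  choose kn hkn using fun n => pull_iter (A : EE m →L[ℝ] EE m) hI.1 k n
  obtain ⟨n, hn⟩ := exists_zero kn fun v => by
    obtain ⟨s, hs, u, hu, rfl⟩ := h.decomp v
    refine (h.tends k s hs).congr fun n => ?_
    rw [← hkn, map_add, kap_add, hk _ (h.powu n u hu), add_zero]
  refine eq_zero_of_kap k fun v => ?_
  have h1 := hkn n (((A.symm : EE m →L[ℝ] EE m) ^ n) v)
  rw [pow_symm, hn] at h1
  rw [h1]
  simp [kap]

/-- Proportionality of `kap k ∘ A^i` and `kap k` is impossible. -/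
theorem Spl.noprop (h : Spl A Es Eu C μ) (hI : Integral A) (k : Fin m → ℤ) (hk : k ≠ 0) (i : ℕ)
    (hi : 0 < i) (r : ℝ) (hr : ∀ v, kap k (((A : EE m →L[ℝ] EE m) ^ i) v) = r * kap k v) :
    False := by
  obtain ⟨v₀, hv₀⟩ : ∃ v, kap k v ≠ 0 := by
    by_contra hcon
    push Not at hcon
    exact hk (eq_zero_of_kap k hcon)
  have hr0 : r ≠ 0 := by
    rintro rfl
    have h1 := hr (((A.symm : EE m →L[ℝ] EE m) ^ i) v₀)
    rw [pow_symm, zero_mul] at h1
    exact hv₀ h1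
  have hrn : ∀ (n : ℕ) v, kap k (((A : EE m →L[ℝ] EE m) ^ (i * n)) v) = r ^ n * kap k v := by
    intro n
    induction n with
    | zero => intro v; simp
    | succ n ih =>
      intro v
      have e : ((A : EE m →L[ℝ] EE m) ^ (i * (n + 1))) v =
          ((A : EE m →L[ℝ] EE m) ^ (i * n)) (((A : EE m →L[ℝ] EE m) ^ i) v) := by
        rw [mul_add, mul_one, pow_add]
        rfl
      rw [e, ih, hr, pow_succ]
      ring
  have hrn' : ∀ (n : ℕ) v, kap k (((A.symm : EE m →L[ℝ] EE m) ^ (i * n)) v) =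
      (r⁻¹) ^ n * kap k v := by
    intro n v
    have h1 := hrn n (((A.symm : EE m →L[ℝ] EE m) ^ (i * n)) v)
    rw [pow_symm] at h1
    rw [h1, ← mul_assoc, ← mul_pow, inv_mul_cancel₀ hr0, one_pow, one_mul]
  have hint : Tendsto (fun n : ℕ => i * n) atTop atTop :=
    tendsto_id.const_mul_atTop' hi
  rcases lt_trichotomy |r| 1 with hlt | heq | hgt
  · choose kn hkn using fun n => pull_iter (A : EE m →L[ℝ] EE m) hI.1 k (i * n)
    obtain ⟨n, hn⟩ := exists_zero kn fun v => by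
      have h2 := (tendsto_pow_atTop_nhds_zero_of_abs_lt_one hlt).mul_const (kap k v)
      rw [zero_mul] at h2
      refine h2.congr fun n => ?_
      rw [← hkn, hrn]
    have h3 := hkn n v₀
    rw [hrn, hn] at h3
    have h4 : kap (0 : Fin m → ℤ) v₀ = 0 := by simp [kap]
    rw [h4] at h3
    exact (mul_ne_zero (pow_ne_zero n hr0) hv₀) h3
  · refine hv₀ ?_
    obtain ⟨s, hs, u, hu, rfl⟩ := h.decomp v₀
    have h1 : kap k s = 0 := by
      have h2 := ((h.tends k s hs).comp hint).abs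
      rw [abs_zero] at h2
      have h3 : Tendsto (fun _ : ℕ => |kap k s|) atTop (𝓝 0) := by
        refine h2.congr fun n => ?_
        show |kap k (((A : EE m →L[ℝ] EE m) ^ (i * n)) s)| = _
        rw [hrn, abs_mul, abs_pow, heq, one_pow, one_mul]
      exact abs_eq_zero.1 (tendsto_nhds_unique tendsto_const_nhds h3)
    have h1' : kap k u = 0 := by
      have h2 := ((h.tendu k u hu).comp hint).abs
      rw [abs_zero] at h2
      have h3 : Tendsto (fun _ : ℕ => |kap k u|) atTop (𝓝 0) := by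
        refine h2.congr fun n => ?_
        show |kap k (((A.symm : EE m →L[ℝ] EE m) ^ (i * n)) u)| = _
        rw [hrn', abs_mul, abs_pow, abs_inv, heq, inv_one, one_pow, one_mul]
      exact abs_eq_zero.1 (tendsto_nhds_unique tendsto_const_nhds h3)
    rw [kap_add, h1, h1', add_zero]
  · have hlt : |r⁻¹| < 1 := by
      rw [abs_inv]
      exact inv_lt_one_of_one_lt₀ hgt
    choose kn hkn using fun n => pull_iter (A.symm : EE m →L[ℝ] EE m) hI.2 k (i * n)
    obtain ⟨n, hn⟩ := exists_zero kn fun v => by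
      have h2 := (tendsto_pow_atTop_nhds_zero_of_abs_lt_one hlt).mul_const (kap k v)
      rw [zero_mul] at h2
      refine h2.congr fun n => ?_
      rw [← hkn, hrn']
    have h3 := hkn n v₀
    rw [hrn', hn] at h3
    have h4 : kap (0 : Fin m → ℤ) v₀ = 0 := by simp [kap]
    rw [h4] at h3
    exact (mul_ne_zero (pow_ne_zero n (inv_ne_zero hr0)) hv₀) h3

/-- An integer combination of the two functionals which vanishes on the unstable space. -/
theorem Spl.norat (h : Spl A Es Eu C μ) (hI : Integral A) (k : Fin m → ℤ) (hk : k ≠ 0) (i : ℕ)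
    (hi : 0 < i) (r : ℝ)
    (hr : ∀ u ∈ Eu, kap k (((A : EE m →L[ℝ] EE m) ^ i) u) = r * kap k u) : Irrational r := by
  rintro ⟨q, hq⟩
  obtain ⟨k', hk'⟩ := pull_iter (A : EE m →L[ℝ] EE m) hI.1 k i
  have hqd : (q.den : ℝ) ≠ 0 := by exact_mod_cast q.den_ne_zero
  have hqe : r * q.den = q.num := by
    rw [← hq]
    exact_mod_cast Rat.mul_den_eq_num q
  have hz : (fun j => (q.den : ℤ) * k' j - q.num * k j) = (0 : Fin m → ℤ) := by
    refine h.vanish hI _ fun u hu => ?_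
    have e : kap (fun j => (q.den : ℤ) * k' j - q.num * k j) u =
        (q.den : ℝ) * kap k' u - (q.num : ℝ) * kap k u := by
      unfold kap
      rw [Finset.mul_sum, Finset.mul_sum, ← Finset.sum_sub_distrib]
      refine Finset.sum_congr rfl fun j _ => ?_
      push_cast
      ring
    rw [e, ← hk', hr u hu, ← hqe]
    ring
  refine h.noprop hI k hk i hi r fun v => ?_
  rw [hk']
  have e : (q.den : ℝ) * kap k' v - (q.num : ℝ) * kap k v = 0 := by
    have e1 : kap (fun j => (q.den : ℤ) * k' j - q.num * k j) v =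
        (q.den : ℝ) * kap k' v - (q.num : ℝ) * kap k v := by
      unfold kap
      rw [Finset.mul_sum, Finset.mul_sum, ← Finset.sum_sub_distrib]
      refine Finset.sum_congr rfl fun j _ => ?_
      push_cast
      ring
    rw [← e1, hz]
    simp [kap]
  rw [← hqe] at e
  have e2 : (q.den : ℝ) * (kap k' v - r * kap k v) = 0 := by linarith
  have e3 := (mul_eq_zero.1 e2).resolve_left hqd
  linarith

theorem near_fract (ε α a : ℝ) (h : Near1 ε (Int.fract α) a) : Near1 ε α a := by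
  obtain ⟨p, hp⟩ := h
  refine ⟨p - ⌊α⌋, ?_⟩
  have e : a - α - ((p - ⌊α⌋ : ℤ) : ℝ) = a - Int.fract α - p := by
    rw [Int.fract]
    push_cast
    ring
  rw [e]
  exact hp

theorem Spl.dense (h : Spl A Es Eu C μ) (hI : Integral A) (k : Fin m → ℤ) (hk : k ≠ 0)
    (ε : ℝ) (hε : 0 < ε) (i : ℕ) (hi : 0 < i) : ∃ W : ℝ, ∀ α α' : ℝ, ∃ u ∈ Eu, ‖u‖ ≤ W ∧
      Near1 ε α (kap k u) ∧ Near1 ε α' (kap k (((A : EE m →L[ℝ] EE m) ^ i) u)) := by
  obtain ⟨u₀, hu₀, hx⟩ : ∃ u ∈ Eu, kap k u ≠ 0 := by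
    by_contra hcon
    push Not at hcon
    exact hk (h.vanish hI k hcon)
  set x : ℝ := kap k u₀ with hxdef
  set y : ℝ := kap k (((A : EE m →L[ℝ] EE m) ^ i) u₀) with hydef
  by_cases hline : ∀ u ∈ Eu, kap k (((A : EE m →L[ℝ] EE m) ^ i) u) * x = kap k u * y
  · have hr : ∀ u ∈ Eu, kap k (((A : EE m →L[ℝ] EE m) ^ i) u) = (y / x) * kap k u := by
      intro u hu
      have h1 := hline u hu
      field_simp
      linarith
    have hirr := h.norat hI k hk i hi (y / x) hr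
    obtain ⟨B, hB⟩ := kron (y / x) hirr ε hε
    refine ⟨(B + 1) / |x| * ‖u₀‖, fun α α' => ?_⟩
    obtain ⟨p, q, hp, hpq⟩ := hB (α' - (y / x) * Int.fract α)
    have hxp : 0 < |x| := abs_pos.2 hx
    refine ⟨((Int.fract α + p) / x) • u₀, Eu.smul_mem _ hu₀, ?_, ?_, ?_⟩
    · rw [norm_smul, Real.norm_eq_abs, abs_div]
      refine mul_le_mul_of_nonneg_right ?_ (norm_nonneg _)
      refine div_le_div_of_nonneg_right ?_ hxp.le
      refine (abs_add_le _ _).trans ?_
      rw [abs_of_nonneg (Int.fract_nonneg α)]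
      have := (Int.fract_lt_one α).le
      linarith
    · refine near_fract ε α _ ⟨p, ?_⟩
      rw [kap_smul, ← hxdef, div_mul_cancel₀ _ hx]
      have e : Int.fract α + (p : ℝ) - Int.fract α - p = 0 := by ring
      rw [e, abs_zero]
      exact hε.le
    · refine ⟨q, ?_⟩
      rw [map_smul, kap_smul, ← hydef]
      have e : (Int.fract α + (p : ℝ)) / x * y - α' - q =
          y / x * p - (α' - y / x * Int.fract α) - q := by ring
      rw [e]
      exact hpq
  · push Not at hline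
    obtain ⟨u₁, hu₁, hdet⟩ := hline
    set x' : ℝ := kap k u₁ with hx'def
    set y' : ℝ := kap k (((A : EE m →L[ℝ] EE m) ^ i) u₁) with hy'def
    have hD : y' * x - x' * y ≠ 0 := sub_ne_zero.2 hdet
    set D : ℝ := y' * x - x' * y with hDdef
    set w₁ : EE m := (y' / D) • u₀ - (y / D) • u₁ with hw₁
    set w₂ : EE m := (x / D) • u₁ - (x' / D) • u₀ with hw₂
    have hneg : ∀ v : EE m, kap k (-v) = - kap k v := by
      intro v
      have := kap_smul k (-1) v
      rw [neg_one_smul] at this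
      rw [this]
      ring
    have hsub : ∀ v w : EE m, kap k (v - w) = kap k v - kap k w := by
      intro v w
      rw [sub_eq_add_neg, kap_add, hneg]
      ring
    have e11 : kap k w₁ = 1 := by
      rw [hw₁, hsub, kap_smul, kap_smul, ← hxdef, ← hx'def]
      field_simp
      rw [hDdef]
      ring
    have e12 : kap k (((A : EE m →L[ℝ] EE m) ^ i) w₁) = 0 := by
      rw [hw₁, map_sub, map_smul, map_smul, hsub, kap_smul, kap_smul, ← hydef, ← hy'def]
      ring
    have e21 : kap k w₂ = 0 := by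
      rw [hw₂, hsub, kap_smul, kap_smul, ← hxdef, ← hx'def]
      ring
    have e22 : kap k (((A : EE m →L[ℝ] EE m) ^ i) w₂) = 1 := by
      rw [hw₂, map_sub, map_smul, map_smul, hsub, kap_smul, kap_smul, ← hydef, ← hy'def]
      field_simp
      rw [hDdef]
      ring
    have hm₁ : w₁ ∈ Eu := Eu.sub_mem (Eu.smul_mem _ hu₀) (Eu.smul_mem _ hu₁)
    have hm₂ : w₂ ∈ Eu := Eu.sub_mem (Eu.smul_mem _ hu₁) (Eu.smul_mem _ hu₀)
    refine ⟨‖w₁‖ + ‖w₂‖, fun α α' => ?_⟩
    refine ⟨Int.fract α • w₁ + Int.fract α' • w₂,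
      Eu.add_mem (Eu.smul_mem _ hm₁) (Eu.smul_mem _ hm₂), ?_, ?_, ?_⟩
    · have hb : ∀ (β : ℝ) (w : EE m), ‖Int.fract β • w‖ ≤ ‖w‖ := by
        intro β w
        rw [norm_smul, Real.norm_eq_abs, abs_of_nonneg (Int.fract_nonneg β)]
        exact mul_le_of_le_one_left (norm_nonneg _) (Int.fract_lt_one β).le
      exact (norm_add_le _ _).trans (add_le_add (hb α w₁) (hb α' w₂))
    · refine near_fract ε α _ ⟨0, ?_⟩
      rw [kap_add, kap_smul, kap_smul, e11, e21]
      simp only [mul_one, mul_zero, add_zero, sub_self, Int.cast_zero, abs_zero]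
      exact hε.le
    · refine near_fract ε α' _ ⟨0, ?_⟩
      rw [map_add, map_smul, map_smul, kap_add, kap_smul, kap_smul, e12, e22]
      simp only [mul_one, mul_zero, zero_add, sub_self, Int.cast_zero, abs_zero]
      exact hε.le

theorem symm_mem (A : EE m ≃L[ℝ] EE m) (W : Submodule ℝ (EE m)) (h : ∀ v ∈ W, A v ∈ W) :
    ∀ v ∈ W, A.symm v ∈ W := by
  have h1 : W.map (A.toLinearEquiv : EE m →ₗ[ℝ] EE m) ≤ W := by
    rintro _ ⟨v, hv, rfl⟩
    exact h v hv
  have h2 : W.map (A.toLinearEquiv : EE m →ₗ[ℝ] EE m) = W :=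
    Submodule.eq_of_le_of_finrank_eq h1 (LinearEquiv.finrank_map_eq A.toLinearEquiv W)
  intro v hv
  rw [← h2] at hv
  obtain ⟨u, hu, rfl⟩ := hv
  have : A.symm ((A.toLinearEquiv : EE m →ₗ[ℝ] EE m) u) = u := A.symm_apply_apply u
  rw [this]
  exact hu

theorem symm_pow_mem (A : EE m ≃L[ℝ] EE m) (W : Submodule ℝ (EE m)) (h : ∀ v ∈ W, A v ∈ W)
    (n : ℕ) : ∀ v ∈ W, ((A.symm : EE m →L[ℝ] EE m) ^ n) v ∈ W := by
  induction n with
  | zero => intro v hv; simpa using hv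
  | succ n ih =>
    intro v hv
    rw [pow_succ]
    exact ih _ (symm_mem A W h v hv)

end XPairDense

open XPairDense in
theorem prf_PairDense : PairDense := by
  intro m A k hI hA hk
  obtain ⟨Es, Eu, C, μ, hc, his, hiu, hC, hμ0, hμ1, hs, hu⟩ := hA.split
  have hcu : ∀ v ∈ Eu, ∀ n : ℕ, ‖((A.symm : EE m →L[ℝ] EE m) ^ n) v‖ ≤ C * μ ^ n * ‖v‖ := by
    intro v hv n
    have h1 := hu _ (symm_pow_mem A Eu hiu n v hv) n
    rwa [pow_symm] at h1
  have hS : Spl A Es Eu C μ := ⟨hc, hiu, symm_mem A Eu hiu, hμ0, hμ1, hs, hcu⟩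
  refine ⟨Eu, max 1 C, μ, le_max_left _ _, hμ0, hμ1, fun u hu => ⟨hiu u hu, hS.invu' u hu⟩, ?_,
    ?_, ?_⟩
  · intro u hu n
    rw [← pow_eq A.symm]
    refine (hcu u hu n).trans ?_
    gcongr
    exact le_max_right _ _
  · by_contra hcon
    push Not at hcon
    exact hk (hS.vanish hI k hcon)
  · intro ε hε i hi
    obtain ⟨W, hW⟩ := hS.dense hI k hk ε hε i hi
    refine ⟨W, fun α α' => ?_⟩
    obtain ⟨u, hu, h1, h2, h3⟩ := hW α α'
    refine ⟨u, hu, h1, h2, ?_⟩
    rw [← pow_eq]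
    exact h3

end Pool.Agent.OmegaFT
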