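import Pool.Agent.Work.MP_814647_an.FT.Stmts4

/-!
Item Pattern.
-/

noncomputable section

namespace Pool.Agent.OmegaFT

namespace XPattern

/-- the offsets -/
def oo (s j : ℕ) : ℕ := s * (100 * 10 ^ j) + j % s

/-- the partner shifts -/
def sg (s j : ℕ) : ℤ :=
  if j < 4 * s then 0
  else if j < 4 * s + (s - 1) then (j : ℤ) - 4 * s + 1
  else if j < 4 * s + 2 * (s - 1) then -((j : ℤ) - 4 * s - ((s : ℤ) - 1) + 1)
  else 0

theorem sg_bd {s : ℕ} (hs : 0 < s) (j : ℕ) : sg s j < s ∧ -(s : ℤ) < sg s j := by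
  unfold sg
  split_ifs with h1 h2 h3
  · omega
  · omega
  · omega
  · omega

theorem pow_sum_aux {a d b c : ℕ} (h1 : a ≤ d) (h2 : b ≤ c)
    (h : 10 ^ a + 10 ^ d = 10 ^ b + 10 ^ c) : a = b ∧ d = c := by
  have pa : 0 < 10 ^ a := by positivity
  have pb : 0 < 10 ^ b := by positivity
  have pc : 0 < 10 ^ c := by positivity
  have pd : 0 < 10 ^ d := by positivity
  have ha : 10 ^ a ≤ 10 ^ d := Nat.pow_le_pow_right (by norm_num) h1
  have hb : 10 ^ b ≤ 10 ^ c := Nat.pow_le_pow_right (by norm_num) h2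
  have hdc : d = c := by
    rcases lt_trichotomy d c with hlt | heq | hgt
    · exfalso
      have : 10 ^ (d + 1) ≤ 10 ^ c := Nat.pow_le_pow_right (by norm_num) hlt
      rw [pow_succ] at this
      omega
    · exact heq
    · exfalso
      have : 10 ^ (c + 1) ≤ 10 ^ d := Nat.pow_le_pow_right (by norm_num) hgt
      rw [pow_succ] at this
      omega
  subst hdc
  refine ⟨?_, rfl⟩
  have : 10 ^ a = 10 ^ b := by omega
  exact Nat.pow_right_injective (le_refl _ |>.trans (by norm_num)) this

theorem pow_sum {a d b c : ℕ} (h : 10 ^ a + 10 ^ d = 10 ^ b + 10 ^ c) :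
    (a = b ∧ d = c) ∨ (a = c ∧ d = b) := by
  rcases le_total a d with h1 | h1 <;> rcases le_total b c with h2 | h2
  · exact Or.inl (pow_sum_aux h1 h2 h)
  · exact Or.inr (pow_sum_aux h1 h2 (by rw [h, add_comm]))
  · have := pow_sum_aux h1 h2 (by rw [add_comm, h])
    exact Or.inr ⟨this.2, this.1⟩
  · have := pow_sum_aux h1 h2 (by rw [add_comm, h, add_comm])
    exact Or.inl ⟨this.2, this.1⟩

theorem sidon {s a b c d : ℕ} (hs : 0 < s)
    (h1 : ((oo s a : ℤ) - oo s b) - (oo s c - oo s d) < 4 * s)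
    (h2 : -(4 * (s : ℤ)) < ((oo s a : ℤ) - oo s b) - (oo s c - oo s d)) (hab : a ≠ b) :
    a = c ∧ b = d := by
  have ra := Nat.mod_lt a hs
  have rb := Nat.mod_lt b hs
  have rc := Nat.mod_lt c hs
  have rd := Nat.mod_lt d hs
  unfold oo at h1 h2
  push_cast at h1 h2
  have ra' : ((a : ℤ) % s) < s ∧ 0 ≤ (a : ℤ) % s := by omega
  have rb' : ((b : ℤ) % s) < s ∧ 0 ≤ (b : ℤ) % s := by omega
  have rc' : ((c : ℤ) % s) < s ∧ 0 ≤ (c : ℤ) % s := by omega
  have rd' : ((d : ℤ) % s) < s ∧ 0 ≤ (d : ℤ) % s := by omega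
  set X : ℤ := 10 ^ a - 10 ^ b - 10 ^ c + 10 ^ d with hX
  have hs' : (0 : ℤ) < s := by exact_mod_cast hs
  have e1 : (s : ℤ) * (100 * 10 ^ a) - s * (100 * 10 ^ b) - (s * (100 * 10 ^ c) - s * (100 * 10 ^ d))
      = 100 * (s * X) := by rw [hX]; ring
  have hX0 : X = 0 := by
    by_contra hne
    rcases lt_or_gt_of_ne hne with hl | hg
    · have : (s : ℤ) * X ≤ s * (-1) := mul_le_mul_of_nonneg_left (by omega) hs'.le
      linarith
    · have : (s : ℤ) * 1 ≤ s * X := mul_le_mul_of_nonneg_left (by omega) hs'.le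
      linarith
  have e2 : (10 : ℤ) ^ a + 10 ^ d = 10 ^ b + 10 ^ c := by
    rw [hX] at hX0; linarith
  have e3 : (10 : ℕ) ^ a + 10 ^ d = 10 ^ b + 10 ^ c := by exact_mod_cast e2
  rcases pow_sum e3 with h | h
  · exact absurd h.1 hab
  · exact ⟨h.1, h.2.symm⟩

theorem oo_inj {s a b : ℕ} (hs : 0 < s) (h1 : (oo s a : ℤ) - oo s b < 4 * s)
    (h2 : -(4 * (s : ℤ)) < (oo s a : ℤ) - oo s b) : a = b := by
  by_contra hab
  have := sidon (c := b) (d := b) hs (by linarith) (by linarith) hab
  exact hab this.1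

theorem oo_step {s a b : ℕ} (hab : a < b) (hs : 0 < s) : oo s a + 2 * s ≤ oo s b := by
  unfold oo
  have ra := Nat.mod_lt a hs
  have h1 : 10 ^ (a + 1) ≤ 10 ^ b := Nat.pow_le_pow_right (by norm_num) hab
  have h2 : 1 ≤ 10 ^ a := Nat.one_le_pow _ _ (by norm_num)
  have h3 : 100 * 10 ^ a + 3 ≤ 100 * 10 ^ b := by rw [pow_succ] at h1; omega
  have h4 := Nat.mul_le_mul_left s h3
  rw [Nat.mul_add] at h4
  omega

theorem oo_mono {s a b : ℕ} (hab : a ≤ b) (hs : 0 < s) : oo s a ≤ oo s b := by
  rcases Nat.lt_or_ge a b with h | h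
  · have := oo_step h hs
    omega
  · have : a = b := le_antisymm hab h
    rw [this]

theorem exists_rd (P : ℤ → Prop) (n : ℕ) (hn : 0 < n) (hP : ∀ z, P (z + n) ↔ P z)
    (hex : ∃ z, P z) : ∃ r d : ℤ → ℤ, ∀ z, 0 ≤ r z ∧ 0 < d z ∧ P (z - r z) ∧ P (z + d z) ∧
      ∀ y, z - r z < y → y < z + d z → ¬ P y := by
  classical
  obtain ⟨z₀, h₀⟩ := hex
  have hn' : (0 : ℤ) < n := by exact_mod_cast hn
  have hnat : ∀ (c : ℕ) (z : ℤ), P (z + c * n) ↔ P z := by
    intro c
    induction c with
    | zero => intro z; simp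
    | succ c ih =>
      intro z
      have : z + ((c + 1 : ℕ) : ℤ) * n = (z + n) + c * n := by push_cast; ring
      rw [this, ih, hP]
  have hint : ∀ c : ℤ, P (z₀ + c * n) := by
    intro c
    rcases le_total 0 c with hc | hc
    · obtain ⟨m, rfl⟩ := Int.eq_ofNat_of_zero_le hc
      exact (hnat m z₀).2 h₀
    · obtain ⟨m, hm⟩ := Int.eq_ofNat_of_zero_le (neg_nonneg.2 hc)
      have : z₀ + c * n + m * n = z₀ := by
        have : (m : ℤ) = -c := hm.symm
        rw [this]; ring
      rw [← hnat m, this]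
      exact h₀
  have key : ∀ z : ℤ, ∃ r d : ℤ, 0 ≤ r ∧ 0 < d ∧ P (z - r) ∧ P (z + d) ∧
      ∀ y, z - r < y → y < z + d → ¬ P y := by
    intro z
    have hmod := Int.emod_add_mul_ediv (z - z₀) n
    have hm0 := Int.emod_nonneg (z - z₀) hn'.ne'
    have hm1 := Int.emod_lt_of_pos (z - z₀) hn'
    have h1 : ∃ r : ℕ, P (z - r) := by
      refine ⟨((z - z₀) % n).toNat, ?_⟩
      have : z - (((z - z₀) % n).toNat : ℤ) = z₀ + ((z - z₀) / n) * n := by
        rw [Int.toNat_of_nonneg hm0]; linarith
      rw [this]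
      exact hint _
    have h2 : ∃ d : ℕ, P (z + 1 + d) := by
      refine ⟨(n - 1 - (z - z₀) % n).toNat, ?_⟩
      have : z + 1 + ((n - 1 - (z - z₀) % n).toNat : ℤ) = z₀ + ((z - z₀) / n + 1) * n := by
        rw [Int.toNat_of_nonneg (by omega)]; linarith
      rw [this]
      exact hint _
    refine ⟨Nat.find h1, 1 + Nat.find h2, by positivity, by positivity, Nat.find_spec h1, ?_, ?_⟩
    · have := Nat.find_spec h2
      rwa [← add_assoc]
    · intro y hy1 hy2 hPy
      rcases le_or_gt y z with hyz | hyz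
      · have hlt : (z - y).toNat < Nat.find h1 := by omega
        apply Nat.find_min h1 hlt
        have : z - ((z - y).toNat : ℤ) = y := by omega
        rw [this]; exact hPy
      · have hlt : (y - z - 1).toNat < Nat.find h2 := by omega
        apply Nat.find_min h2 hlt
        have : z + 1 + ((y - z - 1).toNat : ℤ) = y := by omega
        rw [this]; exact hPy
  choose r d h using key
  exact ⟨r, d, h⟩

/-- distance at least `s` from all templates and partners -/
def Far (s k : ℕ) (r : ℤ) : Prop :=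
  ∀ j < 4 * s + 2 * (s - 1) + k, (s : ℤ) ≤ |r - oo s j| ∧ (s : ℤ) ≤ |r - (oo s j + sg s j)|

open Classical in
/-- the value of the pattern at relative time `r`, with distance `d` to the next special time -/
def val (s k : ℕ) (r d : ℤ) (i : Option (Fin k)) : Option ℝ :=
  if (∃ j < 4 * s + 2 * (s - 1), r = oo s j) ∨
      (∃ l : Fin k, r = oo s (4 * s + 2 * (s - 1) + l) ∧ i = some l) then some 0
  else if (∃ l : Fin k, r = oo s (4 * s + 2 * (s - 1) + l)) ∨
      (∃ j < 4 * s + 2 * (s - 1), r = oo s j + sg s j) ∨ ((s : ℤ) ∣ r ∧ (s : ℤ) ≤ d ∧ Far s k r)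
    then some (1 / 2)
  else none

theorem val_ne {s k : ℕ} {r d : ℤ} {i : Option (Fin k)} (h : val s k r d i ≠ none) :
    (∃ j < 4 * s + 2 * (s - 1) + k, r = oo s j ∨ r = oo s j + sg s j) ∨
      ((s : ℤ) ∣ r ∧ (s : ℤ) ≤ d ∧ Far s k r) := by
  unfold val at h
  split_ifs at h with h1 h2
  · rcases h1 with ⟨j, hj, hr⟩ | ⟨l, hl, -⟩
    · exact Or.inl ⟨j, by omega, Or.inl hr⟩
    · exact Or.inl ⟨_, by have := l.2; omega, Or.inl hl⟩
  · rcases h2 with ⟨l, hl⟩ | ⟨j, hj, hr⟩ | h3
    · exact Or.inl ⟨_, by have := l.2; omega, Or.inl hl⟩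
    · exact Or.inl ⟨j, by omega, Or.inr hr⟩
    · exact Or.inr h3
  · exact absurd rfl h

theorem val_tmpl {s k : ℕ} {d : ℤ} {i : Option (Fin k)} {j : ℕ}
    (hj : j < 4 * s + 2 * (s - 1)) : val s k (oo s j) d i = some 0 := by
  unfold val
  rw [if_pos (Or.inl ⟨j, hj, rfl⟩)]

theorem val_sym {s k : ℕ} (hs : 0 < s) {d : ℤ} (i l : Fin k) :
    val s k (oo s (4 * s + 2 * (s - 1) + l)) d (some i) = some (if l = i then 0 else 1 / 2) := by
  by_cases hli : l = i
  · unfold val
    rw [if_pos (Or.inr ⟨l, rfl, by rw [hli]⟩), if_pos hli]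
  · unfold val
    rw [if_neg, if_pos (Or.inl ⟨l, rfl⟩), if_neg hli]
    rintro (⟨j, hj, hr⟩ | ⟨l', hl', hi'⟩)
    · have := oo_inj (a := 4 * s + 2 * (s - 1) + l) (b := j) hs (by rw [hr]; omega)
        (by rw [hr]; omega)
      omega
    · have := oo_inj (a := 4 * s + 2 * (s - 1) + l) (b := 4 * s + 2 * (s - 1) + l') hs
        (by rw [hl']; omega) (by rw [hl']; omega)
      have h2 : l = l' := Fin.ext (by omega)
      rw [Option.some.injEq] at hi'
      exact hli (h2.trans hi'.symm)

theorem val_partner {s k : ℕ} (hs : 0 < s) {d : ℤ} {i : Option (Fin k)} {j : ℕ}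
    (hj : j < 4 * s + 2 * (s - 1)) (h0 : sg s j ≠ 0) :
    val s k (oo s j + sg s j) d i = some (1 / 2) := by
  have hb := sg_bd hs j
  unfold val
  rw [if_neg, if_pos (Or.inr (Or.inl ⟨j, hj, rfl⟩))]
  rintro (⟨j', hj', hr⟩ | ⟨l', hl', -⟩)
  · have := oo_inj (a := j) (b := j') hs (by omega) (by omega)
    subst this
    omega
  · have := oo_inj (a := j) (b := 4 * s + 2 * (s - 1) + l') hs (by omega) (by omega)
    omega

theorem val_far {s k : ℕ} (hs : 0 < s) {r d : ℤ} {i : Option (Fin k)} (h1 : (s : ℤ) ∣ r)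
    (h2 : (s : ℤ) ≤ d) (h3 : Far s k r) : val s k r d i = some (1 / 2) := by
  unfold val
  rw [if_neg, if_pos (Or.inr (Or.inr ⟨h1, h2, h3⟩))]
  rintro (⟨j', hj', hr⟩ | ⟨l', hl', -⟩)
  · have := (h3 j' (by omega)).1
    rw [hr, sub_self, abs_zero] at this
    omega
  · have := (h3 (4 * s + 2 * (s - 1) + l') (by have := l'.2; omega)).1
    rw [hl', sub_self, abs_zero] at this
    omega

theorem not_far {s k : ℕ} (hs : 0 < s) {r : ℤ} (h : ¬ Far s k r) :
    ∃ j, r - oo s j < 2 * s ∧ -(2 * (s : ℤ)) < r - oo s j ∧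
      (j < 4 * s → r - oo s j < s ∧ -(s : ℤ) < r - oo s j) := by
  unfold Far at h
  push Not at h
  obtain ⟨j, hj, h⟩ := h
  have hb := sg_bd hs j
  refine ⟨j, ?_⟩
  by_cases h1 : (s : ℤ) ≤ |r - oo s j|
  · have h2 := h h1
    rw [abs_lt] at h2
    refine ⟨by omega, by omega, fun hj4 => ?_⟩
    have : sg s j = 0 := by unfold sg; rw [if_pos hj4]
    rw [this] at h2
    omega
  · rw [not_le, abs_lt] at h1
    omega

/-- Two indices with the same residue: one of them is far or the shift is small. -/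
theorem two_idx {s k : ℕ} (hs : 0 < s) (r : ℤ) {j₁ j₂ : ℕ} (h12 : j₁ ≠ j₂) (h1 : j₁ < 4 * s)
    (h2 : j₂ < 4 * s) : Far s k (r + oo s j₁) ∨ Far s k (r + oo s j₂) ∨
      (r < s ∧ -(s : ℤ) < r) := by
  by_contra hcon
  push Not at hcon
  obtain ⟨n1, n2, n3⟩ := hcon
  obtain ⟨a, ha1, ha2, ha3⟩ := not_far hs n1
  obtain ⟨b, hb1, hb2, -⟩ := not_far hs n2
  have := sidon (a := j₁) (b := j₂) (c := a) (d := b) hs (by linarith) (by linarith) h12
  obtain ⟨rfl, rfl⟩ := this
  have := ha3 h1
  have h5 : r < s := by linarith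
  have := n3 h5
  linarith

/-- Two different relative times which are close belong to the same template. -/
theorem close_pair {s k : ℕ} (hs : 0 < s) {x y dx dy : ℤ} {ix iy : Option (Fin k)}
    (hx : val s k x dx ix ≠ none) (hy : val s k y dy iy ≠ none) (hxy : x < y) (hys : y < x + s) :
    ∃ j, (x = oo s j ∨ x = oo s j + sg s j) ∧ (y = oo s j ∨ y = oo s j + sg s j) := by
  rcases val_ne hx with ⟨a, ha, hxa⟩ | ⟨hx1, -, hx3⟩
  · rcases val_ne hy with ⟨b, hb, hyb⟩ | ⟨hy1, -, hy3⟩
    · have h1 := sg_bd hs a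
      have h2 := sg_bd hs b
      have hab : a = b := by
        apply oo_inj hs
        · rcases hxa with h | h <;> rcases hyb with h' | h' <;> omega
        · rcases hxa with h | h <;> rcases hyb with h' | h' <;> omega
      subst hab
      exact ⟨a, hxa, hyb⟩
    · exfalso
      have h3 := hy3 a ha
      rcases hxa with h | h
      · have h4 := h3.1
        rw [← h, abs_of_nonneg (by omega)] at h4
        omega
      · have h4 := h3.2
        rw [← h, abs_of_nonneg (by omega)] at h4
        omega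
  · rcases val_ne hy with ⟨b, hb, hyb⟩ | ⟨hy1, -, -⟩
    · exfalso
      have h3 := hx3 b hb
      rcases hyb with h | h
      · have h4 := h3.1
        rw [← h, abs_of_neg (by omega)] at h4
        omega
      · have h4 := h3.2
        rw [← h, abs_of_neg (by omega)] at h4
        omega
    · exfalso
      have h5 : (s : ℤ) ∣ y - x := dvd_sub hy1 hx1
      have h6 := Int.le_of_dvd (by omega) h5
      omega

theorem main (s k : ℕ) (hs : 0 < s) (n : ℕ) (S : ℕ → Option (Fin k)) (hn : 0 < n)
    (hper : ∀ t, S (t + n) = S t) (hex : ∃ t, S t ≠ none)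
    (hsp : ∀ t t', t < t' → S t ≠ none → S t' ≠ none →
      t + (oo s (4 * s + 2 * (s - 1) + k) + 2 * s) ≤ t') :
    ∃ g : ℕ → Option ℝ, (∀ t, g (t + n) = g t) ∧ Sparse2 s g ∧
      (∀ t i, S t = some i → (∀ j < 4 * s + 2 * (s - 1), g (t + oo s j) = some 0) ∧
        ∀ l : Fin k, g (t + oo s (4 * s + 2 * (s - 1) + l)) = some (if l = i then 0 else 1 / 2)) ∧
      ∀ t, S t = none → ∃ j < 4 * s + 2 * (s - 1), g (t + oo s j) = some (1 / 2) := by
  set J := 4 * s + 2 * (s - 1) with hJ
  set m₀ := oo s (J + k) + 2 * s with hm₀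
  have hs' : (0 : ℤ) < s := by exact_mod_cast hs
  have hn' : (0 : ℤ) < n := by exact_mod_cast hn
  obtain ⟨S', hS'⟩ : ∃ S' : ℤ → Option (Fin k), S' = fun z : ℤ => S ((z % (n : ℤ)).toNat) := ⟨_, rfl⟩
  have hSn : ∀ t : ℕ, S' (t : ℤ) = S t := by
    intro t
    rw [hS']
    show S (((t : ℤ) % n).toNat) = S t
    have h1 : (((t : ℤ) % n).toNat) = t % n := by omega
    rw [h1]
    exact Function.Periodic.map_mod_nat (f := S) (a := n) hper t
  have hSp : ∀ z, S' (z + n) = S' z := by
    intro z
    rw [hS']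
    show S (((z + n) % n).toNat) = S ((z % n).toNat)
    rw [Int.add_emod_right]
  have hSc : ∀ (c : ℕ) (z : ℤ), S' (z + c * n) = S' z := by
    intro c
    induction c with
    | zero => intro z; simp
    | succ c ih =>
      intro z
      have : z + ((c + 1 : ℕ) : ℤ) * n = (z + n) + c * n := by push_cast; ring
      rw [this, ih, hSp]
  have hsp' : ∀ z z' : ℤ, z < z' → S' z ≠ none → S' z' ≠ none → z + m₀ ≤ z' := by
    intro z z' hzz h h'
    have hc : -z ≤ ((-z).toNat : ℤ) * n := by
      have h1 : -z ≤ ((-z).toNat : ℤ) := Int.self_le_toNat _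
      have h2 : ((-z).toNat : ℤ) * 1 ≤ ((-z).toNat : ℤ) * n :=
        mul_le_mul_of_nonneg_left (by omega) (by positivity)
      linarith
    set c := (-z).toNat with hcdef
    obtain ⟨t, ht⟩ := Int.eq_ofNat_of_zero_le (a := z + c * n) (by linarith)
    obtain ⟨t', ht'⟩ := Int.eq_ofNat_of_zero_le (a := z' + c * n) (by linarith)
    rw [← hSc c, ht, hSn] at h
    rw [← hSc c, ht', hSn] at h'
    have h3 := hsp t t' (by
      have : (t : ℤ) < t' := by rw [← ht, ← ht']; linarith
      exact_mod_cast this) h h'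
    have h4 : (t : ℤ) + m₀ ≤ t' := by exact_mod_cast h3
    rw [← ht, ← ht'] at h4
    linarith
  obtain ⟨r, d, hrd⟩ := exists_rd (fun z => S' z ≠ none) n hn (fun z => by
    show S' (z + n) ≠ none ↔ S' z ≠ none
    rw [hSp]) (by
    obtain ⟨t, ht⟩ := hex
    exact ⟨(t : ℤ), by show S' (t : ℤ) ≠ none; rw [hSn]; exact ht⟩)
  have uniq : ∀ (z r' d' : ℤ), 0 ≤ r' → 0 < d' → S' (z - r') ≠ none → S' (z + d') ≠ none →
      (∀ y, z - r' < y → y < z + d' → ¬ S' y ≠ none) → r z = r' ∧ d z = d' := by
    intro z r' d' h1 h2 h3 h4 h5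
    obtain ⟨g1, g2, g3, g4, g5⟩ := hrd z
    constructor
    · rcases lt_trichotomy (r z) r' with h | h | h
      · exact absurd g3 (h5 _ (by linarith) (by linarith))
      · exact h
      · exact absurd h3 (g5 _ (by linarith) (by linarith))
    · rcases lt_trichotomy (d z) d' with h | h | h
      · exact absurd g4 (h5 _ (by linarith) (by linarith))
      · exact h
      · exact absurd h4 (g5 _ (by linarith) (by linarith))
  have same : ∀ z z' : ℤ, z - r z ≤ z' → z' < z + d z →
      r z' = z' - z + r z ∧ d z' = z + d z - z' := by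
    intro z z' h1 h2
    obtain ⟨g1, g2, g3, g4, g5⟩ := hrd z
    apply uniq z' _ _ (by linarith) (by linarith)
    · have : z' - (z' - z + r z) = z - r z := by ring
      rw [this]; exact g3
    · have : z' + (z + d z - z') = z + d z := by ring
      rw [this]; exact g4
    · intro y hy1 hy2
      exact g5 y (by linarith) (by linarith)
  have perrd : ∀ z, r (z + n) = r z ∧ d (z + n) = d z := by
    intro z
    obtain ⟨g1, g2, g3, g4, g5⟩ := hrd z
    apply uniq (z + n) _ _ g1 g2
    · have : z + n - r z = (z - r z) + n := by ring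
      rw [this, hSp]; exact g3
    · have : z + n + d z = (z + d z) + n := by ring
      rw [this, hSp]; exact g4
    · intro y hy1 hy2
      have : y = (y - n) + n := by ring
      rw [this, hSp]
      exact g5 _ (by linarith) (by linarith)
  have len : ∀ z, (m₀ : ℤ) ≤ r z + d z := by
    intro z
    obtain ⟨g1, g2, g3, g4, g5⟩ := hrd z
    have := hsp' _ _ (by linarith) g3 g4
    linarith
  have spec : ∀ z, S' z ≠ none → r z = 0 := by
    intro z hz
    obtain ⟨g1, g2, g3, g4, g5⟩ := hrd z
    by_contra h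
    exact g5 z (by omega) (by omega) hz
  have oomax : ∀ j < J + k, oo s j + 4 * s ≤ m₀ := by
    intro j hj
    have := oo_step hj hs
    omega
  -- the distance to the next special time
  have dist_d : ∀ z i, val s k (r z) (d z) i ≠ none → (s : ℤ) ≤ d z := by
    intro z i h
    rcases val_ne h with ⟨j, hj, hrj⟩ | ⟨-, h2, -⟩
    · have h1 := oomax j hj
      have h2 := sg_bd hs j
      have h3 := len z
      have h4 : (oo s j : ℤ) + 4 * s ≤ m₀ := by exact_mod_cast h1
      rcases hrj with h | h <;> omega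
    · exact h2
  refine ⟨fun t => val s k (r t) (d t) (S' (t - r t)), ?_, ?_, ?_, ?_⟩
  · intro t
    show val s k (r ((t + n : ℕ) : ℤ)) (d ((t + n : ℕ) : ℤ))
      (S' (((t + n : ℕ) : ℤ) - r ((t + n : ℕ) : ℤ))) = val s k (r t) (d t) (S' (t - r t))
    push_cast
    rw [(perrd t).1, (perrd t).2]
    have : (t : ℤ) + n - r t = (t - r t) + n := by ring
    rw [this, hSp]
  · intro a b c hab hbc ha hb hc
    by_contra hcon
    push Not at hcon
    obtain ⟨h1, h2⟩ := hcon
    have ha' : val s k (r a) (d a) (S' (a - r a)) ≠ none := ha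
    have hb' : val s k (r b) (d b) (S' (b - r b)) ≠ none := hb
    have hc' : val s k (r c) (d c) (S' (c - r c)) ≠ none := hc
    have da := dist_d _ _ ha'
    have db := dist_d _ _ hb'
    have ra := (hrd a).1
    have rb := (hrd b).1
    have e1 := (same a b (by omega) (by omega)).1
    have e2 := (same b c (by omega) (by omega)).1
    obtain ⟨j, hj1, hj2⟩ := close_pair hs ha' hb' (by omega) (by omega)
    obtain ⟨j', hj1', hj2'⟩ := close_pair hs hb' hc' (by omega) (by omega)
    have h3 := sg_bd hs j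
    have h4 := sg_bd hs j'
    have : j = j' := by
      apply oo_inj hs
      · rcases hj2 with h | h <;> rcases hj1' with h' | h' <;> omega
      · rcases hj2 with h | h <;> rcases hj1' with h' | h' <;> omega
    subst this
    rcases hj1 with h | h <;> rcases hj2 with h' | h' <;> rcases hj2' with h'' | h'' <;> omega
  · intro t i hti
    have hS : S' (t : ℤ) = some i := by rw [hSn]; exact hti
    have hne : S' (t : ℤ) ≠ none := by rw [hS]; exact Option.some_ne_none i
    have hr0 := spec t hne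
    have hl := len t
    have key : ∀ j < J + k, r ((t + oo s j : ℕ) : ℤ) = oo s j ∧
        ((t + oo s j : ℕ) : ℤ) - r ((t + oo s j : ℕ) : ℤ) = t := by
      intro j hj
      have h1 := oomax j hj
      have h4 : (oo s j : ℤ) + 4 * s ≤ m₀ := by exact_mod_cast h1
      have := (same t ((t + oo s j : ℕ) : ℤ) (by push_cast; omega) (by push_cast; omega)).1
      push_cast at this ⊢
      constructor
      · rw [this, hr0]; ring
      · rw [this, hr0]; ring
    constructor
    · intro j hj
      obtain ⟨h1, h2⟩ := key j (by omega)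
      show val s k (r ((t + oo s j : ℕ) : ℤ)) (d ((t + oo s j : ℕ) : ℤ))
        (S' (((t + oo s j : ℕ) : ℤ) - r ((t + oo s j : ℕ) : ℤ))) = some 0
      rw [h2, h1]
      exact val_tmpl hj
    · intro l
      obtain ⟨h1, h2⟩ := key (J + l) (by have := l.2; omega)
      show val s k (r ((t + oo s (J + l) : ℕ) : ℤ)) (d ((t + oo s (J + l) : ℕ) : ℤ))
        (S' (((t + oo s (J + l) : ℕ) : ℤ) - r ((t + oo s (J + l) : ℕ) : ℤ))) = _
      rw [h2, h1, hS]
      exact val_sym hs i l
  · intro t ht
    have hS : S' (t : ℤ) = none := by rw [hSn]; exact ht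
    obtain ⟨g1, g2, g3, g4, g5⟩ := hrd t
    have hl := len t
    have hrpos : 0 < r t := by
      rcases lt_or_eq_of_le g1 with h | h
      · exact h
      · exfalso
        rw [← h, sub_zero] at g3
        exact g3 hS
    by_cases hcase : (oo s (2 * s - 1) : ℤ) + s ≤ d t
    · -- the current interval
      have key : ∀ j, (oo s j : ℤ) < d t → r ((t + oo s j : ℕ) : ℤ) = r t + oo s j ∧
          d ((t + oo s j : ℕ) : ℤ) = d t - oo s j := by
        intro j hj
        have := same t ((t + oo s j : ℕ) : ℤ) (by push_cast; omega) (by push_cast; omega)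
        push_cast at this ⊢
        constructor
        · rw [this.1]; ring
        · rw [this.2]; ring
      obtain ⟨j₁, hj₁, hdv⟩ : ∃ j₁ : ℕ, j₁ < s ∧ (s : ℤ) ∣ r t + j₁ := by
        refine ⟨((-(r t)) % s).toNat, ?_, ?_⟩
        · have := Int.emod_lt_of_pos (-(r t)) hs'
          have := Int.emod_nonneg (-(r t)) hs'.ne'
          omega
        · rw [Int.toNat_of_nonneg (Int.emod_nonneg _ hs'.ne')]
          have := Int.emod_add_mul_ediv (-(r t)) s
          refine ⟨-((-(r t)) / s), ?_⟩
          linarith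
      have hdvoo : ∀ j, j = j₁ ∨ j = j₁ + s → (s : ℤ) ∣ r t + oo s j := by
        intro j hj
        have h1 : j % s = j₁ := by
          rcases hj with rfl | rfl
          · exact Nat.mod_eq_of_lt hj₁
          · rw [Nat.add_mod_right]; exact Nat.mod_eq_of_lt hj₁
        have h2 : (oo s j : ℤ) = s * (100 * 10 ^ j) + j₁ := by
          unfold oo
          rw [h1]; push_cast; ring
        rw [h2]
        have h3 : r t + (s * (100 * 10 ^ j) + j₁) = s * (100 * 10 ^ j) + (r t + j₁) := by ring
        rw [h3]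
        exact dvd_add (dvd_mul_right _ _) hdv
      have fin : ∀ j, j = j₁ ∨ j = j₁ + s → Far s k (r t + oo s j) →
          ∃ j < J, (fun t : ℕ => val s k (r t) (d t) (S' (t - r t))) (t + oo s j)
            = some (1 / 2) := by
        intro j hj hfar
        refine ⟨j, by omega, ?_⟩
        have h0 : (oo s j : ℤ) ≤ oo s (2 * s - 1) := by
          exact_mod_cast oo_mono (by omega) hs
        obtain ⟨h1, h2⟩ := key j (by omega)
        show val s k (r ((t + oo s j : ℕ) : ℤ)) (d ((t + oo s j : ℕ) : ℤ))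
          (S' (((t + oo s j : ℕ) : ℤ) - r ((t + oo s j : ℕ) : ℤ))) = some (1 / 2)
        rw [h1, h2]
        exact val_far hs (hdvoo j hj) (by omega) hfar
      rcases two_idx (k := k) hs (r t) (j₁ := j₁) (j₂ := j₁ + s) (by omega) (by omega) (by omega)
        with h | h | ⟨h, -⟩
      · exact fin _ (Or.inl rfl) h
      · exact fin _ (Or.inr rfl) h
      · -- the index with partner shift `r t`
        have hjr : ((4 * s + (r t).toNat - 1 : ℕ) : ℤ) = 4 * s + r t - 1 := by omega
        set j := 4 * s + (r t).toNat - 1 with hjdef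
        have hjJ : j < J := by omega
        have hsg : sg s j = r t := by
          unfold sg
          rw [if_neg (by omega), if_pos (by omega), hjr]
          ring
        have h1 := oomax j (by omega)
        have h4 : (oo s j : ℤ) + 4 * s ≤ m₀ := by exact_mod_cast h1
        obtain ⟨h5, h6⟩ := key j (by omega)
        refine ⟨j, hjJ, ?_⟩
        show val s k (r ((t + oo s j : ℕ) : ℤ)) (d ((t + oo s j : ℕ) : ℤ))
          (S' (((t + oo s j : ℕ) : ℤ) - r ((t + oo s j : ℕ) : ℤ))) = some (1 / 2)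
        rw [h5]
        have h7 : r t + oo s j = oo s j + sg s j := by rw [hsg]; ring
        rw [h7]
        exact val_partner hs hjJ (by rw [hsg]; omega)
    · -- the next interval
      have hr1 := spec _ g4
      have hl1 := len (t + d t)
      have key : ∀ j, j < J + k → d t ≤ (oo s j : ℤ) → r ((t + oo s j : ℕ) : ℤ) = oo s j - d t ∧
          (s : ℤ) ≤ d ((t + oo s j : ℕ) : ℤ) := by
        intro j hj hdj
        have h1 := oomax j hj
        have h4 : (oo s j : ℤ) + 4 * s ≤ m₀ := by exact_mod_cast h1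
        have := same (t + d t) ((t + oo s j : ℕ) : ℤ) (by push_cast; omega) (by push_cast; omega)
        push_cast at this ⊢
        constructor
        · rw [this.1, hr1]; ring
        · rw [this.2]; omega
      have hbig : ∀ j, 2 * s ≤ j → d t ≤ (oo s j : ℤ) := by
        intro j hj
        have h1 := oo_step (s := s) (a := 2 * s - 1) (b := j) (by omega) hs
        have h2 : (oo s (2 * s - 1) : ℤ) + 2 * s ≤ oo s j := by exact_mod_cast h1
        omega
      obtain ⟨j₁, hj₁, hdv⟩ : ∃ j₁ : ℕ, j₁ < s ∧ (s : ℤ) ∣ -(d t) + j₁ := by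
        refine ⟨((d t) % s).toNat, ?_, ?_⟩
        · have := Int.emod_lt_of_pos (d t) hs'
          have := Int.emod_nonneg (d t) hs'.ne'
          omega
        · rw [Int.toNat_of_nonneg (Int.emod_nonneg _ hs'.ne')]
          have := Int.emod_add_mul_ediv (d t) s
          refine ⟨-((d t) / s), ?_⟩
          linarith
      have hdvoo : ∀ j, j = 2 * s + j₁ ∨ j = 3 * s + j₁ → (s : ℤ) ∣ -(d t) + oo s j := by
        intro j hj
        have h1 : j % s = j₁ := by
          rcases hj with rfl | rfl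
          · rw [Nat.add_comm, Nat.add_mul_mod_self_right]; exact Nat.mod_eq_of_lt hj₁
          · rw [Nat.add_comm, Nat.add_mul_mod_self_right]; exact Nat.mod_eq_of_lt hj₁
        have h2 : (oo s j : ℤ) = s * (100 * 10 ^ j) + j₁ := by
          unfold oo
          rw [h1]; push_cast; ring
        rw [h2]
        have h3 : -(d t) + (s * (100 * 10 ^ j) + j₁) = s * (100 * 10 ^ j) + (-(d t) + j₁) := by
          ring
        rw [h3]
        exact dvd_add (dvd_mul_right _ _) hdv
      have fin : ∀ j, j = 2 * s + j₁ ∨ j = 3 * s + j₁ → Far s k (-(d t) + oo s j) →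
          ∃ j < J, (fun t : ℕ => val s k (r t) (d t) (S' (t - r t))) (t + oo s j)
            = some (1 / 2) := by
        intro j hj hfar
        have hjJ : j < J := by omega
        refine ⟨j, hjJ, ?_⟩
        obtain ⟨h1, h2⟩ := key j (by omega) (hbig j (by omega))
        show val s k (r ((t + oo s j : ℕ) : ℤ)) (d ((t + oo s j : ℕ) : ℤ))
          (S' (((t + oo s j : ℕ) : ℤ) - r ((t + oo s j : ℕ) : ℤ))) = some (1 / 2)
        have h3 : r ((t + oo s j : ℕ) : ℤ) = -(d t) + oo s j := by rw [h1]; ring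
        rw [h3]
        exact val_far hs (hdvoo j hj) h2 hfar
      rcases two_idx (k := k) hs (-(d t)) (j₁ := 2 * s + j₁) (j₂ := 3 * s + j₁) (by omega)
        (by omega) (by omega) with h | h | ⟨-, h⟩
      · exact fin _ (Or.inl rfl) h
      · exact fin _ (Or.inr rfl) h
      · have hjr : ((4 * s + (s - 1) + (d t).toNat - 1 : ℕ) : ℤ) = 4 * s + (s - 1) + d t - 1 := by
          omega
        set j := 4 * s + (s - 1) + (d t).toNat - 1 with hjdef
        have hjJ : j < J := by omega
        have hsg : sg s j = -(d t) := by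
          unfold sg
          rw [if_neg (by omega), if_neg (by omega), if_pos (by omega), hjr]
          ring
        obtain ⟨h5, h6⟩ := key j (by omega) (hbig j (by omega))
        refine ⟨j, hjJ, ?_⟩
        show val s k (r ((t + oo s j : ℕ) : ℤ)) (d ((t + oo s j : ℕ) : ℤ))
          (S' (((t + oo s j : ℕ) : ℤ) - r ((t + oo s j : ℕ) : ℤ))) = some (1 / 2)
        have h7 : r ((t + oo s j : ℕ) : ℤ) = oo s j + sg s j := by rw [h5, hsg]; ring
        rw [h7]
        exact val_partner hs hjJ (by rw [hsg]; omega)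

end XPattern

theorem prf_Pattern : Pattern := by
  intro s k hs
  refine ⟨4 * s + 2 * (s - 1), XPattern.oo s,
    XPattern.oo s (4 * s + 2 * (s - 1) + k) + 2 * s, by positivity, ?_⟩
  intro n S hn hper hex hsp
  exact XPattern.main s k hs n S hn hper hex hsp

end Pool.Agent.OmegaFT
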