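import Pool.Agent.Work.MP_814647_an.FT.Stmts
import Pool.Agent.Work.MP_814647_an.Linear

/-!
# Item PerBound: the a priori estimate for a hyperbolic linear map
-/

open Set Filter Topology Function

noncomputable section

namespace Pool.Agent.OmegaFT

open Pool.Agent.OmegaStab (EE HypLin)

namespace XPerBound

variable {E : Type*} [NormedAddCommGroup E] [NormedSpace ℝ E]

/-- contracted sequences -/
lemma stable {A : E →L[ℝ] E} {Es : Submodule ℝ E} {C μ B : ℝ}
    (hs : ∀ v ∈ Es, ∀ n : ℕ, ‖(A ^ n) v‖ ≤ C * μ ^ n * ‖v‖) (hC : 0 < C) (hμ : 0 < μ)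
    {a : ℕ → E} (hd : ∀ t, a (t + 1) - A (a t) ∈ Es) (hB : ∀ t, ‖a (t + 1) - A (a t)‖ ≤ B)
    (k : ℕ) : ∀ t, ‖a (t + k) - (A ^ k) (a t)‖ ≤ C * B * ∑ j ∈ Finset.range k, μ ^ j := by
  induction k with
  | zero => intro t; simp
  | succ k ih =>
    intro t
    have h1 := ih (t + 1)
    have h2 : ‖(A ^ k) (a (t + 1) - A (a t))‖ ≤ C * μ ^ k * B :=
      (hs _ (hd t) k).trans (mul_le_mul_of_nonneg_left (hB t) (by positivity))
    have h3 : a (t + (k + 1)) - (A ^ (k + 1)) (a t) =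
        (a (t + 1 + k) - (A ^ k) (a (t + 1))) + (A ^ k) (a (t + 1) - A (a t)) := by
      have h4 : (A ^ (k + 1)) (a t) = (A ^ k) (A (a t)) := by
        rw [pow_succ]
        rfl
      have h5 : t + (k + 1) = t + 1 + k := by ring
      rw [h4, h5, map_sub]
      abel
    rw [h3, Finset.sum_range_succ]
    refine (norm_add_le _ _).trans ?_
    have := add_le_add h1 h2
    calc _ ≤ _ := this
      _ = _ := by ring

/-- expanded sequences -/
lemma unstable {A : E →L[ℝ] E} {Eu : Submodule ℝ E} {C μ B : ℝ}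
    (hsurj : ∀ v ∈ Eu, ∀ n : ℕ, ∃ w ∈ Eu, (A ^ n) w = v ∧ ‖w‖ ≤ C * μ ^ n * ‖v‖)
    (hC : 0 < C) (hμ : 0 < μ)
    {a : ℕ → E} (hd : ∀ t, a (t + 1) - A (a t) ∈ Eu) (hB : ∀ t, ‖a (t + 1) - A (a t)‖ ≤ B)
    (t k : ℕ) : ∃ e ∈ Eu, a (t + k) = (A ^ k) (a t + e) ∧
      ‖e‖ ≤ C * B * ∑ j ∈ Finset.range k, μ ^ (j + 1) := by
  induction k with
  | zero => exact ⟨0, Eu.zero_mem, by simp, by simp⟩
  | succ k ih =>
    obtain ⟨e, he, h1, h2⟩ := ih
    obtain ⟨e', he', h3, h4⟩ := hsurj _ (hd (t + k)) (k + 1)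
    refine ⟨e + e', Eu.add_mem he he', ?_, ?_⟩
    · have h5 : (A ^ (k + 1)) (a t + (e + e')) = A ((A ^ k) (a t + e)) + (A ^ (k + 1)) e' := by
        rw [← add_assoc, map_add, pow_succ']
        rfl
      rw [h5, h3, ← h1]
      have h6 : t + (k + 1) = t + k + 1 := by ring
      rw [h6]
      abel
    · rw [Finset.sum_range_succ]
      refine (norm_add_le _ _).trans ?_
      have h7 : ‖e'‖ ≤ C * μ ^ (k + 1) * B :=
        h4.trans (mul_le_mul_of_nonneg_left (hB _) (by positivity))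
      calc _ ≤ _ := add_le_add h2 h7
        _ = _ := by ring

lemma geom_le {μ : ℝ} (h0 : 0 < μ) (h1 : μ < 1) (k : ℕ) :
    ∑ j ∈ Finset.range k, μ ^ j ≤ 1 / (1 - μ) := by
  rw [geom_sum_eq h1.ne, ← neg_div_neg_eq, neg_sub, neg_sub]
  have h2 : 0 < 1 - μ := by linarith
  have h3 : 0 < μ ^ k := pow_pos h0 k
  gcongr
  linarith

end XPerBound

open XPerBound in
theorem prf_PerBound : PerBound := by
  intro m A hA
  obtain ⟨Es, Eu, C, μ, hc, hAs, hAu, hC, hμ0, hμ1, hs, hu⟩ := HypLin.split hA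
  -- the projection on `Es` along `Eu`
  obtain ⟨P, hP⟩ : ∃ P : EE m →ₗ[ℝ] EE m, (∀ v, P v ∈ Es) ∧ (∀ v, v - P v ∈ Eu) ∧
      (∀ v ∈ Es, P v = v) ∧ ∀ v ∈ Eu, P v = 0 := by
    refine ⟨Es.subtype ∘ₗ Submodule.projectionOnto Es Eu hc, fun v => ?_, fun v => ?_,
      fun v hv => ?_, fun v hv => ?_⟩
    · exact (Submodule.projectionOnto Es Eu hc v).2
    · have h1 : Submodule.projectionOnto Es Eu hc
          (v - (Submodule.projectionOnto Es Eu hc v : EE m)) = 0 := by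
        rw [map_sub, Submodule.projectionOnto_apply_left, sub_self]
      exact (Submodule.projectionOnto_apply_eq_zero_iff hc).1 h1
    · show ((Submodule.projectionOnto Es Eu hc v : Es) : EE m) = v
      have := Submodule.projectionOnto_apply_left hc ⟨v, hv⟩
      exact congrArg Subtype.val this
    · show ((Submodule.projectionOnto Es Eu hc v : Es) : EE m) = 0
      rw [(Submodule.projectionOnto_apply_eq_zero_iff hc).2 hv]
      rfl
  obtain ⟨hP1, hP2, hP3, hP4⟩ := hP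
  have hcomm : ∀ v, P (A v) = A (P v) := by
    intro v
    have h1 : A v = A (P v) + A (v - P v) := by
      rw [← map_add]
      congr 1
      abel
    rw [h1, map_add, hP3 _ (hAs _ (hP1 v)), hP4 _ (hAu _ (hP2 v)), add_zero]
  obtain ⟨Q, hQ0, hQ⟩ : ∃ Q : ℝ, 0 < Q ∧ ∀ v, ‖P v‖ ≤ Q * ‖v‖ := by
    refine ⟨‖LinearMap.toContinuousLinearMap P‖ + 1, by positivity, fun v => ?_⟩
    have h1 : ‖P v‖ ≤ ‖LinearMap.toContinuousLinearMap P‖ * ‖v‖ :=
      (LinearMap.toContinuousLinearMap P).le_opNorm v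
    have := norm_nonneg v
    nlinarith
  -- inverses on `Eu`
  have hsurj : ∀ v ∈ Eu, ∀ n : ℕ, ∃ w ∈ Eu, (A ^ n) w = v ∧ ‖w‖ ≤ C * μ ^ n * ‖v‖ := by
    intro v hv n
    have hpow : ∀ n : ℕ, ∀ w ∈ Eu, (A ^ n) w ∈ Eu := by
      intro n
      induction n with
      | zero => exact fun w hw => hw
      | succ n ih =>
        intro w hw
        rw [pow_succ]
        exact ih _ (hAu w hw)
    let T : Eu →ₗ[ℝ] Eu := ((A ^ n : EE m →L[ℝ] EE m) : EE m →ₗ[ℝ] EE m).restrict (hpow n)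
    have hT : Function.Injective T := by
      rw [injective_iff_map_eq_zero]
      intro x hx
      have h1 : (A ^ n) (x : EE m) = 0 := congrArg Subtype.val hx
      have h2 := hu x x.2 n
      rw [h1, norm_zero, mul_zero] at h2
      exact Subtype.ext (norm_le_zero_iff.1 h2)
    obtain ⟨⟨w, hw⟩, hw2⟩ := (LinearMap.injective_iff_surjective.1 hT) ⟨v, hv⟩
    have h3 : (A ^ n) w = v := congrArg Subtype.val hw2
    refine ⟨w, hw, h3, ?_⟩
    have := hu w hw n
    rwa [h3] at this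
  -- a large time
  obtain ⟨N, hN⟩ : ∃ N : ℕ, C * μ ^ N < 1 / 2 := by
    have h1 : Tendsto (fun n : ℕ => C * μ ^ n) atTop (𝓝 (C * 0)) :=
      (tendsto_pow_atTop_nhds_zero_of_lt_one hμ0.le hμ1).const_mul C
    rw [mul_zero] at h1
    exact (h1.eventually (gt_mem_nhds (by norm_num : (0 : ℝ) < 1 / 2))).exists
  have h1μ : 0 < 1 - μ := by linarith
  refine ⟨2 * (C * Q / (1 - μ)) + 2 * (C * (1 + Q) / (1 - μ)), by positivity, ?_⟩
  intro n z b hn hz hb t ht
  have hb0 : 0 ≤ b := (norm_nonneg _).trans (hb 0 hn)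
  -- the periodic extension
  obtain ⟨y, hy⟩ : ∃ y : ℕ → EE m, ∀ t, y t = z (t % n) := ⟨fun t => z (t % n), fun _ => rfl⟩
  have hyt : ∀ t ≤ n, y t = z t := by
    intro t ht
    rw [hy]
    rcases ht.lt_or_eq with h | h
    · rw [Nat.mod_eq_of_lt h]
    · rw [h, Nat.mod_self, hz]
  have hyp : ∀ t k, y (t + k * n) = y t := by
    intro t k
    rw [hy, hy, Nat.add_mul_mod_self_right]
  have hyb : ∀ t, ‖y (t + 1) - A (y t)‖ ≤ b := by
    intro t
    have h1 := Nat.mod_add_div t n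
    have h2 : y t = y (t % n) := by
      rw [hy, hy, Nat.mod_mod]
    have h3 : y (t + 1) = y (t % n + 1) := by
      rw [hy, hy]
      congr 1
      rw [Nat.add_mod t 1 n, Nat.add_mod (t % n) 1 n, Nat.mod_mod]
    have h4 : t % n < n := Nat.mod_lt _ hn
    rw [h2, h3, hyt _ h4.le, hyt _ h4]
    exact hb _ h4
  -- the large multiple of the period
  have hNn : N ≤ N * n := Nat.le_mul_of_pos_right N hn
  have hsmall : C * μ ^ (N * n) ≤ 1 / 2 := by
    have : μ ^ (N * n) ≤ μ ^ N := pow_le_pow_of_le_one hμ0.le hμ1.le hNn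
    nlinarith
  -- stable part
  have hsP : ‖P (y t)‖ ≤ 2 * (C * Q / (1 - μ)) * b := by
    have hd : ∀ t, P (y (t + 1)) - A (P (y t)) = P (y (t + 1) - A (y t)) := by
      intro t
      rw [map_sub, hcomm]
    have h1 := stable (a := fun t => P (y t)) (B := Q * b) hs hC hμ0
      (fun t => by
        show P (y (t + 1)) - A (P (y t)) ∈ Es
        rw [hd]; exact hP1 _)
      (fun t => by
        show ‖P (y (t + 1)) - A (P (y t))‖ ≤ Q * b
        rw [hd]
        exact (hQ _).trans (mul_le_mul_of_nonneg_left (hyb t) hQ0.le)) (N * n) t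
    simp only [hyp] at h1
    have h2 := hs _ (hP1 (y t)) (N * n)
    have h3 : ‖P (y t)‖ ≤ ‖P (y t) - (A ^ (N * n)) (P (y t))‖ + ‖(A ^ (N * n)) (P (y t))‖ := by
      have := norm_add_le (P (y t) - (A ^ (N * n)) (P (y t))) ((A ^ (N * n)) (P (y t)))
      rwa [sub_add_cancel] at this
    have h4 : C * μ ^ (N * n) * ‖P (y t)‖ ≤ 1 / 2 * ‖P (y t)‖ :=
      mul_le_mul_of_nonneg_right hsmall (norm_nonneg _)
    have h5 : C * (Q * b) * ∑ j ∈ Finset.range (N * n), μ ^ j ≤ C * (Q * b) * (1 / (1 - μ)) :=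
      mul_le_mul_of_nonneg_left (geom_le hμ0 hμ1 _) (by positivity)
    have h6 : ‖P (y t)‖ ≤ 2 * (C * (Q * b) * (1 / (1 - μ))) := by linarith
    calc ‖P (y t)‖ ≤ 2 * (C * (Q * b) * (1 / (1 - μ))) := h6
      _ = 2 * (C * Q / (1 - μ)) * b := by ring
  -- unstable part
  have huP : ‖y t - P (y t)‖ ≤ 2 * (C * (1 + Q) / (1 - μ)) * b := by
    have hd : ∀ t, (y (t + 1) - P (y (t + 1))) - A (y t - P (y t)) =
        (y (t + 1) - A (y t)) - P (y (t + 1) - A (y t)) := by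
      intro t
      rw [map_sub, map_sub, hcomm]
      abel
    obtain ⟨e, he, h1, h2⟩ := unstable (a := fun t => y t - P (y t)) (B := (1 + Q) * b) hsurj hC
      hμ0
      (fun t => by
        show (y (t + 1) - P (y (t + 1))) - A (y t - P (y t)) ∈ Eu
        rw [hd]; exact hP2 _)
      (fun t => by
        show ‖(y (t + 1) - P (y (t + 1))) - A (y t - P (y t))‖ ≤ (1 + Q) * b
        rw [hd]
        refine (norm_sub_le _ _).trans ?_
        have h3 := hQ (y (t + 1) - A (y t))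
        have h4 := hyb t
        nlinarith) t (N * n)
    simp only [hyp] at h1
    have h3 := hu (y t - P (y t) + e) (Eu.add_mem (hP2 _) he) (N * n)
    rw [← h1] at h3
    have h4 : C * μ ^ (N * n) * ‖y t - P (y t)‖ ≤ 1 / 2 * ‖y t - P (y t)‖ :=
      mul_le_mul_of_nonneg_right hsmall (norm_nonneg _)
    have h5 : ‖y t - P (y t)‖ ≤ ‖y t - P (y t) + e‖ + ‖e‖ := by
      have := norm_sub_le (y t - P (y t) + e) e
      rwa [add_sub_cancel_right] at this
    have h6 : ∑ j ∈ Finset.range (N * n), μ ^ (j + 1) ≤ 1 / (1 - μ) := by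
      refine le_trans (Finset.sum_le_sum fun j _ => ?_) (geom_le hμ0 hμ1 (N * n))
      exact pow_le_pow_of_le_one hμ0.le hμ1.le (Nat.le_succ j)
    have h7 : C * ((1 + Q) * b) * ∑ j ∈ Finset.range (N * n), μ ^ (j + 1) ≤
        C * ((1 + Q) * b) * (1 / (1 - μ)) :=
      mul_le_mul_of_nonneg_left h6 (by positivity)
    have h8 : ‖y t - P (y t)‖ ≤ 2 * (C * ((1 + Q) * b) * (1 / (1 - μ))) := by linarith
    calc ‖y t - P (y t)‖ ≤ 2 * (C * ((1 + Q) * b) * (1 / (1 - μ))) := h8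
      _ = 2 * (C * (1 + Q) / (1 - μ)) * b := by ring
  rw [← hyt t ht]
  have h9 : ‖y t‖ ≤ ‖P (y t)‖ + ‖y t - P (y t)‖ := by
    have := norm_add_le (P (y t)) (y t - P (y t))
    rwa [add_sub_cancel] at this
  calc ‖y t‖ ≤ ‖P (y t)‖ + ‖y t - P (y t)‖ := h9
    _ ≤ _ := add_le_add hsP huP
    _ = _ := by ring

end Pool.Agent.OmegaFT
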