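import Pool.Agent.Work.MP_814647_an.FT.Stmts

/-!
# Fibred tori, item PerSolve: closed solutions of `z (t + 1) = L t (z t) + ψ t (z t)`
-/

open Set Filter Topology Function
open scoped Manifold ContDiff

noncomputable section

namespace Pool.Agent.OmegaFT

open Pool.Agent.OmegaStab (EE HypLin)

namespace XPerSolve

/-- the radial retraction on the ball of radius `ρ` -/
def rr {m : ℕ} (ρ : ℝ) (v : EE m) : EE m := (ρ / max ρ ‖v‖) • v

lemma rr_cont {m : ℕ} {ρ : ℝ} (h : 0 ≤ ρ) : Continuous (rr (m := m) ρ) := by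
  rcases h.eq_or_lt with h | h
  · have : rr (m := m) ρ = fun _ => 0 := by
      funext v
      unfold rr
      rw [← h, zero_div, zero_smul]
    rw [this]
    exact continuous_const
  · refine Continuous.smul (Continuous.div continuous_const (continuous_const.max continuous_norm) ?_)
      continuous_id
    intro v
    have : 0 < max ρ ‖v‖ := lt_of_lt_of_le h (le_max_left _ _)
    exact this.ne'

lemma rr_norm {m : ℕ} {ρ : ℝ} (h : 0 ≤ ρ) (v : EE m) : ‖rr ρ v‖ ≤ ρ := by
  unfold rr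
  have h0 : 0 ≤ max ρ ‖v‖ := h.trans (le_max_left _ _)
  rw [norm_smul, Real.norm_eq_abs, abs_of_nonneg (div_nonneg h h0)]
  rcases h0.eq_or_lt with h1 | h1
  · rw [← h1, div_zero, zero_mul]
    exact h
  · rw [div_mul_eq_mul_div, div_le_iff₀ h1]
    exact mul_le_mul_of_nonneg_left (le_max_right _ _) h

lemma rr_eq {m : ℕ} {ρ : ℝ} (v : EE m) (hv : ‖v‖ ≤ ρ) : rr ρ v = v := by
  unfold rr
  rw [max_eq_left hv]
  by_cases h : ρ = 0
  · have : v = 0 := by
      rw [h] at hv
      exact norm_le_zero_iff.1 hv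
    rw [this, smul_zero]
  · rw [div_self h, one_smul]

/-- periodic extension -/
def ext {m n : ℕ} (hn : 0 < n) (z : Fin n → EE m) (t : ℕ) : EE m := z ⟨t % n, Nat.mod_lt t hn⟩

lemma ext_lt {m n : ℕ} (hn : 0 < n) (z : Fin n → EE m) (t : Fin n) : ext hn z t = z t := by
  unfold ext
  congr 1
  exact Fin.ext (Nat.mod_eq_of_lt t.2)

lemma ext_n {m n : ℕ} (hn : 0 < n) (z : Fin n → EE m) : ext hn z n = ext hn z 0 := by
  unfold ext
  congr 1
  exact Fin.ext (by simp)

/-- the linear map `Λ` -/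
def Lam {m n : ℕ} (hn : 0 < n) (L : ℕ → EE m →L[ℝ] EE m) : (Fin n → EE m) →ₗ[ℝ] (Fin n → EE m) where
  toFun z t := ext hn z (t + 1) - L t (ext hn z t)
  map_add' z w := by
    funext t
    show ext hn z (t + 1) + ext hn w (t + 1) - L t (ext hn z t + ext hn w t) =
      (ext hn z (t + 1) - L t (ext hn z t)) + (ext hn w (t + 1) - L t (ext hn w t))
    rw [map_add]
    abel
  map_smul' c z := by
    funext t
    show c • ext hn z (t + 1) - L t (c • ext hn z t) = c • (ext hn z (t + 1) - L t (ext hn z t))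
    rw [map_smul, smul_sub]

end XPerSolve

open XPerSolve in
theorem prf_PerSolve (h1 : BrBdd) : PerSolve := by
  intro m n L K ρ hn hK hρ hap ψ hψ hψb
  have key : ∀ (z : Fin n → EE m) (b : ℝ), 0 ≤ b → (∀ t, ‖Lam hn L z t‖ ≤ b) → ‖z‖ ≤ K * b := by
    intro z b hb h
    rw [pi_norm_le_iff_of_nonneg (by positivity)]
    intro t
    have := hap (ext hn z) b (ext_n hn z) (fun s hs => h ⟨s, hs⟩) t t.2.le
    rwa [ext_lt] at this
  have hinj : Function.Injective (Lam hn L) := by
    rw [injective_iff_map_eq_zero]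
    intro z hz
    have := key z 0 le_rfl (fun t => by rw [hz]; simp)
    rw [mul_zero] at this
    exact norm_le_zero_iff.1 this
  obtain ⟨Λ, hΛ⟩ : ∃ Λ : (Fin n → EE m) ≃ₗ[ℝ] (Fin n → EE m), ∀ z, Λ z = Lam hn L z :=
    ⟨LinearEquiv.ofInjectiveEndo (Lam hn L) hinj, fun z => rfl⟩
  have hsb : ∀ w : Fin n → EE m, ‖Λ.symm w‖ ≤ K * ‖w‖ := by
    intro w
    refine key _ _ (norm_nonneg w) (fun t => ?_)
    rw [← hΛ, LinearEquiv.apply_symm_apply]
    exact norm_le_pi_norm w t
  have hsc : Continuous Λ.symm := LinearMap.continuous_of_finiteDimensional Λ.symm.toLinearMap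
  obtain ⟨z, hz⟩ := h1 (Fin n → EE m) (fun z => Λ.symm fun t => ψ t (rr ρ (z t)))
    (by
      refine hsc.comp (continuous_pi fun t => ?_)
      refine (hψ t).comp_continuous ((rr_cont hρ).comp (continuous_apply t)) fun z => ?_
      rw [mem_closedBall_zero_iff]
      exact rr_norm hρ _)
    ⟨ρ, fun z => by
      refine (hsb _).trans ?_
      have : ‖fun t : Fin n => ψ t (rr ρ (z t))‖ ≤ ρ / K := by
        rw [pi_norm_le_iff_of_nonneg (by positivity)]
        intro t
        rw [le_div_iff₀ hK, mul_comm]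
        exact hψb t t.2 _ (rr_norm hρ _)
      calc K * ‖fun t : Fin n => ψ t (rr ρ (z t))‖ ≤ K * (ρ / K) := mul_le_mul_of_nonneg_left this hK.le
        _ = ρ := by field_simp⟩
  have hzn : ‖z‖ ≤ ρ := by
    rw [← hz]
    refine (hsb _).trans ?_
    have : ‖fun t : Fin n => ψ t (rr ρ (z t))‖ ≤ ρ / K := by
      rw [pi_norm_le_iff_of_nonneg (by positivity)]
      intro t
      rw [le_div_iff₀ hK, mul_comm]
      exact hψb t t.2 _ (rr_norm hρ _)
    calc K * ‖fun t : Fin n => ψ t (rr ρ (z t))‖ ≤ K * (ρ / K) := mul_le_mul_of_nonneg_left this hK.le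
      _ = ρ := by field_simp
  have hzt : ∀ t, ‖z t‖ ≤ ρ := fun t => (norm_le_pi_norm z t).trans hzn
  refine ⟨ext hn z, ext_n hn z, fun t _ => hzt _, fun t ht => ?_⟩
  have h2 : Λ z = fun t : Fin n => ψ t (rr ρ (z t)) := by
    conv_lhs => rw [← hz]
    rw [LinearEquiv.apply_symm_apply]
  have h3 : ext hn z (t + 1) - L t (ext hn z t) = ψ t (rr ρ (z ⟨t, ht⟩)) := by
    have := congrFun h2 ⟨t, ht⟩
    rw [hΛ] at this
    exact this
  have h4 : z ⟨t, ht⟩ = ext hn z t := (ext_lt hn z ⟨t, ht⟩).symm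
  rw [rr_eq _ (hzt _), h4] at h3
  rw [← h3]
  abel

end Pool.Agent.OmegaFT
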