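import Pool.Agent.Work.MP_814647_an.FT.Stmts2
import Pool.Agent.Work.MP_814647_an.PS.Pert

/-!
# Fibred tori: perturbations acting on the base at the points located by `θ` (item PertFib)
-/

open Set Filter Topology Function
open scoped Manifold ContDiff

noncomputable section

namespace Pool.Agent.OmegaFT

open Pool.Agent.OmegaStab (EE Dyn IsFam PP HypAt crTopology HypLin ConjClass)
open Pool.Agent.OmegaStab.FinHyp (der)
open Pool.Agent.OmegaPS
open Pool.Agent.OmegaStability

universe u v w x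

namespace XPertFib

theorem exists_sigma {Y : Type*} [MetricSpace Y] [CompactSpace Y] {k : ℕ} (D : Fin k → Set Y)
    (E : Set Y) (hD : ∀ i, IsClosed (D i)) (hE : IsClosed E)
    (hDD : ∀ i j, i ≠ j → Disjoint (D i) (D j)) (hDE : ∀ i, Disjoint (D i) E) :
    ∃ σ : ℝ, 0 < σ ∧
      (∀ i j, i ≠ j → Disjoint (Metric.thickening σ (D i)) (Metric.thickening σ (D j))) ∧
      ∀ i, Disjoint (Metric.thickening σ (D i)) (Metric.thickening σ E) := by
  have h1 : ∀ᶠ σ : ℝ in 𝓝[>] (0 : ℝ), ∀ i j, i ≠ j →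
      Disjoint (Metric.thickening σ (D i)) (Metric.thickening σ (D j)) := by
    rw [eventually_all]
    intro i
    rw [eventually_all]
    intro j
    by_cases hij : i = j
    · exact Eventually.of_forall fun σ h => absurd hij h
    · obtain ⟨δ, hδ, h⟩ := (hDD i j hij).exists_thickenings (hD i).isCompact (hD j)
      filter_upwards [Ioo_mem_nhdsGT hδ] with σ hσ _
      exact h.mono (Metric.thickening_mono hσ.2.le _) (Metric.thickening_mono hσ.2.le _)
  have h2 : ∀ᶠ σ : ℝ in 𝓝[>] (0 : ℝ), ∀ i,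
      Disjoint (Metric.thickening σ (D i)) (Metric.thickening σ E) := by
    rw [eventually_all]
    intro i
    obtain ⟨δ, hδ, h⟩ := (hDE i).exists_thickenings (hD i).isCompact hE
    filter_upwards [Ioo_mem_nhdsGT hδ] with σ hσ
    exact h.mono (Metric.thickening_mono hσ.2.le _) (Metric.thickening_mono hσ.2.le _)
  obtain ⟨σ, hσ, h1, h2⟩ := (eventually_mem_nhdsWithin.and (h1.and h2)).exists
  exact ⟨σ, hσ, h1, h2⟩

theorem mem_thick {Y : Type*} [MetricSpace Y] {A : Set Y} {a b : Y} {s t σ : ℝ}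
    (ha : a ∈ Metric.thickening s A) (hab : dist b a ≤ t) (h : s + t ≤ σ) :
    b ∈ Metric.thickening σ A := by
  rw [Metric.mem_thickening_iff] at ha ⊢
  obtain ⟨z, hz, hz'⟩ := ha
  refine ⟨z, hz, ?_⟩
  have := dist_triangle b a z
  linarith

theorem main (h1 : SmallAtlas.{u}) : PertFib.{u, v, w, x} := by
  intro d₁ d₂ d N T M Y _ _ _ _ _ _ _ _ _ _ _ _ _ _ r Φ f θ hθ 𝒩 h𝒩 hf𝒩 k D E hD hE hDD hDE
  obtain ⟨σ, hσ, hσD, hσE⟩ := exists_sigma D E hD hE hDD hDE
  -- uniform continuity of `θ`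
  obtain ⟨δ, hδ, hδθ⟩ : ∃ δ : ℝ, 0 < δ ∧ ∀ (x x' : N) (y : T), dist x x' ≤ δ →
      dist (θ (x, y)) (θ (x', y)) ≤ σ / 8 := by
    have huc := CompactSpace.uniformContinuous_of_continuous hθ
    obtain ⟨δ, hδ, h⟩ := Metric.uniformContinuous_iff.1 huc (σ / 8) (by linarith)
    refine ⟨δ / 2, by linarith, fun x x' y hx => (h ?_).le⟩
    rw [Prod.dist_eq, dist_self, max_lt_iff]
    exact ⟨by dsimp only; linarith, hδ⟩
  obtain ⟨At, V, -, hVc, hVd, hVh⟩ := h1 d₁ N r δ hδ
  have := At.fin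
  -- cut-off functions
  have hβ : ∀ (i : Fin k) (j : At.J), ∃ β : T → ℝ, ContMDiff (𝓡 d₂) 𝓘(ℝ, ℝ) ∞ β ∧
      (∀ y, β y ∈ Icc (0 : ℝ) 1) ∧
      (∀ y, θ (At.ctr j, y) ∈ Metric.thickening (σ / 2) (D i) → β y = 1) ∧
      ∀ y, θ (At.ctr j, y) ∉ Metric.thickening σ (D i) → β y = 0 := by
    intro i j
    have hc : Continuous fun y : T => θ (At.ctr j, y) :=
      hθ.comp (continuous_const.prodMk continuous_id)
    have hs : IsClosed ((fun y : T => θ (At.ctr j, y)) ⁻¹' (Metric.thickening σ (D i))ᶜ) :=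
      Metric.isOpen_thickening.isClosed_compl.preimage hc
    have ht : IsClosed ((fun y : T => θ (At.ctr j, y)) ⁻¹' (Metric.cthickening (σ / 2) (D i))) :=
      Metric.isClosed_cthickening.preimage hc
    have hd : Disjoint ((fun y : T => θ (At.ctr j, y)) ⁻¹' (Metric.thickening σ (D i))ᶜ)
        ((fun y : T => θ (At.ctr j, y)) ⁻¹' (Metric.cthickening (σ / 2) (D i))) := by
      refine Disjoint.preimage _ ?_
      rw [disjoint_compl_left_iff_subset]
      exact Metric.cthickening_subset_thickening' hσ (by linarith) _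
    obtain ⟨β, h0, h1, h2⟩ := exists_contMDiffMap_zero_one_of_isClosed (n := ⊤) (𝓡 d₂) hs ht hd
    exact ⟨β, β.contMDiff, h2, fun y hy => h1 (Metric.thickening_subset_cthickening _ _ hy),
      fun y hy => h0 hy⟩
  choose β hβs hβI hβ1 hβ0 using hβ
  have hP := fun (i : Fin k) (j : At.J) =>
    cyl_fam Φ (At.isFam j) (At.isFam' j) (hβs i j) (hβI i j)
  choose P hPf hPe using hP
  have hev : ∀ᶠ π in 𝓝 (0 : Fin k → PP d₁), ∀ j : Fin k → At.J,
      f.trans (PertAux.Q (fun i => P i (j i)) (List.finRange k) π) ∈ 𝒩 ∧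
      ∀ i (y : N) (x : T),
        Φ (P i (j i) (π i) (Φ.symm (y, x))) = (At.h (j i) (β i (j i) x • π i) y, x) := by
    rw [eventually_all]
    intro j
    refine Filter.Eventually.and ?_ ?_
    · have hfam := PertAux.Q_fam (fun i => P i (j i)) (fun i => hPf i (j i)) (List.finRange k)
      exact (hfam.tendsto f).eventually
        (@IsOpen.mem_nhds _ (crTopology d M r) f 𝒩 h𝒩 hf𝒩)
    · rw [eventually_all]
      intro i
      have h1 : Tendsto (fun π : Fin k → PP d₁ => π i) (𝓝 0) (𝓝 0) :=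
        (continuous_apply i).tendsto' _ _ rfl
      exact h1.eventually (hPe i (j i))
  obtain ⟨c₁, hc₁, hc⟩ := Metric.nhds_basis_closedBall.eventually_iff.1 hev
  obtain ⟨c₂, hc₂, hc'⟩ := Metric.nhds_basis_closedBall.eventually_iff.1 (eventually_all.2 hVh)
  have hfixV : ∀ (j : At.J) (π : PP d₁), ‖π‖ ≤ c₂ → ∀ z ∉ V j, At.h j π z = z := by
    intro j π hπ
    exact hc' (mem_closedBall_zero_iff.2 hπ) j
  refine ⟨At, fun i => Metric.thickening (σ / 4) (D i), Metric.thickening (σ / 4) E,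
    min c₁ c₂, fun i => ⟨Metric.isOpen_thickening, Metric.self_subset_thickening (by linarith) _⟩,
    Metric.isOpen_thickening, Metric.self_subset_thickening (by linarith) _,
    lt_min hc₁ hc₂, fun j π hπ => ?_⟩
  have hπ' : π ∈ Metric.closedBall (0 : Fin k → PP d₁) c₁ := by
    rw [mem_closedBall_zero_iff, pi_norm_le_iff_of_nonneg hc₁.le]
    exact fun i => (hπ i).trans (min_le_left _ _)
  obtain ⟨h1, h2⟩ := hc hπ' j
  have hsmall : ∀ (i : Fin k) (t : ℝ), t ∈ Icc (0 : ℝ) 1 → ‖t • π i‖ ≤ c₂ := by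
    intro i t ht
    rw [norm_smul, Real.norm_eq_abs, abs_of_nonneg ht.1]
    have h3 := (hπ i).trans (min_le_right _ _)
    have h4 := norm_nonneg (π i)
    nlinarith [ht.1, ht.2]
  have hfix0 : ∀ i (y : N) (x : T), β i (j i) x = 0 →
      P i (j i) (π i) (Φ.symm (y, x)) = Φ.symm (y, x) := by
    intro i y x hx
    have h3 := h2 i y x
    rw [hx, zero_smul ℝ (π i), (At.isFam (j i)).1] at h3
    refine Φ.injective ?_
    change Φ _ = Φ _
    rw [h3, Φ.apply_symm_apply]
    rfl
  have hfixv : ∀ i (y : N) (x : T), y ∉ V (j i) →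
      P i (j i) (π i) (Φ.symm (y, x)) = Φ.symm (y, x) := by
    intro i y x hy
    have h3 := h2 i y x
    rw [hfixV (j i) _ (hsmall i _ (hβI i (j i) x)) y hy] at h3
    refine Φ.injective ?_
    change Φ _ = Φ _
    rw [h3, Φ.apply_symm_apply]
  have hfix : ∀ i (y : N) (x : T), (y ∈ V (j i) → β i (j i) x = 0) →
      P i (j i) (π i) (Φ.symm (y, x)) = Φ.symm (y, x) := by
    intro i y x h
    by_cases hy : y ∈ V (j i)
    · exact hfix0 i y x (h hy)
    · exact hfixv i y x hy
  have hmove : ∀ i (y : N) (x : T), (y ∈ V (j i) → β i (j i) x = 1) →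
      P i (j i) (π i) (Φ.symm (y, x)) = Φ.symm (At.h (j i) (π i) y, x) := by
    intro i y x h
    by_cases hy : y ∈ V (j i)
    · have h3 := h2 i y x
      rw [h hy, one_smul ℝ (π i)] at h3
      refine Φ.injective ?_
      change Φ _ = Φ _
      rw [h3, Φ.apply_symm_apply]
    · rw [hfixv i y x hy, hfixV (j i) (π i) ((hπ i).trans (min_le_right _ _)) y hy]
  -- the perturbation moves the points of the base at most by `δ`
  have hmv : ∀ i (y : N), dist (At.h (j i) (π i) y) y ≤ δ := by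
    intro i y
    have hp := (hπ i).trans (min_le_right _ _)
    by_cases hy : y ∈ V (j i)
    · by_cases hy' : At.h (j i) (π i) y ∈ V (j i)
      · exact hVd (j i) _ hy' _ hy
      · have h3 := hfixV (j i) (π i) hp _ hy'
        have h4 : At.h (j i) (π i) y = y := (At.h (j i) (π i)).injective h3
        rw [h4, dist_self]
        exact hδ.le
    · rw [hfixV (j i) (π i) hp y hy, dist_self]
      exact hδ.le
  have hβD : ∀ i i' (y : N) (x : T), i' ≠ i → θ (y, x) ∈ Metric.thickening (3 * σ / 8) (D i) →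
      y ∈ V (j i') → β i' (j i') x = 0 := by
    intro i i' y x hi hy hyV
    refine hβ0 i' (j i') x fun h3 => ?_
    have h4 : θ (At.ctr (j i'), x) ∈ Metric.thickening σ (D i) :=
      mem_thick hy (hδθ _ _ x (hVd (j i') _ (hVc (j i')) _ hyV)) (by linarith)
    exact (hσD i' i hi).le_bot ⟨h3, h4⟩
  refine ⟨_, h1, ?_, ?_⟩
  · intro p hp
    change Φ (PertAux.Q (fun i => P i (j i)) (List.finRange k) π (f p)) = _
    rw [PertAux.Q_apply]
    intro i _
    have h3 := hfix i (Φ (f p)).1 (Φ (f p)).2 fun hV => hβ0 i (j i) _ fun h3 => ?_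
    · simpa using h3
    · have h4 : θ (At.ctr (j i), (Φ (f p)).2) ∈ Metric.thickening σ E :=
        mem_thick hp (hδθ _ _ _ (hVd (j i) _ (hVc (j i)) _ hV)) (by linarith)
      exact (hσE i).le_bot ⟨h3, h4⟩
  · intro i p hp
    change Φ (PertAux.Q (fun i => P i (j i)) (List.finRange k) π (f p)) = _
    have ha : Φ.symm ((Φ (f p)).1, (Φ (f p)).2) = f p := by simp
    rw [PertAux.Q_apply' _ π _ (List.nodup_finRange k) i (List.mem_finRange i) _
      (Φ.symm (At.h (j i) (π i) (Φ (f p)).1, (Φ (f p)).2)) ?_ ?_ ?_, Φ.apply_symm_apply]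
    · intro i' _ hi'
      rw [← ha]
      refine hfix i' _ _ fun hV => hβD i i' _ _ hi' ?_ hV
      exact mem_thick (s := σ / 4) (t := 0) hp (by simp) (by linarith)
    · intro i' _ hi'
      refine hfix i' _ _ fun hV => hβD i i' _ _ hi' ?_ hV
      exact mem_thick (s := σ / 4) (t := σ / 8) hp (hδθ _ _ _ (hmv i _)) (by linarith)
    · conv_lhs => rw [← ha]
      refine hmove i _ _ fun hV => hβ1 i (j i) _ ?_
      exact mem_thick (s := σ / 4) (t := σ / 8) hp (hδθ _ _ _ (hVd (j i) _ (hVc (j i)) _ hV))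
        (by linarith)

end XPertFib

/-- Item PertFib. (`SmallMove` is not needed: a diffeomorphism which is the identity off `V`
maps `V` to itself.) -/
theorem prf_PertFib (h1 : SmallAtlas.{u}) (_h2 : SmallMove.{u}) : PertFib.{u, v, w, x} :=
  XPertFib.main h1

end Pool.Agent.OmegaFT
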