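import Pool.Agent.Work.MP_814647_an.FT.Stmts
import Pool.Agent.Work.MP_814647_an.Linear

/-!
# Item Semi: the semiconjugacy of Franks in coordinates
-/

open Set Filter Topology Function
open scoped Manifold ContDiff

noncomputable section

namespace Pool.Agent.OmegaFT

open Pool.Agent.OmegaStab (EE HypLin)

universe u v

namespace XSemi

lemma core {Z E : Type*} [TopologicalSpace Z] [NormedAddCommGroup E] [NormedSpace ℝ E]
    [CompleteSpace E] (F : Z ≃ₜ Z) (A : E ≃L[ℝ] E) (Ps Pu : E →L[ℝ] E)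
    (hsum : ∀ v, Ps v + Pu v = v) (C μ : ℝ) (hμ0 : 0 < μ) (hμ1 : μ < 1)
    (hs : ∀ v (n : ℕ), ‖((A : E →L[ℝ] E) ^ n) (Ps v)‖ ≤ C * μ ^ n * ‖v‖)
    (hu : ∀ v (n : ℕ), ‖((A.symm : E →L[ℝ] E) ^ n) (Pu v)‖ ≤ C * μ ^ n * ‖v‖)
    (hC : 0 ≤ C) (g : Z → E) (hg : Continuous g) (B : ℝ) (hB : ∀ z, ‖g z‖ ≤ B) :
    ∃ w : Z → E, Continuous w ∧ ∀ z, w (F z) = A (w z) - g z := by
  have hgeo : Summable fun j : ℕ => C * μ ^ j * B :=
    ((summable_geometric_of_lt_one hμ0.le hμ1).mul_left C).mul_right B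
  have hbs : ∀ (j : ℕ) (z y : Z), ‖((A : E →L[ℝ] E) ^ j) (Ps (g y))‖ ≤ C * μ ^ j * B := by
    intro j z y
    refine (hs _ j).trans ?_
    have h0 : 0 ≤ C * μ ^ j := mul_nonneg hC (pow_nonneg hμ0.le j)
    exact mul_le_mul_of_nonneg_left (hB y) h0
  have hbu : ∀ (j : ℕ) (z y : Z), ‖((A.symm : E →L[ℝ] E) ^ j) (Pu (g y))‖ ≤ C * μ ^ j * B := by
    intro j z y
    refine (hu _ j).trans ?_
    have h0 : 0 ≤ C * μ ^ j := mul_nonneg hC (pow_nonneg hμ0.le j)
    exact mul_le_mul_of_nonneg_left (hB y) h0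
  have hgeo1 : Summable fun j : ℕ => C * μ ^ (j + 1) * B :=
    (summable_nat_add_iff (f := fun j : ℕ => C * μ ^ j * B) 1).2 hgeo
  set S : Z → E := fun z => ∑' j : ℕ, ((A : E →L[ℝ] E) ^ j) (Ps (g (F.symm^[j + 1] z))) with hS
  set U : Z → E := fun z => ∑' j : ℕ, ((A.symm : E →L[ℝ] E) ^ (j + 1)) (Pu (g (F^[j] z))) with hU
  have hSc : Continuous S := by
    refine continuous_tsum (fun j => ?_) hgeo (fun j z => hbs j z _)
    exact ((A : E →L[ℝ] E) ^ j).continuous.comp (Ps.continuous.comp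
      (hg.comp (F.symm.continuous.iterate _)))
  have hUc : Continuous U := by
    refine continuous_tsum (fun j => ?_) hgeo1 (fun j z => hbu (j + 1) z _)
    exact ((A.symm : E →L[ℝ] E) ^ (j + 1)).continuous.comp (Pu.continuous.comp
      (hg.comp (F.continuous.iterate _)))
  have hSF : ∀ z, S (F z) = Ps (g z) + A (S z) := by
    intro z
    have h1 : S (F z) = ∑' j : ℕ, ((A : E →L[ℝ] E) ^ j) (Ps (g (F.symm^[j] z))) := by
      simp only [hS]
      refine tsum_congr fun j => ?_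
      rw [Function.iterate_succ_apply, F.symm_apply_apply]
    have hsumm : Summable fun j : ℕ => ((A : E →L[ℝ] E) ^ j) (Ps (g (F.symm^[j] z))) :=
      Summable.of_norm_bounded hgeo fun j => hbs j z _
    have hsumm1 : Summable fun j : ℕ => ((A : E →L[ℝ] E) ^ j) (Ps (g (F.symm^[j + 1] z))) :=
      Summable.of_norm_bounded hgeo fun j => hbs j z _
    rw [h1, hsumm.tsum_eq_zero_add]
    congr 1
    have h2 : A (S z) = (A : E →L[ℝ] E) (S z) := rfl
    rw [h2]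
    simp only [hS]
    rw [ContinuousLinearMap.map_tsum _ hsumm1]
    refine tsum_congr fun j => ?_
    rw [pow_succ']
    rfl
  have hUF : ∀ z, A (U z) = Pu (g z) + U (F z) := by
    intro z
    have hsumm1 : Summable fun j : ℕ => ((A.symm : E →L[ℝ] E) ^ (j + 1)) (Pu (g (F^[j] z))) :=
      Summable.of_norm_bounded hgeo1 fun j => hbu (j + 1) z _
    have hsumm : Summable fun j : ℕ => ((A.symm : E →L[ℝ] E) ^ j) (Pu (g (F^[j] z))) :=
      Summable.of_norm_bounded hgeo fun j => hbu j z _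
    have h2 : A (U z) = (A : E →L[ℝ] E) (U z) := rfl
    rw [h2]
    simp only [hU]
    rw [ContinuousLinearMap.map_tsum _ hsumm1]
    have h3 : (∑' j : ℕ, (A : E →L[ℝ] E) (((A.symm : E →L[ℝ] E) ^ (j + 1)) (Pu (g (F^[j] z)))))
        = ∑' j : ℕ, ((A.symm : E →L[ℝ] E) ^ j) (Pu (g (F^[j] z))) := by
      refine tsum_congr fun j => ?_
      rw [pow_succ']
      exact A.apply_symm_apply _
    rw [h3, hsumm.tsum_eq_zero_add]
    congr 1
  refine ⟨fun z => U z - S z, hUc.sub hSc, fun z => ?_⟩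
  show U (F z) - S (F z) = A (U z - S z) - g z
  rw [map_sub, hUF z, hSF z]
  have h5 := hsum (g z)
  have h6 : g z = Ps (g z) + Pu (g z) := h5.symm
  generalize Ps (g z) = a at *
  generalize Pu (g z) = b at *
  rw [h6]
  abel

lemma symm_mem {E : Type*} [NormedAddCommGroup E] [NormedSpace ℝ E] [FiniteDimensional ℝ E]
    (A : E ≃L[ℝ] E) (W : Submodule ℝ E) (h : ∀ v ∈ W, A v ∈ W) : ∀ v ∈ W, A.symm v ∈ W := by
  have h1 : W.map (A.toLinearEquiv : E →ₗ[ℝ] E) ≤ W := by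
    rintro _ ⟨v, hv, rfl⟩
    exact h v hv
  have h2 : W.map (A.toLinearEquiv : E →ₗ[ℝ] E) = W :=
    Submodule.eq_of_le_of_finrank_eq h1 (LinearEquiv.finrank_map_eq A.toLinearEquiv W)
  intro v hv
  rw [← h2] at hv
  obtain ⟨u, hu, rfl⟩ := hv
  have : A.symm ((A.toLinearEquiv : E →ₗ[ℝ] E) u) = u := A.symm_apply_apply u
  rw [this]
  exact hu

lemma symm_pow_mem {E : Type*} [NormedAddCommGroup E] [NormedSpace ℝ E] [FiniteDimensional ℝ E]
    (A : E ≃L[ℝ] E) (W : Submodule ℝ E) (h : ∀ v ∈ W, A v ∈ W) (n : ℕ) :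
    ∀ v ∈ W, ((A.symm : E →L[ℝ] E) ^ n) v ∈ W := by
  induction n with
  | zero => intro v hv; simpa using hv
  | succ n ih =>
    intro v hv
    rw [pow_succ]
    exact ih _ (symm_mem A W h v hv)

lemma pow_symm_pow {E : Type*} [NormedAddCommGroup E] [NormedSpace ℝ E]
    (A : E ≃L[ℝ] E) (n : ℕ) (v : E) :
    ((A : E →L[ℝ] E) ^ n) (((A.symm : E →L[ℝ] E) ^ n) v) = v := by
  induction n generalizing v with
  | zero => simp
  | succ n ih =>
    rw [pow_succ, pow_succ']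
    show ((A : E →L[ℝ] E) ^ n) (A (A.symm (((A.symm : E →L[ℝ] E) ^ n) v))) = v
    rw [A.apply_symm_apply]
    exact ih v

lemma projections {m : ℕ} (A : EE m ≃L[ℝ] EE m) (hA : HypLin (A : EE m →L[ℝ] EE m)) :
    ∃ (Ps Pu : EE m →L[ℝ] EE m) (C μ : ℝ), (∀ v, Ps v + Pu v = v) ∧ 0 ≤ C ∧ 0 < μ ∧ μ < 1 ∧
      (∀ v (n : ℕ), ‖((A : EE m →L[ℝ] EE m) ^ n) (Ps v)‖ ≤ C * μ ^ n * ‖v‖) ∧
      (∀ v (n : ℕ), ‖((A.symm : EE m →L[ℝ] EE m) ^ n) (Pu v)‖ ≤ C * μ ^ n * ‖v‖) := by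
  obtain ⟨Es, Eu, C, μ, hc, his, hiu, hC, hμ0, hμ1, hs, hu⟩ := hA.split
  set Ps : EE m →L[ℝ] EE m := LinearMap.toContinuousLinearMap (Es.projection Eu hc) with hPs
  set Pu : EE m →L[ℝ] EE m := LinearMap.toContinuousLinearMap (Eu.projection Es hc.symm) with hPu
  have hPsm : ∀ v, Ps v ∈ Es := fun v => Submodule.projection_apply_mem hc v
  have hPum : ∀ v, Pu v ∈ Eu := fun v => Submodule.projection_apply_mem hc.symm v
  refine ⟨Ps, Pu, C * (‖Ps‖ + ‖Pu‖), μ, ?_, by positivity, hμ0, hμ1, ?_, ?_⟩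
  · intro v
    exact Submodule.projection_add_projection_eq_self hc v
  · intro v n
    have hp : 0 < μ ^ n := pow_pos hμ0 n
    calc ‖((A : EE m →L[ℝ] EE m) ^ n) (Ps v)‖ ≤ C * μ ^ n * ‖Ps v‖ := hs _ (hPsm v) n
      _ ≤ C * μ ^ n * (‖Ps‖ * ‖v‖) := by
          refine mul_le_mul_of_nonneg_left (Ps.le_opNorm v) (by positivity)
      _ ≤ C * (‖Ps‖ + ‖Pu‖) * μ ^ n * ‖v‖ := by
          have h1 : 0 ≤ C * μ ^ n * (‖Pu‖ * ‖v‖) := by positivity
          nlinarith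
  · intro v n
    have hp : 0 < μ ^ n := pow_pos hμ0 n
    have h1 := hu _ (symm_pow_mem A Eu hiu n (Pu v) (hPum v)) n
    rw [pow_symm_pow] at h1
    refine h1.trans ?_
    calc C * μ ^ n * ‖Pu v‖ ≤ C * μ ^ n * (‖Pu‖ * ‖v‖) := by
          refine mul_le_mul_of_nonneg_left (Pu.le_opNorm v) (by positivity)
      _ ≤ C * (‖Ps‖ + ‖Pu‖) * μ ^ n * ‖v‖ := by
          have h1 : 0 ≤ C * μ ^ n * (‖Ps‖ * ‖v‖) := by positivity
          nlinarith

end XSemi

theorem prf_Semi : Semi.{u, v} := by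
  intro m N T _ _ _ _ e A φ f₁ F he hint hA hL
  obtain ⟨Ps, Pu, C, μ, hsum, hC, hμ0, hμ1, hs, hu⟩ := XSemi.projections A hA
  have hq : IsOpenQuotientMap (Prod.map (id : N → N) e) := by
    refine ⟨?_, continuous_id.prodMap he.cont, IsOpenMap.id.prodMap he.isOpenMap⟩
    exact surjective_id.prodMap he.surj
  have hwd : ∀ x v v', e v = e v' → φ x v = φ x v' := by
    intro x v v' h
    obtain ⟨k, rfl⟩ := (he.fibre v v').1 h
    rw [hL.per]
  set g : N × T → EE m := fun z => φ z.1 (surjInv he.surj z.2) with hg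
  have hgv : ∀ x v, g (x, e v) = φ x v := by
    intro x v
    exact hwd x _ _ (surjInv_eq he.surj (e v))
  have hgc : Continuous g := by
    rw [hq.isQuotientMap.continuous_iff]
    have : g ∘ Prod.map (id : N → N) e = uncurry φ := by
      funext z
      exact hgv z.1 z.2
    rw [this]
    exact hL.cont
  obtain ⟨B, hB⟩ := isCompact_univ.exists_bound_of_continuousOn (hgc.continuousOn (s := univ))
  obtain ⟨w, hwc, hw⟩ := XSemi.core F A Ps Pu hsum C μ hμ0 hμ1 hs hu hC g hgc B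
    (fun z => hB z (mem_univ z))
  refine ⟨fun x v => w (x, e v), ?_, ?_, ?_⟩
  · exact hwc.comp (continuous_fst.prodMk (he.cont.comp continuous_snd))
  · intro x v k
    have : e (v + iv k) = e v := ((he.fibre v (v + iv k)).2 ⟨k, rfl⟩).symm
    show w (x, e (v + iv k)) = w (x, e v)
    rw [this]
  · intro x v
    show w (f₁ x, e (A v + φ x v)) = A (w (x, e v)) - φ x v
    rw [← hL.eq x v, hw, hgv]

end Pool.Agent.OmegaFT
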