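import Pool.Agent.Work.MP_814647_an.FT.Stmts4
import Pool.Agent.Work.MP_814647_an.FT.I_Semi

/-!
# Item SemiB: the semiconjugacy of Franks in coordinates, with an affine drift
-/

open Set Filter Topology Function
open scoped Manifold ContDiff

noncomputable section

namespace Pool.Agent.OmegaFT

open Pool.Agent.OmegaStab (EE HypLin)

universe u v

theorem prf_SemiB : SemiB.{u, v} := by
  intro m N T _ _ _ _ e A b φ f₁ F he hint hA hL
  obtain ⟨Ps, Pu, C, μ, hsum, hC, hμ0, hμ1, hs, hu⟩ := XSemi.projections A hA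
  have hq : IsOpenQuotientMap (Prod.map (id : N → N) e) := by
    refine ⟨?_, continuous_id.prodMap he.cont, IsOpenMap.id.prodMap he.isOpenMap⟩
    exact surjective_id.prodMap he.surj
  have hwd : ∀ x v v', e v = e v' → φ x v = φ x v' := by
    intro x v v' h
    obtain ⟨k, rfl⟩ := (he.fibre v v').1 h
    rw [hL.per]
  set g : N × T → EE m := fun z => φ z.1 (surjInv he.surj z.2) with hg
  have hgv : ∀ x v, g (x, e v) = φ x v := by
    intro x v
    exact hwd x _ _ (surjInv_eq he.surj (e v))
  have hgc : Continuous g := by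
    rw [hq.isQuotientMap.continuous_iff]
    have : g ∘ Prod.map (id : N → N) e = uncurry φ := by
      funext z
      exact hgv z.1 z.2
    rw [this]
    exact hL.cont
  obtain ⟨B, hB⟩ := isCompact_univ.exists_bound_of_continuousOn (hgc.continuousOn (s := univ))
  obtain ⟨w, hwc, hw⟩ := XSemi.core F A Ps Pu hsum C μ hμ0 hμ1 hs hu hC g hgc B
    (fun z => hB z (mem_univ z))
  refine ⟨fun x v => w (x, e v), ?_, ?_, ?_⟩
  · exact hwc.comp (continuous_fst.prodMk (he.cont.comp continuous_snd))
  · intro x v k
    have : e (v + iv k) = e v := ((he.fibre v (v + iv k)).2 ⟨k, rfl⟩).symm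
    show w (x, e (v + iv k)) = w (x, e v)
    rw [this]
  · intro x v
    show w (f₁ x, e (A v + b x + φ x v)) = A (w (x, e v)) - φ x v
    rw [← hL.eq x v, hw, hgv]

end Pool.Agent.OmegaFT
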