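import Pool.Agent.Work.MP_814647_an.FT.Stmts2
import Pool.Agent.Work.MP_814647_an.Bd.B06

/-!
# Item SmallAtlas: an atlas whose perturbations have small supports
-/

open Set Filter Topology Function
open scoped Manifold ContDiff

noncomputable section

namespace Pool.Agent.OmegaFT

open Pool.Agent.OmegaStab (EE Dyn IsFam PP HypAt crTopology HypLin ConjClass)
open Pool.Agent.OmegaStab.FinHyp (der)
open Pool.Agent.OmegaPS
open Pool.Agent.OmegaStability

universe u v w x

namespace XSmallAtlas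

variable {d : ℕ} {N : Type*} [MetricSpace N] [ChartedSpace (EE d) N] {r : ℕ∞}
  [IsManifold (𝓡 d) ∞ N]

open Pool.Agent.OmegaStab in
theorem exists_fam3 (q : N) {δ : ℝ} (hδ : 0 < δ) :
    ∃ h : PP d → Dyn d N r, IsFam h ∧ IsFam (fun π => (h π).symm) ∧
      (∃ W ∈ 𝓝 q, ∀ᶠ π in 𝓝 (0 : PP d), ∀ x ∈ W,
        h π x ∈ (extChartAt (𝓡 d) q).source ∧
        extChartAt (𝓡 d) q (h π x) = extChartAt (𝓡 d) q x + π.1 +
          π.2 (extChartAt (𝓡 d) q x - extChartAt (𝓡 d) q q)) ∧
      ∀ᶠ π in 𝓝 (0 : PP d), ∀ z ∉ Metric.closedBall q δ, h π z = z := by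
  classical
  set a := extChartAt (𝓡 d) q q with ha
  have hT : (extChartAt (𝓡 d) q).target ∈ 𝓝 a :=
    (isOpen_extChartAt_target q).mem_nhds (mem_extChartAt_target q)
  have hsymm : (extChartAt (𝓡 d) q).symm ⁻¹' (Metric.ball q δ) ∈ 𝓝 a := by
    refine (continuousAt_extChartAt_symm q).preimage_mem_nhds ?_
    rw [extChartAt_to_inv]
    exact Metric.ball_mem_nhds q hδ
  obtain ⟨R, hR, hKt'⟩ := Metric.nhds_basis_closedBall.mem_iff.1 (Filter.inter_mem hT hsymm)
  have hKt : Metric.closedBall a R ⊆ (extChartAt (𝓡 d) q).target := fun x hx => (hKt' hx).1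
  obtain ⟨χ, hχi, hχo⟩ : ∃ χ : ContDiffBump a, χ.rIn = R / 2 ∧ χ.rOut = R :=
    ⟨⟨R / 2, R, by positivity, by linarith⟩, rfl, rfl⟩
  obtain ⟨C, hC⟩ := Fam.gg_lip χ
  -- the good parameters
  obtain ⟨U₀, hU₀d⟩ : ∃ U₀ : Set (PP d), U₀ = {π | C * ‖π‖₊ < 1} := ⟨_, rfl⟩
  have hU₀ : IsOpen U₀ := by
    rw [hU₀d]
    exact isOpen_lt (continuous_const.mul continuous_nnnorm) continuous_const
  have h0 : (0 : PP d) ∈ U₀ := by simp [hU₀d]
  have hgsm : ∀ π : PP d, ContDiff ℝ ∞ (Fam.gg χ π) := Fam.gg_contDiff' χ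
  have hinv : ∀ π : PP d, ∃ G : EE d → EE d, π ∈ U₀ → ContDiff ℝ ∞ G ∧
      (∀ x, G (x + Fam.gg χ π x) = x) ∧ ∀ x, G x + Fam.gg χ π (G x) = x := by
    intro π
    by_cases hπ : π ∈ U₀
    · obtain ⟨G, hG⟩ := Fam.exists_inv (by rwa [hU₀d] at hπ) (hC π) (hgsm π)
      exact ⟨G, fun _ => hG⟩
    · exact ⟨id, fun h => absurd h hπ⟩
  choose G hG using hinv
  have hg0 : ∀ π : PP d, ∀ x ∉ Metric.closedBall a R, Fam.gg χ π x = 0 := by
    intro π x hx
    have : χ x = 0 := by
      by_contra h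
      have h1 : x ∈ support χ := h
      rw [χ.support_eq, hχo] at h1
      exact hx (Metric.ball_subset_closedBall h1)
    simp [Fam.gg, this]
  have hle : ((r : ℕ∞) : ℕ∞ω) ≤ ∞ := by exact_mod_cast le_top
  have hexh : ∀ π : PP d, ∃ h : Dyn d N r,
      π ∈ U₀ → (∀ x, h x = Fam.T q (fun x => x + Fam.gg χ π x) x) ∧
        ∀ x, h.symm x = Fam.T q (G π) x := by
    intro π
    by_cases hπ : π ∈ U₀
    · have hs1 := Fam.supp_of (hg0 π) (hG π hπ).2.1 (hG π hπ).2.2
      have hs2 : ContDiff ℝ ∞ (fun x => x + Fam.gg χ π x) := contDiff_id.add (hgsm π)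
      refine ⟨Fam.TD (isCompact_closedBall a R) hKt
        (fun x => x + Fam.gg χ π x) (G π) hs1.1 hs1.2 (hs2.of_le hle)
        ((hG π hπ).1.of_le hle) (hG π hπ).2.2 (hG π hπ).2.1, fun _ => ⟨fun x => rfl, fun x => rfl⟩⟩
    · exact ⟨Diffeomorph.refl (𝓡 d) N r, fun h => absurd h hπ⟩
  choose h hhh using hexh
  have hh := fun π hπ => (hhh π hπ).1
  have hh' := fun π hπ => (hhh π hπ).2
  have hn : U₀ ∈ 𝓝 (0 : PP d) := hU₀.mem_nhds h0
  have hfam1 : h 0 = Diffeomorph.refl (𝓡 d) N r := by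
    ext x
    rw [hh 0 h0]
    have h1 : (fun x => x + Fam.gg χ (0 : PP d) x) = id := by
      funext x
      simp [Fam.gg]
    rw [h1]
    by_cases hx : x ∈ (extChartAt (𝓡 d) q).source
    · rw [Fam.T_of_mem hx]
      exact (extChartAt (𝓡 d) q).left_inv hx
    · exact Fam.T_of_notMem hx
  have hfam2 : ContMDiffOn (𝓘(ℝ, PP d).prod (𝓡 d)) (𝓡 d) r (fun q : PP d × N => h q.1 q.2)
      (U₀ ×ˢ univ) := by
    have h1 := Fam.T_contMDiffOn (r := r) (isCompact_closedBall a R) hKt hU₀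
      (H := fun π x => x + Fam.gg χ π x)
      (fun π hπ => (Fam.supp_of (hg0 π) (hG π hπ).2.1 (hG π hπ).2.2).1)
      (((contDiff_snd.add (Fam.gg_contDiff χ)).of_le hle).contDiffOn)
    refine h1.congr ?_
    rintro ⟨π, x⟩ ⟨hπ, -⟩
    exact hh π hπ x
  have hfam3 : ContMDiffOn (𝓘(ℝ, PP d).prod (𝓡 d)) (𝓡 d) r
      (fun q : PP d × N => (h q.1).symm q.2) (U₀ ×ˢ univ) := by
    have hGs : ContDiffOn ℝ ∞ (fun p : PP d × EE d => G p.1 p.2) (U₀ ×ˢ univ) := by
      rw [hU₀d]
      refine Fam2.inv_smooth hC fun π hπ => (hG π ?_).2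
      rw [hU₀d]
      exact hπ
    have h1 := Fam.T_contMDiffOn (r := r) (isCompact_closedBall a R) hKt hU₀
      (H := G) (fun π hπ => (Fam.supp_of (hg0 π) (hG π hπ).2.1 (hG π hπ).2.2).2)
      (hGs.of_le hle)
    refine h1.congr ?_
    rintro ⟨π, x⟩ ⟨hπ, -⟩
    exact hh' π hπ x
  have hfam : IsFam h := ⟨hfam1, U₀, hn, hfam2⟩
  have hfam' : IsFam (fun π => (h π).symm) := by
    refine ⟨?_, U₀, hn, hfam3⟩
    simp only
    rw [hfam1]
    rfl
  refine ⟨h, hfam, hfam', ?_, ?_⟩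
  · refine ⟨(extChartAt (𝓡 d) q).source ∩ extChartAt (𝓡 d) q ⁻¹' (Metric.ball a (R / 2)), ?_, ?_⟩
    · refine Filter.inter_mem (extChartAt_source_mem_nhds q) ?_
      exact (continuousAt_extChartAt q).preimage_mem_nhds
        (Metric.ball_mem_nhds _ (by positivity))
    · filter_upwards [hU₀.mem_nhds h0] with π hπ x hx
      have h1 := (Fam.supp_of (hg0 π) (hG π hπ).2.1 (hG π hπ).2.2).1.mapsTo_target hKt
        ((extChartAt (𝓡 d) q).map_source hx.1)
      rw [hh π hπ, Fam.T_of_mem hx.1]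
      have h3 := (extChartAt (𝓡 d) q).map_target h1
      have h4 := (extChartAt (𝓡 d) q).right_inv h1
      constructor
      · exact h3
      rw [h4]
      have h2 : χ (extChartAt (𝓡 d) q x) = 1 :=
        χ.one_of_mem_closedBall (by rw [hχi]; exact Metric.ball_subset_closedBall hx.2)
      simp only [Fam.gg, h2, one_smul]
      rw [add_assoc]
  · filter_upwards [hU₀.mem_nhds h0] with π hπ z hz
    rw [hh π hπ]
    by_cases hzs : z ∈ (extChartAt (𝓡 d) q).source
    · rw [Fam.T_of_mem hzs]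
      have h5 : extChartAt (𝓡 d) q z ∉ Metric.closedBall a R := by
        intro h6
        have h7 := (hKt' h6).2
        rw [mem_preimage, (extChartAt (𝓡 d) q).left_inv hzs] at h7
        exact hz (Metric.ball_subset_closedBall h7)
      have h8 : extChartAt (𝓡 d) q z + Fam.gg χ π (extChartAt (𝓡 d) q z) =
          extChartAt (𝓡 d) q z := by
        rw [hg0 π _ h5, add_zero]
      show (extChartAt (𝓡 d) q).symm
        (extChartAt (𝓡 d) q z + Fam.gg χ π (extChartAt (𝓡 d) q z)) = z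
      rw [h8]
      exact (extChartAt (𝓡 d) q).left_inv hzs
    · exact Fam.T_of_notMem hzs

end XSmallAtlas

open XSmallAtlas in
theorem prf_SmallAtlas : SmallAtlas.{u} := by
  intro d N _ _ _ _ r δ hδ
  classical
  choose h hf hf' hex2 hsupp using
    fun q : N => exists_fam3 (d := d) (r := r) q (half_pos hδ)
  choose W hW haff using hex2
  have hex : ∀ q : N, ∃ ρ : ℝ, 0 < ρ ∧
      Metric.closedBall q ρ ⊆ (extChartAt (𝓡 d) q).source ∩ W q := by
    intro q
    exact Metric.nhds_basis_closedBall.mem_iff.1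
      (Filter.inter_mem (extChartAt_source_mem_nhds q) (hW q))
  choose ρ hρ hρW using hex
  obtain ⟨t, -, ht⟩ := isCompact_univ.elim_nhds_subcover (fun q : N => Metric.ball q (ρ q))
    (fun q _ => Metric.ball_mem_nhds q (hρ q))
  refine ⟨{
    J := Fin t.card
    fin := inferInstance
    ctr := fun j => (t.equivFin.symm j : N)
    W := fun j => Metric.ball (t.equivFin.symm j : N) (ρ (t.equivFin.symm j : N))
    isOpen_W := fun j => Metric.isOpen_ball
    closure_W := fun j => Metric.closure_ball_subset_closedBall.trans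
      ((hρW _).trans inter_subset_left)
    cover := fun z => by
      have hz := ht (mem_univ z)
      rw [mem_iUnion₂] at hz
      obtain ⟨q, hq, hz⟩ := hz
      refine ⟨t.equivFin ⟨q, hq⟩, ?_⟩
      rw [Equiv.symm_apply_apply]
      exact hz
    h := fun j => h (t.equivFin.symm j : N)
    isFam := fun j => hf _
    isFam' := fun j => hf' _
    affine := fun j => by
      filter_upwards [haff (t.equivFin.symm j : N)] with π hπ z hz
      exact hπ z (hρW _ (Metric.ball_subset_closedBall hz)).2 },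
    fun j => Metric.closedBall (t.equivFin.symm j : N) (δ / 2), ?_, ?_, ?_, ?_⟩
  · intro j
    exact Metric.isClosed_closedBall
  · intro j
    exact Metric.mem_closedBall_self (half_pos hδ).le
  · intro j x hx y hy
    have h1 : dist x (t.equivFin.symm j : N) ≤ δ / 2 := hx
    have h2 : dist y (t.equivFin.symm j : N) ≤ δ / 2 := hy
    have h3 := dist_triangle_right x y (t.equivFin.symm j : N)
    linarith
  · intro j
    exact hsupp (t.equivFin.symm j : N)

end Pool.Agent.OmegaFT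

end
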