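import Pool.Agent.Work.MP_814647_an.FT.Stmts2

/-!
# Fibred tori: the diffeomorphisms of a family move points little
-/

open Set Filter Topology Function
open scoped Manifold ContDiff

noncomputable section

namespace Pool.Agent.OmegaFT

open Pool.Agent.OmegaStab (EE Dyn IsFam PP)

universe u

namespace XSmallMove

variable {d : ℕ} {M : Type*} [MetricSpace M] [ChartedSpace (EE d) M] {r : ℕ∞}
variable {V : Type*} [NormedAddCommGroup V] [NormedSpace ℝ V]

theorem dist_tendsto {h : V → Dyn d M r} (hh : IsFam h) (x : M) :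
    Tendsto (fun q : V × M => dist (h q.1 q.2) q.2) (𝓝 (0, x)) (𝓝 0) := by
  obtain ⟨h0, U, hU, hs⟩ := hh
  have h1 : ContinuousAt (fun q : V × M => h q.1 q.2) (0, x) :=
    (hs.contMDiffAt (prod_mem_nhds hU univ_mem)).continuousAt
  have h2 : ContinuousAt (fun q : V × M => dist (h q.1 q.2) q.2) (0, x) :=
    h1.dist continuous_snd.continuousAt
  have h3 : dist (h (0 : V) x) x = 0 := by
    rw [h0]
    exact dist_self x
  have h4 : Tendsto (fun q : V × M => dist (h q.1 q.2) q.2) (𝓝 (0, x)) (𝓝 (dist (h (0 : V) x) x)) :=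
    h2
  rwa [h3] at h4

end XSmallMove

theorem prf_SmallMove : SmallMove.{u} := by
  intro d N _ _ _ _ r h hh ε hε
  have h1 : ∀ᶠ π in 𝓝 (0 : PP d), ∀ z ∈ (univ : Set N), dist (h π z) z < ε := by
    refine isCompact_univ.eventually_forall_of_forall_eventually
      (P := fun π z => dist (h π z) z < ε) ?_
    intro x _
    exact (XSmallMove.dist_tendsto hh x).eventually (gt_mem_nhds hε)
  obtain ⟨c, hc, hb⟩ := Metric.eventually_nhds_iff.1 h1
  refine ⟨c / 2, half_pos hc, fun π hπ z => ?_⟩
  refine (hb ?_ z (mem_univ z)).le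
  rw [dist_zero_right]
  linarith

end Pool.Agent.OmegaFT
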