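import Pool.Agent.Work.MP_814647_an.FT.Stmts5
import Pool.Agent.Work.MP_814647_an.Bd.B06

/-!
# MP_814647_an, fibred tori, item StarFibB: closed words are hyperbolic, affine switch (helper9)
-/

open Set Filter Topology Function
open scoped Manifold ContDiff

noncomputable section

namespace Pool.Agent.OmegaFT

open Pool.Agent.OmegaStab (EE Dyn IsFam PP HypAt crTopology HypLin ConjClass)
open Pool.Agent.OmegaStab.FinHyp (der)
open Pool.Agent.OmegaPS
open Pool.Agent.OmegaStability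

universe u v w x

namespace XStarFibB

/-- A positive lower bound of finitely many positive numbers. -/
theorem exists_lb {J : Type*} [Finite J] (c : J → ℝ) (hc : ∀ j, 0 < c j) :
    ∃ c₁ : ℝ, 0 < c₁ ∧ ∀ j, c₁ ≤ c j := by
  have h1 : ∀ᶠ a in 𝓝[>] (0 : ℝ), ∀ j, a ≤ c j := by
    refine Filter.eventually_all.2 fun j => ?_
    filter_upwards [Ioo_mem_nhdsGT (hc j)] with a ha
    exact ha.2.le
  obtain ⟨a, ha, ha'⟩ := (h1.and self_mem_nhdsWithin).exists
  exact ⟨a, ha', ha⟩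

/-- A neighbourhood of a closed subset of a compact space contains a uniform one. -/
theorem exists_rad {Y : Type*} [MetricSpace Y] [CompactSpace Y] {D U : Set Y} (hD : IsClosed D)
    (hU : IsOpen U) (h : D ⊆ U) : ∃ ε : ℝ, 0 < ε ∧ ∀ y ∈ D, ∀ z, dist z y ≤ ε → z ∈ U := by
  obtain ⟨ε, hε, hsub⟩ := hD.isCompact.exists_cthickening_subset_open hU h
  refine ⟨ε, hε, fun y hy z hz => hsub ?_⟩
  exact Metric.mem_cthickening_of_dist_le z y ε D hy hz

theorem iter_conj {M Z : Type*} (Φ : M ≃ Z) (f : M → M) (t : ℕ) (z : Z) :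
    (fun z => Φ (f (Φ.symm z)))^[t] z = Φ (f^[t] (Φ.symm z)) := by
  induction t with
  | zero => simp
  | succ t ih => rw [iterate_succ_apply', ih, iterate_succ_apply', Φ.symm_apply_apply]

/-- A linear map with a hyperbolic power is hyperbolic. -/
theorem hyp_of_pow {V : Type*} [NormedAddCommGroup V] [InnerProductSpace ℝ V] {R : V ≃L[ℝ] V}
    {Q : ℕ} (h : Hyp (R ^ Q)) : Hyp R := by
  intro θ v w hv hw
  have hv' : R v = Real.cos θ • v - Real.sin θ • w := hv
  have hw' : R w = Real.sin θ • v + Real.cos θ • w := hw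
  have key : ∀ n : ℕ, (R ^ n) v = Real.cos (n * θ) • v - Real.sin (n * θ) • w ∧
      (R ^ n) w = Real.sin (n * θ) • v + Real.cos (n * θ) • w := by
    intro n
    induction n with
    | zero =>
      rw [Nat.cast_zero, zero_mul, Real.cos_zero, Real.sin_zero, pow_zero, one_smul, zero_smul,
        zero_smul, sub_zero, one_smul, zero_add]
      exact ⟨rfl, rfl⟩
    | succ n ih =>
      have e1 : ∀ z : V, (R ^ (n + 1)) z = (R ^ n) (R z) := by
        intro z
        rw [pow_succ]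
        rfl
      have e2 : ((n + 1 : ℕ) : ℝ) * θ = n * θ + θ := by push_cast; ring
      rw [e1, e1, hv', hw', e2, Real.cos_add, Real.sin_add, map_sub, map_add, map_smul, map_smul,
        map_smul, map_smul, ih.1, ih.2]
      constructor
      · module
      · module
  exact h (Q * θ) v w (key Q).1 (key Q).2

open GeoBasic in
/-- The products along a periodic sequence. -/
theorem PPr_mul {X V : Type*} [NormedAddCommGroup V] [InnerProductSpace ℝ V] (S : Sys X V)
    {ι : Type*} (τ : ι → Trans X V) (s : ℕ → ι) (l : ℕ → ℕ) (p : ℕ) (hs : ∀ q, s (q + p) = s q)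
    (hl : ∀ q, l (q + p) = l q) (Q : ℕ) : PPr S τ s l (Q * p) = PPr S τ s l p ^ Q := by
  have hs' : (fun t => s (p + t)) = s := by
    funext t
    rw [Nat.add_comm, hs]
  have hl' : (fun t => l (p + t)) = l := by
    funext t
    rw [Nat.add_comm, hl]
  induction Q with
  | zero =>
    rw [Nat.zero_mul, pow_zero]
    rfl
  | succ Q ih =>
    have e1 : (Q + 1) * p = p + Q * p := by ring
    rw [e1, PPr_add, hs', hl', ih, pow_succ]

end XStarFibB

open XStarFibB GeoBasic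

theorem prf_StarFibB (h1 : SmallMove.{u}) (h2 : PertFib.{u, v, w, max u v})
    (h3 : CoreFib.{u, v, w, max u v}) : StarFibB.{u, v, w} := by
  classical
  intro d₁ d₂ d N T M _ _ _ _ _ _ _ _ _ _ _ _ r hr Φ f f₁ hf θ B hθ hST hsw 𝒩 h𝒩 hf𝒩
    hhyp k
  obtain ⟨m, D, E, δ₀, hm, hδ₀, hDc, hEc, hDD, hDE, hreal⟩ := hsw k
  obtain ⟨At, U, UE, c₀, hU, hUE, hEU, hc₀, hpert⟩ :=
    h2 d₁ d₂ d N T M (N × T) r Φ f θ hθ 𝒩 h𝒩 hf𝒩 k D E hDc hEc hDD hDE
  have hfinJ := At.fin
  -- the radius in `N × T`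
  have hDr := fun i => exists_rad (hDc i) (hU i).1 (hU i).2
  choose εD hεD hεD' using hDr
  obtain ⟨εE, hεE, hεE'⟩ := exists_rad hEc hUE hEU
  obtain ⟨εm, hεm, hεm'⟩ := exists_lb εD hεD
  obtain ⟨δ₁, hδ₁, htrack⟩ := hST (min εm εE) (lt_min hεm hεE)
  -- the size of the perturbations
  have hsm : ∀ j : At.J, ∃ c > 0, ∀ π, ‖π‖ ≤ c → ∀ z, dist (At.h j π z) z ≤ min δ₀ δ₁ :=
    fun j => h1 d₁ N r (At.h j) (At.isFam j) (min δ₀ δ₁) (lt_min hδ₀ hδ₁)
  choose cJ hcJ hcJ' using hsm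
  obtain ⟨c₁, hc₁, hc₁'⟩ := exists_lb cJ hcJ
  obtain ⟨ε₀, hε₀, hrealise⟩ := realise hr At (lt_min hc₀ hc₁)
  refine ⟨At, ε₀, m, hε₀, hm, ?_⟩
  intro ε hε G ι _ hcard τ hτ i n M' hpath
  obtain ⟨emb⟩ : Nonempty (ι ↪ Fin k) :=
    Function.Embedding.nonempty_of_card_le (by rwa [Fintype.card_fin])
  have hch : ∀ a : ι, ∃ (j : At.J) (π : PP d₁), ‖π‖ ≤ min c₀ c₁ ∧
      At.h j π (τ a).src = (τ a).tgt ∧ ∀ v, (τ a).mat (G.frame (τ a).src v) =
        G.frame (τ a).tgt (der (d := d₁) (At.h j π) (τ a).src v) :=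
    fun a => hrealise ε hε f₁ G _ _ _ (hτ a)
  choose jj ππ hπ hmap hder using hch
  set J' : Fin k → At.J := Function.extend emb jj (fun _ => jj i) with hJ'
  set qq' : Fin k → PP d₁ := Function.extend emb ππ (fun _ => 0) with hqdef
  have hJe : ∀ a, J' (emb a) = jj a := fun a => emb.injective.extend_apply _ _ _
  have hqe : ∀ a, qq' (emb a) = ππ a := fun a => emb.injective.extend_apply _ _ _
  have hq0' : ∀ c, ‖qq' c‖ ≤ c₀ := by
    intro c
    by_cases hc : ∃ a, emb a = c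
    · obtain ⟨a, rfl⟩ := hc
      rw [hqe]
      exact (hπ a).trans (min_le_left _ _)
    · rw [hqdef, Function.extend_apply' _ _ _ hc, norm_zero]
      exact hc₀.le
  obtain ⟨g, hg𝒩, hgE, hgU⟩ := hpert J' qq' hq0'
  obtain ⟨p, s, l, P, hp, hs0, hsp, hl, hn, hP0, hPs, hPp⟩ := path_seq G.S hpath
  have hsp0 : s p = s 0 := by rw [hsp, hs0]
  -- the periodic extension
  obtain ⟨s', hs'⟩ : ∃ s' : ℕ → ι, ∀ q, s' q = s (q % p) := ⟨_, fun _ => rfl⟩
  obtain ⟨l', hl'⟩ : ∃ l' : ℕ → ℕ, ∀ q, l' q = l (q % p) := ⟨_, fun _ => rfl⟩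
  have hs'p : ∀ q, s' (q + p) = s' q := fun q => by rw [hs', hs', Nat.add_mod_right]
  have hl'p : ∀ q, l' (q + p) = l' q := fun q => by rw [hl', hl', Nat.add_mod_right]
  have hs's : ∀ q ≤ p, s' q = s q := by
    intro q hq
    rcases Nat.lt_or_ge q p with h | h
    · rw [hs', Nat.mod_eq_of_lt h]
    · have e1 : q = p := le_antisymm hq h
      rw [hs', e1, Nat.mod_self, hsp0]
  have hl'l : ∀ q < p, l' q = l q := fun q hq => by rw [hl', Nat.mod_eq_of_lt hq]
  have hstage : ∀ q, m ≤ l' q ∧ (G.S.f ^ l' q) (τ (s' q)).tgt = (τ (s' (q + 1))).src := by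
    intro q
    have e1 := hl (q % p) (Nat.mod_lt _ hp)
    have e2 : s' (q + 1) = s (q % p + 1) := by
      rw [← hs's (q % p + 1) (Nat.mod_lt _ hp), hs', hs' (q % p + 1), Nat.mod_add_mod]
    rw [e2, hl', hs']
    exact e1
  have hdist : ∀ q, dist (f₁^[l' q] (τ (s' q)).tgt) (τ (s' (q + 1))).tgt ≤ min δ₀ δ₁ := by
    intro q
    have e1 : f₁^[l' q] (τ (s' q)).tgt = (τ (s' (q + 1))).src := by
      rw [← (hstage q).2, G.pow_eq]
    have e2 := hcJ' (jj (s' (q + 1))) (ππ (s' (q + 1)))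
      ((hπ _).trans ((min_le_right _ _).trans (hc₁' _))) (τ (s' (q + 1))).src
    rw [hmap] at e2
    rw [e1, dist_comm]
    exact e2
  obtain ⟨Q, η, hQ, hηp, hη⟩ := hreal p (fun q => emb (s' q)) l' (fun q => (τ (s' q)).tgt) hp
    (fun q => by simp only [hs'p]) hl'p (fun q => by simp only [hs'p]) (fun q => (hstage q).1)
    (fun q => (hdist q).trans (min_le_left _ _))
  have hQp : 0 < Q * p := Nat.mul_pos hQ hp
  have hsQ : s' (Q * p) = s' 0 := by rw [hs', hs', Nat.mul_mod_left, Nat.zero_mod]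
  obtain ⟨y, hyp, hy⟩ := htrack (Q * p) l' (fun q => (τ (s' q)).tgt) η hQp
    (by simp only [hsQ]) hηp (fun q hq => ⟨hm.trans (hstage q).1,
      (hdist q).trans (min_le_right _ _), (hη q hq).1⟩)
  have hiter : ∀ (t : ℕ) (z : N × T), (fun z => Φ (f (Φ.symm z)))^[t] z = Φ (f^[t] (Φ.symm z)) :=
    fun t z => iter_conj Φ.toEquiv f t z
  have hPP : ∀ q ≤ p, P q = PPr G.S τ s' l' q := by
    intro q
    induction q with
    | zero => intro _; exact hP0
    | succ q ih =>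
      intro hq
      rw [hPs q (by omega), ih (by omega), ← hs's (q + 1) hq, ← hs's q (by omega),
        ← hl'l q (by omega)]
      rfl
  rw [hPp, hPP p le_rfl]
  refine hyp_of_pow (Q := Q) ?_
  rw [← PPr_mul G.S τ s' l' p hs'p hl'p Q]
  refine h3 d₁ d₂ d N T M (N × T) r hr Φ f f₁ hf θ hθ g (hhyp g hg𝒩) At ε G ι k emb U UE
    (fun i => (hU i).1) hUE τ jj ππ hmap hder hgE ?_ (Q * p) s' l' (PPr G.S τ s' l') hQp hsQ
    (fun q _ => ⟨hm.trans (hstage q).1, (hstage q).2⟩) rfl (fun q _ => rfl) y hyp ?_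
  · intro a z hz
    have := hgU (emb a) z hz
    rw [hJe, hqe] at this
    exact this
  · intro q hq
    obtain ⟨e1, e2⟩ := hy q hq
    have hl1 : 1 ≤ l' q := hm.trans (hstage q).1
    refine ⟨?_, ?_, ?_⟩
    · rw [← hiter]
      exact e1
    · have e3 := e2 (l' q) hl1 le_rfl
      rw [hiter] at e3
      exact hεD' _ _ (hη q hq).2.1 _ (e3.trans ((min_le_left _ _).trans (hεm' _)))
    · intro t ht0 ht
      have e3 := e2 t ht0 ht.le
      rw [hiter] at e3
      exact hεE' _ ((hη q hq).2.2 t ht0 ht) _ (e3.trans (min_le_right _ _))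

end Pool.Agent.OmegaFT
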