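import Pool.Agent.Work.MP_814647_an.FT.I_FibClosed

/-!
# Item TrackTorus: realisation and location over pseudo-orbits of the base
-/

open Set Filter Topology Function
open scoped Manifold ContDiff

noncomputable section

namespace Pool.Agent.OmegaFT

open Pool.Agent.OmegaStab (EE HypLin)

universe u v

namespace XTrackTorus

open XFibClosed (iv_zero iv_add iv_neg e_add exists_rep e_unif phi_unif)

/-- a bound of a periodic continuous map -/
theorem phi_bdd {m : ℕ} {N T : Type*} [TopologicalSpace N] [CompactSpace N] [TopologicalSpace T]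
    [CompactSpace T] {e : EE m → T} (he : TopTorus e) (φ : N → EE m → EE m)
    (hc : Continuous (uncurry φ)) (hp : ∀ x v k, φ x (v + iv k) = φ x v) :
    ∃ B : ℝ, 0 ≤ B ∧ ∀ x v, ‖φ x v‖ ≤ B := by
  obtain ⟨R, hR⟩ := exists_rep he
  have hK : IsCompact ((univ : Set N) ×ˢ Metric.closedBall (0 : EE m) R) :=
    isCompact_univ.prod (isCompact_closedBall _ _)
  obtain ⟨B, hB⟩ := hK.exists_bound_of_continuousOn hc.continuousOn
  refine ⟨max B 0, le_max_right _ _, fun x v => ?_⟩
  obtain ⟨k, hk⟩ := hR v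
  rw [← hp x v k]
  exact (hB (x, v + iv k) ⟨mem_univ _, by rwa [mem_closedBall_zero_iff]⟩).trans (le_max_left _ _)

/-- the map with the lift `v ↦ v + w x v` -/
theorem exists_theta {m : ℕ} {N T : Type*} [TopologicalSpace N] [TopologicalSpace T]
    {e : EE m → T} (he : TopTorus e) (w : N → EE m → EE m)
    (hc : Continuous (uncurry w)) (hp : ∀ x v k, w x (v + iv k) = w x v) :
    ∃ θ : N × T → T, Continuous θ ∧ ∀ x v, θ (x, e v) = e (v + w x v) := by
  obtain ⟨σ, hσ⟩ : ∃ σ : T → EE m, ∀ y, e (σ y) = y :=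
    ⟨surjInv he.surj, surjInv_eq he.surj⟩
  have hθ : ∀ x v, e (σ (e v) + w x (σ (e v))) = e (v + w x v) := by
    intro x v
    obtain ⟨k, hk⟩ := (he.fibre (σ (e v)) v).1 (hσ _)
    generalize σ (e v) = s at hk ⊢
    subst hk
    rw [hp]
    have : s + iv k + w x s = s + w x s + iv k := by abel
    rw [this, e_add he]
  refine ⟨fun z => e (σ z.2 + w z.1 (σ z.2)), ?_, hθ⟩
  have hq : IsOpenQuotientMap (Prod.map id e : N × EE m → N × T) :=
    ⟨surjective_id.prodMap he.surj, continuous_id.prodMap he.cont,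
      IsOpenMap.id.prodMap he.isOpenMap⟩
  rw [hq.isQuotientMap.continuous_iff]
  have h1 : (fun z : N × T => e (σ z.2 + w z.1 (σ z.2))) ∘ (Prod.map id e : N × EE m → N × T) =
      fun z : N × EE m => e (z.2 + w z.1 z.2) := by
    ext ⟨x, v⟩
    exact hθ x v
  rw [h1]
  exact he.cont.comp (continuous_snd.add hc)

end XTrackTorus

open XFibClosed XTrackTorus in
theorem prf_TrackTorus (h1 : PerSolve) (h2 : PerBound) : TrackTorus.{u, v} := by
  intro m N T _ _ _ _ e A φ w f₁ F B he hI hH hL hB hwc hwp hwe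
  obtain ⟨θ, hθc, hθ⟩ := exists_theta he w hwc hwp
  refine ⟨θ, hθc, fun ε hε => ?_⟩
  obtain ⟨C, hC, hPB⟩ := h2 m A hH
  obtain ⟨B₀, hB₀, hφ⟩ := phi_bdd he φ hL.cont hL.per
  obtain ⟨ρ, hρ, hu⟩ := e_unif he ε hε
  set a : ℝ := ‖(A : EE m →L[ℝ] EE m)‖ with ha
  have ha0 : 0 ≤ a := norm_nonneg _
  have hρ' : 0 < ρ / (C * (a + 1)) := by positivity
  obtain ⟨δ, hδ, hw⟩ := phi_unif he w hwc hwp _ hρ'
  refine ⟨δ, hδ, ?_⟩
  intro n X η hn hX hη hjump horb
  -- the lifts
  obtain ⟨η', hη'0, hη'⟩ : ∃ η' : ℕ → EE m, η' n = η' 0 ∧ ∀ t ≤ n, e (η' t) = η t := by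
    choose s hs using he.surj
    refine ⟨fun t => if t = n then s (η 0) else s (η t), ?_, fun t ht => ?_⟩
    · simp only [if_true, if_neg hn.ne]
    · by_cases h : t = n
      · simp only [h, if_true]
        rw [hs, hη]
      · simp only [h, if_false]
        rw [hs]
  have hk : ∀ t, t < n → ∃ k : Fin m → ℤ, η' (t + 1) = A (η' t) + iv k := by
    intro t ht
    refine (he.fibre _ _).1 ?_
    rw [← hB, hη' t ht.le, horb t ht, hη' (t + 1) ht]
  choose! k hk using hk
  -- the periodic orbit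
  obtain ⟨z, hz0, hzb, hz⟩ := h1 m n (fun _ => (A : EE m →L[ℝ] EE m)) C (C * B₀) hn hC
    (by positivity) (fun z b hz h => hPB n z b hn hz h) (fun t z => φ (X t) (η' t + z))
    (fun t => by
      have hc : Continuous fun z : EE m => (X t, η' t + z) := by fun_prop
      exact (hL.cont.comp hc).continuousOn)
    (fun t _ z _ => mul_le_mul_of_nonneg_left (hφ _ _) hC.le)
  have hv : ∀ t < n, η' (t + 1) + z (t + 1) =
      A (η' t + z t) + φ (X t) (η' t + z t) + iv (k t) := by
    intro t ht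
    have e1 : z (t + 1) = A (z t) + φ (X t) (η' t + z t) := hz t ht
    rw [e1, hk t ht, map_add]
    abel
  have hq : ∀ t ≤ n, ‖z t + w (X t) (η' t + z t)‖ ≤ C * (ρ / (C * (a + 1))) := by
    refine hPB n (fun t => z t + w (X t) (η' t + z t)) _ hn ?_ ?_
    · simp only [hz0, hX, hη'0]
    · intro t ht
      have e1 : z (t + 1) = A (z t) + φ (X t) (η' t + z t) := hz t ht
      have e2 := hwe (X t) (η' t + z t)
      have e3 : w (f₁ (X t)) (η' (t + 1) + z (t + 1)) =
          w (f₁ (X t)) (A (η' t + z t) + φ (X t) (η' t + z t)) := by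
        rw [hv t ht, hwp]
      have e4 : z (t + 1) + w (X (t + 1)) (η' (t + 1) + z (t + 1)) -
          (A : EE m →L[ℝ] EE m) (z t + w (X t) (η' t + z t)) =
          w (X (t + 1)) (η' (t + 1) + z (t + 1)) - w (f₁ (X t)) (η' (t + 1) + z (t + 1)) := by
        rw [e3, e2]
        have e5 : (A : EE m →L[ℝ] EE m) (z t + w (X t) (η' t + z t)) =
          A (z t) + A (w (X t) (η' t + z t)) := map_add A _ _
        rw [e5]
        generalize w (X (t + 1)) (η' (t + 1) + z (t + 1)) = s1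
        rw [e1]
        abel
      show ‖z (t + 1) + w (X (t + 1)) (η' (t + 1) + z (t + 1)) -
          (A : EE m →L[ℝ] EE m) (z t + w (X t) (η' t + z t))‖ ≤ _
      rw [e4]
      refine hw _ _ ?_ _
      rw [dist_comm]
      exact hjump t ht
  refine ⟨fun t => e (η' t + z t), by simp only [hη'0, hz0], fun t ht => ⟨?_, ?_⟩⟩
  · show (F (X t, e (η' t + z t))).2 = e (η' (t + 1) + z (t + 1))
    rw [hL.eq, hv t ht, e_add he]
  · show dist (θ (F (X t, e (η' t + z t)))) (η (t + 1)) ≤ ε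
    rw [hL.eq, hθ, hwe, ← hη' (t + 1) ht, hk t ht, e_add he]
    have e1 : A (η' t + z t) + φ (X t) (η' t + z t) +
        (A (w (X t) (η' t + z t)) - φ (X t) (η' t + z t)) =
        A (η' t) + A (z t + w (X t) (η' t + z t)) := by
      rw [map_add, map_add]
      abel
    rw [e1]
    refine hu _ _ ?_
    have e2 : ‖A (z t + w (X t) (η' t + z t))‖ ≤ a * ‖z t + w (X t) (η' t + z t)‖ :=
      (A : EE m →L[ℝ] EE m).le_opNorm _
    have e3 : a * ‖z t + w (X t) (η' t + z t)‖ ≤ a * (C * (ρ / (C * (a + 1)))) :=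
      mul_le_mul_of_nonneg_left (hq t ht.le) ha0
    have e4 : a * (C * (ρ / (C * (a + 1)))) = ρ * (a / (a + 1)) := by
      field_simp
    have e5 : a / (a + 1) ≤ 1 := by
      rw [div_le_one (by positivity)]
      linarith
    have e6 : ρ * (a / (a + 1)) ≤ ρ * 1 := mul_le_mul_of_nonneg_left e5 hρ.le
    linarith

end Pool.Agent.OmegaFT
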