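import Pool.Agent.Work.MP_814647_an.FT.Stmts4
import Pool.Agent.Work.MP_814647_an.FT.I_TrackTorus

/-!
# Item TrackTorusB: realisation and location over pseudo-orbits of the base, affine cocycles
-/

open Set Filter Topology Function
open scoped Manifold ContDiff

noncomputable section

namespace Pool.Agent.OmegaFT

open Pool.Agent.OmegaStab (EE HypLin)

universe u v

namespace XTrackTorusB

/-- distance of two points with the same base point -/
theorem dist_fibre {N T : Type*} [MetricSpace N] [MetricSpace T] (x : N) (y y' : T) :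
    dist (x, y) (x, y') = dist y y' := by
  rw [Prod.dist_eq, dist_self]
  exact max_eq_right dist_nonneg

end XTrackTorusB

open XFibClosed XTrackTorus XTrackTorusB in
theorem prf_TrackTorusB (h1 : PerSolve) (h2 : PerBound) : TrackTorusB.{u, v} := by
  intro m N T _ _ _ _ e A b φ w f₁ F B he hI hH hL hB hwc hwp hwe
  obtain ⟨θ, hθc, hθ⟩ := exists_theta he w hwc hwp
  refine ⟨fun z => (z.1, θ z), continuous_fst.prodMk hθc, fun z => rfl, fun ε hε => ?_⟩
  obtain ⟨C, hC, hPB⟩ := h2 m A hH
  obtain ⟨B₀, hB₀, hφ⟩ := phi_bdd he φ hL.cont hL.per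
  obtain ⟨ρ, hρ, hu⟩ := e_unif he ε hε
  set a : ℝ := ‖(A : EE m →L[ℝ] EE m)‖ with ha
  have ha0 : 0 ≤ a := norm_nonneg _
  have hρ' : 0 < ρ / (C * (a + 1)) := by positivity
  obtain ⟨δ, hδ, hw⟩ := phi_unif he w hwc hwp _ hρ'
  refine ⟨δ, hδ, ?_⟩
  intro n X η hn hX hη hjump horb
  -- the lifts
  obtain ⟨η', hη'0, hη'⟩ : ∃ η' : ℕ → EE m, η' n = η' 0 ∧ ∀ t ≤ n, e (η' t) = η t := by
    choose s hs using he.surj
    refine ⟨fun t => if t = n then s (η 0) else s (η t), ?_, fun t ht => ?_⟩
    · simp only [if_true, if_neg hn.ne]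
    · by_cases h : t = n
      · simp only [h, if_true]
        rw [hs, hη]
      · simp only [h, if_false]
        rw [hs]
  have hk : ∀ t, t < n → ∃ k : Fin m → ℤ, η' (t + 1) = A (η' t) + b (X t) + iv k := by
    intro t ht
    refine (he.fibre _ _).1 ?_
    have e0 : (B (X t, e (η' t))).2 = e (A (η' t) + b (X t)) := by rw [hB]
    rw [← e0, hη' t ht.le, horb t ht, hη' (t + 1) ht]
  choose! k hk using hk
  -- the periodic orbit
  obtain ⟨z, hz0, hzb, hz⟩ := h1 m n (fun _ => (A : EE m →L[ℝ] EE m)) C (C * B₀) hn hC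
    (by positivity) (fun z b hz h => hPB n z b hn hz h) (fun t z => φ (X t) (η' t + z))
    (fun t => by
      have hc : Continuous fun z : EE m => (X t, η' t + z) := by fun_prop
      exact (hL.cont.comp hc).continuousOn)
    (fun t _ z _ => mul_le_mul_of_nonneg_left (hφ _ _) hC.le)
  have hv : ∀ t < n, η' (t + 1) + z (t + 1) =
      A (η' t + z t) + b (X t) + φ (X t) (η' t + z t) + iv (k t) := by
    intro t ht
    have e1 : z (t + 1) = A (z t) + φ (X t) (η' t + z t) := hz t ht
    rw [e1, hk t ht, map_add]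
    abel
  have hq : ∀ t ≤ n, ‖z t + w (X t) (η' t + z t)‖ ≤ C * (ρ / (C * (a + 1))) := by
    refine hPB n (fun t => z t + w (X t) (η' t + z t)) _ hn ?_ ?_
    · simp only [hz0, hX, hη'0]
    · intro t ht
      have e1 : z (t + 1) = A (z t) + φ (X t) (η' t + z t) := hz t ht
      have e2 := hwe (X t) (η' t + z t)
      have e3 : w (f₁ (X t)) (η' (t + 1) + z (t + 1)) =
          w (f₁ (X t)) (A (η' t + z t) + b (X t) + φ (X t) (η' t + z t)) := by
        rw [hv t ht, hwp]
      have e4 : z (t + 1) + w (X (t + 1)) (η' (t + 1) + z (t + 1)) -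
          (A : EE m →L[ℝ] EE m) (z t + w (X t) (η' t + z t)) =
          w (X (t + 1)) (η' (t + 1) + z (t + 1)) - w (f₁ (X t)) (η' (t + 1) + z (t + 1)) := by
        rw [e3, e2]
        have e5 : (A : EE m →L[ℝ] EE m) (z t + w (X t) (η' t + z t)) =
          A (z t) + A (w (X t) (η' t + z t)) := map_add A _ _
        rw [e5]
        generalize w (X (t + 1)) (η' (t + 1) + z (t + 1)) = s1
        rw [e1]
        abel
      show ‖z (t + 1) + w (X (t + 1)) (η' (t + 1) + z (t + 1)) -
          (A : EE m →L[ℝ] EE m) (z t + w (X t) (η' t + z t))‖ ≤ _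
      rw [e4]
      refine hw _ _ ?_ _
      rw [dist_comm]
      exact hjump t ht
  refine ⟨fun t => e (η' t + z t), by simp only [hη'0, hz0], fun t ht => ⟨?_, ?_⟩⟩
  · show (F (X t, e (η' t + z t))).2 = e (η' (t + 1) + z (t + 1))
    rw [hL.eq, hv t ht, e_add he]
  · show dist ((F (X t, e (η' t + z t))).1, θ (F (X t, e (η' t + z t)))) (B (X t, η t)) ≤ ε
    rw [hL.eq, hθ, hwe, ← hη' t ht.le, hB, dist_fibre]
    have e1 : A (η' t + z t) + b (X t) + φ (X t) (η' t + z t) +
        (A (w (X t) (η' t + z t)) - φ (X t) (η' t + z t)) =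
        A (η' t) + b (X t) + A (z t + w (X t) (η' t + z t)) := by
      rw [map_add, map_add]
      abel
    rw [e1]
    refine hu _ _ ?_
    have e2 : ‖A (z t + w (X t) (η' t + z t))‖ ≤ a * ‖z t + w (X t) (η' t + z t)‖ :=
      (A : EE m →L[ℝ] EE m).le_opNorm _
    have e3 : a * ‖z t + w (X t) (η' t + z t)‖ ≤ a * (C * (ρ / (C * (a + 1)))) :=
      mul_le_mul_of_nonneg_left (hq t ht.le) ha0
    have e4 : a * (C * (ρ / (C * (a + 1)))) = ρ * (a / (a + 1)) := by
      field_simp
    have e5 : a / (a + 1) ≤ 1 := by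
      rw [div_le_one (by positivity)]
      linarith
    have e6 : ρ * (a / (a + 1)) ≤ ρ * 1 := mul_le_mul_of_nonneg_left e5 hρ.le
    linarith

end Pool.Agent.OmegaFT
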