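import Pool.Agent.Work.MP_814647_an.FT.Stmts

/-!
# Fibred tori, item Unroll: from time to stages
-/

open Set Filter Topology Function

noncomputable section

namespace Pool.Agent.OmegaFT

universe u v w

namespace XUnroll

/-- starting time of the stage `q` -/
def tau (l : ℕ → ℕ) (q : ℕ) : ℕ := ∑ i ∈ Finset.range q, l i

theorem tau_succ (l : ℕ → ℕ) (q : ℕ) : tau l (q + 1) = tau l q + l q := Finset.sum_range_succ _ _

theorem tau_mono (l : ℕ → ℕ) : Monotone (tau l) :=
  monotone_nat_of_le_succ fun q => by rw [tau_succ]; omega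

/-- the stage at the time `t` -/
def st (l : ℕ → ℕ) (p t : ℕ) : ℕ := Nat.findGreatest (fun q => tau l q ≤ t) p

theorem st_eq {l : ℕ → ℕ} {p q s : ℕ} (hq : q < p) (hs : s < l q) : st l p (tau l q + s) = q := by
  unfold st
  rw [Nat.findGreatest_eq_iff]
  refine ⟨hq.le, fun _ => Nat.le_add_right _ _, fun n hn _ => ?_⟩
  have h1 : tau l (q + 1) ≤ tau l n := tau_mono l hn
  rw [tau_succ] at h1
  omega

theorem exists_stage {l : ℕ → ℕ} {p t : ℕ} (ht : t < tau l p) :
    ∃ q s, q < p ∧ s < l q ∧ t = tau l q + s := by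
  induction p with
  | zero =>
    unfold tau at ht
    simp at ht
  | succ p ih =>
    rcases Nat.lt_or_ge t (tau l p) with h | h
    · obtain ⟨q, s, h1, h2, h3⟩ := ih h
      exact ⟨q, s, by omega, h2, h3⟩
    · rw [tau_succ] at ht
      exact ⟨p, t - tau l p, by omega, by omega, by omega⟩

/-- the concatenation of the orbit segments -/
def glue {Z : Type*} (g : Z → Z) (l : ℕ → ℕ) (p : ℕ) (a : ℕ → Z) (t : ℕ) : Z :=
  if t < tau l p then g^[t - tau l (st l p t)] (a (st l p t)) else a p

theorem glue_eq {Z : Type*} (g : Z → Z) {l : ℕ → ℕ} {p : ℕ} (a : ℕ → Z) {q s : ℕ} (hq : q < p)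
    (hs : s < l q) : glue g l p a (tau l q + s) = g^[s] (a q) := by
  have h1 : tau l (q + 1) ≤ tau l p := tau_mono l hq
  rw [tau_succ] at h1
  unfold glue
  rw [if_pos (by omega), st_eq hq hs, Nat.add_sub_cancel_left]

theorem glue_tau {Z : Type*} (g : Z → Z) {l : ℕ → ℕ} {p : ℕ} (a : ℕ → Z)
    (hl : ∀ q < p, 1 ≤ l q) {q : ℕ} (hq : q ≤ p) : glue g l p a (tau l q) = a q := by
  rcases hq.lt_or_eq with h | rfl
  · have := glue_eq g a h (hl q h)
    simpa using this
  · unfold glue
    rw [if_neg (lt_irrefl _)]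

end XUnroll

open XUnroll in
theorem prf_Unroll : Unroll.{u, v, w} := by
  intro N T Y _ _ f₁ F θ B hF hT ε hε
  obtain ⟨δ, hδ, h⟩ := hT ε hε
  refine ⟨δ, hδ, fun p l a η hp ha hη hst => ?_⟩
  have hl : ∀ q < p, 1 ≤ l q := fun q hq => (hst q hq).1
  have t0 : tau l 0 = 0 := rfl
  set X : ℕ → N := glue f₁ l p a with hX
  set H : ℕ → Y := glue B l p η with hH
  have hn : 0 < tau l p := by
    have h1 : tau l 1 ≤ tau l p := tau_mono l hp
    have h2 : tau l 1 = l 0 := by rw [show (1 : ℕ) = 0 + 1 from rfl, tau_succ, t0, zero_add]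
    have := hl 0 hp
    omega
  have X0 : X 0 = a 0 := by
    have := glue_tau f₁ a hl (Nat.zero_le p)
    rwa [t0] at this
  have H0 : H 0 = η 0 := by
    have := glue_tau B η hl (Nat.zero_le p)
    rwa [t0] at this
  obtain ⟨y, hy0, hy⟩ := h (tau l p) X H hn (by rw [X0, hX, glue_tau f₁ a hl le_rfl, ha])
    (by rw [H0, hH, glue_tau B η hl le_rfl, hη])
    (by
      intro t ht
      obtain ⟨q, s, hq, hs, rfl⟩ := exists_stage ht
      rw [hX, glue_eq f₁ a hq hs, ← Function.iterate_succ_apply' f₁]
      rcases Nat.lt_or_ge (s + 1) (l q) with h1 | h1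
      · rw [show tau l q + s + 1 = tau l q + (s + 1) by ring, glue_eq f₁ a hq h1, dist_self]
        exact hδ.le
      · have h2 : s + 1 = l q := by omega
        rw [show tau l q + s + 1 = tau l (q + 1) by rw [tau_succ]; omega,
          glue_tau f₁ a hl hq, show s.succ = l q from h2]
        exact (hst q hq).2.1)
    (by
      intro t ht
      obtain ⟨q, s, hq, hs, rfl⟩ := exists_stage ht
      rw [hH, glue_eq B η hq hs, ← Function.iterate_succ_apply' B]
      rcases Nat.lt_or_ge (s + 1) (l q) with h1 | h1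
      · rw [show tau l q + s + 1 = tau l q + (s + 1) by ring, glue_eq B η hq h1]
      · have h2 : s + 1 = l q := by omega
        rw [show tau l q + s + 1 = tau l (q + 1) by rw [tau_succ]; omega,
          glue_tau B η hl hq, show s.succ = l q from h2]
        exact (hst q hq).2.2)
  have key : ∀ q < p, ∀ s ≤ l q, F^[s] (a q, y (tau l q)) = (f₁^[s] (a q), y (tau l q + s)) := by
    intro q hq s
    induction s with
    | zero =>
      intro _
      rfl
    | succ s ih =>
      intro hs
      have h1 : tau l (q + 1) ≤ tau l p := tau_mono l hq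
      rw [tau_succ] at h1
      have h2 := (hy (tau l q + s) (by omega)).1
      rw [hX, glue_eq f₁ a hq (by omega)] at h2
      rw [Function.iterate_succ_apply', ih (by omega), Function.iterate_succ_apply']
      refine Prod.ext ?_ ?_
      · exact hF _
      · exact h2
  refine ⟨fun q => y (tau l q), ?_, fun q hq => ⟨?_, fun t ht0 htl => ?_⟩⟩
  · show y (tau l p) = y (tau l 0)
    rw [hy0, t0]
  · show (F^[l q] (a q, y (tau l q))).2 = y (tau l (q + 1))
    rw [key q hq _ le_rfl, tau_succ]
  · obtain ⟨s, rfl⟩ : ∃ s, t = s + 1 := ⟨t - 1, by omega⟩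
    have h1 : tau l (q + 1) ≤ tau l p := tau_mono l hq
    rw [tau_succ] at h1
    have h2 := (hy (tau l q + s) (by omega)).2
    rw [hX, glue_eq f₁ a hq (by omega)] at h2
    have h3 : H (tau l q + s + 1) = B^[s + 1] (η q) := by
      rcases Nat.lt_or_ge (s + 1) (l q) with h4 | h4
      · rw [show tau l q + s + 1 = tau l q + (s + 1) by ring, hH, glue_eq B η hq h4]
      · have h5 : s + 1 = l q := by omega
        rw [show tau l q + s + 1 = tau l (q + 1) by rw [tau_succ]; omega, hH,
          glue_tau B η hl hq, h5]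
        exact (hst q hq).2.2.symm
    rw [h3] at h2
    show dist (θ (F^[s + 1] (a q, y (tau l q)))) _ ≤ ε
    rw [Function.iterate_succ_apply', key q hq s (by omega)]
    exact h2

end Pool.Agent.OmegaFT
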