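import Pool.Agent.Work.MP_814647_an.FT.Stmts4
import Pool.Agent.Work.MP_814647_an.FT.I_Unroll

/-!
# Fibred tori, item UnrollB: from time to stages, for affine skew products
-/

open Set Filter Topology Function

noncomputable section

namespace Pool.Agent.OmegaFT

universe u v

namespace XUnrollB

/-- The base coordinate of the iterates of a fibred map. -/
theorem fst_iterate {N T : Type*} {f₁ : N → N} {B : N × T → N × T}
    (hB : ∀ z, (B z).1 = f₁ z.1) (s : ℕ) (z : N × T) : (B^[s] z).1 = f₁^[s] z.1 := by
  induction s with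
  | zero => rfl
  | succ s ih => rw [Function.iterate_succ_apply', hB, ih, Function.iterate_succ_apply']

end XUnrollB

open XUnroll XUnrollB in
theorem prf_UnrollB : UnrollB.{u, v} := by
  intro N T _ _ f₁ F θ B hF hB hT ε hε
  obtain ⟨δ, hδ, h⟩ := hT ε hε
  refine ⟨δ, hδ, fun p l a η hp ha hη hst => ?_⟩
  have hl : ∀ q < p, 1 ≤ l q := fun q hq => (hst q hq).1
  have t0 : tau l 0 = 0 := rfl
  set X : ℕ → N := glue f₁ l p a with hX
  set W : ℕ → N × T := glue B l p (fun q => (a q, η q)) with hW
  have hn : 0 < tau l p := by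
    have h1 : tau l 1 ≤ tau l p := tau_mono l hp
    have h2 : tau l 1 = l 0 := by rw [show (1 : ℕ) = 0 + 1 from rfl, tau_succ, t0, zero_add]
    have := hl 0 hp
    omega
  have X0 : X 0 = a 0 := by
    have := glue_tau f₁ a hl (Nat.zero_le p)
    rwa [t0] at this
  have W0 : W 0 = (a 0, η 0) := by
    have := glue_tau B (fun q => (a q, η q)) hl (Nat.zero_le p)
    rwa [t0] at this
  -- the pair of the two sequences is the glued sequence of the skew product
  have hXW : ∀ q < p, ∀ s < l q, (X (tau l q + s), (W (tau l q + s)).2) = B^[s] (a q, η q) := by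
    intro q hq s hs
    rw [hX, hW, glue_eq f₁ a hq hs, glue_eq B _ hq hs]
    refine Prod.ext ?_ rfl
    exact (fst_iterate hB s (a q, η q)).symm
  obtain ⟨y, hy0, hy⟩ := h (tau l p) X (fun t => (W t).2) hn
    (by rw [X0, hX, glue_tau f₁ a hl le_rfl, ha])
    (by
      show (W (tau l p)).2 = (W 0).2
      rw [W0, hW, glue_tau B _ hl le_rfl]
      exact hη)
    (by
      intro t ht
      obtain ⟨q, s, hq, hs, rfl⟩ := exists_stage ht
      rw [hX, glue_eq f₁ a hq hs, ← Function.iterate_succ_apply' f₁]
      rcases Nat.lt_or_ge (s + 1) (l q) with h1 | h1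
      · rw [show tau l q + s + 1 = tau l q + (s + 1) by ring, glue_eq f₁ a hq h1, dist_self]
        exact hδ.le
      · have h2 : s + 1 = l q := by omega
        rw [show tau l q + s + 1 = tau l (q + 1) by rw [tau_succ]; omega,
          glue_tau f₁ a hl hq, show s.succ = l q from h2]
        exact (hst q hq).2.1)
    (by
      intro t ht
      obtain ⟨q, s, hq, hs, rfl⟩ := exists_stage ht
      show (B (X (tau l q + s), (W (tau l q + s)).2)).2 = (W (tau l q + s + 1)).2
      rw [hXW q hq s hs, ← Function.iterate_succ_apply' B]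
      rcases Nat.lt_or_ge (s + 1) (l q) with h1 | h1
      · rw [show tau l q + s + 1 = tau l q + (s + 1) by ring, hW, glue_eq B _ hq h1]
      · have h2 : s + 1 = l q := by omega
        rw [show tau l q + s + 1 = tau l (q + 1) by rw [tau_succ]; omega, hW,
          glue_tau B _ hl hq, show s.succ = l q from h2]
        exact (hst q hq).2.2)
  have key : ∀ q < p, ∀ s ≤ l q, F^[s] (a q, y (tau l q)) = (f₁^[s] (a q), y (tau l q + s)) := by
    intro q hq s
    induction s with
    | zero =>
      intro _
      rfl
    | succ s ih =>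
      intro hs
      have h1 : tau l (q + 1) ≤ tau l p := tau_mono l hq
      rw [tau_succ] at h1
      have h2 := (hy (tau l q + s) (by omega)).1
      rw [hX, glue_eq f₁ a hq (by omega)] at h2
      rw [Function.iterate_succ_apply', ih (by omega), Function.iterate_succ_apply']
      refine Prod.ext ?_ ?_
      · exact hF _
      · exact h2
  refine ⟨fun q => y (tau l q), ?_, fun q hq => ⟨?_, fun t ht0 htl => ?_⟩⟩
  · show y (tau l p) = y (tau l 0)
    rw [hy0, t0]
  · show (F^[l q] (a q, y (tau l q))).2 = y (tau l (q + 1))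
    rw [key q hq _ le_rfl, tau_succ]
  · obtain ⟨s, rfl⟩ : ∃ s, t = s + 1 := ⟨t - 1, by omega⟩
    have h1 : tau l (q + 1) ≤ tau l p := tau_mono l hq
    rw [tau_succ] at h1
    have h2 := (hy (tau l q + s) (by omega)).2
    have h3 : B (X (tau l q + s), (W (tau l q + s)).2) = B^[s + 1] (a q, η q) := by
      rw [hXW q hq s (by omega), Function.iterate_succ_apply']
    have h4 : X (tau l q + s) = f₁^[s] (a q) := by
      rw [hX, glue_eq f₁ a hq (by omega)]
    show dist (θ (F^[s + 1] (a q, y (tau l q)))) _ ≤ ε
    rw [Function.iterate_succ_apply', key q hq s (by omega), ← h3, ← h4]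
    exact h2

end Pool.Agent.OmegaFT
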