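import Pool.Agent.Work.MP_814647_an.FT.Stmts3

/-!
# Item VertBoundOn: the linear a priori estimate along closed pseudo-orbits close to `Λ`

Author of this file: helper95.  Proof by compactness: a limit of counterexamples is a bounded
nonzero orbit, defined for all integer times, of the derivative cocycle over `Λ`.
-/

open Set Filter Topology Function
open scoped Manifold ContDiff

noncomputable section

namespace Pool.Agent.OmegaFT

open Pool.Agent.OmegaStab (EE HypLin)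

universe u

namespace XVertBoundOn

variable {m : ℕ} {N : Type*}

lemma iv_add (k l : Fin m → ℤ) : iv (k + l) = iv k + iv l := by
  ext i
  simp [iv]

lemma iv_neg (k : Fin m → ℤ) : iv (-k) = -iv k := by
  ext i
  simp [iv]

lemma reduce (v : EE m) : ∃ k : Fin m → ℤ, ‖v + iv k‖ ≤ Real.sqrt m := by
  refine ⟨fun i => -⌊v i⌋, ?_⟩
  rw [EuclideanSpace.norm_eq]
  apply Real.sqrt_le_sqrt
  calc ∑ i, ‖(v + iv fun i => -⌊v i⌋) i‖ ^ 2 ≤ ∑ _i : Fin m, (1 : ℝ) := by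
        refine Finset.sum_le_sum fun i _ => ?_
        have h1 : (v + iv fun i => -⌊v i⌋) i = Int.fract (v i) := by
          simp only [PiLp.add_apply, iv, Int.cast_neg]
          rw [← sub_eq_add_neg, Int.self_sub_floor]
        rw [h1, Real.norm_eq_abs, abs_of_nonneg (Int.fract_nonneg _)]
        have h2 := Int.fract_nonneg (v i)
        have h3 := (Int.fract_lt_one (v i)).le
        nlinarith
    _ = m := by simp

/-- a limit of integer vectors is an integer vector -/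
lemma iv_lim {U : Ultrafilter ℕ} {k : ℕ → Fin m → ℤ} {w : EE m}
    (h : Tendsto (fun j => iv (k j)) (U : Filter ℕ) (𝓝 w)) : ∃ q, w = iv q := by
  have h1 : ∀ i : Fin m, ∃ q : ℤ, (q : ℝ) = w i := by
    intro i
    have h2 : Tendsto (fun j => ((k j i : ℤ) : ℝ)) (U : Filter ℕ) (𝓝 (w i)) := by
      have h3 : Continuous fun v : EE m => v i := by fun_prop
      exact (h3.tendsto w).comp h
    have h4 := Int.isClosedEmbedding_coe_real.isClosed_range
    exact h4.mem_of_tendsto h2 (Eventually.of_forall fun j => ⟨k j i, rfl⟩)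
  choose q hq using h1
  refine ⟨q, ?_⟩
  ext i
  rw [← hq i]
  rfl

section Per

variable {f₁ : N → N} {P : N → EE m → EE m}

lemma vder_iv (hP : ∀ x v k, ∃ l, P x (v + iv k) = P x v + iv l)
    (hD : ∀ x v k, fderiv ℝ (P x) (v + iv k) = fderiv ℝ (P x) v) (n : ℕ) :
    ∀ x v k, vder f₁ P n x (v + iv k) = vder f₁ P n x v := by
  induction n with
  | zero => intro x v k; rfl
  | succ n ih =>
    intro x v k
    obtain ⟨l, hl⟩ := hP x v k
    show (vder f₁ P n (f₁ x) (P x (v + iv k))).comp (fderiv ℝ (P x) (v + iv k)) =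
      (vder f₁ P n (f₁ x) (P x v)).comp (fderiv ℝ (P x) v)
    rw [hl, ih, hD]

lemma vder_step (hP : ∀ x v k, ∃ l, P x (v + iv k) = P x v + iv l)
    (hD : ∀ x v k, fderiv ℝ (P x) (v + iv k) = fderiv ℝ (P x) v)
    {x : ℤ → N} {r z : ℤ → EE m} (hx : ∀ i, f₁ (x i) = x (i + 1))
    (hr : ∀ i, ∃ k, r (i + 1) = P (x i) (r i) + iv k)
    (hz : ∀ i, z (i + 1) = fderiv ℝ (P (x i)) (r i) (z i)) (n : ℕ) :
    ∀ i : ℤ, vder f₁ P n (x i) (r i) (z i) = z (i + n) := by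
  induction n with
  | zero => intro i; simp [vder]
  | succ n ih =>
    intro i
    obtain ⟨k, hk⟩ := hr i
    show vder f₁ P n (f₁ (x i)) (P (x i) (r i)) (fderiv ℝ (P (x i)) (r i) (z i)) = _
    rw [hx i, ← hz i, ← vder_iv hP hD n (x (i + 1)) (P (x i) (r i)) k, ← hk, ih (i + 1)]
    congr 1
    push_cast
    ring

lemma pow_zero_of {μ c d : ℝ} (h0 : 0 < μ) (h1 : μ < 1) (h : ∀ n : ℕ, d ≤ c * μ ^ n) :
    d ≤ 0 := by
  have h2 : Tendsto (fun n : ℕ => c * μ ^ n) atTop (𝓝 (c * 0)) :=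
    (tendsto_pow_atTop_nhds_zero_of_lt_one h0.le h1).const_mul c
  rw [mul_zero] at h2
  exact ge_of_tendsto' h2 h

/-- bounded orbits of the derivative cocycle over `Λ` vanish -/
lemma zero_of_bdd [TopologicalSpace N] {Λ : Set (N × EE m)}
    {Es Eu : N → EE m → Submodule ℝ (EE m)} {C μ : ℝ} (H : VSplitOn f₁ P Λ Es Eu C μ)
    (hP : ∀ x v k, ∃ l, P x (v + iv k) = P x v + iv l)
    (hD : ∀ x v k, fderiv ℝ (P x) (v + iv k) = fderiv ℝ (P x) v)
    {x : ℤ → N} {r z : ℤ → EE m} (hΛ : ∀ i, (x i, r i) ∈ Λ) (hx : ∀ i, f₁ (x i) = x (i + 1))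
    (hr : ∀ i, ∃ k, r (i + 1) = P (x i) (r i) + iv k)
    (hz : ∀ i, z (i + 1) = fderiv ℝ (P (x i)) (r i) (z i)) (hb : ∀ i, ‖z i‖ ≤ 1) :
    ∀ i, z i = 0 := by
  have hC : 0 < C := lt_of_lt_of_le one_pos H.one_le
  have hstep := vder_step hP hD hx hr hz
  have hEs : ∀ i, z i ∈ Es (x i) (r i) := by
    intro i
    have hc := H.compl (x i) (r i) (hΛ i)
    have h1 : z i ∈ Es (x i) (r i) ⊔ Eu (x i) (r i) := by
      rw [hc.sup_eq_top]
      trivial
    obtain ⟨s, hs, w, hw, hsw⟩ := Submodule.mem_sup.1 h1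
    have hw0 : ‖w‖ ≤ 0 := by
      refine pow_zero_of H.mu_pos H.mu_lt (c := C * (1 + C * ‖s‖)) fun n => ?_
      have h2 := H.exp_u (x i) (r i) (hΛ i) w hw n
      have h3 := H.con_s (x i) (r i) (hΛ i) s hs n
      have h4 := hstep n i
      have h5 : ‖vder f₁ P n (x i) (r i) w‖ ≤ 1 + C * ‖s‖ := by
        have h6 : vder f₁ P n (x i) (r i) w = z (i + n) - vder f₁ P n (x i) (r i) s := by
          rw [← h4, ← hsw, map_add]
          abel
        rw [h6]
        refine (norm_sub_le _ _).trans (add_le_add (hb _) (h3.trans ?_))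
        have h7 : μ ^ n ≤ 1 := pow_le_one₀ H.mu_pos.le H.mu_lt.le
        have h8 : C * μ ^ n ≤ C * 1 := mul_le_mul_of_nonneg_left h7 hC.le
        rw [mul_one] at h8
        exact mul_le_mul_of_nonneg_right h8 (norm_nonneg _)
      have h9 : 0 ≤ C * μ ^ n := mul_nonneg hC.le (pow_nonneg H.mu_pos.le n)
      calc ‖w‖ ≤ C * μ ^ n * ‖vder f₁ P n (x i) (r i) w‖ := h2
        _ ≤ C * μ ^ n * (1 + C * ‖s‖) := mul_le_mul_of_nonneg_left h5 h9
        _ = C * (1 + C * ‖s‖) * μ ^ n := by ring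
    have hw1 : w = 0 := norm_le_zero_iff.1 hw0
    rw [← hsw, hw1, add_zero]
    exact hs
  intro i
  have h0 : ‖z i‖ ≤ 0 := by
    refine pow_zero_of H.mu_pos H.mu_lt (c := C) fun n => ?_
    have h1 := hstep n (i - n)
    rw [sub_add_cancel] at h1
    have h2 := H.con_s (x (i - n)) (r (i - n)) (hΛ _) (z (i - n)) (hEs _) n
    rw [h1] at h2
    have h9 : 0 ≤ C * μ ^ n := mul_nonneg hC.le (pow_nonneg H.mu_pos.le n)
    calc ‖z i‖ ≤ C * μ ^ n * ‖z (i - n)‖ := h2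
      _ ≤ C * μ ^ n * 1 := mul_le_mul_of_nonneg_left (hb _) h9
      _ = C * μ ^ n := mul_one _
  exact norm_le_zero_iff.1 h0

end Per

/-- times modulo `n` -/
def idx (n t₀ : ℕ) (i : ℤ) : ℕ := ((t₀ + i) % n).toNat

lemma idx_lt {n t₀ : ℕ} (hn : 0 < n) (i : ℤ) : idx n t₀ i < n := by
  have h1 : 0 ≤ ((t₀ : ℤ) + i) % n := Int.emod_nonneg _ (by omega)
  have h2 : ((t₀ : ℤ) + i) % n < n := Int.emod_lt_of_pos _ (by omega)
  unfold idx
  omega

lemma idx_zero {n t₀ : ℕ} (h : t₀ < n) : idx n t₀ 0 = t₀ := by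
  unfold idx
  rw [add_zero, Int.emod_eq_of_lt (by omega) (by omega)]
  rfl

lemma idx_succ {α : Type*} {g : ℕ → α} {n t₀ : ℕ} (hn : 0 < n) (hg : g n = g 0) (i : ℤ) :
    g (idx n t₀ (i + 1)) = g (idx n t₀ i + 1) := by
  have h1 : 0 ≤ ((t₀ : ℤ) + i) % n := Int.emod_nonneg _ (by omega)
  have h2 : ((t₀ : ℤ) + i) % n < n := Int.emod_lt_of_pos _ (by omega)
  have h3 : ((t₀ : ℤ) + (i + 1)) % n = (((t₀ : ℤ) + i) % n + 1) % n := by
    rw [← add_assoc, Int.emod_add_emod]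
  by_cases h : ((t₀ : ℤ) + i) % n + 1 = n
  · have h4 : idx n t₀ i + 1 = n := by
      unfold idx
      omega
    have h5 : idx n t₀ (i + 1) = 0 := by
      unfold idx
      rw [h3, h, Int.emod_self]
      rfl
    rw [h4, h5, hg]
  · have h4 : idx n t₀ (i + 1) = idx n t₀ i + 1 := by
      unfold idx
      rw [h3, Int.emod_eq_of_lt (by omega) (by omega)]
      omega
    rw [h4]

/-- the approximate orbit obtained from a counterexample -/
structure Approx [MetricSpace N] (f₁ : N → N) (P : N → EE m → EE m) (Λ : Set (N × EE m)) (δ : ℝ)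
    (x : ℤ → N) (r z : ℤ → EE m) : Prop where
  hx : ∀ i, dist (f₁ (x i)) (x (i + 1)) ≤ δ
  hr : ∀ i, ∃ k, ‖P (x i) (r i) + iv k - r (i + 1)‖ ≤ δ
  hΛ : ∀ i, ∃ p ∈ Λ, dist (x i) p.1 ≤ δ ∧ ‖r i - p.2‖ ≤ δ
  hrb : ∀ i, ‖r i‖ ≤ Real.sqrt m
  hzb : ∀ i, ‖z i‖ ≤ 1
  hz0 : ‖z 0‖ = 1
  hz : ∀ i, ‖z (i + 1) - fderiv ℝ (P (x i)) (r i) (z i)‖ ≤ δ

lemma extract [MetricSpace N] {f₁ : N → N} {P : N → EE m → EE m} {Λ : Set (N × EE m)}
    (hper : ∀ x v k, (x, v) ∈ Λ → (x, v + iv k) ∈ Λ)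
    (hP : ∀ x v k, ∃ l, P x (v + iv k) = P x v + iv l)
    (hD : ∀ x v k, fderiv ℝ (P x) (v + iv k) = fderiv ℝ (P x) v) {δ K : ℝ} (hK : 0 < K)
    (hδ : 1 / K = δ) {n : ℕ} {X : ℕ → N} {v : ℕ → EE m} (hO : PseudoOrbOn f₁ P Λ δ n X v)
    {z : ℕ → EE m} {b : ℝ} (hz : z n = z 0)
    (hb : ∀ t < n, ‖z (t + 1) - fderiv ℝ (P (X t)) (v t) (z t)‖ ≤ b)
    {t : ℕ} (ht : t ≤ n) (hbig : K * b < ‖z t‖) :
    ∃ (x : ℤ → N) (r ζ : ℤ → EE m), Approx f₁ P Λ δ x r ζ := by
  obtain ⟨⟨hn, hXn, hvn, hO1⟩, hO2⟩ := hO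
  -- the maximum
  obtain ⟨t₀, ht₀, hmax⟩ := Finset.exists_max_image (Finset.range n) (fun t => ‖z t‖)
    ⟨0, Finset.mem_range.2 hn⟩
  rw [Finset.mem_range] at ht₀
  have hmax' : ∀ s ≤ n, ‖z s‖ ≤ ‖z t₀‖ := by
    intro s hs
    rcases hs.lt_or_eq with h | h
    · exact hmax s (Finset.mem_range.2 h)
    · rw [h, hz]
      exact hmax 0 (Finset.mem_range.2 hn)
  have hb0 : 0 ≤ b := (norm_nonneg _).trans (hb 0 hn)
  set M := ‖z t₀‖ with hM
  have hM1 : K * b < M := lt_of_lt_of_le hbig (hmax' t ht)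
  have hM0 : 0 < M := lt_of_le_of_lt (mul_nonneg hK.le hb0) hM1
  choose κ hκ using (reduce (m := m))
  refine ⟨fun i => X (idx n t₀ i), fun i => v (idx n t₀ i) + iv (κ (v (idx n t₀ i))),
    fun i => (1 / M) • z (idx n t₀ i), ?_, ?_, ?_, ?_, ?_, ?_, ?_⟩
  · intro i
    show dist (f₁ (X (idx n t₀ i))) (X (idx n t₀ (i + 1))) ≤ δ
    rw [idx_succ hn hXn]
    exact (hO1 _ (idx_lt hn i)).1
  · intro i
    show ∃ k, ‖P (X (idx n t₀ i)) (v (idx n t₀ i) + iv (κ (v (idx n t₀ i)))) + iv k -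
      (v (idx n t₀ (i + 1)) + iv (κ (v (idx n t₀ (i + 1)))))‖ ≤ δ
    rw [idx_succ hn hvn]
    obtain ⟨k, hk⟩ := (hO1 _ (idx_lt (t₀ := t₀) hn i)).2
    obtain ⟨l, hl⟩ := hP (X (idx n t₀ i)) (v (idx n t₀ i)) (κ (v (idx n t₀ i)))
    refine ⟨k + κ (v (idx n t₀ i + 1)) + -l, ?_⟩
    rw [hl, iv_add, iv_add, iv_neg]
    have : P (X (idx n t₀ i)) (v (idx n t₀ i)) + iv l + (iv k + iv (κ (v (idx n t₀ i + 1))) +
        -iv l) - (v (idx n t₀ i + 1) + iv (κ (v (idx n t₀ i + 1)))) =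
        P (X (idx n t₀ i)) (v (idx n t₀ i)) + iv k - v (idx n t₀ i + 1) := by abel
    rw [this]
    exact hk
  · intro i
    obtain ⟨p, hp, h1, h2⟩ := hO2 _ (idx_lt (t₀ := t₀) hn i)
    refine ⟨(p.1, p.2 + iv (κ (v (idx n t₀ i)))), hper p.1 p.2 _ hp, h1, ?_⟩
    show ‖v (idx n t₀ i) + iv (κ (v (idx n t₀ i))) - (p.2 + iv (κ (v (idx n t₀ i))))‖ ≤ δ
    rw [add_sub_add_right_eq_sub]
    exact h2
  · intro i
    exact hκ _
  · intro i
    show ‖(1 / M) • z (idx n t₀ i)‖ ≤ 1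
    rw [norm_smul, Real.norm_eq_abs, abs_of_pos (by positivity), one_div,
      inv_mul_le_iff₀ hM0, mul_one]
    exact hmax' _ (idx_lt hn i).le
  · show ‖(1 / M) • z (idx n t₀ 0)‖ = 1
    rw [norm_smul, Real.norm_eq_abs, abs_of_pos (by positivity), one_div, idx_zero ht₀, ← hM]
    exact inv_mul_cancel₀ hM0.ne'
  · intro i
    show ‖(1 / M) • z (idx n t₀ (i + 1)) - fderiv ℝ (P (X (idx n t₀ i)))
      (v (idx n t₀ i) + iv (κ (v (idx n t₀ i)))) ((1 / M) • z (idx n t₀ i))‖ ≤ δ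
    rw [idx_succ hn hz, hD, map_smul, ← smul_sub, norm_smul, Real.norm_eq_abs,
      abs_of_pos (by positivity), one_div, inv_mul_le_iff₀ hM0, ← hδ]
    refine (hb _ (idx_lt hn i)).trans ?_
    have h3 : b ≤ M / K := by
      rw [le_div_iff₀ hK]
      linarith
    calc b ≤ M / K := h3
      _ = M * (1 / K) := by ring

end XVertBoundOn

open XVertBoundOn in
theorem prf_VertBoundOn : VertBoundOn.{u} := by
  intro m N _ _ A φ f₁ Λ Es Eu C μ hA hf₁ hφ hper hC1 H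
  set P : N → EE m → EE m := fun x v => A v + φ x v with hPdef
  have hP1 : ∀ x v k, P x (v + iv k) = P x v + A (iv k) := by
    intro x v k
    simp only [hPdef, hper, map_add]
    abel
  have hP : ∀ x v k, ∃ l, P x (v + iv k) = P x v + iv l := by
    intro x v k
    obtain ⟨l, hl⟩ := hA.1 k
    exact ⟨l, by rw [hP1, hl]⟩
  have hD : ∀ x v k, fderiv ℝ (P x) (v + iv k) = fderiv ℝ (P x) v := by
    intro x v k
    have h1 : (fun w => P x (w + iv k)) = fun w => P x w + A (iv k) := by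
      funext w
      exact hP1 x w k
    rw [← fderiv_comp_add_right (f := P x) (iv k), h1, fderiv_add_const]
  have hPc : Continuous fun z : N × EE m => P z.1 z.2 :=
    (A.continuous.comp continuous_snd).add hφ
  by_contra hcon
  -- counterexamples
  have hex : ∀ j : ℕ, ∃ (x : ℤ → N) (r ζ : ℤ → EE m), Approx f₁ P Λ (1 / ((j : ℝ) + 1)) x r ζ := by
    intro j
    have hK : (0 : ℝ) < (j : ℝ) + 1 := by positivity
    have hδ : (0 : ℝ) < 1 / ((j : ℝ) + 1) := by positivity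
    by_contra hno
    apply hcon
    refine ⟨(j : ℝ) + 1, 1 / ((j : ℝ) + 1), hK, hδ, ?_⟩
    intro n X v hO z b hz hb t ht
    by_contra hbig
    exact hno (extract H.per hP hD hK rfl hO hz hb ht (not_le.1 hbig))
  choose x r ζ hap using hex
  -- limits along an ultrafilter
  set U : Ultrafilter ℕ := hyperfilter ℕ with hU
  have hUle : (U : Filter ℕ) ≤ atTop := by
    rw [hU, ← Nat.cofinite_eq_atTop]
    exact hyperfilter_le_cofinite
  have hδ0 : Tendsto (fun j : ℕ => 1 / ((j : ℝ) + 1)) (U : Filter ℕ) (𝓝 0) :=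
    (tendsto_one_div_add_atTop_nhds_zero_nat).mono_left hUle
  have hlim : ∀ i : ℤ, ∃ q : N × (EE m × EE m),
      Tendsto (fun j => (x j i, (r j i, ζ j i))) (U : Filter ℕ) (𝓝 q) := by
    intro i
    have hcomp : IsCompact ((univ : Set N) ×ˢ ((Metric.closedBall (0 : EE m) (Real.sqrt m)) ×ˢ
        (Metric.closedBall (0 : EE m) 1))) :=
      isCompact_univ.prod ((isCompact_closedBall _ _).prod (isCompact_closedBall _ _))
    obtain ⟨q, _, hq⟩ := hcomp.ultrafilter_le_nhds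
      (U.map fun j => (x j i, (r j i, ζ j i))) (by
        rw [Filter.le_principal_iff]
        refine Filter.mem_map.2 (Filter.Eventually.of_forall fun j => ?_)
        refine ⟨mem_univ _, ?_, ?_⟩
        · rw [mem_closedBall_zero_iff]
          exact (hap j).hrb i
        · rw [mem_closedBall_zero_iff]
          exact (hap j).hzb i)
    exact ⟨q, hq⟩
  choose q hq using hlim
  have hqx : ∀ i, Tendsto (fun j => x j i) (U : Filter ℕ) (𝓝 (q i).1) := fun i =>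
    (continuous_fst.tendsto _).comp (hq i)
  have hqr : ∀ i, Tendsto (fun j => r j i) (U : Filter ℕ) (𝓝 (q i).2.1) := fun i =>
    ((continuous_fst.comp continuous_snd).tendsto _).comp (hq i)
  have hqz : ∀ i, Tendsto (fun j => ζ j i) (U : Filter ℕ) (𝓝 (q i).2.2) := fun i =>
    ((continuous_snd.comp continuous_snd).tendsto _).comp (hq i)
  have hxx : ∀ i, f₁ (q i).1 = (q (i + 1)).1 := by
    intro i
    have h1 : Tendsto (fun j => dist (f₁ (x j i)) (x j (i + 1))) (U : Filter ℕ)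
        (𝓝 (dist (f₁ (q i).1) (q (i + 1)).1)) :=
      ((hf₁.tendsto _).comp (hqx i)).dist (hqx (i + 1))
    have h2 : dist (f₁ (q i).1) (q (i + 1)).1 ≤ 0 :=
      le_of_tendsto_of_tendsto' h1 hδ0 fun j => (hap j).hx i
    exact dist_le_zero.1 h2
  have hPx : ∀ i, Tendsto (fun j => P (x j i) (r j i)) (U : Filter ℕ)
      (𝓝 (P (q i).1 (q i).2.1)) := fun i =>
    (hPc.tendsto ((q i).1, (q i).2.1)).comp ((hqx i).prodMk_nhds (hqr i))
  have hrr : ∀ i, ∃ k, (q (i + 1)).2.1 = P (q i).1 (q i).2.1 + iv k := by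
    intro i
    choose k hk using fun j => (hap j).hr i
    have h1 : Tendsto (fun j => P (x j i) (r j i) + iv (k j) - r j (i + 1)) (U : Filter ℕ)
        (𝓝 0) := squeeze_zero_norm hk hδ0
    have h2 : Tendsto (fun j => iv (k j)) (U : Filter ℕ)
        (𝓝 (0 + (q (i + 1)).2.1 - P (q i).1 (q i).2.1)) := by
      refine ((h1.add (hqr (i + 1))).sub (hPx i)).congr fun j => ?_
      abel
    obtain ⟨l, hl⟩ := iv_lim h2
    refine ⟨l, ?_⟩
    rw [← hl]
    abel
  have hzz : ∀ i, (q (i + 1)).2.2 = fderiv ℝ (P (q i).1) (q i).2.1 (q i).2.2 := by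
    intro i
    have h1 : Tendsto (fun j => fderiv ℝ (P (x j i)) (r j i)) (U : Filter ℕ)
        (𝓝 (fderiv ℝ (P (q i).1) (q i).2.1)) :=
      (hC1.cont.tendsto ((q i).1, (q i).2.1)).comp ((hqx i).prodMk_nhds (hqr i))
    have hap2 : Continuous fun p : (EE m →L[ℝ] EE m) × EE m => p.1 p.2 :=
      isBoundedBilinearMap_apply.continuous
    have h2 : Tendsto (fun j => fderiv ℝ (P (x j i)) (r j i) (ζ j i)) (U : Filter ℕ)
        (𝓝 (fderiv ℝ (P (q i).1) (q i).2.1 (q i).2.2)) :=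
      (hap2.tendsto (fderiv ℝ (P (q i).1) (q i).2.1, (q i).2.2)).comp (h1.prodMk_nhds (hqz i))
    have h3 : Tendsto (fun j => ζ j (i + 1) - fderiv ℝ (P (x j i)) (r j i) (ζ j i))
        (U : Filter ℕ) (𝓝 0) := squeeze_zero_norm (fun j => (hap j).hz i) hδ0
    have h4 := (hqz (i + 1)).sub h2
    exact sub_eq_zero.1 (tendsto_nhds_unique h4 h3)
  have hΛq : ∀ i, ((q i).1, (q i).2.1) ∈ Λ := by
    intro i
    choose p hp using fun j => (hap j).hΛ i
    have h1 : Tendsto (fun j => (p j).1) (U : Filter ℕ) (𝓝 (q i).1) :=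
      tendsto_of_tendsto_of_dist (hqx i)
        (squeeze_zero (fun _ => dist_nonneg) (fun j => (hp j).2.1) hδ0)
    have h2 : Tendsto (fun j => (p j).2) (U : Filter ℕ) (𝓝 (q i).2.1) := by
      have h3 : Tendsto (fun j => r j i - (p j).2) (U : Filter ℕ) (𝓝 0) :=
        squeeze_zero_norm (fun j => (hp j).2.2) hδ0
      have h4 := (hqr i).sub h3
      simpa using h4
    exact H.closed.mem_of_tendsto (h1.prodMk_nhds h2) (Eventually.of_forall fun j => (hp j).1)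
  have hb1 : ∀ i, ‖(q i).2.2‖ ≤ 1 := fun i =>
    le_of_tendsto' (hqz i).norm fun j => (hap j).hzb i
  have h00 : ‖(q 0).2.2‖ = 1 :=
    tendsto_nhds_unique (hqz 0).norm (tendsto_const_nhds.congr fun j => ((hap j).hz0).symm)
  have hzero := zero_of_bdd H hP hD (x := fun i => (q i).1) (r := fun i => (q i).2.1)
    (z := fun i => (q i).2.2) hΛq hxx hrr hzz hb1 0
  rw [show (q 0).2.2 = 0 from hzero, norm_zero] at h00
  exact zero_ne_one h00

end Pool.Agent.OmegaFT
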