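import Pool.Agent.Work.MP_814647_an.FT.Stmts5
import Pool.Agent.Work.MP_814647_an.FT.I_VertBoundOn

/-!
# Item VertBoundOnB: the linear a priori estimate, for lifts continuous modulo the integers only

Adapted from `I_VertBoundOn.lean`.
-/

open Set Filter Topology Function
open scoped Manifold ContDiff

noncomputable section

namespace Pool.Agent.OmegaFT

open Pool.Agent.OmegaStab (EE HypLin)

universe u

namespace XVertBoundOnB

open XVertBoundOn

variable {m : ℕ} {N : Type*}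

/-- a vector with integer vectors arbitrarily near is an integer vector -/
lemma iv_near {w : EE m} (h : ∀ ε > (0 : ℝ), ∃ l : Fin m → ℤ, ‖w - iv l‖ ≤ ε) :
    ∃ q, w = iv q := by
  have h1 : ∀ n : ℕ, ∃ l : Fin m → ℤ, ‖w - iv l‖ ≤ 1 / ((n : ℝ) + 1) := fun n =>
    h _ (by positivity)
  choose l hl using h1
  have hδ0 : Tendsto (fun j : ℕ => 1 / ((j : ℝ) + 1)) (hyperfilter ℕ : Filter ℕ) (𝓝 0) :=
    (tendsto_one_div_add_atTop_nhds_zero_nat).mono_left (by
      rw [← Nat.cofinite_eq_atTop]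
      exact hyperfilter_le_cofinite)
  have h2 : Tendsto (fun n => w - iv (l n)) (hyperfilter ℕ : Filter ℕ) (𝓝 0) :=
    squeeze_zero_norm hl hδ0
  refine iv_lim (U := hyperfilter ℕ) (k := l) ?_
  have h3 := (tendsto_const_nhds (x := w)).sub h2
  rw [sub_zero] at h3
  refine h3.congr fun n => ?_
  abel

/-- the limits of the points of approximate orbits form an orbit modulo the integers -/
lemma limit_step [MetricSpace N] {P : N → EE m → EE m} (hUC : ModUC P) {F : Filter ℕ}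
    [F.NeBot] {x : ℕ → N} {r r' : ℕ → EE m} {δ : ℕ → ℝ} {a : N} {b b' : EE m}
    (hx : Tendsto x F (𝓝 a)) (hr : Tendsto r F (𝓝 b)) (hr' : Tendsto r' F (𝓝 b'))
    (hδ : Tendsto δ F (𝓝 0)) (h : ∀ j, ∃ k, ‖P (x j) (r j) + iv k - r' j‖ ≤ δ j) :
    ∃ k, b' = P a b + iv k := by
  have h1 : ∃ q, b' - P a b = iv q := by
    refine iv_near fun ε hε => ?_
    have hε3 : 0 < ε / 3 := by positivity
    obtain ⟨ρ, hρ, hP⟩ := hUC (ε / 3) hε3
    have e1 : ∀ᶠ j in F, dist (x j) a < ρ := Metric.tendsto_nhds.1 hx ρ hρ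
    have e2 : ∀ᶠ j in F, dist (r j) b < ρ := Metric.tendsto_nhds.1 hr ρ hρ
    have e3 : ∀ᶠ j in F, dist (r' j) b' < ε / 3 := Metric.tendsto_nhds.1 hr' _ hε3
    have e4 : ∀ᶠ j in F, dist (δ j) 0 < ε / 3 := Metric.tendsto_nhds.1 hδ _ hε3
    obtain ⟨j, h1, h2, h3, h4⟩ := (e1.and (e2.and (e3.and e4))).exists
    obtain ⟨k, hk⟩ := h j
    rw [dist_eq_norm] at h2
    obtain ⟨l, hl⟩ := hP (x j) a (r j) b h1.le h2.le
    refine ⟨l + k, ?_⟩
    have h5 : δ j ≤ ε / 3 := by
      rw [Real.dist_eq, sub_zero] at h4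
      exact (le_abs_self _).trans h4.le
    have h6 : b' - P a b - iv (l + k) = (b' - r' j) + -(P (x j) (r j) + iv k - r' j) +
        (P (x j) (r j) - P a b - iv l) := by
      rw [iv_add]
      abel
    rw [h6]
    have h7 : ‖b' - r' j‖ ≤ ε / 3 := by
      rw [← dist_eq_norm, dist_comm]
      exact h3.le
    have h8 : ‖-(P (x j) (r j) + iv k - r' j)‖ ≤ ε / 3 := by
      rw [norm_neg]
      exact hk.trans h5
    calc ‖(b' - r' j) + -(P (x j) (r j) + iv k - r' j) + (P (x j) (r j) - P a b - iv l)‖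
        ≤ ‖b' - r' j‖ + ‖-(P (x j) (r j) + iv k - r' j)‖ + ‖P (x j) (r j) - P a b - iv l‖ :=
          norm_add₃_le
      _ ≤ ε := by linarith
  obtain ⟨q, hq⟩ := h1
  exact ⟨q, by rw [← hq]; abel⟩

end XVertBoundOnB

open XVertBoundOn XVertBoundOnB in
theorem prf_VertBoundOnB : VertBoundOnB.{u} := by
  intro m N _ _ A P f₁ Λ Es Eu C μ hA hf₁ hUC hP1 hC1 H
  have hP : ∀ x v k, ∃ l, P x (v + iv k) = P x v + iv l := by
    intro x v k
    obtain ⟨l, hl⟩ := hA.1 k
    exact ⟨l, by rw [hP1, hl]⟩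
  have hD : ∀ x v k, fderiv ℝ (P x) (v + iv k) = fderiv ℝ (P x) v := by
    intro x v k
    have h1 : (fun w => P x (w + iv k)) = fun w => P x w + A (iv k) := by
      funext w
      exact hP1 x w k
    rw [← fderiv_comp_add_right (f := P x) (iv k), h1, fderiv_add_const]
  by_contra hcon
  -- counterexamples
  have hex : ∀ j : ℕ, ∃ (x : ℤ → N) (r ζ : ℤ → EE m), Approx f₁ P Λ (1 / ((j : ℝ) + 1)) x r ζ := by
    intro j
    have hK : (0 : ℝ) < (j : ℝ) + 1 := by positivity
    have hδ : (0 : ℝ) < 1 / ((j : ℝ) + 1) := by positivity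
    by_contra hno
    apply hcon
    refine ⟨(j : ℝ) + 1, 1 / ((j : ℝ) + 1), hK, hδ, ?_⟩
    intro n X v hO z b hz hb t ht
    by_contra hbig
    exact hno (extract H.per hP hD hK rfl hO hz hb ht (not_le.1 hbig))
  choose x r ζ hap using hex
  -- limits along an ultrafilter
  set U : Ultrafilter ℕ := hyperfilter ℕ with hU
  have hUle : (U : Filter ℕ) ≤ atTop := by
    rw [hU, ← Nat.cofinite_eq_atTop]
    exact hyperfilter_le_cofinite
  have hδ0 : Tendsto (fun j : ℕ => 1 / ((j : ℝ) + 1)) (U : Filter ℕ) (𝓝 0) :=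
    (tendsto_one_div_add_atTop_nhds_zero_nat).mono_left hUle
  have hlim : ∀ i : ℤ, ∃ q : N × (EE m × EE m),
      Tendsto (fun j => (x j i, (r j i, ζ j i))) (U : Filter ℕ) (𝓝 q) := by
    intro i
    have hcomp : IsCompact ((univ : Set N) ×ˢ ((Metric.closedBall (0 : EE m) (Real.sqrt m)) ×ˢ
        (Metric.closedBall (0 : EE m) 1))) :=
      isCompact_univ.prod ((isCompact_closedBall _ _).prod (isCompact_closedBall _ _))
    obtain ⟨q, _, hq⟩ := hcomp.ultrafilter_le_nhds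
      (U.map fun j => (x j i, (r j i, ζ j i))) (by
        rw [Filter.le_principal_iff]
        refine Filter.mem_map.2 (Filter.Eventually.of_forall fun j => ?_)
        refine ⟨mem_univ _, ?_, ?_⟩
        · rw [mem_closedBall_zero_iff]
          exact (hap j).hrb i
        · rw [mem_closedBall_zero_iff]
          exact (hap j).hzb i)
    exact ⟨q, hq⟩
  choose q hq using hlim
  have hqx : ∀ i, Tendsto (fun j => x j i) (U : Filter ℕ) (𝓝 (q i).1) := fun i =>
    (continuous_fst.tendsto _).comp (hq i)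
  have hqr : ∀ i, Tendsto (fun j => r j i) (U : Filter ℕ) (𝓝 (q i).2.1) := fun i =>
    ((continuous_fst.comp continuous_snd).tendsto _).comp (hq i)
  have hqz : ∀ i, Tendsto (fun j => ζ j i) (U : Filter ℕ) (𝓝 (q i).2.2) := fun i =>
    ((continuous_snd.comp continuous_snd).tendsto _).comp (hq i)
  have hxx : ∀ i, f₁ (q i).1 = (q (i + 1)).1 := by
    intro i
    have h1 : Tendsto (fun j => dist (f₁ (x j i)) (x j (i + 1))) (U : Filter ℕ)
        (𝓝 (dist (f₁ (q i).1) (q (i + 1)).1)) :=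
      ((hf₁.tendsto _).comp (hqx i)).dist (hqx (i + 1))
    have h2 : dist (f₁ (q i).1) (q (i + 1)).1 ≤ 0 :=
      le_of_tendsto_of_tendsto' h1 hδ0 fun j => (hap j).hx i
    exact dist_le_zero.1 h2
  have hrr : ∀ i, ∃ k, (q (i + 1)).2.1 = P (q i).1 (q i).2.1 + iv k := fun i =>
    limit_step hUC (hqx i) (hqr i) (hqr (i + 1)) hδ0 fun j => (hap j).hr i
  have hzz : ∀ i, (q (i + 1)).2.2 = fderiv ℝ (P (q i).1) (q i).2.1 (q i).2.2 := by
    intro i
    have h1 : Tendsto (fun j => fderiv ℝ (P (x j i)) (r j i)) (U : Filter ℕ)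
        (𝓝 (fderiv ℝ (P (q i).1) (q i).2.1)) :=
      (hC1.cont.tendsto ((q i).1, (q i).2.1)).comp ((hqx i).prodMk_nhds (hqr i))
    have hap2 : Continuous fun p : (EE m →L[ℝ] EE m) × EE m => p.1 p.2 :=
      isBoundedBilinearMap_apply.continuous
    have h2 : Tendsto (fun j => fderiv ℝ (P (x j i)) (r j i) (ζ j i)) (U : Filter ℕ)
        (𝓝 (fderiv ℝ (P (q i).1) (q i).2.1 (q i).2.2)) :=
      (hap2.tendsto (fderiv ℝ (P (q i).1) (q i).2.1, (q i).2.2)).comp (h1.prodMk_nhds (hqz i))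
    have h3 : Tendsto (fun j => ζ j (i + 1) - fderiv ℝ (P (x j i)) (r j i) (ζ j i))
        (U : Filter ℕ) (𝓝 0) := squeeze_zero_norm (fun j => (hap j).hz i) hδ0
    have h4 := (hqz (i + 1)).sub h2
    exact sub_eq_zero.1 (tendsto_nhds_unique h4 h3)
  have hΛq : ∀ i, ((q i).1, (q i).2.1) ∈ Λ := by
    intro i
    choose p hp using fun j => (hap j).hΛ i
    have h1 : Tendsto (fun j => (p j).1) (U : Filter ℕ) (𝓝 (q i).1) :=
      tendsto_of_tendsto_of_dist (hqx i)
        (squeeze_zero (fun _ => dist_nonneg) (fun j => (hp j).2.1) hδ0)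
    have h2 : Tendsto (fun j => (p j).2) (U : Filter ℕ) (𝓝 (q i).2.1) := by
      have h3 : Tendsto (fun j => r j i - (p j).2) (U : Filter ℕ) (𝓝 0) :=
        squeeze_zero_norm (fun j => (hp j).2.2) hδ0
      have h4 := (hqr i).sub h3
      simpa using h4
    exact H.closed.mem_of_tendsto (h1.prodMk_nhds h2) (Eventually.of_forall fun j => (hp j).1)
  have hb1 : ∀ i, ‖(q i).2.2‖ ≤ 1 := fun i =>
    le_of_tendsto' (hqz i).norm fun j => (hap j).hzb i
  have h00 : ‖(q 0).2.2‖ = 1 :=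
    tendsto_nhds_unique (hqz 0).norm (tendsto_const_nhds.congr fun j => ((hap j).hz0).symm)
  have hzero := zero_of_bdd H hP hD (x := fun i => (q i).1) (r := fun i => (q i).2.1)
    (z := fun i => (q i).2.2) hΛq hxx hrr hzz hb1 0
  rw [show (q 0).2.2 = 0 from hzero, norm_zero] at h00
  exact zero_ne_one h00

end Pool.Agent.OmegaFT
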