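import Pool.Agent.Work.MP_814647_an.FT.Stmts2

/-!
# Item VertCoord: the vertical splitting in coordinates
-/

open Set Filter Topology Function
open scoped Manifold ContDiff

noncomputable section

namespace Pool.Agent.OmegaFT

open Pool.Agent.OmegaStab (EE Dyn)
open Pool.Agent.OmegaStability

namespace XVertCoord

theorem continuous_rnorm {E : Type*} [NormedAddCommGroup E] [NormedSpace ℝ E]
    {M : Type*} [MetricSpace M] [ChartedSpace E M] [IsManifold 𝓘(ℝ, E) ∞ M] (γ : RMetric E M) :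
    Continuous (fun v : TangentBundle 𝓘(ℝ, E) M => rnorm γ v.1 v.2) := by
  have : IsManifold 𝓘(ℝ, E) 1 M := IsManifold.of_le (n := ∞) (by simp)
  unfold rnorm
  refine Real.continuous_sqrt.comp ?_
  rw [continuous_iff_continuousAt]
  intro x
  have hid : ContinuousAt (fun m : TangentBundle 𝓘(ℝ, E) M =>
      Bundle.TotalSpace.mk' E (E := (TangentSpace 𝓘(ℝ, E) : M → Type _)) m.1 m.2) x :=
    continuousAt_id
  have hp : ContinuousAt (fun v : TangentBundle 𝓘(ℝ, E) M => v.1) x :=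
    (FiberBundle.continuous_proj E (TangentSpace 𝓘(ℝ, E) : M → Type _)).continuousAt
  have h1 : ContinuousAt (fun m : TangentBundle 𝓘(ℝ, E) M =>
      Bundle.TotalSpace.mk' ℝ (E := Bundle.Trivial M ℝ) m.1 (γ.inner m.1 m.2 m.2)) x :=
    (γ.continuous.continuousAt.comp hp).clm_bundle_apply₂ (F₁ := E) (F₂ := E) hid hid
  rw [FiberBundle.continuousAt_totalSpace] at h1
  exact h1.2

theorem rnorm_smul' {E : Type*} [NormedAddCommGroup E] [NormedSpace ℝ E]
    {M : Type*} [MetricSpace M] [ChartedSpace E M] [IsManifold 𝓘(ℝ, E) ∞ M] (γ : RMetric E M)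
    (x : M) (t : ℝ) (v : TangentSpace 𝓘(ℝ, E) x) : rnorm γ x (t • v) = |t| * rnorm γ x v := by
  have h : γ.inner x (t • v) (t • v) = t ^ 2 * γ.inner x v v := by
    simp only [map_smul, smul_apply, smul_eq_mul]
    ring
  unfold rnorm
  rw [h, Real.sqrt_mul (sq_nonneg t), Real.sqrt_sq_eq_abs]

section

variable {d₁ m d : ℕ} {N T M : Type*} [MetricSpace N] [ChartedSpace (EE d₁) N]
  [MetricSpace T] [ChartedSpace (EE m) T]
  [MetricSpace M] [ChartedSpace (EE d) M]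

/-- The map `(x, v) ↦ Φ.symm (x, e v)`. -/
def Psi (Φ : Diffeomorph (𝓡 d) ((𝓡 d₁).prod (𝓡 m)) M (N × T) ∞) (e : EE m → T)
    (z : N × EE m) : M := Φ.symm (z.1, e z.2)

/-- Its partial derivative in `v`. -/
def JJ (Φ : Diffeomorph (𝓡 d) ((𝓡 d₁).prod (𝓡 m)) M (N × T) ∞) (e : EE m → T)
    (x : N) (v : EE m) : EE m →L[ℝ] EE d :=
  mfderiv (𝓡 m) (𝓡 d) (fun w => Psi Φ e (x, w)) v

variable (Φ : Diffeomorph (𝓡 d) ((𝓡 d₁).prod (𝓡 m)) M (N × T) ∞) (e : EE m → T)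
  (he : IsLocalDiffeomorph (𝓡 m) (𝓡 m) ∞ e)

include he in
theorem psi_smooth : ContMDiff ((𝓡 d₁).prod (𝓡 m)) (𝓡 d) ∞ (Psi Φ e) :=
  Φ.symm.contMDiff.comp (contMDiff_fst.prodMk (he.contMDiff.comp contMDiff_snd))

include he in
theorem psix_mdiff (x : N) (v : EE m) :
    MDifferentiableAt (𝓡 m) (𝓡 d) (fun w => Psi Φ e (x, w)) v := by
  have h : ContMDiff (𝓡 m) (𝓡 d) ∞ (fun w => Psi Φ e (x, w)) :=
    (psi_smooth Φ e he).comp (contMDiff_const.prodMk contMDiff_id)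
  exact (h v).mdifferentiableAt (by simp)

include he in
theorem JJ_eq (x : N) (v c : EE m) :
    JJ Φ e x v c = mfderiv ((𝓡 d₁).prod (𝓡 m)) (𝓡 d) (Psi Φ e) (x, v) ((0 : EE d₁), c) := by
  have h1 : MDifferentiableAt ((𝓡 d₁).prod (𝓡 m)) (𝓡 d) (Psi Φ e) (x, v) :=
    (psi_smooth Φ e he (x, v)).mdifferentiableAt (by simp)
  have h2 : MDifferentiableAt (𝓡 m) ((𝓡 d₁).prod (𝓡 m)) (fun w : EE m => (x, w)) v :=
    mdifferentiableAt_const.prodMk mdifferentiableAt_id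
  have h3 := mfderiv_comp v (g := Psi Φ e) (f := fun w : EE m => (x, w)) h1 h2
  have h4 : JJ Φ e x v = mfderiv (𝓡 m) (𝓡 d) (Psi Φ e ∘ fun w : EE m => (x, w)) v := rfl
  rw [h4, h3, mfderiv_prod_right]
  rfl

include he in
theorem JJ_cont [IsManifold (𝓡 d₁) 1 N] [IsManifold (𝓡 m) 1 T] [IsManifold (𝓡 d) 1 M] :
    Continuous (fun z : (N × EE m) × EE m =>
    (⟨Psi Φ e z.1, JJ Φ e z.1.1 z.1.2 z.2⟩ : TangentBundle (𝓡 d) M)) := by
  have hT : Continuous (tangentMap ((𝓡 d₁).prod (𝓡 m)) (𝓡 d) (Psi Φ e)) :=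
    (psi_smooth Φ e he).continuous_tangentMap (by simp)
  have h0 : Continuous (fun x : N => (⟨x, 0⟩ : TangentBundle (𝓡 d₁) N)) :=
    (Bundle.contMDiff_zeroSection ℝ (n := 0) (IB := 𝓡 d₁) (TangentSpace (𝓡 d₁) : N → Type _)).continuous
  have h1 : Continuous (fun z : EE m × EE m => (⟨z.1, z.2⟩ : TangentBundle (𝓡 m) (EE m))) :=
    (tangentBundleModelSpaceHomeomorph (𝓡 m)).symm.continuous
  have h2 : Continuous (equivTangentBundleProd (𝓡 d₁) N (𝓡 m) (EE m)).symm :=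
    (contMDiff_equivTangentBundleProd_symm (n := 0)).continuous
  have h3 : Continuous (fun z : (N × EE m) × EE m =>
      (⟨z.1, ((0 : EE d₁), z.2)⟩ : TangentBundle ((𝓡 d₁).prod (𝓡 m)) (N × EE m))) :=
    h2.comp ((h0.comp (continuous_fst.comp continuous_fst)).prodMk
      (h1.comp ((continuous_snd.comp continuous_fst).prodMk continuous_snd)))
  refine (hT.comp h3).congr fun z => ?_
  show (⟨Psi Φ e z.1, mfderiv ((𝓡 d₁).prod (𝓡 m)) (𝓡 d) (Psi Φ e) z.1 ((0 : EE d₁), z.2)⟩ :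
    TangentBundle (𝓡 d) M) = _
  rw [JJ_eq Φ e he]


/-- The derivative of `Φ.symm`. -/
def D1 (q : N × T) : EE d₁ × EE m →L[ℝ] EE d :=
  mfderiv ((𝓡 d₁).prod (𝓡 m)) (𝓡 d) Φ.symm q

/-- The derivative of `Φ`. -/
def D2 (p : M) : EE d →L[ℝ] EE d₁ × EE m :=
  mfderiv (𝓡 d) ((𝓡 d₁).prod (𝓡 m)) Φ p

/-- The derivative of `e`. -/
def De (v : EE m) : EE m →L[ℝ] EE m := mfderiv (𝓡 m) (𝓡 m) e v

include he in
theorem JJ_factor (x : N) (v c : EE m) :
    JJ Φ e x v c = D1 Φ (x, e v) ((0 : EE d₁), De e v c) := by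
  have h1 : MDifferentiableAt ((𝓡 d₁).prod (𝓡 m)) (𝓡 d) Φ.symm (x, e v) :=
    (Φ.symm.contMDiff (x, e v)).mdifferentiableAt (by simp)
  have he' : MDifferentiableAt (𝓡 m) (𝓡 m) e v := (he.contMDiff v).mdifferentiableAt (by simp)
  have h2 : MDifferentiableAt (𝓡 m) ((𝓡 d₁).prod (𝓡 m)) (fun w : EE m => (x, e w)) v :=
    mdifferentiableAt_const.prodMk he'
  have h3 := mfderiv_comp v (g := Φ.symm) (f := fun w : EE m => (x, e w)) h1 h2
  have h4 : JJ Φ e x v = mfderiv (𝓡 m) (𝓡 d) (Φ.symm ∘ fun w : EE m => (x, e w)) v := rfl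
  have h5 : mfderiv (𝓡 m) ((𝓡 d₁).prod (𝓡 m)) (fun w : EE m => (x, e w)) v =
      (mfderiv (𝓡 m) (𝓡 d₁) (fun _ : EE m => x) v).prod (mfderiv (𝓡 m) (𝓡 m) e v) :=
    mdifferentiableAt_const.mfderiv_prod he'
  rw [h4, h3, h5, mfderiv_const]
  rfl

/-- The derivative of the base projection. -/
def db (x : M) : EE d →L[ℝ] EE d₁ :=
  mfderiv (𝓡 d) (𝓡 d₁) (fun z : M => (Φ z).1) x

theorem db_eq (p : M) (u : EE d) : db Φ p u = (D2 Φ p u).1 := by
  have h1 : MDifferentiableAt (𝓡 d) ((𝓡 d₁).prod (𝓡 m)) Φ p :=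
    (Φ.contMDiff p).mdifferentiableAt (by simp)
  have h3 := mfderiv_comp p (g := (Prod.fst : N × T → N)) (f := Φ)
    (mdifferentiableAt_fst (I := 𝓡 d₁) (I' := 𝓡 m)) h1
  have h4 : db Φ p = mfderiv (𝓡 d) (𝓡 d₁) (Prod.fst ∘ Φ) p := rfl
  rw [h4, h3, mfderiv_fst]
  rfl

theorem left_inv (q : N × T) (w : EE d₁ × EE m) : D2 Φ (Φ.symm q) (D1 Φ q w) = w := by
  have h1 : MDifferentiableAt ((𝓡 d₁).prod (𝓡 m)) (𝓡 d) Φ.symm q :=
    (Φ.symm.contMDiff q).mdifferentiableAt (by simp)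
  have h2 : MDifferentiableAt (𝓡 d) ((𝓡 d₁).prod (𝓡 m)) Φ (Φ.symm q) :=
    (Φ.contMDiff _).mdifferentiableAt (by simp)
  have h3 := mfderiv_comp q (g := Φ) (f := Φ.symm) h2 h1
  have h4 : (Φ ∘ Φ.symm : N × T → N × T) = id := by
    funext z
    exact Φ.apply_symm_apply z
  rw [h4, mfderiv_id] at h3
  exact (congrArg (fun L : (EE d₁ × EE m) →L[ℝ] (EE d₁ × EE m) => L w) h3).symm

theorem right_inv (q : N × T) (u : EE d) : D1 Φ q (D2 Φ (Φ.symm q) u) = u := by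
  have h1 : MDifferentiableAt ((𝓡 d₁).prod (𝓡 m)) (𝓡 d) Φ.symm q :=
    (Φ.symm.contMDiff q).mdifferentiableAt (by simp)
  have h2 : MDifferentiableAt (𝓡 d) ((𝓡 d₁).prod (𝓡 m)) Φ (Φ.symm q) :=
    (Φ.contMDiff _).mdifferentiableAt (by simp)
  have h3 := mfderiv_comp_of_eq (x := Φ.symm q) (y := q) (g := Φ.symm) (f := Φ) h1 h2
    (Φ.apply_symm_apply q)
  have h4 : (Φ.symm ∘ Φ : M → M) = id := by
    funext z
    exact Φ.symm_apply_apply z
  rw [h4, mfderiv_id] at h3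
  have h5 : D1 Φ (Φ (Φ.symm q)) (D2 Φ (Φ.symm q) u) = u :=
    (congrArg (fun L : EE d →L[ℝ] EE d => L u) h3).symm
  rwa [Φ.apply_symm_apply q] at h5

/-- The derivative of `e` as an equivalence. -/
def de (v : EE m) : EE m ≃L[ℝ] EE m := he.mfderivToContinuousLinearEquiv (by simp) v

theorem de_apply (v c : EE m) : de e he v c = De e v c := rfl

include he in
theorem db_JJ (x : N) (v c : EE m) : db Φ (Psi Φ e (x, v)) (JJ Φ e x v c) = 0 := by
  rw [JJ_factor Φ e he, db_eq]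
  have := left_inv Φ (x, e v) ((0 : EE d₁), De e v c)
  exact congrArg Prod.fst this

include he in
theorem JJ_inj (x : N) (v c : EE m) (h : JJ Φ e x v c = 0) : c = 0 := by
  rw [JJ_factor Φ e he] at h
  have h1 := left_inv Φ (x, e v) ((0 : EE d₁), De e v c)
  rw [h, map_zero] at h1
  have h2 : de e he v c = 0 := (congrArg Prod.snd h1).symm
  exact (de e he v).map_eq_zero_iff.1 h2

include he in
theorem JJ_surj (x : N) (v : EE m) (u : EE d) (h : db Φ (Psi Φ e (x, v)) u = 0) :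
    ∃ c, JJ Φ e x v c = u := by
  obtain ⟨w, hw⟩ : ∃ w, w = D2 Φ (Φ.symm (x, e v)) u := ⟨_, rfl⟩
  have h0 : w.1 = 0 := by
    rw [← h, db_eq, hw]
    rfl
  refine ⟨(de e he v).symm w.2, ?_⟩
  rw [JJ_factor Φ e he]
  have h1 : De e v ((de e he v).symm w.2) = w.2 := (de e he v).apply_symm_apply w.2
  rw [h1]
  have h2 : ((0 : EE d₁), w.2) = w := by rw [← h0]
  rw [h2, hw]
  exact right_inv Φ (x, e v) u


section Dynamics

theorem md_iter {g : M → M} (hg : MDifferentiable (𝓡 d) (𝓡 d) g) (n : ℕ) :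
    MDifferentiable (𝓡 d) (𝓡 d) g^[n] := by
  induction n with
  | zero => exact mdifferentiable_id
  | succ n ih =>
    rw [iterate_succ]
    exact ih.comp hg

/-- The derivative of a self-map of `M`. -/
def Dg (g : M → M) (p : M) : EE d →L[ℝ] EE d := mfderiv (𝓡 d) (𝓡 d) g p

theorem Dg_comp {g h : M → M} (hg : MDifferentiable (𝓡 d) (𝓡 d) g)
    (hh : MDifferentiable (𝓡 d) (𝓡 d) h) (p : M) (c : EE d) :
    Dg (d := d) (g ∘ h) p c = Dg (d := d) g (h p) (Dg (d := d) h p c) := by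
  have h3 := mfderiv_comp p (g := g) (f := h) (hg (h p)) (hh p)
  have h4 : Dg (d := d) (g ∘ h) p = mfderiv (𝓡 d) (𝓡 d) (g ∘ h) p := rfl
  rw [h4, h3]
  rfl

theorem Dg_id (p : M) (c : EE d) : Dg (d := d) (id : M → M) p c = c := by
  have h4 : Dg (d := d) (id : M → M) p = mfderiv (𝓡 d) (𝓡 d) (id : M → M) p := rfl
  rw [h4, mfderiv_id]
  rfl

variable {f : M → M} (hf : MDifferentiable (𝓡 d) (𝓡 d) f) {P : N → EE m → EE m} {f₁ : N → N}
  (hP : ∀ x, Differentiable ℝ (P x))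
  (hrel : ∀ x v, f (Psi Φ e (x, v)) = Psi Φ e (f₁ x, P x v))

include he hf hP hrel in
theorem rel_D (x : N) (v c : EE m) :
    Dg (d := d) f (Psi Φ e (x, v)) (JJ Φ e x v c) = JJ Φ e (f₁ x) (P x v) (fderiv ℝ (P x) v c) := by
  have h1 : MDifferentiableAt (𝓡 m) (𝓡 m) (P x) v := (hP x v).mdifferentiableAt
  have h2 := mfderiv_comp v (g := fun w => Psi Φ e (f₁ x, w)) (f := P x)
    (psix_mdiff Φ e he (f₁ x) (P x v)) h1
  have h3 := mfderiv_comp v (g := f) (f := fun w => Psi Φ e (x, w)) (hf _)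
    (psix_mdiff Φ e he x v)
  have h4 : (f ∘ fun w => Psi Φ e (x, w)) = (fun w => Psi Φ e (f₁ x, w)) ∘ P x := by
    funext w
    exact hrel x w
  rw [h4, h2, mfderiv_eq_fderiv] at h3
  exact (congrArg (fun L : EE m →L[ℝ] EE d => L c) h3).symm

/-- The skew product. -/
def GG (f₁ : N → N) (P : N → EE m → EE m) (z : N × EE m) : N × EE m := (f₁ z.1, P z.1 z.2)

include hrel in
theorem rel_iter (n : ℕ) (z : N × EE m) : f^[n] (Psi Φ e z) = Psi Φ e ((GG f₁ P)^[n] z) := by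
  induction n generalizing z with
  | zero => rfl
  | succ n ih =>
    rw [iterate_succ_apply, iterate_succ_apply, ← ih]
    exact congrArg _ (hrel z.1 z.2)

include he hf hP hrel in
theorem rel_iter_D (n : ℕ) (x : N) (v c : EE m) :
    Dg (d := d) f^[n] (Psi Φ e (x, v)) (JJ Φ e x v c) =
      JJ Φ e ((GG f₁ P)^[n] (x, v)).1 ((GG f₁ P)^[n] (x, v)).2 (vder f₁ P n x v c) := by
  induction n generalizing x v c with
  | zero =>
    rw [iterate_zero, Dg_id]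
    rfl
  | succ n ih =>
    rw [iterate_succ, Dg_comp (md_iter hf n) hf, rel_D Φ e he hf hP hrel, hrel, ih]
    rfl

end Dynamics

section Periodic

variable (hT : TopTorus e)

omit [ChartedSpace (EE m) T] in
include hT in
theorem e_per (v : EE m) (k : Fin m → ℤ) : e (v + iv k) = e v :=
  ((hT.fibre v (v + iv k)).2 ⟨k, rfl⟩).symm

include hT in
theorem psi_per (x : N) (v : EE m) (k : Fin m → ℤ) : Psi Φ e (x, v + iv k) = Psi Φ e (x, v) := by
  unfold Psi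
  rw [e_per e hT]

include he hT in
theorem JJ_per (x : N) (v : EE m) (k : Fin m → ℤ) : JJ Φ e x (v + iv k) = JJ Φ e x v := by
  have h0 : (fun w => Psi Φ e (x, w)) ∘ (fun w : EE m => w + iv k) = fun w => Psi Φ e (x, w) := by
    funext w
    exact psi_per Φ e hT x w k
  have h1 : DifferentiableAt ℝ (fun w : EE m => w + iv k) v := by fun_prop
  have h2 := mfderiv_comp v (g := fun w => Psi Φ e (x, w)) (f := fun w : EE m => w + iv k)
    (psix_mdiff Φ e he x (v + iv k)) h1.mdifferentiableAt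
  have h3 : fderiv ℝ (fun w : EE m => w + iv k) v = ContinuousLinearMap.id ℝ (EE m) := by
    rw [fderiv_add_const]
    exact fderiv_fun_id
  rw [h0, mfderiv_eq_fderiv, h3] at h2
  exact h2.symm

/-- The unit cube. -/
def cube (m : ℕ) : Set (EE m) :=
  (WithLp.toLp 2 : (Fin m → ℝ) → EE m) '' (Set.univ.pi fun _ => Icc (0 : ℝ) 1)

theorem cube_compact (m : ℕ) : IsCompact (cube m) :=
  (isCompact_univ_pi fun _ => isCompact_Icc).image (PiLp.continuous_toLp 2 _)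

theorem exists_cube {m : ℕ} (v : EE m) : ∃ w ∈ cube m, ∃ k : Fin m → ℤ, v = w + iv k := by
  refine ⟨WithLp.toLp 2 fun i => Int.fract (v i), ⟨_, fun i _ => ⟨Int.fract_nonneg _,
    (Int.fract_lt_one _).le⟩, rfl⟩, fun i => ⌊v i⌋, ?_⟩
  ext i
  simp [iv, Int.fract_add_floor]

end Periodic

section Metric

variable [IsManifold (𝓡 d₁) ∞ N] [IsManifold (𝓡 m) ∞ T] [IsManifold (𝓡 d) ∞ M] [CompactSpace N]
  (γ : RMetric (EE d) M)

/-- The Riemannian norm of a vector. -/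
def rn (p : M) (u : EE d) : ℝ := rnorm γ p u

omit [CompactSpace N] in
theorem rn_smul (p : M) (t : ℝ) (u : EE d) : rn γ p (t • u) = |t| * rn γ p u :=
  rnorm_smul' γ p t u

omit [CompactSpace N] in
theorem rn_pos (p : M) (u : EE d) (hu : u ≠ 0) : 0 < rn γ p u :=
  Real.sqrt_pos.2 (γ.pos p u hu)

omit [CompactSpace N] in
theorem rn_nonneg (p : M) (u : EE d) : 0 ≤ rn γ p u := Real.sqrt_nonneg _

omit [CompactSpace N] in
include he in
theorem rn_cont : Continuous (fun z : (N × EE m) × EE m =>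
    rn γ (Psi Φ e z.1) (JJ Φ e z.1.1 z.1.2 z.2)) := by
  have : IsManifold (𝓡 d₁) 1 N := IsManifold.of_le (n := ∞) (by simp)
  have : IsManifold (𝓡 m) 1 T := IsManifold.of_le (n := ∞) (by simp)
  have : IsManifold (𝓡 d) 1 M := IsManifold.of_le (n := ∞) (by simp)
  exact (continuous_rnorm γ).comp (JJ_cont Φ e he)

include he in
theorem bounds (hT : TopTorus e) : ∃ a b : ℝ, 0 < a ∧ 0 < b ∧ ∀ x v c,
    a * ‖c‖ ≤ rn γ (Psi Φ e (x, v)) (JJ Φ e x v c) ∧
      rn γ (Psi Φ e (x, v)) (JJ Φ e x v c) ≤ b * ‖c‖ := by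
  set S : Set ((N × EE m) × EE m) := (univ ×ˢ cube m) ×ˢ Metric.sphere (0 : EE m) 1 with hS
  have hSc : IsCompact S := (isCompact_univ.prod (cube_compact m)).prod (isCompact_sphere 0 1)
  set F : (N × EE m) × EE m → ℝ := fun z => rn γ (Psi Φ e z.1) (JJ Φ e z.1.1 z.1.2 z.2) with hF
  have hFc : Continuous F := rn_cont Φ e he γ
  have hpos : ∀ z ∈ S, 0 < F z := by
    rintro ⟨⟨x, v⟩, c⟩ hz
    apply rn_pos
    intro h
    have h0 := JJ_inj Φ e he x v c h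
    have h1 : ‖c‖ = 1 := by simpa using hz.2
    rw [h0] at h1
    simp at h1
  obtain ⟨b, hb⟩ := hSc.bddAbove_image hFc.continuousOn
  obtain ⟨B, hB⟩ := hSc.bddAbove_image
    (f := fun z => (F z)⁻¹) (hFc.continuousOn.inv₀ fun z hz => (hpos z hz).ne')
  have hb' : ∀ z ∈ S, F z ≤ max b 1 := fun z hz => (hb ⟨z, hz, rfl⟩).trans (le_max_left _ _)
  have hB' : ∀ z ∈ S, (max B 1)⁻¹ ≤ F z := by
    intro z hz
    have h1 : (F z)⁻¹ ≤ max B 1 := (hB ⟨z, hz, rfl⟩).trans (le_max_left _ _)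
    rw [inv_le_comm₀ (by positivity) (hpos z hz)]
    exact h1
  refine ⟨(max B 1)⁻¹, max b 1, by positivity, by positivity, fun x v c => ?_⟩
  obtain ⟨w, hw, k, rfl⟩ := exists_cube v
  rw [psi_per Φ e hT, JJ_per Φ e he hT]
  by_cases hc : c = 0
  · subst hc
    have h0 : rn γ (Psi Φ e (x, w)) ((0 : ℝ) • (0 : EE d)) = 0 := by
      rw [rn_smul]
      simp
    rw [smul_zero] at h0
    rw [map_zero, h0]
    simp
  have hcn : 0 < ‖c‖ := norm_pos_iff.2 hc
  have hc' : ‖(‖c‖⁻¹ • c)‖ = 1 := by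
    rw [norm_smul, norm_inv, norm_norm, inv_mul_cancel₀ hcn.ne']
  have hmem : (((x, w), ‖c‖⁻¹ • c) : (N × EE m) × EE m) ∈ S := by
    refine ⟨⟨mem_univ _, hw⟩, ?_⟩
    rw [mem_sphere_zero_iff_norm]
    exact hc'
  have hval : F ((x, w), ‖c‖⁻¹ • c) = ‖c‖⁻¹ * rn γ (Psi Φ e (x, w)) (JJ Φ e x w c) := by
    show rn γ (Psi Φ e (x, w)) (JJ Φ e x w (‖c‖⁻¹ • c)) = _
    rw [map_smul, rn_smul, abs_of_pos (inv_pos.2 hcn)]
  have h1 := hb' _ hmem
  have h2 := hB' _ hmem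
  rw [hval] at h1 h2
  constructor
  · rw [le_inv_mul_iff₀ hcn] at h2
    linarith
  · rw [inv_mul_le_iff₀ hcn] at h1
    linarith

end Metric

end

set_option linter.unusedSectionVars false

section Main

variable {d₁ m d : ℕ} {N T M : Type*} [MetricSpace N] [ChartedSpace (EE d₁) N]
  [IsManifold (𝓡 d₁) ∞ N] [CompactSpace N]
  [MetricSpace T] [ChartedSpace (EE m) T] [IsManifold (𝓡 m) ∞ T]
  [MetricSpace M] [ChartedSpace (EE d) M] [IsManifold (𝓡 d) ∞ M]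
  (Φ : Diffeomorph (𝓡 d) ((𝓡 d₁).prod (𝓡 m)) M (N × T) ∞) (e : EE m → T)

/-- An invariant family of subspaces, without the dependent type. -/
def fam (Es : TFamily (EE d) M) (p : M) : Submodule ℝ (EE d) := Es p

/-- The family in coordinates. -/
def Es' (Es : TFamily (EE d) M) (x : N) (v : EE m) : Submodule ℝ (EE m) :=
  (fam Es (Psi Φ e (x, v))).comap (JJ Φ e x v : EE m →ₗ[ℝ] EE d)

theorem mem_Es' (Es : TFamily (EE d) M) (x : N) (v c : EE m) :
    c ∈ Es' Φ e Es x v ↔ JJ Φ e x v c ∈ fam Es (Psi Φ e (x, v)) := Iff.rfl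

theorem closed_Es' (he : IsLocalDiffeomorph (𝓡 m) (𝓡 m) ∞ e) (Es : TFamily (EE d) M)
    (h : ClosedOver Es univ) :
    IsClosed {z : (N × EE m) × EE m | z.2 ∈ Es' Φ e Es z.1.1 z.1.2} := by
  have : IsManifold (𝓡 d₁) 1 N := IsManifold.of_le (n := ∞) (by simp)
  have : IsManifold (𝓡 m) 1 T := IsManifold.of_le (n := ∞) (by simp)
  have : IsManifold (𝓡 d) 1 M := IsManifold.of_le (n := ∞) (by simp)
  have h1 := IsClosed.preimage (JJ_cont Φ e he) h
  refine (Eq.subst (motive := IsClosed) ?_ h1)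
  ext z
  exact ⟨fun hz => hz.2, fun hz => ⟨mem_univ _, hz⟩⟩

theorem per_Es' (he : IsLocalDiffeomorph (𝓡 m) (𝓡 m) ∞ e) (hT : TopTorus e)
    (Es : TFamily (EE d) M) (x : N) (v : EE m) (k : Fin m → ℤ) :
    Es' Φ e Es x (v + iv k) = Es' Φ e Es x v := by
  unfold Es'
  rw [psi_per Φ e hT, JJ_per Φ e he hT]

theorem iter_mem {f : M → M} (hf : MDifferentiable (𝓡 d) (𝓡 d) f) (Es : TFamily (EE d) M)
    (h : InvariantOver f Es univ) (n : ℕ) (p : M) (u : EE d) (hu : u ∈ fam Es p) :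
    Dg (d := d) f^[n] p u ∈ fam Es (f^[n] p) := by
  induction n generalizing p u with
  | zero =>
    rw [iterate_zero, Dg_id]
    exact hu
  | succ n ih =>
    rw [iterate_succ, Dg_comp (md_iter hf n) hf]
    exact ih (f p) _ (h p (mem_univ p) u hu)

theorem main {r : ℕ∞} (hr : 1 ≤ r) (f : Dyn d M r)
    (he : IsLocalDiffeomorph (𝓡 m) (𝓡 m) ∞ e) (hT : TopTorus e)
    (A : EE m ≃L[ℝ] EE m) (φ : N → EE m → EE m) (f₁ : N → N)
    (hL : Lifted e A φ f₁ (fun z => Φ (f (Φ.symm z))))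
    (hC : VertC1 (fun x v => A v + φ x v))
    (Es Eu : TFamily (EE d) M) (γ : RMetric (EE d) M) (c μ : ℝ)
    (hV : VertHyp Φ f f.symm Es Eu γ c μ) :
    ∃ (Es' Eu' : N → EE m → Submodule ℝ (EE m)) (C' μ' : ℝ),
      VSplit f₁ (fun x v => A v + φ x v) Es' Eu' C' μ' := by
  obtain ⟨hcs, hcu, his, hiu, hdis, hker, hc, hμ, hμ1, hcon, hexp⟩ := hV
  have hr0 : ((r : ℕ∞) : ℕ∞ω) ≠ 0 := by
    intro h
    have h1 : r = 0 := by exact_mod_cast h
    rw [h1] at hr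
    exact absurd hr (by decide)
  have hf : MDifferentiable (𝓡 d) (𝓡 d) f := f.mdifferentiable hr0
  have hf' : MDifferentiable (𝓡 d) (𝓡 d) f.symm := f.symm.mdifferentiable hr0
  set P : N → EE m → EE m := fun x v => A v + φ x v with hPdef
  have hP : ∀ x, Differentiable ℝ (P x) := hC.diff
  have hrel : ∀ x v, f (Psi Φ e (x, v)) = Psi Φ e (f₁ x, P x v) := by
    intro x v
    have h : Φ (f (Φ.symm (x, e v))) = (f₁ x, e (A v + φ x v)) := hL.eq x v
    have h2 : f (Φ.symm (x, e v)) = Φ.symm (f₁ x, e (A v + φ x v)) := by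
      rw [← h, Φ.symm_apply_apply]
    exact h2
  obtain ⟨a, b, ha, hb, hab⟩ := bounds Φ e he γ hT
  have hdb : ∀ p (u : EE d), db Φ p u = 0 ↔ ∃ s : EE d, s ∈ fam Es p ∧ ∃ t : EE d,
      t ∈ fam Eu p ∧ u = s + t := fun p u => hker p u
  have hJs : ∀ x v (s : EE d), s ∈ fam Es (Psi Φ e (x, v)) → ∃ c, JJ Φ e x v c = s :=
    fun x v s hs => JJ_surj Φ e he x v s ((hdb _ s).2 ⟨s, hs, 0, Submodule.zero_mem _, by simp⟩)
  have hJu : ∀ x v (s : EE d), s ∈ fam Eu (Psi Φ e (x, v)) → ∃ c, JJ Φ e x v c = s :=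
    fun x v s hs => JJ_surj Φ e he x v s ((hdb _ s).2 ⟨0, Submodule.zero_mem _, s, hs, by simp⟩)
  have hinv : ∀ F : TFamily (EE d) M, InvariantOver f F univ → ∀ x v, ∀ w ∈ Es' Φ e F x v,
      fderiv ℝ (P x) v w ∈ Es' Φ e F (f₁ x) (P x v) := by
    intro F hF x v w hw
    rw [mem_Es'] at hw ⊢
    rw [← rel_D Φ e he hf hP hrel, ← hrel]
    exact hF _ (mem_univ _) _ hw
  refine ⟨Es' Φ e Es, Es' Φ e Eu, max 1 (c * b / a), μ, ?_⟩
  constructor
  · exact le_max_left _ _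
  · exact hμ
  · exact hμ1
  · exact closed_Es' Φ e he Es hcs
  · exact closed_Es' Φ e he Eu hcu
  · intro x v
    constructor
    · rw [Submodule.disjoint_def]
      intro w hs hu
      rw [mem_Es'] at hs hu
      have h0 : JJ Φ e x v w = 0 := (Submodule.disjoint_def.1 (hdis (Psi Φ e (x, v)))) _ hs hu
      exact JJ_inj Φ e he x v w h0
    · rw [codisjoint_iff_le_sup]
      intro w _
      obtain ⟨s, hs, t, ht, hst⟩ := (hdb _ _).1 (db_JJ Φ e he x v w)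
      obtain ⟨c1, hc1⟩ := hJs x v s hs
      obtain ⟨c2, hc2⟩ := hJu x v t ht
      have h0 : w = c1 + c2 := by
        have h1 : JJ Φ e x v (w - (c1 + c2)) = 0 := by
          rw [map_sub, map_add, hc1, hc2, hst, sub_self]
        exact sub_eq_zero.1 (JJ_inj Φ e he x v _ h1)
      rw [h0]
      refine Submodule.add_mem_sup ?_ ?_
      · rw [mem_Es', hc1]; exact hs
      · rw [mem_Es', hc2]; exact ht
  · exact per_Es' Φ e he hT Es
  · exact per_Es' Φ e he hT Eu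
  · exact hinv Es his
  · exact hinv Eu hiu
  · intro x v w hw n
    rw [mem_Es'] at hw
    have h1 : rn γ (f^[n] (Psi Φ e (x, v))) (Dg (d := d) f^[n] (Psi Φ e (x, v)) (JJ Φ e x v w)) ≤
        c * μ ^ n * rn γ (Psi Φ e (x, v)) (JJ Φ e x v w) := hcon _ (mem_univ _) _ hw n
    rw [rel_iter_D Φ e he hf hP hrel, rel_iter Φ e hrel] at h1
    have h2 := (hab ((GG f₁ P)^[n] (x, v)).1 ((GG f₁ P)^[n] (x, v)).2 (vder f₁ P n x v w)).1
    have h3 := (hab x v w).2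
    have h4 : a * ‖vder f₁ P n x v w‖ ≤ c * μ ^ n * (b * ‖w‖) :=
      h2.trans (h1.trans (by gcongr))
    calc ‖vder f₁ P n x v w‖ ≤ (c * μ ^ n * (b * ‖w‖)) / a := by
          rw [le_div_iff₀ ha]
          linarith
      _ = (c * b / a) * μ ^ n * ‖w‖ := by ring
      _ ≤ max 1 (c * b / a) * μ ^ n * ‖w‖ := by
          gcongr
          exact le_max_right _ _
  · intro x v w hw n
    rw [mem_Es'] at hw
    have h0 := iter_mem hf Eu hiu n _ _ hw
    have h1 : rn γ (f.symm^[n] (f^[n] (Psi Φ e (x, v)))) (Dg (d := d) f.symm^[n]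
        (f^[n] (Psi Φ e (x, v))) (Dg (d := d) f^[n] (Psi Φ e (x, v)) (JJ Φ e x v w))) ≤
        c * μ ^ n * rn γ (f^[n] (Psi Φ e (x, v)))
          (Dg (d := d) f^[n] (Psi Φ e (x, v)) (JJ Φ e x v w)) := hexp _ (mem_univ _) _ h0 n
    have hid : (f.symm^[n] ∘ f^[n] : M → M) = id := by
      funext z
      exact (LeftInverse.iterate (f := f) (g := f.symm) f.symm_apply_apply n) z
    rw [← Dg_comp (md_iter hf' n) (md_iter hf n), hid, Dg_id] at h1
    have hid' : f.symm^[n] (f^[n] (Psi Φ e (x, v))) = Psi Φ e (x, v) :=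
      (LeftInverse.iterate (f := f) (g := f.symm) f.symm_apply_apply n) _
    rw [hid', rel_iter_D Φ e he hf hP hrel, rel_iter Φ e hrel] at h1
    have h2 := (hab ((GG f₁ P)^[n] (x, v)).1 ((GG f₁ P)^[n] (x, v)).2 (vder f₁ P n x v w)).2
    have h3 := (hab x v w).1
    have h4 : a * ‖w‖ ≤ c * μ ^ n * (b * ‖vder f₁ P n x v w‖) :=
      h3.trans (h1.trans (by gcongr))
    calc ‖w‖ ≤ (c * μ ^ n * (b * ‖vder f₁ P n x v w‖)) / a := by
          rw [le_div_iff₀ ha]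
          linarith
      _ = (c * b / a) * μ ^ n * ‖vder f₁ P n x v w‖ := by ring
      _ ≤ max 1 (c * b / a) * μ ^ n * ‖vder f₁ P n x v w‖ := by
          gcongr
          exact le_max_right _ _

end Main

end XVertCoord

universe u v w

theorem prf_VertCoord : VertCoord.{u, v, w} := by
  intro d₁ m d N T M _ _ _ _ _ _ _ _ _ _ _ _ r hr Φ f e he hT A _ φ f₁ hL hC Es Eu γ c μ hV
  exact XVertCoord.main Φ e hr f he hT A φ f₁ hL hC Es Eu γ c μ hV

end Pool.Agent.OmegaFT
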