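import Pool.Agent.Work.MP_814647_an.FT.Stmts3
import Pool.Agent.Work.MP_814647_an.FT.I_VertCoord

/-!
# Item VertCoordOn: the vertical splitting in coordinates, over a closed invariant set
-/

open Set Filter Topology Function
open scoped Manifold ContDiff

noncomputable section

namespace Pool.Agent.OmegaFT

open Pool.Agent.OmegaStab (EE Dyn)
open Pool.Agent.OmegaStability

namespace XVertCoordOn

open XVertCoord

set_option linter.unusedSectionVars false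

variable {d₁ m d : ℕ} {N T M : Type*} [MetricSpace N] [ChartedSpace (EE d₁) N]
  [IsManifold (𝓡 d₁) ∞ N] [CompactSpace N]
  [MetricSpace T] [ChartedSpace (EE m) T] [IsManifold (𝓡 m) ∞ T]
  [MetricSpace M] [ChartedSpace (EE d) M] [IsManifold (𝓡 d) ∞ M]
  (Φ : Diffeomorph (𝓡 d) ((𝓡 d₁).prod (𝓡 m)) M (N × T) ∞) (e : EE m → T)

/-- The set in coordinates. -/
def LL (Λ : Set M) : Set (N × EE m) := {z | Φ.symm (z.1, e z.2) ∈ Λ}

theorem mem_LL (Λ : Set M) (x : N) (v : EE m) : (x, v) ∈ LL Φ e Λ ↔ Psi Φ e (x, v) ∈ Λ := Iff.rfl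

theorem closed_LL (he : IsLocalDiffeomorph (𝓡 m) (𝓡 m) ∞ e) (Λ : Set M) (h : IsClosed Λ) :
    IsClosed (LL Φ e Λ) :=
  h.preimage (psi_smooth Φ e he).continuous

theorem closed_EsOn (he : IsLocalDiffeomorph (𝓡 m) (𝓡 m) ∞ e) (Λ : Set M) (Es : TFamily (EE d) M)
    (h : ClosedOver Es Λ) :
    IsClosed {z : (N × EE m) × EE m | z.1 ∈ LL Φ e Λ ∧ z.2 ∈ Es' Φ e Es z.1.1 z.1.2} := by
  have : IsManifold (𝓡 d₁) 1 N := IsManifold.of_le (n := ∞) (by simp)
  have : IsManifold (𝓡 m) 1 T := IsManifold.of_le (n := ∞) (by simp)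
  have : IsManifold (𝓡 d) 1 M := IsManifold.of_le (n := ∞) (by simp)
  have h1 := IsClosed.preimage (JJ_cont Φ e he) h
  refine (Eq.subst (motive := IsClosed) ?_ h1)
  ext z
  exact Iff.rfl

theorem iter_memOn {f : M → M} (hf : MDifferentiable (𝓡 d) (𝓡 d) f) (Λ : Set M)
    (hΛ : ∀ p ∈ Λ, f p ∈ Λ) (Es : TFamily (EE d) M)
    (h : InvariantOver f Es Λ) (n : ℕ) (p : M) (hp : p ∈ Λ) (u : EE d) (hu : u ∈ fam Es p) :
    f^[n] p ∈ Λ ∧ Dg (d := d) f^[n] p u ∈ fam Es (f^[n] p) := by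
  induction n generalizing p u with
  | zero =>
    rw [iterate_zero, Dg_id]
    exact ⟨hp, hu⟩
  | succ n ih =>
    rw [iterate_succ, Dg_comp (md_iter hf n) hf]
    exact ih (f p) (hΛ p hp) _ (h p hp u hu)

theorem main {r : ℕ∞} (hr : 1 ≤ r) (f : Dyn d M r)
    (he : IsLocalDiffeomorph (𝓡 m) (𝓡 m) ∞ e) (hT : TopTorus e)
    (A : EE m ≃L[ℝ] EE m) (φ : N → EE m → EE m) (f₁ : N → N)
    (hL : Lifted e A φ f₁ (fun z => Φ (f (Φ.symm z))))
    (hC : VertC1 (fun x v => A v + φ x v)) (Λ : Set M) (hΛc : IsClosed Λ)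
    (hΛ : ∀ x ∈ Λ, f x ∈ Λ)
    (Es Eu : TFamily (EE d) M) (γ : RMetric (EE d) M) (c μ : ℝ)
    (hV : VertHypOn Φ f f.symm Λ Es Eu γ c μ) :
    ∃ (Es' Eu' : N → EE m → Submodule ℝ (EE m)) (C' μ' : ℝ),
      VSplitOn f₁ (fun x v => A v + φ x v) (LL Φ e Λ) Es' Eu' C' μ' := by
  obtain ⟨hcs, hcu, his, hiu, hdis, hker, hc, hμ, hμ1, hcon, hexp⟩ := hV
  have hr0 : ((r : ℕ∞) : ℕ∞ω) ≠ 0 := by
    intro h
    have h1 : r = 0 := by exact_mod_cast h
    rw [h1] at hr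
    exact absurd hr (by decide)
  have hf : MDifferentiable (𝓡 d) (𝓡 d) f := f.mdifferentiable hr0
  have hf' : MDifferentiable (𝓡 d) (𝓡 d) f.symm := f.symm.mdifferentiable hr0
  set P : N → EE m → EE m := fun x v => A v + φ x v with hPdef
  have hP : ∀ x, Differentiable ℝ (P x) := hC.diff
  have hrel : ∀ x v, f (Psi Φ e (x, v)) = Psi Φ e (f₁ x, P x v) := by
    intro x v
    have h : Φ (f (Φ.symm (x, e v))) = (f₁ x, e (A v + φ x v)) := hL.eq x v
    have h2 : f (Φ.symm (x, e v)) = Φ.symm (f₁ x, e (A v + φ x v)) := by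
      rw [← h, Φ.symm_apply_apply]
    exact h2
  obtain ⟨a, b, ha, hb, hab⟩ := bounds Φ e he γ hT
  have hdb : ∀ p ∈ Λ, ∀ (u : EE d), db Φ p u = 0 ↔ ∃ s : EE d, s ∈ fam Es p ∧ ∃ t : EE d,
      t ∈ fam Eu p ∧ u = s + t := fun p hp u => hker p hp u
  have hJs : ∀ x v, Psi Φ e (x, v) ∈ Λ → ∀ (s : EE d), s ∈ fam Es (Psi Φ e (x, v)) →
      ∃ c, JJ Φ e x v c = s :=
    fun x v hp s hs => JJ_surj Φ e he x v s
      ((hdb _ hp s).2 ⟨s, hs, 0, Submodule.zero_mem _, by simp⟩)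
  have hJu : ∀ x v, Psi Φ e (x, v) ∈ Λ → ∀ (s : EE d), s ∈ fam Eu (Psi Φ e (x, v)) →
      ∃ c, JJ Φ e x v c = s :=
    fun x v hp s hs => JJ_surj Φ e he x v s
      ((hdb _ hp s).2 ⟨0, Submodule.zero_mem _, s, hs, by simp⟩)
  have hinv : ∀ F : TFamily (EE d) M, InvariantOver f F Λ → ∀ x v, Psi Φ e (x, v) ∈ Λ →
      ∀ w ∈ Es' Φ e F x v, fderiv ℝ (P x) v w ∈ Es' Φ e F (f₁ x) (P x v) := by
    intro F hF x v hp w hw
    rw [mem_Es'] at hw ⊢
    rw [← rel_D Φ e he hf hP hrel, ← hrel]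
    exact hF _ hp _ hw
  refine ⟨Es' Φ e Es, Es' Φ e Eu, max 1 (c * b / a), μ, ?_⟩
  constructor
  · exact le_max_left _ _
  · exact hμ
  · exact hμ1
  · exact closed_LL Φ e he Λ hΛc
  · intro x v k hp
    rw [mem_LL] at hp ⊢
    rw [psi_per Φ e hT]
    exact hp
  · intro x v hp
    rw [mem_LL] at hp ⊢
    rw [← hrel]
    exact hΛ _ hp
  · exact closed_EsOn Φ e he Λ Es hcs
  · exact closed_EsOn Φ e he Λ Eu hcu
  · intro x v hp
    rw [mem_LL] at hp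
    constructor
    · rw [Submodule.disjoint_def]
      intro w hs hu
      rw [mem_Es'] at hs hu
      have h0 : JJ Φ e x v w = 0 :=
        (Submodule.disjoint_def.1 (hdis (Psi Φ e (x, v)) hp)) _ hs hu
      exact JJ_inj Φ e he x v w h0
    · rw [codisjoint_iff_le_sup]
      intro w _
      obtain ⟨s, hs, t, ht, hst⟩ := (hdb _ hp _).1 (db_JJ Φ e he x v w)
      obtain ⟨c1, hc1⟩ := hJs x v hp s hs
      obtain ⟨c2, hc2⟩ := hJu x v hp t ht
      have h0 : w = c1 + c2 := by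
        have h1 : JJ Φ e x v (w - (c1 + c2)) = 0 := by
          rw [map_sub, map_add, hc1, hc2, hst, sub_self]
        exact sub_eq_zero.1 (JJ_inj Φ e he x v _ h1)
      rw [h0]
      refine Submodule.add_mem_sup ?_ ?_
      · rw [mem_Es', hc1]; exact hs
      · rw [mem_Es', hc2]; exact ht
  · exact fun x v k _ => per_Es' Φ e he hT Es x v k
  · exact fun x v k _ => per_Es' Φ e he hT Eu x v k
  · exact hinv Es his
  · exact hinv Eu hiu
  · intro x v hp w hw n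
    rw [mem_LL] at hp
    rw [mem_Es'] at hw
    have h1 : rn γ (f^[n] (Psi Φ e (x, v))) (Dg (d := d) f^[n] (Psi Φ e (x, v)) (JJ Φ e x v w)) ≤
        c * μ ^ n * rn γ (Psi Φ e (x, v)) (JJ Φ e x v w) := hcon _ hp _ hw n
    rw [rel_iter_D Φ e he hf hP hrel, rel_iter Φ e hrel] at h1
    have h2 := (hab ((GG f₁ P)^[n] (x, v)).1 ((GG f₁ P)^[n] (x, v)).2 (vder f₁ P n x v w)).1
    have h3 := (hab x v w).2
    have h4 : a * ‖vder f₁ P n x v w‖ ≤ c * μ ^ n * (b * ‖w‖) :=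
      h2.trans (h1.trans (by gcongr))
    calc ‖vder f₁ P n x v w‖ ≤ (c * μ ^ n * (b * ‖w‖)) / a := by
          rw [le_div_iff₀ ha]
          linarith
      _ = (c * b / a) * μ ^ n * ‖w‖ := by ring
      _ ≤ max 1 (c * b / a) * μ ^ n * ‖w‖ := by
          gcongr
          exact le_max_right _ _
  · intro x v hp w hw n
    rw [mem_LL] at hp
    rw [mem_Es'] at hw
    obtain ⟨hpn, h0⟩ := iter_memOn hf Λ hΛ Eu hiu n _ hp _ hw
    have h1 : rn γ (f.symm^[n] (f^[n] (Psi Φ e (x, v)))) (Dg (d := d) f.symm^[n]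
        (f^[n] (Psi Φ e (x, v))) (Dg (d := d) f^[n] (Psi Φ e (x, v)) (JJ Φ e x v w))) ≤
        c * μ ^ n * rn γ (f^[n] (Psi Φ e (x, v)))
          (Dg (d := d) f^[n] (Psi Φ e (x, v)) (JJ Φ e x v w)) := hexp _ hpn _ h0 n
    have hid : (f.symm^[n] ∘ f^[n] : M → M) = id := by
      funext z
      exact (LeftInverse.iterate (f := f) (g := f.symm) f.symm_apply_apply n) z
    rw [← Dg_comp (md_iter hf' n) (md_iter hf n), hid, Dg_id] at h1
    have hid' : f.symm^[n] (f^[n] (Psi Φ e (x, v))) = Psi Φ e (x, v) :=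
      (LeftInverse.iterate (f := f) (g := f.symm) f.symm_apply_apply n) _
    rw [hid', rel_iter_D Φ e he hf hP hrel, rel_iter Φ e hrel] at h1
    have h2 := (hab ((GG f₁ P)^[n] (x, v)).1 ((GG f₁ P)^[n] (x, v)).2 (vder f₁ P n x v w)).2
    have h3 := (hab x v w).1
    have h4 : a * ‖w‖ ≤ c * μ ^ n * (b * ‖vder f₁ P n x v w‖) :=
      h3.trans (h1.trans (by gcongr))
    calc ‖w‖ ≤ (c * μ ^ n * (b * ‖vder f₁ P n x v w‖)) / a := by
          rw [le_div_iff₀ ha]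
          linarith
      _ = (c * b / a) * μ ^ n * ‖vder f₁ P n x v w‖ := by ring
      _ ≤ max 1 (c * b / a) * μ ^ n * ‖vder f₁ P n x v w‖ := by
          gcongr
          exact le_max_right _ _

end XVertCoordOn

universe u v w

theorem prf_VertCoordOn : VertCoordOn.{u, v, w} := by
  intro d₁ m d N T M _ _ _ _ _ _ _ _ _ _ _ _ r hr Φ f e he hT A _ φ f₁ hL hC Λ hΛc hΛ Es Eu γ c μ
    hV
  exact XVertCoordOn.main Φ e hr f he hT A φ f₁ hL hC Λ hΛc hΛ Es Eu γ c μ hV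

end Pool.Agent.OmegaFT
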