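import Pool.Agent.Work.MP_814647_an.FT.Stmts

/-!
# Fibred tori, item VertShadow: vertical shadowing over closed pseudo-orbits of the base
-/

open Set Filter Topology Function
open scoped Manifold ContDiff

noncomputable section

namespace Pool.Agent.OmegaFT

open Pool.Agent.OmegaStab (EE HypLin)

universe u

namespace XVertShadow

/-- every vector is congruent to a vector of a fixed ball -/
theorem exists_red (m : ℕ) : ∃ R : ℝ, 0 ≤ R ∧ ∀ v : EE m, ∃ k : Fin m → ℤ, ‖v + iv k‖ ≤ R := by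
  refine ⟨Real.sqrt m, Real.sqrt_nonneg _, fun v => ⟨fun i => -⌊v i⌋, ?_⟩⟩
  rw [EuclideanSpace.norm_eq]
  refine Real.sqrt_le_sqrt ?_
  have h : ∀ i ∈ (Finset.univ : Finset (Fin m)),
      ‖(v + iv (fun i => -⌊v i⌋)) i‖ ^ 2 ≤ (1 : ℝ) := by
    intro i _
    have e1 : (v + iv (fun i => -⌊v i⌋)) i = Int.fract (v i) := by
      simp only [iv, PiLp.add_apply, Int.cast_neg]
      rw [← sub_eq_add_neg]
      exact Int.self_sub_floor (v i)
    rw [e1, Real.norm_eq_abs, abs_of_nonneg (Int.fract_nonneg _)]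
    have h1 := Int.fract_nonneg (v i)
    have h2 := (Int.fract_lt_one (v i)).le
    nlinarith
  calc ∑ i, ‖(v + iv (fun i => -⌊v i⌋)) i‖ ^ 2 ≤ ∑ _i : Fin m, (1 : ℝ) := Finset.sum_le_sum h
    _ = m := by simp

/-- the derivative of a map with periodic nonlinear part is periodic -/
theorem fderiv_per {m : ℕ} (A : EE m ≃L[ℝ] EE m) (g : EE m → EE m)
    (hp : ∀ v k, g (v + iv k) = g v) (v : EE m) (k : Fin m → ℤ) :
    fderiv ℝ (fun v => A v + g v) (v + iv k) = fderiv ℝ (fun v => A v + g v) v := by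
  have h1 : (fun v => A v + g v) ∘ (fun w => w + iv k) =
      fun w => (A w + g w) + A (iv k) := by
    funext w
    simp only [comp_apply, map_add, hp]
    abel
  have h2 : fderiv ℝ (fun w => (fun v => A v + g v) (w + iv k)) v =
      fderiv ℝ (fun v => A v + g v) (v + iv k) :=
    fderiv_comp_add_right (𝕜 := ℝ) (E := EE m) (F := EE m) (f := fun v => A v + g v) (x := v) (iv k)
  rw [← h2]
  have h3 : (fun w => (fun v => A v + g v) (w + iv k)) = fun w => (A w + g w) + A (iv k) := h1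
  rw [h3, fderiv_add_const]

/-- uniform continuity of the derivative -/
theorem fderiv_unif {m : ℕ} {N : Type*} [MetricSpace N] [CompactSpace N] (A : EE m ≃L[ℝ] EE m)
    (φ : N → EE m → EE m) (hp : ∀ x v k, φ x (v + iv k) = φ x v)
    (hC : VertC1 (fun x v => A v + φ x v)) (η : ℝ) (hη : 0 < η) :
    ∃ ρ > 0, ∀ x (v w : EE m), ‖w‖ ≤ ρ →
      ‖fderiv ℝ (fun v => A v + φ x v) (v + w) - fderiv ℝ (fun v => A v + φ x v) v‖ ≤ η := by
  obtain ⟨R, hR0, hR⟩ := exists_red m
  have hK : IsCompact ((univ : Set N) ×ˢ Metric.closedBall (0 : EE m) (R + 1)) :=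
    isCompact_univ.prod (isCompact_closedBall _ _)
  have hu := hK.uniformContinuousOn_of_continuous hC.cont.continuousOn
  rw [Metric.uniformContinuousOn_iff_le] at hu
  obtain ⟨ρ, hρ, h⟩ := hu η hη
  refine ⟨min ρ 1, lt_min hρ one_pos, fun x v w hw => ?_⟩
  obtain ⟨k, hk⟩ := hR v
  have e1 : fderiv ℝ (fun v => A v + φ x v) (v + w) =
      fderiv ℝ (fun v => A v + φ x v) ((v + iv k) + w) := by
    have : (v + iv k) + w = (v + w) + iv k := by abel
    rw [this, fderiv_per A (φ x) (hp x)]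
  have e2 : fderiv ℝ (fun v => A v + φ x v) v = fderiv ℝ (fun v => A v + φ x v) (v + iv k) :=
    (fderiv_per A (φ x) (hp x) v k).symm
  rw [e1, e2, ← dist_eq_norm]
  have hw1 : ‖w‖ ≤ 1 := hw.trans (min_le_right _ _)
  have hwρ : ‖w‖ ≤ ρ := hw.trans (min_le_left _ _)
  refine h (x, (v + iv k) + w) ⟨mem_univ _, ?_⟩ (x, v + iv k) ⟨mem_univ _, ?_⟩ ?_
  · rw [mem_closedBall_zero_iff]
    exact (norm_add_le _ _).trans (add_le_add hk hw1)
  · rw [mem_closedBall_zero_iff]
    linarith
  · rw [Prod.dist_eq]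
    refine max_le ?_ ?_
    · simpa using hρ.le
    · show dist ((v + iv k) + w) (v + iv k) ≤ ρ
      rw [dist_eq_norm, add_sub_cancel_left]
      exact hwρ

/-- the mean value inequality -/
theorem mean_val {m : ℕ} {N : Type*} [MetricSpace N] [CompactSpace N] (A : EE m ≃L[ℝ] EE m)
    (φ : N → EE m → EE m) (hp : ∀ x v k, φ x (v + iv k) = φ x v)
    (hC : VertC1 (fun x v => A v + φ x v)) (η : ℝ) (hη : 0 < η) :
    ∃ ρ > 0, ∀ x (v z : EE m), ‖z‖ ≤ ρ →
      ‖(A (v + z) + φ x (v + z)) - (A v + φ x v) - fderiv ℝ (fun v => A v + φ x v) v z‖ ≤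
        η * ‖z‖ := by
  obtain ⟨ρ, hρ, h⟩ := fderiv_unif A φ hp hC η hη
  refine ⟨ρ, hρ, fun x v z hz => ?_⟩
  have h1 := Convex.norm_image_sub_le_of_norm_fderiv_le' (𝕜 := ℝ)
    (f := fun v => A v + φ x v) (C := η) (s := Metric.closedBall v ρ) (x := v) (y := v + z)
    (φ := fderiv ℝ (fun v => A v + φ x v) v) (fun y _ => (hC.diff x) y)
    (fun y hy => by
      have e : y = v + (y - v) := by abel
      rw [e]
      refine h x v (y - v) ?_
      rwa [← dist_eq_norm])
    (convex_closedBall v ρ) (Metric.mem_closedBall_self hρ.le)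
    (by rw [Metric.mem_closedBall, dist_eq_norm, add_sub_cancel_left]; exact hz)
  simpa only [add_sub_cancel_left] using h1

end XVertShadow

open XVertShadow in
theorem prf_VertShadow (h1 : PerSolve) : VertShadow.{u} := by
  intro m N _ _ A φ f₁ hI hc hp hC hV ε hε
  obtain ⟨K, δ₀, hK, hδ₀, hV⟩ := hV
  obtain ⟨ρ₀, hρ₀, hm⟩ := mean_val A φ hp hC (1 / (2 * K)) (by positivity)
  set ρ : ℝ := min ρ₀ ε with hρdef
  have hρ : 0 < ρ := lt_min hρ₀ hε
  refine ⟨min δ₀ (ρ / (2 * K)), lt_min hδ₀ (by positivity), ?_⟩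
  intro n X v hPO
  obtain ⟨hn, hX, hv, hj⟩ := hPO
  have hPO' : PseudoOrb f₁ (fun x v => A v + φ x v) δ₀ n X v := by
    refine ⟨hn, hX, hv, fun t ht => ⟨(hj t ht).1.trans (min_le_left _ _), ?_⟩⟩
    obtain ⟨k, hk⟩ := (hj t ht).2
    exact ⟨k, hk.trans (min_le_left _ _)⟩
  have hk : ∀ t, t < n → ∃ k : Fin m → ℤ,
      ‖(A (v t) + φ (X t) (v t)) + iv k - v (t + 1)‖ ≤ ρ / (2 * K) := by
    intro t ht
    obtain ⟨k, hk⟩ := (hj t ht).2
    exact ⟨k, hk.trans (min_le_right _ _)⟩
  choose! k hk using hk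
  have hφc : ∀ t, Continuous fun z : EE m => φ (X t) (v t + z) := by
    intro t
    have h2 : Continuous fun z : EE m => (X t, v t + z) := by fun_prop
    exact hc.comp h2
  obtain ⟨z, hz0, hzb, hz⟩ := h1 m n
    (fun t => fderiv ℝ (fun v => A v + φ (X t) v) (v t)) K ρ hn hK hρ.le
    (fun z b hz h => hV n X v hPO' z b hz h)
    (fun t z => (A (v t + z) + φ (X t) (v t + z)) + iv (k t) - v (t + 1) -
      fderiv ℝ (fun v => A v + φ (X t) v) (v t) z)
    (fun t => by
      refine Continuous.continuousOn ?_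
      have h2 := hφc t
      have h3 : Continuous fun z : EE m => A (v t + z) :=
        A.continuous.comp (continuous_const.add continuous_id)
      exact (((h3.add h2).add continuous_const).sub continuous_const).sub
        (ContinuousLinearMap.continuous _))
    (fun t ht z hz => by
      have h2 := hm (X t) (v t) z (hz.trans (min_le_left _ _))
      have h3 := hk t ht
      have e1 : (A (v t + z) + φ (X t) (v t + z)) + iv (k t) - v (t + 1) -
          fderiv ℝ (fun v => A v + φ (X t) v) (v t) z =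
          ((A (v t + z) + φ (X t) (v t + z)) - (A (v t) + φ (X t) (v t)) -
            fderiv ℝ (fun v => A v + φ (X t) v) (v t) z) +
          ((A (v t) + φ (X t) (v t)) + iv (k t) - v (t + 1)) := by
        abel
      have h4 : ‖(A (v t + z) + φ (X t) (v t + z)) + iv (k t) - v (t + 1) -
          fderiv ℝ (fun v => A v + φ (X t) v) (v t) z‖ ≤ 1 / (2 * K) * ‖z‖ + ρ / (2 * K) := by
        rw [e1]
        exact (norm_add_le _ _).trans (add_le_add h2 h3)
      have h5 : K * (1 / (2 * K) * ‖z‖ + ρ / (2 * K)) = (‖z‖ + ρ) / 2 := by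
        field_simp
      have h6 := mul_le_mul_of_nonneg_left h4 hK.le
      rw [h5] at h6
      refine h6.trans ?_
      linarith)
  refine ⟨z, hz0, fun t ht => (hzb t ht).trans (min_le_right _ _), fun t ht => ⟨k t, ?_⟩⟩
  have e1 := hz t ht
  show (A (v t + z t) + φ (X t) (v t + z t)) + iv (k t) = v (t + 1) + z (t + 1)
  rw [e1]
  abel

end Pool.Agent.OmegaFT
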