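import Pool.Agent.Work.MP_814647_an.FT.Stmts5
import Pool.Agent.Work.MP_814647_an.FT.I_VertShadow

/-!
# Fibred tori, item VertShadowOnB: vertical shadowing over closed pseudo-orbits close to a set
-/

open Set Filter Topology Function
open scoped Manifold ContDiff

noncomputable section

namespace Pool.Agent.OmegaFT

open Pool.Agent.OmegaStab (EE HypLin)

universe u

namespace XVertShadowOnB

/-- the derivative of a lift of a torus map is periodic -/
theorem fderiv_per {m : ℕ} (A : EE m ≃L[ℝ] EE m) (g : EE m → EE m)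
    (hp : ∀ v k, g (v + iv k) = g v + A (iv k)) (v : EE m) (k : Fin m → ℤ) :
    fderiv ℝ g (v + iv k) = fderiv ℝ g v := by
  have h2 : fderiv ℝ (fun w => g (w + iv k)) v = fderiv ℝ g (v + iv k) :=
    fderiv_comp_add_right (𝕜 := ℝ) (E := EE m) (F := EE m) (f := g) (x := v) (iv k)
  rw [← h2]
  have h3 : (fun w => g (w + iv k)) = fun w => g w + A (iv k) := by
    funext w
    exact hp w k
  rw [h3, fderiv_add_const]

/-- uniform continuity of the derivative -/
theorem fderiv_unif {m : ℕ} {N : Type*} [MetricSpace N] [CompactSpace N] (A : EE m ≃L[ℝ] EE m)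
    (P : N → EE m → EE m) (hp : ∀ x v k, P x (v + iv k) = P x v + A (iv k))
    (hC : VertC1 P) (η : ℝ) (hη : 0 < η) :
    ∃ ρ > 0, ∀ x (v w : EE m), ‖w‖ ≤ ρ →
      ‖fderiv ℝ (P x) (v + w) - fderiv ℝ (P x) v‖ ≤ η := by
  obtain ⟨R, hR0, hR⟩ := XVertShadow.exists_red m
  have hK : IsCompact ((univ : Set N) ×ˢ Metric.closedBall (0 : EE m) (R + 1)) :=
    isCompact_univ.prod (isCompact_closedBall _ _)
  have hu := hK.uniformContinuousOn_of_continuous hC.cont.continuousOn
  rw [Metric.uniformContinuousOn_iff_le] at hu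
  obtain ⟨ρ, hρ, h⟩ := hu η hη
  refine ⟨min ρ 1, lt_min hρ one_pos, fun x v w hw => ?_⟩
  obtain ⟨k, hk⟩ := hR v
  have e1 : fderiv ℝ (P x) (v + w) = fderiv ℝ (P x) ((v + iv k) + w) := by
    have : (v + iv k) + w = (v + w) + iv k := by abel
    rw [this, fderiv_per A (P x) (hp x)]
  have e2 : fderiv ℝ (P x) v = fderiv ℝ (P x) (v + iv k) :=
    (fderiv_per A (P x) (hp x) v k).symm
  rw [e1, e2, ← dist_eq_norm]
  have hw1 : ‖w‖ ≤ 1 := hw.trans (min_le_right _ _)
  have hwρ : ‖w‖ ≤ ρ := hw.trans (min_le_left _ _)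
  refine h (x, (v + iv k) + w) ⟨mem_univ _, ?_⟩ (x, v + iv k) ⟨mem_univ _, ?_⟩ ?_
  · rw [mem_closedBall_zero_iff]
    exact (norm_add_le _ _).trans (add_le_add hk hw1)
  · rw [mem_closedBall_zero_iff]
    linarith
  · rw [Prod.dist_eq]
    refine max_le ?_ ?_
    · simpa using hρ.le
    · show dist ((v + iv k) + w) (v + iv k) ≤ ρ
      rw [dist_eq_norm, add_sub_cancel_left]
      exact hwρ

/-- the mean value inequality -/
theorem mean_val {m : ℕ} {N : Type*} [MetricSpace N] [CompactSpace N] (A : EE m ≃L[ℝ] EE m)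
    (P : N → EE m → EE m) (hp : ∀ x v k, P x (v + iv k) = P x v + A (iv k))
    (hC : VertC1 P) (η : ℝ) (hη : 0 < η) :
    ∃ ρ > 0, ∀ x (v z : EE m), ‖z‖ ≤ ρ →
      ‖P x (v + z) - P x v - fderiv ℝ (P x) v z‖ ≤ η * ‖z‖ := by
  obtain ⟨ρ, hρ, h⟩ := fderiv_unif A P hp hC η hη
  refine ⟨ρ, hρ, fun x v z hz => ?_⟩
  have h1 := Convex.norm_image_sub_le_of_norm_fderiv_le' (𝕜 := ℝ)
    (f := P x) (C := η) (s := Metric.closedBall v ρ) (x := v) (y := v + z)
    (φ := fderiv ℝ (P x) v) (fun y _ => (hC.diff x) y)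
    (fun y hy => by
      have e : y = v + (y - v) := by abel
      rw [e]
      refine h x v (y - v) ?_
      rwa [← dist_eq_norm])
    (convex_closedBall v ρ) (Metric.mem_closedBall_self hρ.le)
    (by rw [Metric.mem_closedBall, dist_eq_norm, add_sub_cancel_left]; exact hz)
  simpa only [add_sub_cancel_left] using h1

end XVertShadowOnB

open XVertShadowOnB in
theorem prf_VertShadowOnB (h1 : PerSolve) : VertShadowOnB.{u} := by
  intro m N _ _ A P f₁ Λ hI hp hC hV ε hε
  obtain ⟨K, δ₀, hK, hδ₀, hV⟩ := hV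
  obtain ⟨ρ₀, hρ₀, hm⟩ := mean_val A P hp hC (1 / (2 * K)) (by positivity)
  set ρ : ℝ := min ρ₀ ε with hρdef
  have hρ : 0 < ρ := lt_min hρ₀ hε
  refine ⟨min δ₀ (ρ / (2 * K)), lt_min hδ₀ (by positivity), ?_⟩
  intro n X v hPO
  obtain ⟨⟨hn, hX, hv, hj⟩, hΛ⟩ := hPO
  have hPO' : PseudoOrbOn f₁ P Λ δ₀ n X v := by
    refine ⟨⟨hn, hX, hv, fun t ht => ⟨(hj t ht).1.trans (min_le_left _ _), ?_⟩⟩, ?_⟩
    · obtain ⟨k, hk⟩ := (hj t ht).2
      exact ⟨k, hk.trans (min_le_left _ _)⟩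
    · intro t ht
      obtain ⟨z, hz, h2, h3⟩ := hΛ t ht
      exact ⟨z, hz, h2.trans (min_le_left _ _), h3.trans (min_le_left _ _)⟩
  have hk : ∀ t, t < n → ∃ k : Fin m → ℤ,
      ‖P (X t) (v t) + iv k - v (t + 1)‖ ≤ ρ / (2 * K) := by
    intro t ht
    obtain ⟨k, hk⟩ := (hj t ht).2
    exact ⟨k, hk.trans (min_le_right _ _)⟩
  choose! k hk using hk
  have hPc : ∀ t, Continuous fun z : EE m => P (X t) (v t + z) := fun t =>
    (hC.diff (X t)).continuous.comp (continuous_const.add continuous_id)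
  obtain ⟨z, hz0, hzb, hz⟩ := h1 m n
    (fun t => fderiv ℝ (P (X t)) (v t)) K ρ hn hK hρ.le
    (fun z b hz h => hV n X v hPO' z b hz h)
    (fun t z => P (X t) (v t + z) + iv (k t) - v (t + 1) - fderiv ℝ (P (X t)) (v t) z)
    (fun t => by
      refine Continuous.continuousOn ?_
      exact (((hPc t).add continuous_const).sub continuous_const).sub
        (ContinuousLinearMap.continuous _))
    (fun t ht z hz => by
      have h2 := hm (X t) (v t) z (hz.trans (min_le_left _ _))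
      have h3 := hk t ht
      have e1 : P (X t) (v t + z) + iv (k t) - v (t + 1) - fderiv ℝ (P (X t)) (v t) z =
          (P (X t) (v t + z) - P (X t) (v t) - fderiv ℝ (P (X t)) (v t) z) +
          (P (X t) (v t) + iv (k t) - v (t + 1)) := by
        abel
      have h4 : ‖P (X t) (v t + z) + iv (k t) - v (t + 1) - fderiv ℝ (P (X t)) (v t) z‖ ≤
          1 / (2 * K) * ‖z‖ + ρ / (2 * K) := by
        rw [e1]
        exact (norm_add_le _ _).trans (add_le_add h2 h3)
      have h5 : K * (1 / (2 * K) * ‖z‖ + ρ / (2 * K)) = (‖z‖ + ρ) / 2 := by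
        field_simp
      have h6 := mul_le_mul_of_nonneg_left h4 hK.le
      rw [h5] at h6
      refine h6.trans ?_
      linarith)
  refine ⟨z, hz0, fun t ht => (hzb t ht).trans (min_le_right _ _), fun t ht => ⟨k t, ?_⟩⟩
  have e1 := hz t ht
  rw [e1]
  abel

end Pool.Agent.OmegaFT
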