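import Pool.Agent.Work.MP_814647_an.FT.Main2
import Pool.Agent.Work.MP_814647_an.FT.I_AffClosed
import Pool.Agent.Work.MP_814647_an.FT.I_AffSwitch
import Pool.Agent.Work.MP_814647_an.FT.I_BlockHyp
import Pool.Agent.Work.MP_814647_an.FT.I_BrBdd
import Pool.Agent.Work.MP_814647_an.FT.I_CRBasic
import Pool.Agent.Work.MP_814647_an.FT.I_CoreFib
import Pool.Agent.Work.MP_814647_an.FT.I_FibClosedOnB
import Pool.Agent.Work.MP_814647_an.FT.I_FibHypOn
import Pool.Agent.Work.MP_814647_an.FT.I_Force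
import Pool.Agent.Work.MP_814647_an.FT.I_LiftC1B
import Pool.Agent.Work.MP_814647_an.FT.I_MatConv
import Pool.Agent.Work.MP_814647_an.FT.I_ModCont
import Pool.Agent.Work.MP_814647_an.FT.I_Normal
import Pool.Agent.Work.MP_814647_an.FT.I_PairDense
import Pool.Agent.Work.MP_814647_an.FT.I_Pattern
import Pool.Agent.Work.MP_814647_an.FT.I_PerBound
import Pool.Agent.Work.MP_814647_an.FT.I_PerSolve
import Pool.Agent.Work.MP_814647_an.FT.I_PertFib
import Pool.Agent.Work.MP_814647_an.FT.I_QuotHyp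
import Pool.Agent.Work.MP_814647_an.FT.I_SemiB
import Pool.Agent.Work.MP_814647_an.FT.I_SmallAtlas
import Pool.Agent.Work.MP_814647_an.FT.I_SmallMove
import Pool.Agent.Work.MP_814647_an.FT.I_StarFibB
import Pool.Agent.Work.MP_814647_an.FT.I_TrackTorusB
import Pool.Agent.Work.MP_814647_an.FT.I_UnrollB
import Pool.Agent.Work.MP_814647_an.FT.I_VertBoundOnB
import Pool.Agent.Work.MP_814647_an.FT.I_VertCoordOnB
import Pool.Agent.Work.MP_814647_an.FT.I_VertShadowOnB

/-!
# Fibred tori, second phase: all ingredients discharged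
-/

namespace Pool.Agent.OmegaFT

open Pool.Agent.OmegaStability

universe u v w

theorem closed2 {M : ClosedManifold.{w}} {N : ClosedManifold.{u}} {T : ClosedManifold.{v}}
    {r : ℕ∞} (hr : 1 ≤ r) {π : M.carrier → N.carrier} {f : CrDiffeo M r} {f₁ : CrDiffeo N r}
    (hf : IsTorusExtension T π f f₁) (hst : OmegaStable f) :
    (SatisfiesAxiomA f₁ ∧ HasNoCycles f₁) ∧
      (HyperbolicAlongFibres π f (ChainRecurrentSet f) → SatisfiesAxiomA f ∧ HasNoCycles f) :=
  final2 prf_MatConv prf_Normal prf_ModCont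
    (prf_StarFibB prf_SmallMove (prf_PertFib prf_SmallAtlas prf_SmallMove) (prf_CoreFib prf_QuotHyp))
    prf_UnrollB prf_SemiB (prf_TrackTorusB (prf_PerSolve prf_BrBdd) prf_PerBound)
    (prf_AffSwitch (prf_AffClosed (prf_Force prf_PairDense) (prf_PerSolve prf_BrBdd) prf_PerBound)
      prf_Pattern)
    prf_LiftC1B prf_VertCoordOnB prf_VertBoundOnB (prf_VertShadowOnB (prf_PerSolve prf_BrBdd))
    prf_FibClosedOnB (prf_FibHypOn prf_BlockHyp) prf_CRBasic hr hf hst

end Pool.Agent.OmegaFT
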