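import Pool.Agent.Work.MP_814647_an.FT.FibredStatement

/-!
# Fibred diffeomorphisms with toral fibres: fibre maps homotopic to a hyperbolic automorphism
-/

open Set Filter Topology
open scoped Manifold ContDiff

noncomputable section

namespace Pool.Agent.OmegaStability

variable {M N : ClosedManifold}

/-- `M` is the product of `N` and the torus `T` (with projection `π` on `N`) and `f` maps the fibre
over `x` to the fibre over `f₁ x`, by a map which is homotopic to the automorphism of `T` with the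
hyperbolic integer matrix `A`, that is, by `e v ↦ e (A v + ψ x v)` with a continuous function
`ψ x`, periodic in `v`. -/
def IsTorusExtension (T : ClosedManifold) {r : ℕ∞} (π : M.carrier → N.carrier)
    (f : CrDiffeo M r) (f₁ : CrDiffeo N r) : Prop :=
  ∃ (Φ : Diffeomorph 𝓘(ℝ, EuclideanSpace ℝ (Fin M.dim))
      (𝓘(ℝ, EuclideanSpace ℝ (Fin N.dim)).prod 𝓘(ℝ, EuclideanSpace ℝ (Fin T.dim)))
      M.carrier (N.carrier × T.carrier) ∞)
    (e : EuclideanSpace ℝ (Fin T.dim) → T.carrier) (A : Matrix (Fin T.dim) (Fin T.dim) ℤ)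
    (ψ : N.carrier → EuclideanSpace ℝ (Fin T.dim) → EuclideanSpace ℝ (Fin T.dim)),
    (∀ p, (Φ p).1 = π p) ∧ IsTorusProjection T e ∧ HyperbolicMatrix A ∧
    (∀ x, Continuous (ψ x)) ∧ (∀ x v k, ψ x (v + intVec k) = ψ x v) ∧
    ∀ x v, Φ (f (Φ.symm (x, e v))) = (f₁ x, e (linMap A v + ψ x v))

end Pool.Agent.OmegaStability
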