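import Pool.Agent.Work.MP_814647_an.FT.Main

/-!
# Fibred tori: from the assembly to the statement
-/

open Set Filter Topology Function
open scoped Manifold ContDiff

noncomputable section

namespace Pool.Agent.OmegaFT

open Pool.Agent.OmegaStab (EE Dyn IsFam PP HypAt crTopology HypLin ConjClass)
open Pool.Agent.OmegaPS
open Pool.Agent.OmegaStability

universe u v w

theorem topTorus_of {T : ClosedManifold.{v}} {e : EE T.dim → T.carrier}
    (h : IsTorusProjection T e) : TopTorus e := by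
  obtain ⟨-, h1, h2, h3⟩ := h
  exact ⟨h1.contMDiff.continuous, h1.isOpenMap, h2, h3⟩

theorem sup_iff {E : Type*} [AddCommGroup E] [Module ℝ E] (p q k : Submodule ℝ E)
    (h : p ⊔ q = k) (v : E) : v ∈ k ↔ ∃ s : E, s ∈ p ∧ ∃ u : E, u ∈ q ∧ v = s + u := by
  rw [← h, Submodule.mem_sup]
  constructor
  · rintro ⟨s, hs, u, hu, rfl⟩
    exact ⟨s, hs, u, hu, rfl⟩
  · rintro ⟨s, hs, u, hu, rfl⟩
    exact ⟨s, hs, u, hu, rfl⟩

theorem final (iMat : MatConv) (iStar : StarFib.{u, v, w, v}) (iUnroll : Unroll.{u, v, v})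
    (iSemi : Semi.{u, v}) (iTrack : TrackTorus.{u, v}) (iRet : TorusReturn.{v})
    (iLift : LiftC1.{u, v, w}) (iCoord : VertCoordOn.{u, v, w}) (iBound : VertBoundOn.{u})
    (iShadow : VertShadowOn.{u}) (iClosed : FibClosedOn.{u, v}) (iHyp : FibHypOn.{u, v, w})
    (iCR : CRBasic.{w, max u v})
    {M : ClosedManifold.{w}} {N : ClosedManifold.{u}} {T : ClosedManifold.{v}} {r : ℕ∞}
    (hr : 1 ≤ r) {π : M.carrier → N.carrier} {f : CrDiffeo M r} {f₁ : CrDiffeo N r}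
    (hf : IsToralExtension T π f f₁) (hst : OmegaStable f) :
    (SatisfiesAxiomA f₁ ∧ HasNoCycles f₁) ∧
      (HyperbolicAlongFibres π f (ChainRecurrentSet f) → SatisfiesAxiomA f ∧ HasNoCycles f) := by
  obtain ⟨Φ, e, A, φ, hΦ, he, hA, hφc, hφp, hφe⟩ := hf
  obtain ⟨A', hA1, hA2, hA3⟩ := iMat T.dim A hA.1 hA.2
  have hlin : ∀ v, linMap A v = A' v := by
    intro v
    ext i
    rw [hA1]
    rfl
  have hlift : Lifted e A' φ f₁ (fun z => Φ (f (Φ.symm z))) := by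
    refine ⟨hφc, hφp, fun x v => ?_⟩
    rw [← hlin]
    exact hφe x v
  obtain ⟨h1, h2⟩ := main iStar iUnroll iSemi iTrack iRet iLift iCoord iBound iShadow iClosed iHyp
    iCR hr Φ f f₁ he.1 he.2.1 (topTorus_of he) hA2 hA3 hlift hst
  refine ⟨h1, fun hv => ?_⟩
  obtain ⟨Es, Eu, c1, c2, c3, c4, c5, γ, c, μ, hc, hμ, hμ1, k1, k2⟩ := hv
  refine h2 Es Eu γ c μ ⟨c1, c2, c4, c5, fun x hx => ?_, fun x hx v => ?_, hc, hμ, hμ1, k1, k2⟩
  · rw [disjoint_iff]
    exact (c3 x hx).1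
  · have hfun : (fun z : M.carrier => (Φ z).1) = π := funext hΦ
    have h3 : dbase Φ x v = mfderiv 𝓘(ℝ, EE M.dim) 𝓘(ℝ, EE N.dim) π x v := by
      unfold dbase
      rw [hfun]
      rfl
    have h4 : v ∈ LinearMap.ker (mfderiv 𝓘(ℝ, EE M.dim) 𝓘(ℝ, EE N.dim) π x).toLinearMap ↔
        dbase Φ x v = 0 := by
      rw [h3]
      exact Iff.rfl
    exact h4.symm.trans (sup_iff (Es x) (Eu x) _ (c3 x hx).2 v)

end Pool.Agent.OmegaFT
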