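import Pool.Agent.Work.MP_814647_an.FT.Stmts4

/-!
# Item Force: prescribed phases at sparse times (helper56)
-/

open Set Filter Topology Function

noncomputable section

namespace Pool.Agent.OmegaFT

open Pool.Agent.OmegaStab (EE HypLin)

namespace XForce

theorem kap_add {m : ℕ} (k : Fin m → ℤ) (u v : EE m) : kap k (u + v) = kap k u + kap k v := by
  simp only [kap, PiLp.add_apply, mul_add, Finset.sum_add_distrib]

theorem kap_smul {m : ℕ} (k : Fin m → ℤ) (c : ℝ) (v : EE m) : kap k (c • v) = c * kap k v := by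
  simp only [kap, PiLp.smul_apply, smul_eq_mul, Finset.mul_sum]
  refine Finset.sum_congr rfl fun i _ => ?_
  ring

theorem kap_bound {m : ℕ} (k : Fin m → ℤ) : ∃ K : ℝ, 0 < K ∧ ∀ v : EE m, |kap k v| ≤ K * ‖v‖ := by
  refine ⟨∑ i, |(k i : ℝ)| + 1, by positivity, fun v => ?_⟩
  calc |kap k v| ≤ ∑ i, |(k i : ℝ) * v i| := by
        unfold kap
        exact Finset.abs_sum_le_sum_abs _ _
    _ ≤ ∑ i, |(k i : ℝ)| * ‖v‖ := by
        refine Finset.sum_le_sum fun i _ => ?_
        rw [abs_mul]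
        refine mul_le_mul_of_nonneg_left ?_ (abs_nonneg _)
        have := PiLp.norm_apply_le v i
        rwa [Real.norm_eq_abs] at this
    _ = (∑ i, |(k i : ℝ)|) * ‖v‖ := by rw [Finset.sum_mul]
    _ ≤ (∑ i, |(k i : ℝ)| + 1) * ‖v‖ := by
        refine mul_le_mul_of_nonneg_right (by linarith) (norm_nonneg _)

theorem near_mono {ε ε' α a a' δ : ℝ} (h : Near1 ε α a) (h' : |a' - a| ≤ δ) (h'' : ε + δ ≤ ε') :
    Near1 ε' α a' := by
  obtain ⟨p, hp⟩ := h
  refine ⟨p, ?_⟩
  have : a' - α - p = (a' - a) + (a - α - p) := by ring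
  rw [this]
  exact (abs_add_le _ _).trans (by linarith)

theorem near_shift {ε α a x : ℝ} (h : Near1 ε (α - x) a) : Near1 ε α (x + a) := by
  obtain ⟨p, hp⟩ := h
  refine ⟨p, ?_⟩
  have : x + a - α - p = a - (α - x) - p := by ring
  rwa [this]

/-- The homogeneous solution through `u` at time `τ`. -/
def hh {m : ℕ} (A : EE m ≃L[ℝ] EE m) (τ : ℕ) (u : EE m) (t : ℕ) : EE m :=
  if t < τ then (A.symm)^[τ - t] u else A^[t - τ] u

theorem hh_succ {m : ℕ} (A : EE m ≃L[ℝ] EE m) (τ : ℕ) (u : EE m) (t : ℕ) :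
    hh A τ u (t + 1) = A (hh A τ u t) := by
  unfold hh
  by_cases h1 : t + 1 < τ
  · have h2 : t < τ := by omega
    rw [if_pos h1, if_pos h2]
    have h3 : τ - t = (τ - (t + 1)) + 1 := by omega
    rw [h3, Function.iterate_succ_apply', ContinuousLinearEquiv.apply_symm_apply]
  · by_cases h2 : t < τ
    · have h3 : τ = t + 1 := by omega
      rw [if_neg h1, if_pos h2]
      subst h3
      simp
    · rw [if_neg h1, if_neg h2]
      have h3 : t + 1 - τ = (t - τ) + 1 := by omega
      rw [h3, Function.iterate_succ_apply']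

theorem corr {m : ℕ} (A : EE m ≃L[ℝ] EE m) {b η : ℕ → EE m} (hη : ∀ t, η (t + 1) = A (η t) + b t)
    (τ : ℕ) (u : EE m) : ∀ t, η (t + 1) + hh A τ u (t + 1) = A (η t + hh A τ u t) + b t := by
  intro t
  rw [hh_succ, hη t, map_add]
  abel

theorem iter_add {m : ℕ} (A : EE m ≃L[ℝ] EE m) (n : ℕ) (u v : EE m) :
    A^[n] (u + v) = A^[n] u + A^[n] v := by
  induction n generalizing u v with
  | zero => simp
  | succ n ih => simp only [Function.iterate_succ_apply, map_add, ih]

theorem iter_inv {m : ℕ} (A : EE m ≃L[ℝ] EE m) (n : ℕ) (u : EE m) :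
    A^[n] ((A.symm)^[n] u) = u :=
  Function.LeftInverse.iterate (fun x => A.apply_symm_apply x) n u

theorem mem_iter {m : ℕ} (A : EE m ≃L[ℝ] EE m) (Eu : Submodule ℝ (EE m))
    (hEu : ∀ u ∈ Eu, A u ∈ Eu ∧ A.symm u ∈ Eu) (n : ℕ) (u : EE m) (hu : u ∈ Eu) :
    (A.symm)^[n] u ∈ Eu := by
  induction n generalizing u with
  | zero => simpa using hu
  | succ n ih =>
    rw [Function.iterate_succ_apply]
    exact ih _ (hEu u hu).2

/-- one exact phase -/
theorem one {m : ℕ} (k : Fin m → ℤ) (Eu : Submodule ℝ (EE m)) (u0 : EE m) (hu0 : u0 ∈ Eu)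
    (hk0 : kap k u0 ≠ 0) : ∃ W : ℝ, 0 ≤ W ∧ ∀ α : ℝ, ∃ u ∈ Eu, ‖u‖ ≤ W ∧ Near1 0 α (kap k u) := by
  refine ⟨‖u0‖ / |kap k u0|, by positivity, fun α => ⟨(Int.fract α / kap k u0) • u0,
    Eu.smul_mem _ hu0, ?_, ?_⟩⟩
  · rw [norm_smul, Real.norm_eq_abs, abs_div, abs_of_nonneg (Int.fract_nonneg α)]
    have h1 := (Int.fract_lt_one α).le
    have h2 : 0 < |kap k u0| := abs_pos.mpr hk0
    rw [div_mul_eq_mul_div]
    gcongr
    nlinarith [norm_nonneg u0]
  · refine ⟨-⌊α⌋, ?_⟩
    rw [kap_smul, div_mul_cancel₀ _ hk0]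
    have h1 := Int.self_sub_floor α
    push_cast
    rw [show Int.fract α - α - -(⌊α⌋ : ℝ) = 0 by linarith]
    simp

/-- two phases, uniformly in the distance -/
theorem two {m : ℕ} (A : EE m ≃L[ℝ] EE m) (k : Fin m → ℤ) (Eu : Submodule ℝ (EE m)) (C μ K ε : ℝ)
    (hC : 1 ≤ C) (hμ0 : 0 < μ) (hμ1 : μ < 1) (hEu : ∀ u ∈ Eu, A u ∈ Eu ∧ A.symm u ∈ Eu)
    (hcon : ∀ u ∈ Eu, ∀ n : ℕ, ‖(A.symm)^[n] u‖ ≤ C * μ ^ n * ‖u‖)
    (hK : 0 < K) (hKb : ∀ v : EE m, |kap k v| ≤ K * ‖v‖)
    (hex : ∃ u ∈ Eu, kap k u ≠ 0) (hε : 0 < ε)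
    (hpd : ∀ i : ℕ, 0 < i → ∃ W : ℝ, ∀ α α' : ℝ, ∃ u ∈ Eu, ‖u‖ ≤ W ∧
        Near1 ε α (kap k u) ∧ Near1 ε α' (kap k (A^[i] u))) :
    ∃ W : ℝ, 0 ≤ W ∧ ∀ i : ℕ, 0 < i → ∀ α α' : ℝ, ∃ u ∈ Eu, ‖u‖ ≤ W ∧
        Near1 ε α (kap k u) ∧ Near1 ε α' (kap k (A^[i] u)) := by
  obtain ⟨u0, hu0, hk0⟩ := hex
  obtain ⟨W1, hW10, hW1⟩ := one k Eu u0 hu0 hk0
  obtain ⟨s1, hs1⟩ : ∃ s1 : ℕ, K * C * W1 * μ ^ s1 ≤ ε := by
    obtain ⟨n, hn⟩ := exists_pow_lt_of_lt_one (show (0 : ℝ) < ε / (K * C * W1 + 1) by positivity) hμ1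
    refine ⟨n, ?_⟩
    have h1 : 0 < K * C * W1 + 1 := by positivity
    rw [lt_div_iff₀ h1] at hn
    nlinarith [pow_pos hμ0 n]
  choose! Wf hWf using hpd
  refine ⟨∑ i ∈ Finset.range s1, |Wf i| + (1 + C) * W1, by positivity, ?_⟩
  intro i hi α α'
  by_cases h : i < s1
  · obtain ⟨u, hu, hu1, hu2, hu3⟩ := hWf i hi α α'
    refine ⟨u, hu, ?_, hu2, hu3⟩
    have h1 : |Wf i| ≤ ∑ i ∈ Finset.range s1, |Wf i| :=
      Finset.single_le_sum (f := fun i => |Wf i|) (fun _ _ => abs_nonneg _) (Finset.mem_range.mpr h)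
    have h2 := le_abs_self (Wf i)
    have h3 : 0 ≤ (1 + C) * W1 := by positivity
    linarith
  · push Not at h
    obtain ⟨u1, hu1, hn1, hp1⟩ := hW1 α
    obtain ⟨u2, hu2, hn2, hp2⟩ := hW1 (α' - kap k (A^[i] u1))
    have h4 := hcon u2 hu2 i
    have hμi : μ ^ i ≤ 1 := pow_le_one₀ hμ0.le hμ1.le
    have hμi' : μ ^ i ≤ μ ^ s1 := pow_le_pow_of_le_one hμ0.le hμ1.le h
    have hμp : 0 < μ ^ i := pow_pos hμ0 i
    have hC0 : 0 < C := by linarith
    refine ⟨u1 + (A.symm)^[i] u2, Eu.add_mem hu1 (mem_iter A Eu hEu i u2 hu2), ?_, ?_, ?_⟩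
    · have h5 : C * μ ^ i * ‖u2‖ ≤ C * 1 * W1 := by gcongr
      have h6 : 0 ≤ ∑ i ∈ Finset.range s1, |Wf i| := by positivity
      have h7 := norm_add_le u1 ((A.symm)^[i] u2)
      nlinarith
    · refine near_mono hp1 (δ := ε) ?_ (by linarith)
      rw [kap_add, add_sub_cancel_left]
      calc |kap k ((A.symm)^[i] u2)| ≤ K * ‖(A.symm)^[i] u2‖ := hKb _
        _ ≤ K * (C * μ ^ s1 * W1) := by
            refine mul_le_mul_of_nonneg_left (h4.trans ?_) hK.le
            gcongr
        _ = K * C * W1 * μ ^ s1 := by ring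
        _ ≤ ε := hs1
    · rw [iter_add, iter_inv, kap_add]
      exact near_shift (near_mono hp2 (δ := 0) (by simp) (by linarith))

end XForce

open XForce in
theorem prf_Force (h1 : PairDense) : Force := by
  intro m A k hI hH hk ε hε
  obtain ⟨Eu, C, μ, hC, hμ0, hμ1, hEu, hcon, hex, hpd⟩ := h1 m A k hI hH hk
  obtain ⟨K, hK, hKb⟩ := kap_bound k
  obtain ⟨W, hW0, hW⟩ := two A k Eu C μ K (ε / 4) hC hμ0 hμ1 hEu hcon hK hKb hex (by positivity)
    (hpd (ε / 4) (by positivity))
  have hC0 : 0 < C := by linarith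
  set D : ℝ := K * C * W with hD
  have hD0 : 0 ≤ D := by positivity
  obtain ⟨s, hs, hs1, hs2⟩ : ∃ s : ℕ, 0 < s ∧ μ ^ s ≤ 1 / 2 ∧ 2 * D * μ ^ s ≤ ε / 2 := by
    obtain ⟨n, hn⟩ := exists_pow_lt_of_lt_one
      (show (0 : ℝ) < min (1 / 2) (ε / 2 / (2 * D + 1)) by positivity) hμ1
    refine ⟨n + 1, Nat.succ_pos n, ?_, ?_⟩
    · have h2 := (hn.trans_le (min_le_left _ _)).le
      have h3 : μ ^ (n + 1) ≤ μ ^ n := pow_le_pow_of_le_one hμ0.le hμ1.le (Nat.le_succ n)
      linarith
    · have h2 := (hn.trans_le (min_le_right _ _)).le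
      have h3 : μ ^ (n + 1) ≤ μ ^ n := pow_le_pow_of_le_one hμ0.le hμ1.le (Nat.le_succ n)
      have h4 : 0 < 2 * D + 1 := by positivity
      rw [le_div_iff₀ h4] at h2
      have h5 : 0 < μ ^ n := pow_pos hμ0 n
      nlinarith
  refine ⟨s, hs, ?_⟩
  intro g hg b H
  have hcorr : ∀ (τ t : ℕ) (u : EE m), u ∈ Eu → ‖u‖ ≤ W → t < τ →
      |kap k (hh A τ u t)| ≤ D * μ ^ (τ - t) := by
    intro τ t u hu hun ht
    unfold hh
    rw [if_pos ht]
    calc |kap k ((A.symm)^[τ - t] u)| ≤ K * ‖(A.symm)^[τ - t] u‖ := hKb _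
      _ ≤ K * (C * μ ^ (τ - t) * W) := by
          refine mul_le_mul_of_nonneg_left ((hcon u hu _).trans ?_) hK.le
          gcongr
      _ = D * μ ^ (τ - t) := by rw [hD]; ring
  have main : ∀ T : ℕ, ∃ T', T ≤ T' ∧ ∃ η : ℕ → EE m, (∀ t, η (t + 1) = A (η t) + b t) ∧
      ∀ t < T', ∀ α, g t = some α →
        t + s ≤ T' ∧ Near1 (ε - 2 * D * μ ^ (T' - t)) α (kap k (η t)) := by
    intro T
    induction T with
    | zero =>
      refine ⟨0, le_rfl, fun t => Nat.rec (0 : EE m) (fun t x => A x + b t) t, fun t => rfl, ?_⟩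
      intro t ht
      exact absurd ht (Nat.not_lt_zero t)
    | succ T ih =>
      obtain ⟨T', hT', η, hη, hP⟩ := ih
      by_cases hlt : T + 1 ≤ T'
      · exact ⟨T', hlt, η, hη, hP⟩
      have hTT : T' = T := by omega
      subst hTT
      rcases hgT : g T' with _ | α₀
      · -- no test time
        refine ⟨T' + 1, le_rfl, η, hη, ?_⟩
        intro t ht α hα
        have ht' : t < T' := by
          rcases Nat.lt_succ_iff_lt_or_eq.mp ht with h | h
          · exact h
          · subst h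
            rw [hgT] at hα
            exact absurd hα (by simp)
        obtain ⟨h2, h3⟩ := hP t ht' α hα
        refine ⟨by omega, near_mono h3 (δ := 0) (by simp) ?_⟩
        have h4 : μ ^ (T' + 1 - t) ≤ μ ^ (T' - t) :=
          pow_le_pow_of_le_one hμ0.le hμ1.le (by omega)
        nlinarith
      · -- the earlier test times after a correction at `T'`
        have hold : ∀ (u : EE m), u ∈ Eu → ‖u‖ ≤ W → ∀ T'' : ℕ, T' + s ≤ T'' → ∀ t < T', ∀ α,
            g t = some α →
            t + s ≤ T'' ∧ Near1 (ε - 2 * D * μ ^ (T'' - t)) α (kap k (η t + hh A T' u t)) := by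
          intro u hu hun T'' hT'' t ht α hα
          obtain ⟨h2, h3⟩ := hP t ht α hα
          refine ⟨by omega, near_mono h3 (δ := D * μ ^ (T' - t)) ?_ ?_⟩
          · rw [kap_add, add_sub_cancel_left]
            exact hcorr T' t u hu hun ht
          · have h4 : μ ^ (T'' - t) ≤ μ ^ (T' - t) * (1 / 2) := by
              calc μ ^ (T'' - t) ≤ μ ^ ((T' - t) + s) :=
                    pow_le_pow_of_le_one hμ0.le hμ1.le (by omega)
                _ = μ ^ (T' - t) * μ ^ s := pow_add _ _ _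
                _ ≤ μ ^ (T' - t) * (1 / 2) := by gcongr
            nlinarith
        have hnew : ∀ (T'' t : ℕ) (α a : ℝ), t + s ≤ T'' → Near1 (ε / 4) α a →
            Near1 (ε - 2 * D * μ ^ (T'' - t)) α a := by
          intro T'' t α a h2 h3
          refine near_mono h3 (δ := 0) (by simp) ?_
          have h4 : μ ^ (T'' - t) ≤ μ ^ s := pow_le_pow_of_le_one hμ0.le hμ1.le (by omega)
          nlinarith
        by_cases hex2 : ∃ i, 0 < i ∧ i < s ∧ g (T' + i) ≠ none
        · -- two test times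
          obtain ⟨i, hi0, his, hgi⟩ := hex2
          obtain ⟨α₁, hα₁⟩ := Option.ne_none_iff_exists'.mp hgi
          obtain ⟨u, hu, hun, hu1, hu2⟩ := hW i hi0 (α₀ - kap k (η T'))
            (α₁ - kap k (η (T' + i)))
          refine ⟨T' + i + s, by omega, fun t => η t + hh A T' u t, corr A hη T' u, ?_⟩
          intro t ht α hα
          rcases lt_trichotomy t T' with h | h | h
          · exact hold u hu hun (T' + i + s) (by omega) t h α hα
          · subst h
            have h5 : α₀ = α := by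
              rw [hgT] at hα
              exact Option.some.inj hα
            subst h5
            refine ⟨by omega, hnew _ _ _ _ (by omega) ?_⟩
            show Near1 (ε / 4) α₀ (kap k (η t + hh A t u t))
            rw [kap_add]
            have h6 : hh A t u t = u := by
              unfold hh
              rw [if_neg (lt_irrefl t), Nat.sub_self]
              rfl
            rw [h6]
            exact near_shift hu1
          · have h7 : t = T' + i := by
              by_contra hne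
              rcases lt_or_gt_of_ne hne with h8 | h8
              · rcases hg T' t (T' + i) h h8 (by rw [hgT]; simp) (by rw [hα]; simp)
                  (by rw [hα₁]; simp) with h9 | h9 <;> omega
              · rcases hg T' (T' + i) t (by omega) h8 (by rw [hgT]; simp) (by rw [hα₁]; simp)
                  (by rw [hα]; simp) with h9 | h9 <;> omega
            subst h7
            have h5 : α₁ = α := by
              rw [hα₁] at hα
              exact Option.some.inj hα
            subst h5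
            refine ⟨le_rfl, hnew _ _ _ _ le_rfl ?_⟩
            show Near1 (ε / 4) α₁ (kap k (η (T' + i) + hh A T' u (T' + i)))
            rw [kap_add]
            have h6 : hh A T' u (T' + i) = A^[i] u := by
              unfold hh
              rw [if_neg (by omega), Nat.add_sub_cancel_left]
            rw [h6]
            exact near_shift hu2
        · -- one test time
          push Not at hex2
          obtain ⟨u, hu, hun, hu1, hu2⟩ := hW 1 one_pos (α₀ - kap k (η T')) 0
          refine ⟨T' + s, by omega, fun t => η t + hh A T' u t, corr A hη T' u, ?_⟩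
          intro t ht α hα
          rcases lt_trichotomy t T' with h | h | h
          · exact hold u hu hun (T' + s) le_rfl t h α hα
          · subst h
            have h5 : α₀ = α := by
              rw [hgT] at hα
              exact Option.some.inj hα
            subst h5
            refine ⟨le_rfl, hnew _ _ _ _ le_rfl ?_⟩
            show Near1 (ε / 4) α₀ (kap k (η t + hh A t u t))
            rw [kap_add]
            have h6 : hh A t u t = u := by
              unfold hh
              rw [if_neg (lt_irrefl t), Nat.sub_self]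
              rfl
            rw [h6]
            exact near_shift hu1
          · exfalso
            have h8 := hex2 (t - T') (by omega) (by omega)
            rw [show T' + (t - T') = t by omega, hα] at h8
            exact absurd h8 (by simp)
  obtain ⟨T', hT', η, hη, hP⟩ := main (H + 1)
  refine ⟨η, hη, ?_⟩
  intro t ht α hα
  obtain ⟨-, h3⟩ := hP t (by omega) α hα
  refine near_mono h3 (δ := 0) (by simp) ?_
  have h4 : 0 < μ ^ (T' - t) := pow_pos hμ0 _
  nlinarith

end Pool.Agent.OmegaFT
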