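import Pool.Agent.Work.MP_814647_an.FT.Stmts2

/-!
# Fibred tori: the fibre maps are differentiable (item LiftC1)
-/

open Set Filter Topology Function
open scoped Manifold ContDiff

noncomputable section

namespace Pool.Agent.OmegaFT

open Pool.Agent.OmegaStab (EE Dyn)

universe u v w

namespace XLiftC1

/-- The lift is `C^1` in all variables. -/
theorem contMDiff_lift {d₁ m d : ℕ} {N : Type u} {T : Type v} {M : Type w}
    [MetricSpace N] [ChartedSpace (EE d₁) N] [IsManifold (𝓡 d₁) ∞ N]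
    [MetricSpace T] [ChartedSpace (EE m) T] [IsManifold (𝓡 m) ∞ T]
    [MetricSpace M] [ChartedSpace (EE d) M] [IsManifold (𝓡 d) ∞ M] {r : ℕ∞} (hr : 1 ≤ r)
    (Φ : Diffeomorph (𝓡 d) ((𝓡 d₁).prod (𝓡 m)) M (N × T) ∞) (f : Dyn d M r)
    (e : EE m → T) (he : IsLocalDiffeomorph (𝓡 m) (𝓡 m) ∞ e)
    (G : N × EE m → EE m) (hG : Continuous G)
    (h : ∀ x v, e (G (x, v)) = (Φ (f (Φ.symm (x, e v)))).2) :
    ContMDiff ((𝓡 d₁).prod (𝓡 m)) (𝓡 m) 1 G := by
  have hr1 : (1 : WithTop ℕ∞) ≤ (r : WithTop ℕ∞) := by exact_mod_cast hr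
  have h1 : (1 : WithTop ℕ∞) ≤ ∞ := by exact_mod_cast le_top
  have hF : ContMDiff ((𝓡 d₁).prod (𝓡 m)) (𝓡 m) 1
      (fun z : N × EE m => (Φ (f (Φ.symm (z.1, e z.2)))).2) := by
    have e1 : ContMDiff ((𝓡 d₁).prod (𝓡 m)) ((𝓡 d₁).prod (𝓡 m)) 1
        (fun z : N × EE m => (z.1, e z.2)) :=
      contMDiff_fst.prodMk ((he.contMDiff.of_le h1).comp contMDiff_snd)
    exact contMDiff_snd.comp ((Φ.contMDiff.of_le h1).comp ((f.contMDiff.of_le hr1).comp
      ((Φ.symm.contMDiff.of_le h1).comp e1)))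
  intro z₀
  have hl := he (G z₀)
  have hnear : ∀ᶠ z in 𝓝 z₀, G z ∈ hl.localInverse.target :=
    hG.continuousAt.eventually (hl.localInverse.open_target.mem_nhds hl.localInverse_mem_target)
  have heq : G =ᶠ[𝓝 z₀] fun z => hl.localInverse (Φ (f (Φ.symm (z.1, e z.2)))).2 := by
    filter_upwards [hnear] with z hz
    rw [← h z.1 z.2]
    exact (hl.localInverse_left_inv hz).symm
  have hinv : ContMDiffAt (𝓡 m) (𝓡 m) 1 hl.localInverse (Φ (f (Φ.symm (z₀.1, e z₀.2)))).2 := by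
    rw [← h z₀.1 z₀.2]
    exact hl.localInverse_contMDiffAt.of_le h1
  exact (ContMDiffAt.comp z₀ hinv (hF z₀)).congr_of_eventuallyEq heq

/-- A `C^1` map on a product has a continuous partial derivative. -/
theorem vertC1 {d₁ m : ℕ} {N : Type u} [MetricSpace N] [ChartedSpace (EE d₁) N]
    [IsManifold (𝓡 d₁) ∞ N] (P : N → EE m → EE m)
    (hP : ContMDiff ((𝓡 d₁).prod (𝓡 m)) (𝓡 m) 1 (fun z : N × EE m => P z.1 z.2)) :
    VertC1 P := by
  have : IsManifold (𝓡 d₁) 1 N := IsManifold.of_le (n := ∞) (by exact_mod_cast le_top)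
  refine ⟨fun x => ?_, ?_⟩
  · have h1 : ContMDiff (𝓡 m) (𝓡 m) 1 (P x) :=
      hP.comp (contMDiff_const.prodMk contMDiff_id)
    have h2 : ContDiff ℝ 1 (P x) := contMDiff_iff_contDiff.1 h1
    exact h2.differentiable one_ne_zero
  · rw [continuous_iff_continuousAt]
    intro z₀
    have hf : ContMDiffAt (((𝓡 d₁).prod (𝓡 m)).prod (𝓡 m)) (𝓡 m) 1
        (uncurry fun (z : N × EE m) (v : EE m) => P z.1 v) (z₀, z₀.2) := by
      have h1 : ContMDiff (((𝓡 d₁).prod (𝓡 m)).prod (𝓡 m)) ((𝓡 d₁).prod (𝓡 m)) 1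
          (fun q : (N × EE m) × EE m => (q.1.1, q.2)) :=
        (contMDiff_fst.comp contMDiff_fst).prodMk contMDiff_snd
      exact (hP.comp h1) _
    have hg : ContMDiffAt ((𝓡 d₁).prod (𝓡 m)) (𝓡 m) 0 (fun z : N × EE m => z.2) z₀ :=
      contMDiffAt_snd
    have h2 := ContMDiffAt.mfderiv (fun (z : N × EE m) (v : EE m) => P z.1 v)
      (fun z : N × EE m => z.2) hf hg (by norm_num)
    have h3 : inTangentCoordinates (𝓡 m) (𝓡 m) (fun z : N × EE m => z.2)
        (fun z : N × EE m => P z.1 z.2)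
        (fun z : N × EE m => mfderiv (𝓡 m) (𝓡 m) (P z.1) z.2) z₀ =
        fun z : N × EE m => fderiv ℝ (P z.1) z.2 := by
      simp only [mfderiv_eq_fderiv]
      exact inTangentCoordinates_model_space (fun z : N × EE m => z.2)
        (fun z : N × EE m => P z.1 z.2) (fun z : N × EE m => fderiv ℝ (P z.1) z.2) z₀
    have h4 := h2.continuousAt
    exact h3 ▸ h4

end XLiftC1

/-- Item LiftC1. -/
theorem prf_LiftC1 : LiftC1.{u, v, w} := by
  intro d₁ m d N T M _ _ _ _ _ _ _ _ _ r hr Φ f e he A φ f₁ h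
  refine XLiftC1.vertC1 (d₁ := d₁) (fun x v => A v + φ x v) ?_
  refine XLiftC1.contMDiff_lift hr Φ f e he (fun z : N × EE m => A z.2 + φ z.1 z.2) ?_ ?_
  · exact (A.continuous.comp continuous_snd).add h.cont
  · intro x v
    exact (congrArg Prod.snd (h.eq x v)).symm

end Pool.Agent.OmegaFT
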