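import Pool.Agent.Work.MP_814647_an.FT.Stmts2
import Pool.Agent.Work.MP_814647_an.PS.FibreHyp

/-!
# MP_814647_an, fibred tori, item QuotHyp: hyperbolicity passes to the quotient (helper91)
-/

open Set Filter Topology Function
open scoped Manifold ContDiff

noncomputable section

namespace Pool.Agent.OmegaFT

open Pool.Agent.OmegaStab (EE Dyn IsFam PP HypAt crTopology HypLin ConjClass)
open Pool.Agent.OmegaStab.FinHyp (der)
open Pool.Agent.OmegaPS
open Pool.Agent.OmegaPS.FibreHyp (dd dd_comp)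
open Pool.Agent.OmegaStability

universe u v w

namespace XQuotHyp

section Lin

variable {E F : Type*} [NormedAddCommGroup E] [NormedSpace ℝ E] [NormedAddCommGroup F]
  [NormedSpace ℝ F]

/-- The map `(v, w) ↦ (L v - cos θ v + sin θ w, L w - sin θ v - cos θ w)`. -/
def TT (L : E →L[ℝ] E) (θ : ℝ) : (E × E) →ₗ[ℝ] (E × E) where
  toFun x := (L x.1 - Real.cos θ • x.1 + Real.sin θ • x.2,
    L x.2 - Real.sin θ • x.1 - Real.cos θ • x.2)
  map_add' x y := by
    ext
    · simp only [Prod.fst_add, Prod.snd_add, map_add]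
      module
    · simp only [Prod.fst_add, Prod.snd_add, map_add]
      module
  map_smul' c x := by
    ext
    · simp only [Prod.smul_fst, Prod.smul_snd, map_smul, RingHom.id_apply]
      module
    · simp only [Prod.smul_fst, Prod.smul_snd, map_smul, RingHom.id_apply]
      module

theorem TT_apply (L : E →L[ℝ] E) (θ : ℝ) (x : E × E) : TT L θ x =
    (L x.1 - Real.cos θ • x.1 + Real.sin θ • x.2,
      L x.2 - Real.sin θ • x.1 - Real.cos θ • x.2) := rfl

theorem TT_eq_zero {L : E →L[ℝ] E} {θ : ℝ} {v w : E} : TT L θ (v, w) = 0 ↔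
    L v = Real.cos θ • v - Real.sin θ • w ∧ L w = Real.sin θ • v + Real.cos θ • w := by
  rw [TT_apply, Prod.mk_eq_zero]
  constructor
  · rintro ⟨h1, h2⟩
    refine ⟨?_, ?_⟩
    · rw [← sub_eq_zero, ← h1]
      module
    · rw [← sub_eq_zero, ← h2]
      module
  · rintro ⟨h1, h2⟩
    refine ⟨?_, ?_⟩
    · change L v - Real.cos θ • v + Real.sin θ • w = 0
      rw [h1]
      module
    · change L w - Real.sin θ • v - Real.cos θ • w = 0
      rw [h2]
      module

theorem TT_injective {L : E →L[ℝ] E} (h : HypLin L) (θ : ℝ) : Injective (TT L θ) := by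
  rw [injective_iff_map_eq_zero]
  rintro ⟨v, w⟩ hx
  rw [TT_eq_zero] at hx
  obtain ⟨h1, h2⟩ := h θ v w hx.1 hx.2
  rw [h1, h2]
  rfl

/-- Hyperbolicity of linear maps passes to quotients. -/
theorem hypLin_quot [FiniteDimensional ℝ E] [FiniteDimensional ℝ F] {L : E →L[ℝ] E}
    {B : F →L[ℝ] F} {S : E →L[ℝ] F} (hL : HypLin L) (hS : Surjective S)
    (h : ∀ v, S (L v) = B (S v)) : HypLin B := by
  intro θ v w hv hw
  have h1 : Surjective (TT L θ) := LinearMap.injective_iff_surjective.1 (TT_injective hL θ)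
  have h2 : ∀ x : E × E, TT B θ (S x.1, S x.2) = (S (TT L θ x).1, S (TT L θ x).2) := by
    intro x
    rw [TT_apply, TT_apply]
    simp only [map_add, map_sub, map_smul, h]
  have h3 : Surjective (TT B θ) := by
    rintro ⟨a, b⟩
    obtain ⟨a', rfl⟩ := hS a
    obtain ⟨b', rfl⟩ := hS b
    obtain ⟨x, hx⟩ := h1 (a', b')
    exact ⟨(S x.1, S x.2), by rw [h2, hx]⟩
  have h4 : Injective (TT B θ) := LinearMap.injective_iff_surjective.2 h3
  have h5 : ((v, w) : F × F) = 0 := by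
    apply h4
    rw [map_zero, TT_eq_zero]
    exact ⟨hv, hw⟩
  exact Prod.mk_eq_zero.1 h5

end Lin

end XQuotHyp

open XQuotHyp in
theorem prf_QuotHyp : QuotHyp.{u, v, w} := by
  intro d₁ d₂ d N T M _ _ _ _ _ _ _ _ _ r hr Φ g n p H hn hg hp hH hev
  have hL := hypLin_iterate hr g hg hn hp
  have hgn : MDifferentiable (𝓡 d) (𝓡 d) g^[n] :=
    Pool.Agent.OmegaStab.FinHyp.mdiff_iter (Pool.Agent.OmegaStab.FinHyp.mdiff hr g) n
  have hΦ : MDifferentiable (𝓡 d) ((𝓡 d₁).prod (𝓡 d₂)) Φ :=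
    Φ.contMDiff.mdifferentiable (by simp)
  have hΦ' : MDifferentiable ((𝓡 d₁).prod (𝓡 d₂)) (𝓡 d) Φ.symm :=
    Φ.symm.contMDiff.mdifferentiable (by simp)
  set i : N → M := fun y => Φ.symm (y, (Φ p).2) with hi
  have hin : MDifferentiable (𝓡 d₁) ((𝓡 d₁).prod (𝓡 d₂)) fun y : N => (y, (Φ p).2) :=
    mdifferentiable_id.prodMk mdifferentiable_const
  have hid : MDifferentiable (𝓡 d₁) (𝓡 d) i := hΦ'.comp hin
  set P : M → N := fun z : M => (Φ z).1 with hPdef
  have hP : MDifferentiable (𝓡 d) (𝓡 d₁) P := mdifferentiable_fst.comp hΦ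
  have hip : i (P p) = p := by
    change Φ.symm ((Φ p).1, (Φ p).2) = p
    exact Φ.symm_apply_apply p
  have e1 : P ∘ i = id := by
    funext y
    simp [hi, hPdef]
  have e2 : (dd (d₁ := d) (d₂ := d₁) P p).comp (dd (d₁ := d₁) (d₂ := d) i (P p)) =
      ContinuousLinearMap.id ℝ (EE d₁) := by
    have h1 := dd_comp (g := P) (f := i) (x := P p) (hP _) (hid _)
    rw [e1, hip] at h1
    rw [← h1]
    exact mfderiv_id
  have hsurj : Surjective (dd (d₁ := d) (d₂ := d₁) P p) := by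
    intro v
    refine ⟨dd (d₁ := d₁) (d₂ := d) i (P p) v, ?_⟩
    exact congrArg (fun T : EE d₁ →L[ℝ] EE d₁ => T v) e2
  have e3 : dd (d₁ := d) (d₂ := d₁) (P ∘ g^[n]) p = dd (d₁ := d) (d₂ := d₁) (H ∘ P) p := by
    have h1 : P ∘ g^[n] =ᶠ[𝓝 p] H ∘ P := hev
    exact h1.mfderiv_eq
  have hHP : MDifferentiableAt (𝓡 d₁) (𝓡 d₁) H (P p) := hH
  have e4 : (dd (d₁ := d) (d₂ := d₁) P p).comp (dd (d₁ := d) (d₂ := d) g^[n] p) =
      (dd (d₁ := d₁) (d₂ := d₁) H (P p)).comp (dd (d₁ := d) (d₂ := d₁) P p) := by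
    have h1 := dd_comp (g := P) (f := g^[n]) (x := p) (hP _) (hgn _)
    have h2 := dd_comp (g := H) (f := P) (x := p) hHP (hP _)
    rw [hp] at h1
    rw [← h1, ← h2]
    exact e3
  refine hypLin_quot (S := dd (d₁ := d) (d₂ := d₁) P p) hL hsurj fun v => ?_
  exact congrArg (fun T : EE d →L[ℝ] EE d₁ => T v) e4

end Pool.Agent.OmegaFT
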