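import Pool.Agent.Work.MP_814647_an.FT.Stmts2
import Pool.Agent.Work.MP_814647_an.Bd.B06

/-!
# MP_814647_an, fibred tori, item StarFib: closed words are hyperbolic (helper93)
-/

open Set Filter Topology Function
open scoped Manifold ContDiff

noncomputable section

namespace Pool.Agent.OmegaFT

open Pool.Agent.OmegaStab (EE Dyn IsFam PP HypAt crTopology HypLin ConjClass)
open Pool.Agent.OmegaStab.FinHyp (der)
open Pool.Agent.OmegaPS
open Pool.Agent.OmegaStability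

universe u v w x

namespace XStarFib

/-- A positive lower bound of finitely many positive numbers. -/
theorem exists_lb {J : Type*} [Finite J] (c : J → ℝ) (hc : ∀ j, 0 < c j) :
    ∃ c₁ : ℝ, 0 < c₁ ∧ ∀ j, c₁ ≤ c j := by
  have h1 : ∀ᶠ a in 𝓝[>] (0 : ℝ), ∀ j, a ≤ c j := by
    refine Filter.eventually_all.2 fun j => ?_
    filter_upwards [Ioo_mem_nhdsGT (hc j)] with a ha
    exact ha.2.le
  obtain ⟨a, ha, ha'⟩ := (h1.and self_mem_nhdsWithin).exists
  exact ⟨a, ha', ha⟩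

/-- A neighbourhood of a closed subset of a compact space contains a uniform one. -/
theorem exists_rad {Y : Type*} [MetricSpace Y] [CompactSpace Y] {D U : Set Y} (hD : IsClosed D)
    (hU : IsOpen U) (h : D ⊆ U) : ∃ ε : ℝ, 0 < ε ∧ ∀ y ∈ D, ∀ z, dist z y ≤ ε → z ∈ U := by
  obtain ⟨ε, hε, hsub⟩ := hD.isCompact.exists_cthickening_subset_open hU h
  refine ⟨ε, hε, fun y hy z hz => hsub ?_⟩
  exact Metric.mem_cthickening_of_dist_le z y ε D hy hz

theorem iter_conj {M Z : Type*} (Φ : M ≃ Z) (f : M → M) (t : ℕ) (z : Z) :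
    (fun z => Φ (f (Φ.symm z)))^[t] z = Φ (f^[t] (Φ.symm z)) := by
  induction t with
  | zero => simp
  | succ t ih => rw [iterate_succ_apply', ih, iterate_succ_apply', Φ.symm_apply_apply]

end XStarFib

open XStarFib

theorem prf_StarFib (h1 : SmallMove.{u}) (h2 : PertFib.{u, v, w, x}) (h3 : CoreFib.{u, v, w, x}) :
    StarFib.{u, v, w, x} := by
  classical
  intro d₁ d₂ d N T M Y _ _ _ _ _ _ _ _ _ _ _ _ _ _ r hr Φ f f₁ hf θ hθ B hST hsw 𝒩 h𝒩 hf𝒩
    hhyp k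
  obtain ⟨m, D, E, hm, hDc, hEc, hDD, hDE, hreal⟩ := hsw k
  obtain ⟨At, U, UE, c₀, hU, hUE, hEU, hc₀, hpert⟩ :=
    h2 d₁ d₂ d N T M Y r Φ f θ hθ 𝒩 h𝒩 hf𝒩 k D E hDc hEc hDD hDE
  have hfinJ := At.fin
  -- the radius in `Y`
  have hDr := fun i => exists_rad (hDc i) (hU i).1 (hU i).2
  choose εD hεD hεD' using hDr
  obtain ⟨εE, hεE, hεE'⟩ := exists_rad hEc hUE hEU
  obtain ⟨εm, hεm, hεm'⟩ := exists_lb εD hεD
  obtain ⟨δ, hδ, htrack⟩ := hST (min εm εE) (lt_min hεm hεE)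
  -- the size of the perturbations
  have hsm : ∀ j : At.J, ∃ c > 0, ∀ π, ‖π‖ ≤ c → ∀ z, dist (At.h j π z) z ≤ δ :=
    fun j => h1 d₁ N r (At.h j) (At.isFam j) δ hδ
  choose cJ hcJ hcJ' using hsm
  obtain ⟨c₁, hc₁, hc₁'⟩ := exists_lb cJ hcJ
  obtain ⟨ε₀, hε₀, hrealise⟩ := realise hr At (lt_min hc₀ hc₁)
  refine ⟨At, ε₀, m, hε₀, hm, ?_⟩
  intro ε hε G ι _ hcard τ hτ i n M' hpath
  obtain ⟨emb⟩ : Nonempty (ι ↪ Fin k) :=
    Function.Embedding.nonempty_of_card_le (by rwa [Fintype.card_fin])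
  have hch : ∀ a : ι, ∃ (j : At.J) (π : PP d₁), ‖π‖ ≤ min c₀ c₁ ∧
      At.h j π (τ a).src = (τ a).tgt ∧ ∀ v, (τ a).mat (G.frame (τ a).src v) =
        G.frame (τ a).tgt (der (d := d₁) (At.h j π) (τ a).src v) :=
    fun a => hrealise ε hε f₁ G _ _ _ (hτ a)
  choose jj ππ hπ hmap hder using hch
  set J' : Fin k → At.J := Function.extend emb jj (fun _ => jj i) with hJ'
  set qq' : Fin k → PP d₁ := Function.extend emb ππ (fun _ => 0) with hqdef
  have hJe : ∀ a, J' (emb a) = jj a := fun a => emb.injective.extend_apply _ _ _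
  have hqe : ∀ a, qq' (emb a) = ππ a := fun a => emb.injective.extend_apply _ _ _
  have hq0' : ∀ c, ‖qq' c‖ ≤ c₀ := by
    intro c
    by_cases hc : ∃ a, emb a = c
    · obtain ⟨a, rfl⟩ := hc
      rw [hqe]
      exact (hπ a).trans (min_le_left _ _)
    · rw [hqdef, Function.extend_apply' _ _ _ hc, norm_zero]
      exact hc₀.le
  obtain ⟨g, hg𝒩, hgE, hgU⟩ := hpert J' qq' hq0'
  obtain ⟨p, s, l, P, hp, hs0, hsp, hl, hn, hP0, hPs, hPp⟩ := path_seq G.S hpath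
  obtain ⟨η, hηp, hη⟩ := hreal p (fun q => emb (s q)) l hp (by simp only [hsp, hs0])
    (fun q hq => (hl q hq).1)
  have hsp0 : s p = s 0 := by rw [hsp, hs0]
  have hηD : ∀ q < p, η (q + 1) ∈ D (emb (s (q + 1))) := by
    intro q hq
    by_cases hq1 : q + 1 < p
    · exact (hη (q + 1) hq1).1
    · have e1 : q + 1 = p := by omega
      have e2 := (hη 0 hp).1
      rw [e1, hηp, hsp0]
      exact e2
  obtain ⟨y, hyp, hy⟩ := htrack p l (fun q => (τ (s q)).tgt) η hp (by simp only [hsp0]) hηp (by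
    intro q hq
    refine ⟨hm.trans (hl q hq).1, ?_, (hη q hq).2.1⟩
    have e1 : f₁^[l q] (τ (s q)).tgt = (τ (s (q + 1))).src := by
      rw [← (hl q hq).2, G.pow_eq]
    have e2 := hcJ' (jj (s (q + 1))) (ππ (s (q + 1)))
      ((hπ _).trans ((min_le_right _ _).trans (hc₁' _))) (τ (s (q + 1))).src
    rw [hmap] at e2
    rw [e1, dist_comm]
    exact e2)
  have hiter : ∀ (t : ℕ) (z : N × T), (fun z => Φ (f (Φ.symm z)))^[t] z = Φ (f^[t] (Φ.symm z)) :=
    fun t z => iter_conj Φ.toEquiv f t z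
  rw [hPp]
  refine h3 d₁ d₂ d N T M Y r hr Φ f f₁ hf θ hθ g (hhyp g hg𝒩) At ε G ι k emb U UE
    (fun i => (hU i).1) hUE τ jj ππ hmap hder hgE ?_ p s l P hp hsp0
    (fun q hq => ⟨hm.trans (hl q hq).1, (hl q hq).2⟩) hP0 hPs y hyp ?_
  · intro a z hz
    have := hgU (emb a) z hz
    rw [hJe, hqe] at this
    exact this
  · intro q hq
    obtain ⟨e1, e2⟩ := hy q hq
    have hl1 : 1 ≤ l q := hm.trans (hl q hq).1
    refine ⟨?_, ?_, ?_⟩
    · rw [← hiter]
      exact e1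
    · have e3 := e2 (l q) hl1 le_rfl
      rw [hiter, (hη q hq).2.1] at e3
      exact hεD' _ _ (hηD q hq) _ (e3.trans ((min_le_left _ _).trans (hεm' _)))
    · intro t ht0 ht
      have e3 := e2 t ht0 ht.le
      rw [hiter] at e3
      exact hεE' _ ((hη q hq).2.2 t ht0 ht) _ (e3.trans (min_le_right _ _))

end Pool.Agent.OmegaFT
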