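import Pool.Agent.Work.MP_814647_an.FT.I_Semi
import Pool.Agent.Work.MP_814647_an.FT.I_FibClosed

/-!
# Item TorusReturn: return sequences of a hyperbolic toral automorphism
-/

open Set Filter Topology Function

noncomputable section

namespace Pool.Agent.OmegaFT

open Pool.Agent.OmegaStab (EE HypLin)

universe v

namespace XTorusReturn

open XFibClosed (iv_zero iv_add iv_neg e_add e_unif)
open XSemi (pow_symm_pow symm_pow_mem)

/-- the projections on the stable and the unstable space -/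
lemma proj {m : ℕ} (A : EE m ≃L[ℝ] EE m) (hA : HypLin (A : EE m →L[ℝ] EE m)) :
    ∃ (Ps Pu : EE m →L[ℝ] EE m) (C μ : ℝ), (∀ v, Ps v + Pu v = v) ∧ 0 < C ∧ 0 < μ ∧ μ < 1 ∧
      (∀ v (n : ℕ), ‖((A : EE m →L[ℝ] EE m) ^ n) (Ps v)‖ ≤ C * μ ^ n * ‖v‖) ∧
      (∀ v (n : ℕ), ‖((A.symm : EE m →L[ℝ] EE m) ^ n) (Pu v)‖ ≤ C * μ ^ n * ‖v‖) ∧
      (∀ v, Ps (Ps v) = Ps v) ∧ ∀ v, Ps (A v) = A (Ps v) := by
  obtain ⟨Es, Eu, C, μ, hc, his, hiu, hC, hμ0, hμ1, hs, hu⟩ := hA.split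
  set Ps : EE m →L[ℝ] EE m := LinearMap.toContinuousLinearMap (Es.projection Eu hc) with hPs
  set Pu : EE m →L[ℝ] EE m := LinearMap.toContinuousLinearMap (Eu.projection Es hc.symm) with hPu
  have hPsm : ∀ v, Ps v ∈ Es := fun v => Submodule.projection_apply_mem hc v
  have hPum : ∀ v, Pu v ∈ Eu := fun v => Submodule.projection_apply_mem hc.symm v
  have hsum : ∀ v, Ps v + Pu v = v := fun v => Submodule.projection_add_projection_eq_self hc v
  have huniq : ∀ a ∈ Es, ∀ b ∈ Eu, Ps (a + b) = a := by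
    intro a ha b hb
    have h1 : Ps (a + b) - a = b - Pu (a + b) := by
      have := hsum (a + b)
      rw [sub_eq_sub_iff_add_eq_add, this]
      abel
    have h2 : Ps (a + b) - a ∈ Es := Es.sub_mem (hPsm _) ha
    have h3 : Ps (a + b) - a ∈ Eu := by
      rw [h1]
      exact Eu.sub_mem hb (hPum _)
    have h4 : Ps (a + b) - a = 0 := by
      have := (Submodule.disjoint_def.1 hc.disjoint) _ h2 h3
      exact this
    exact sub_eq_zero.1 h4
  refine ⟨Ps, Pu, C * (‖Ps‖ + ‖Pu‖ + 1), μ, hsum, by positivity, hμ0, hμ1, ?_, ?_, ?_, ?_⟩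
  · intro v n
    have hp : 0 < μ ^ n := pow_pos hμ0 n
    calc ‖((A : EE m →L[ℝ] EE m) ^ n) (Ps v)‖ ≤ C * μ ^ n * ‖Ps v‖ := hs _ (hPsm v) n
      _ ≤ C * μ ^ n * (‖Ps‖ * ‖v‖) := by
          refine mul_le_mul_of_nonneg_left (Ps.le_opNorm v) (by positivity)
      _ ≤ C * (‖Ps‖ + ‖Pu‖ + 1) * μ ^ n * ‖v‖ := by
          have h1 : 0 ≤ C * μ ^ n * ((‖Pu‖ + 1) * ‖v‖) := by positivity
          nlinarith
  · intro v n
    have hp : 0 < μ ^ n := pow_pos hμ0 n
    have h1 := hu _ (symm_pow_mem A Eu hiu n (Pu v) (hPum v)) n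
    rw [pow_symm_pow] at h1
    refine h1.trans ?_
    calc C * μ ^ n * ‖Pu v‖ ≤ C * μ ^ n * (‖Pu‖ * ‖v‖) := by
          refine mul_le_mul_of_nonneg_left (Pu.le_opNorm v) (by positivity)
      _ ≤ C * (‖Ps‖ + ‖Pu‖ + 1) * μ ^ n * ‖v‖ := by
          have h1 : 0 ≤ C * μ ^ n * ((‖Ps‖ + 1) * ‖v‖) := by positivity
          nlinarith
  · intro v
    have := huniq (Ps v) (hPsm v) 0 Eu.zero_mem
    rwa [add_zero] at this
  · intro v
    have h1 : A v = A (Ps v) + A (Pu v) := by rw [← map_add, hsum]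
    rw [h1]
    exact huniq _ (his _ (hPsm v)) _ (hiu _ (hPum v))

/-- a solution of a system of equations with contracting linear parts -/
lemma solve {ι V : Type*} [Fintype ι] [NormedAddCommGroup V] [NormedSpace ℝ V] [CompleteSpace V]
    (σ : ι → ι) (L : ι → V →L[ℝ] V) (hL : ∀ i v, ‖L i v‖ ≤ 1 / 2 * ‖v‖) (c : ι → V) (b : ℝ)
    (hb : 0 ≤ b) (hc : ∀ i, ‖c i‖ ≤ b) :
    ∃ s : ι → V, (∀ i, s i = L i (s (σ i)) + c i) ∧ ∀ i, ‖s i‖ ≤ 2 * b := by
  let f : (ι → V) → (ι → V) := fun s i => L i (s (σ i)) + c i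
  have hf : ContractingWith (1 / 2 : NNReal) f := by
    refine ⟨by
      rw [← NNReal.coe_lt_coe]
      push_cast
      norm_num, LipschitzWith.of_dist_le_mul fun s s' => ?_⟩
    have h0 : (0 : ℝ) ≤ ((1 / 2 : NNReal) : ℝ) * dist s s' := by positivity
    rw [dist_pi_le_iff h0]
    intro i
    have h1 : f s i - f s' i = L i (s (σ i) - s' (σ i)) := by
      show L i (s (σ i)) + c i - (L i (s' (σ i)) + c i) = _
      rw [map_sub]
      abel
    rw [dist_eq_norm, h1]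
    refine (hL i _).trans ?_
    rw [← dist_eq_norm]
    push_cast
    exact mul_le_mul_of_nonneg_left (dist_le_pi_dist s s' (σ i)) (by norm_num)
  refine ⟨hf.fixedPoint f, fun i => ?_, ?_⟩
  · exact (congrFun hf.fixedPoint_isFixedPt i).symm
  · set s := hf.fixedPoint f with hs
    have hfix : ∀ i, s i = L i (s (σ i)) + c i := fun i =>
      (congrFun hf.fixedPoint_isFixedPt i).symm
    have h1 : ‖s‖ ≤ 1 / 2 * ‖s‖ + b := by
      rw [pi_norm_le_iff_of_nonneg (by positivity)]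
      intro i
      rw [hfix i]
      refine (norm_add_le _ _).trans ?_
      have h2 := (hL i (s (σ i))).trans (mul_le_mul_of_nonneg_left (norm_le_pi_norm s (σ i))
        (by norm_num : (0 : ℝ) ≤ 1 / 2))
      exact add_le_add h2 (hc i)
    intro i
    refine (norm_le_pi_norm s i).trans ?_
    linarith

/-- small integral vectors vanish -/
lemma iv_small {m : ℕ} (k : Fin m → ℤ) (h : ‖iv k‖ < 1) : k = 0 := by
  funext i
  have h1 : ‖(iv k).ofLp i‖ ≤ ‖iv k‖ := PiLp.norm_apply_le (iv k) i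
  have h2 : (iv k).ofLp i = (k i : ℝ) := rfl
  rw [h2, Real.norm_eq_abs] at h1
  have h3 : |(k i : ℝ)| < 1 := h1.trans_lt h
  have h4 : |k i| < 1 := by exact_mod_cast h3
  show k i = 0
  exact Int.abs_lt_one_iff.1 h4

/-- the torus is compact -/
lemma compactT {m : ℕ} {T : Type*} [TopologicalSpace T] {e : EE m → T} (he : TopTorus e) :
    CompactSpace T := by
  have h1 : IsCompact (Set.pi univ fun _ : Fin m => Icc (0 : ℝ) 1) :=
    isCompact_univ_pi fun _ => isCompact_Icc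
  have h2 : IsCompact ((fun x : Fin m → ℝ => e (WithLp.toLp 2 x)) ''
      (Set.pi univ fun _ : Fin m => Icc (0 : ℝ) 1)) :=
    h1.image (he.cont.comp (PiLp.continuous_toLp 2 _))
  refine ⟨?_⟩
  convert h2
  symm
  rw [eq_univ_iff_forall]
  intro y
  obtain ⟨v, rfl⟩ := he.surj y
  refine ⟨fun i => Int.fract (v.ofLp i), fun i _ => ⟨Int.fract_nonneg _, (Int.fract_lt_one _).le⟩,
    ?_⟩
  have h3 : v = WithLp.toLp 2 (fun i => Int.fract (v.ofLp i)) + iv fun i => ⌊v.ofLp i⌋ := by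
    ext i
    exact (Int.fract_add_floor (v.ofLp i)).symm
  conv_rhs => rw [h3]
  exact (e_add he _ _).symm

/-- a sequence which avoids `q` and tends to another point keeps a distance from `q` -/
lemma away {T : Type*} [MetricSpace T] {a : ℕ → T} {a0 q : T} (h : Tendsto a atTop (𝓝 a0))
    (h0 : a0 ≠ q) (hne : ∀ n, 1 ≤ n → a n ≠ q) : ∃ c > 0, ∀ n, 1 ≤ n → c ≤ dist (a n) q := by
  have h1 : 0 < dist a0 q := dist_pos.2 h0
  have h2 : Tendsto (fun n => dist (a n) q) atTop (𝓝 (dist a0 q)) := h.dist tendsto_const_nhds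
  have h3 : ∀ᶠ n in atTop, dist a0 q / 2 < dist (a n) q :=
    h2.eventually (lt_mem_nhds (by linarith))
  obtain ⟨N, hN⟩ := eventually_atTop.1 h3
  have h4 : ∀ N : ℕ, ∃ c > 0, ∀ n, 1 ≤ n → n < N → c ≤ dist (a n) q := by
    intro N
    induction N with
    | zero => exact ⟨1, one_pos, fun n _ h => absurd h (by omega)⟩
    | succ N ih =>
      obtain ⟨c, hc, h⟩ := ih
      by_cases hN : 1 ≤ N
      · refine ⟨min c (dist (a N) q), lt_min hc (dist_pos.2 (hne N hN)), fun n h1 h2 => ?_⟩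
        rcases Nat.lt_succ_iff_lt_or_eq.1 h2 with h3 | h3
        · exact (min_le_left _ _).trans (h n h1 h3)
        · rw [h3]
          exact min_le_right _ _
      · exact ⟨c, hc, fun n h1 h2 => absurd h2 (by omega)⟩
  obtain ⟨c, hc, h5⟩ := h4 N
  refine ⟨min c (dist a0 q / 2), lt_min hc (by linarith), fun n hn => ?_⟩
  rcases lt_or_ge n N with h6 | h6
  · exact (min_le_left _ _).trans (h5 n hn h6)
  · exact (min_le_right _ _).trans (hN n h6).le

section Pow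

variable {E : Type*} [NormedAddCommGroup E] [NormedSpace ℝ E] (A : E ≃L[ℝ] E)

/-- powers and inverse powers -/
lemma pow_sub (t g : ℕ) (h : t ≤ g) (v : E) :
    ((A : E →L[ℝ] E) ^ t) (((A.symm : E →L[ℝ] E) ^ g) v) = ((A.symm : E →L[ℝ] E) ^ (g - t)) v := by
  obtain ⟨s, rfl⟩ := Nat.exists_eq_add_of_le h
  rw [Nat.add_sub_cancel_left, pow_add]
  exact pow_symm_pow A t _

end Pow

lemma symm_pow_pow {E : Type*} [NormedAddCommGroup E] [NormedSpace ℝ E] (A : E ≃L[ℝ] E) (n : ℕ)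
    (v : E) : ((A.symm : E →L[ℝ] E) ^ n) (((A : E →L[ℝ] E) ^ n) v) = v :=
  pow_symm_pow A.symm n v

lemma iter_e {m : ℕ} {T : Type*} {e : EE m → T} {A : EE m ≃L[ℝ] EE m} {B : T → T}
    (hB : ∀ v, B (e v) = e (A v)) (n : ℕ) :
    ∀ v, B^[n] (e v) = e (((A : EE m →L[ℝ] EE m) ^ n) v) := by
  induction n with
  | zero => intro v; rfl
  | succ n ih =>
    intro v
    rw [Function.iterate_succ_apply, hB, ih, pow_succ]
    rfl

lemma int_pow {m : ℕ} {A : EE m →L[ℝ] EE m} (h : ∀ k, ∃ l, A (iv k) = iv l) (n : ℕ) :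
    ∀ k, ∃ l, (A ^ n) (iv k) = iv l := by
  induction n with
  | zero => intro k; exact ⟨k, rfl⟩
  | succ n ih =>
    intro k
    obtain ⟨l, hl⟩ := h k
    obtain ⟨l', hl'⟩ := ih l
    refine ⟨l', ?_⟩
    rw [pow_succ, ← hl', ← hl]
    rfl

lemma small_exists {C μ c δ : ℝ} (hμ0 : 0 < μ) (hμ1 : μ < 1) (hδ : 0 < δ) :
    ∀ᶠ n : ℕ in atTop, C * μ ^ n * c < δ := by
  have h1 : Tendsto (fun n : ℕ => C * μ ^ n * c) atTop (𝓝 (C * 0 * c)) :=
    ((tendsto_pow_atTop_nhds_zero_of_lt_one hμ0.le hμ1).const_mul C).mul_const c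
  have h2 : C * 0 * c < δ := by simpa using hδ
  exact h1.eventually (gt_mem_nhds h2)

/-- an integral vector which is contracted vanishes -/
lemma int_zero {m : ℕ} {A A' P : EE m →L[ℝ] EE m} {C μ : ℝ} (hμ0 : 0 < μ) (hμ1 : μ < 1)
    (hinv : ∀ (n : ℕ) v, (A' ^ n) ((A ^ n) v) = v) (hint : ∀ k, ∃ l, A (iv k) = iv l)
    (hc : ∀ v (n : ℕ), ‖(A ^ n) (P v)‖ ≤ C * μ ^ n * ‖v‖) (l : Fin m → ℤ)
    (hl : P (iv l) = iv l) : iv l = 0 := by
  obtain ⟨n, hn⟩ := (small_exists (C := C) (c := ‖iv l‖) hμ0 hμ1 one_pos).exists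
  obtain ⟨l', hl'⟩ := int_pow hint n l
  have h1 : ‖iv l'‖ < 1 := by
    rw [← hl', ← hl]
    refine lt_of_le_of_lt (hc _ n) ?_
    exact hn
  have h2 : l' = 0 := iv_small l' h1
  rw [← hinv n (iv l), hl', h2, iv_zero, map_zero]

end XTorusReturn

open XTorusReturn in
open XFibClosed (iv_zero iv_add iv_neg e_add e_unif) in
open XSemi (pow_symm_pow) in
theorem prf_TorusReturn : TorusReturn.{v} := by
  intro m T _ e A B hm he hint hA hB
  have : CompactSpace T := compactT he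
  obtain ⟨Ps, Pu, C, μ, hsum, hC, hμ0, hμ1, hs, hu, hid, hcom⟩ := proj A hA
  have hPu : ∀ v, Pu v = v - Ps v := fun v => by
    rw [eq_sub_iff_add_eq, add_comm]
    exact hsum v
  have hcomn : ∀ (n : ℕ) v, Ps (((A : EE m →L[ℝ] EE m) ^ n) v) =
      ((A : EE m →L[ℝ] EE m) ^ n) (Ps v) := by
    intro n
    induction n with
    | zero => intro v; rfl
    | succ n ih =>
      intro v
      rw [pow_succ]
      show Ps (((A : EE m →L[ℝ] EE m) ^ n) (A v)) = ((A : EE m →L[ℝ] EE m) ^ n) (A (Ps v))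
      rw [ih, hcom]
  have hcomI : ∀ v, Ps (A.symm v) = A.symm (Ps v) := by
    intro v
    have h1 := hcom (A.symm v)
    rw [A.apply_symm_apply] at h1
    rw [h1, A.symm_apply_apply]
  have hcomIn : ∀ (n : ℕ) v, Ps (((A.symm : EE m →L[ℝ] EE m) ^ n) v) =
      ((A.symm : EE m →L[ℝ] EE m) ^ n) (Ps v) := by
    intro n
    induction n with
    | zero => intro v; rfl
    | succ n ih =>
      intro v
      rw [pow_succ]
      show Ps (((A.symm : EE m →L[ℝ] EE m) ^ n) (A.symm v)) =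
        ((A.symm : EE m →L[ℝ] EE m) ^ n) (A.symm (Ps v))
      rw [ih, hcomI]
  have hPuu : ∀ v, Pu (Pu v) = Pu v := by
    intro v
    have h1 : Ps (Pu v) = 0 := by rw [hPu v, map_sub, hid, sub_self]
    rw [hPu (Pu v), h1, sub_zero]
  have hcomU : ∀ (n : ℕ) v, Pu (((A.symm : EE m →L[ℝ] EE m) ^ n) v) =
      ((A.symm : EE m →L[ℝ] EE m) ^ n) (Pu v) := by
    intro n v
    rw [hPu, hcomIn, hPu, map_sub]
  -- the homoclinic point
  set k : Fin m → ℤ := fun _ => 1 with hk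
  set ks : EE m := Ps (iv k) with hks
  set ku : EE m := Pu (iv k) with hku
  set K : ℝ := ‖iv k‖ with hK
  have hK0 : 0 ≤ K := norm_nonneg _
  have hsk : ks + ku = iv k := hsum _
  have hz1 : ∀ l : Fin m → ℤ, Ps (iv l) = iv l → iv l = 0 := fun l hl =>
    int_zero hμ0 hμ1 (fun n v => symm_pow_pow A n v) hint.1 hs l hl
  have hz2 : ∀ l : Fin m → ℤ, Pu (iv l) = iv l → iv l = 0 := fun l hl =>
    int_zero (A := (A.symm : EE m →L[ℝ] EE m)) (A' := (A : EE m →L[ℝ] EE m)) hμ0 hμ1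
      (fun n v => pow_symm_pow A n v) hint.2 hu l hl
  have hBn := iter_e (e := e) (A := A) hB
  have hAs : ∀ n : ℕ, ‖((A : EE m →L[ℝ] EE m) ^ n) ks‖ ≤ C * μ ^ n * K := fun n => hs _ n
  have hAu : ∀ n : ℕ, ‖((A.symm : EE m →L[ℝ] EE m) ^ n) ku‖ ≤ C * μ ^ n * K := fun n => hu _ n
  have hlim : Tendsto (fun n : ℕ => C * μ ^ n * K) atTop (𝓝 0) := by
    have h1 : Tendsto (fun n : ℕ => C * μ ^ n * K) atTop (𝓝 (C * 0 * K)) :=
      ((tendsto_pow_atTop_nhds_zero_of_lt_one hμ0.le hμ1).const_mul C).mul_const K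
    simpa using h1
  have hq : e ks ∉ periodicPts B := by
    rintro ⟨n, hn, hper⟩
    have h1 : e ks = e (((A : EE m →L[ℝ] EE m) ^ n) ks) := by
      rw [← hBn]
      exact hper.symm
    obtain ⟨l, hl⟩ := (he.fibre _ _).1 h1
    have h2 : iv l = ((A : EE m →L[ℝ] EE m) ^ n) ks - ks := by
      rw [hl]
      abel
    have h3 : iv l = 0 := by
      refine hz1 l ?_
      rw [h2, map_sub, hcomn, hks, hid]
    have h4 : ((A : EE m →L[ℝ] EE m) ^ n) ks = ks := by rw [hl, h3, add_zero]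
    have h5 : ∀ j : ℕ, ((A : EE m →L[ℝ] EE m) ^ (n * j)) ks = ks := by
      intro j
      induction j with
      | zero => rfl
      | succ j ih =>
        rw [Nat.mul_succ, pow_add]
        show ((A : EE m →L[ℝ] EE m) ^ (n * j)) (((A : EE m →L[ℝ] EE m) ^ n) ks) = ks
        rw [h4, ih]
    have h6 : ∀ j : ℕ, ‖ks‖ ≤ C * μ ^ j * K := by
      intro j
      have h7 := hAs (n * j)
      rw [h5] at h7
      refine h7.trans ?_
      have h8 : μ ^ (n * j) ≤ μ ^ j :=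
        pow_le_pow_of_le_one hμ0.le hμ1.le (Nat.le_mul_of_pos_left j hn)
      exact mul_le_mul_of_nonneg_right (mul_le_mul_of_nonneg_left h8 hC.le) hK0
    have h9 : ks = 0 := by
      have h10 : ‖ks‖ ≤ 0 := ge_of_tendsto hlim (Eventually.of_forall h6)
      exact norm_le_zero_iff.1 h10
    have h11 : iv k = 0 := by
      refine hz2 k ?_
      rw [← hku]
      have := hsk
      rw [h9, zero_add] at this
      exact this
    have h12 : k = 0 := iv_small k (by rw [h11, norm_zero]; exact one_pos)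
    have h13 := congrFun h12 ⟨0, hm⟩
    simp [hk] at h13
  have hnq : ∀ n : ℕ, 1 ≤ n → B^[n] (e ks) ≠ e ks := fun n hn h => hq ⟨n, hn, h⟩
  have h0q : e 0 ≠ e ks := by
    intro h
    refine hq ?_
    rw [← h]
    refine ⟨1, one_pos, ?_⟩
    show B^[1] (e 0) = e 0
    rw [Function.iterate_one, hB, map_zero]
  obtain ⟨c1, hc1, ha1⟩ : ∃ c > 0, ∀ n, 1 ≤ n →
      c ≤ dist (e (((A : EE m →L[ℝ] EE m) ^ n) ks)) (e ks) := by
    refine away (a0 := e 0) ?_ h0q fun n hn h => hnq n hn (by rw [hBn]; exact h)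
    exact (he.cont.tendsto 0).comp (squeeze_zero_norm hAs hlim)
  obtain ⟨c2, hc2, ha2⟩ : ∃ c > 0, ∀ n, 1 ≤ n →
      c ≤ dist (e (-((A.symm : EE m →L[ℝ] EE m) ^ n) ku)) (e ks) := by
    refine away (a0 := e 0) ?_ h0q fun n hn h => hnq n hn ?_
    · refine (he.cont.tendsto 0).comp (squeeze_zero_norm (fun n => ?_) hlim)
      rw [norm_neg]
      exact hAu n
    · conv_lhs => rw [← h]
      rw [hBn, map_neg, pow_symm_pow]
      have h1 : ks = -ku + iv k := by rw [← hsk]; abel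
      rw [h1, e_add he]
  refine ⟨e ks, min c1 c2 / 2, by positivity, hq, fun ρ hρ0 hρ1 => ?_⟩
  obtain ⟨δ, hδ, hδe⟩ := e_unif he ρ hρ0
  obtain ⟨n1, hn1, hn2⟩ := ((small_exists (C := C) (c := K * (4 * C + 2)) hμ0 hμ1 hδ).and
    (small_exists (C := C) (c := 1) hμ0 hμ1 (by norm_num : (0 : ℝ) < 1 / 2))).exists
  refine ⟨2 * n1, fun p g hp hg => ?_⟩
  have : NeZero p := ⟨hp.ne'⟩
  set G : ZMod p → ℕ := fun i => g i.val with hG
  have hGn : ∀ i, 2 * n1 ≤ G i := fun i => hg _ (ZMod.val_lt i)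
  have hpow : ∀ n : ℕ, n1 ≤ n → μ ^ n ≤ μ ^ n1 := fun n hn =>
    pow_le_pow_of_le_one hμ0.le hμ1.le hn
  have hpow1 : ∀ n : ℕ, μ ^ n ≤ 1 := fun n => pow_le_one₀ hμ0.le hμ1.le
  have hCn : ∀ (n : ℕ) (c : ℝ), n1 ≤ n → 0 ≤ c → C * μ ^ n * c ≤ C * μ ^ n1 * c :=
    fun n c hn hc => mul_le_mul_of_nonneg_right (mul_le_mul_of_nonneg_left (hpow n hn) hC.le) hc
  set b : ℝ := C * μ ^ n1 * K with hb
  have hb0 : 0 ≤ b := by positivity
  obtain ⟨s, hs1, hs2⟩ := solve (fun i : ZMod p => i - 1)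
    (fun i => ((A : EE m →L[ℝ] EE m) ^ G (i - 1)).comp Ps) (fun i w => by
      refine (hs w _).trans ?_
      refine (hCn _ _ (by have := hGn (i - 1); omega) (norm_nonneg w)).trans ?_
      refine mul_le_mul_of_nonneg_right ?_ (norm_nonneg w)
      linarith) (fun _ => ks) (C * K) (by positivity) (fun _ => by
      have := hAs 0
      simpa using this)
  obtain ⟨u, hu1, hu2⟩ := solve (fun i : ZMod p => i + 1)
    (fun i => ((A.symm : EE m →L[ℝ] EE m) ^ G i).comp Pu) (fun i w => by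
      refine (hu w _).trans ?_
      refine (hCn _ _ (by have := hGn i; omega) (norm_nonneg w)).trans ?_
      refine mul_le_mul_of_nonneg_right ?_ (norm_nonneg w)
      linarith) (fun i => -((A.symm : EE m →L[ℝ] EE m) ^ G i) ku) b hb0 (fun i => by
      rw [norm_neg]
      exact (hAu _).trans (hCn _ _ (by have := hGn i; omega) hK0))
  have hs3 : ∀ i, Ps (s i) = s i := by
    intro i
    rw [hs1 i]
    show Ps (((A : EE m →L[ℝ] EE m) ^ G (i - 1)) (Ps (s (i - 1))) + ks) =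
      ((A : EE m →L[ℝ] EE m) ^ G (i - 1)) (Ps (s (i - 1))) + ks
    rw [map_add, hcomn, hid, hks, hid]
  have hu3 : ∀ i, Pu (u i) = u i := by
    intro i
    rw [hu1 i]
    show Pu (((A.symm : EE m →L[ℝ] EE m) ^ G i) (Pu (u (i + 1))) +
      -((A.symm : EE m →L[ℝ] EE m) ^ G i) ku) =
      ((A.symm : EE m →L[ℝ] EE m) ^ G i) (Pu (u (i + 1))) +
      -((A.symm : EE m →L[ℝ] EE m) ^ G i) ku
    rw [map_add, map_neg, hcomU, hcomU, hPuu, hku, hPuu]
  have hs4 : ∀ i, s (i + 1) = ((A : EE m →L[ℝ] EE m) ^ G i) (s i) + ks := by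
    intro i
    have h1 := hs1 (i + 1)
    have h2 : (i + 1 - 1 : ZMod p) = i := by ring
    simp only [h2] at h1
    rw [h1]
    show ((A : EE m →L[ℝ] EE m) ^ G i) (Ps (s i)) + ks = _
    rw [hs3]
  have hu4 : ∀ i, u i = ((A.symm : EE m →L[ℝ] EE m) ^ G i) (u (i + 1)) -
      ((A.symm : EE m →L[ℝ] EE m) ^ G i) ku := by
    intro i
    have h1 := hu1 i
    rw [sub_eq_add_neg, ← hu3 (i + 1)]
    exact h1
  refine ⟨fun j => e (s (j : ZMod p) + u (j : ZMod p)), by simp, fun i hi => ?_⟩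
  have hval : (i : ZMod p).val = i := ZMod.val_natCast_of_lt hi
  have hGi : G (i : ZMod p) = g i := by simp only [hG, hval]
  have hgi : 2 * n1 ≤ g i := hg i hi
  set a : ZMod p := (i : ZMod p) with ha
  -- the point `s a` is close to `ks`
  obtain ⟨w, hw, hwb⟩ : ∃ w, s a = ks + Ps w ∧ ∀ t : ℕ,
      ‖((A : EE m →L[ℝ] EE m) ^ t) (Ps w)‖ ≤ b * (2 * C) := by
    refine ⟨((A : EE m →L[ℝ] EE m) ^ G (a - 1)) (s (a - 1)), ?_, fun t => ?_⟩
    · have h1 := hs4 (a - 1)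
      rw [sub_add_cancel] at h1
      rw [hcomn, hs3, h1, add_comm]
    · rw [hcomn]
      have h1 : ((A : EE m →L[ℝ] EE m) ^ t) (((A : EE m →L[ℝ] EE m) ^ G (a - 1))
          (Ps (s (a - 1)))) = ((A : EE m →L[ℝ] EE m) ^ (t + G (a - 1))) (Ps (s (a - 1))) := by
        rw [pow_add]
        rfl
      rw [h1]
      refine (hs _ _).trans ?_
      refine (hCn _ _ (by have := hGn (a - 1); omega) (norm_nonneg _)).trans ?_
      refine (mul_le_mul_of_nonneg_left (hs2 (a - 1)) (by positivity)).trans ?_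
      rw [hb]
      apply le_of_eq
      ring
  have hub : ∀ t : ℕ, ‖((A.symm : EE m →L[ℝ] EE m) ^ t) (u (a + 1))‖ ≤ b * (2 * C) := by
    intro t
    have h1 := hu (u (a + 1)) t
    rw [hu3] at h1
    refine h1.trans ?_
    have h2 : C * μ ^ t * ‖u (a + 1)‖ ≤ C * 1 * (2 * b) :=
      mul_le_mul (mul_le_mul_of_nonneg_left (hpow1 t) hC.le) (hu2 _) (norm_nonneg _)
        (by positivity)
    refine h2.trans (le_of_eq ?_)
    ring
  have hbδ : b * (4 * C + 2) ≤ δ := by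
    have : C * μ ^ n1 * (K * (4 * C + 2)) = b * (4 * C + 2) := by rw [hb]; ring
    linarith
  have hkey : ∀ t ≤ g i, ((A : EE m →L[ℝ] EE m) ^ t) (s a + u a) =
      ((A : EE m →L[ℝ] EE m) ^ t) ks + ((A : EE m →L[ℝ] EE m) ^ t) (Ps w) +
      ((A.symm : EE m →L[ℝ] EE m) ^ (g i - t)) (u (a + 1)) -
      ((A.symm : EE m →L[ℝ] EE m) ^ (g i - t)) ku := by
    intro t ht
    rw [map_add, hw, map_add, hu4 a, hGi, map_sub, pow_sub A t _ ht, pow_sub A t _ ht]
    abel
  refine ⟨?_, ?_, fun t ht0 ht1 => ?_⟩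
  · have h1 : s a + u a = ks + (Ps w + u a) := by rw [hw]; abel
    show dist (e (s a + u a)) (e ks) ≤ ρ
    rw [h1]
    refine hδe _ _ ?_
    have h2 := hwb 0
    have h3 := hu2 a
    have h4 : ‖Ps w‖ ≤ b * (2 * C) := h2
    refine (norm_add_le _ _).trans ?_
    nlinarith
  · show B^[g i] (e (s a + u a)) = e (s ((i + 1 : ℕ) : ZMod p) + u ((i + 1 : ℕ) : ZMod p))
    have h1 : ((i + 1 : ℕ) : ZMod p) = a + 1 := by rw [ha]; push_cast; ring
    rw [hBn, hkey _ le_rfl, h1, Nat.sub_self]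
    have h2 : ((A : EE m →L[ℝ] EE m) ^ g i) (s a) = s (a + 1) - ks := by
      rw [hs4 a, hGi]
      abel
    have h3 : ((A : EE m →L[ℝ] EE m) ^ g i) ks + ((A : EE m →L[ℝ] EE m) ^ g i) (Ps w) =
        s (a + 1) - ks := by
      rw [← map_add, ← hw, h2]
    rw [h3]
    show e (s (a + 1) - ks + u (a + 1) - ku) = _
    have h4 : s (a + 1) - ks + u (a + 1) - ku = s (a + 1) + u (a + 1) + iv (-k) := by
      rw [iv_neg, ← hsk]
      abel
    rw [h4, e_add he]
  · show min c1 c2 / 2 ≤ dist (B^[t] (e (s a + u a))) (e ks)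
    rw [hBn, hkey t ht1.le]
    set z := ((A : EE m →L[ℝ] EE m) ^ t) (Ps w) +
      ((A.symm : EE m →L[ℝ] EE m) ^ (g i - t)) (u (a + 1)) with hz
    have hzb : ‖z‖ ≤ b * (4 * C) := by
      refine (norm_add_le _ _).trans ?_
      have := hwb t
      have := hub (g i - t)
      linarith
    have hρ2 : ρ < min c1 c2 / 2 := hρ1
    have hm1 : min c1 c2 ≤ c1 := min_le_left _ _
    have hm2 : min c1 c2 ≤ c2 := min_le_right _ _
    by_cases htn : n1 ≤ t
    · have h1 : ((A : EE m →L[ℝ] EE m) ^ t) ks + ((A : EE m →L[ℝ] EE m) ^ t) (Ps w) +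
          ((A.symm : EE m →L[ℝ] EE m) ^ (g i - t)) (u (a + 1)) -
          ((A.symm : EE m →L[ℝ] EE m) ^ (g i - t)) ku =
          -((A.symm : EE m →L[ℝ] EE m) ^ (g i - t)) ku +
          (((A : EE m →L[ℝ] EE m) ^ t) ks + z) := by
        rw [hz]
        abel
      rw [h1]
      have h2 := hδe (-((A.symm : EE m →L[ℝ] EE m) ^ (g i - t)) ku)
        (((A : EE m →L[ℝ] EE m) ^ t) ks + z) (by
          refine (norm_add_le _ _).trans ?_
          have := (hAs t).trans (hCn t K htn hK0)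
          nlinarith)
      have h3 := ha2 (g i - t) (by omega)
      have h4 := dist_triangle (e (-((A.symm : EE m →L[ℝ] EE m) ^ (g i - t)) ku))
        (e (-((A.symm : EE m →L[ℝ] EE m) ^ (g i - t)) ku +
          (((A : EE m →L[ℝ] EE m) ^ t) ks + z))) (e ks)
      rw [dist_comm (e (-((A.symm : EE m →L[ℝ] EE m) ^ (g i - t)) ku))
        (e (-((A.symm : EE m →L[ℝ] EE m) ^ (g i - t)) ku +
          (((A : EE m →L[ℝ] EE m) ^ t) ks + z)))] at h4
      linarith
    · have h1 : ((A : EE m →L[ℝ] EE m) ^ t) ks + ((A : EE m →L[ℝ] EE m) ^ t) (Ps w) +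
          ((A.symm : EE m →L[ℝ] EE m) ^ (g i - t)) (u (a + 1)) -
          ((A.symm : EE m →L[ℝ] EE m) ^ (g i - t)) ku =
          ((A : EE m →L[ℝ] EE m) ^ t) ks +
          (z - ((A.symm : EE m →L[ℝ] EE m) ^ (g i - t)) ku) := by
        rw [hz]
        abel
      rw [h1]
      have h2 := hδe (((A : EE m →L[ℝ] EE m) ^ t) ks)
        (z - ((A.symm : EE m →L[ℝ] EE m) ^ (g i - t)) ku) (by
          refine (norm_sub_le _ _).trans ?_
          have := (hAu (g i - t)).trans (hCn (g i - t) K (by omega) hK0)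
          nlinarith)
      have h3 := ha1 t ht0
      have h4 := dist_triangle (e (((A : EE m →L[ℝ] EE m) ^ t) ks))
        (e (((A : EE m →L[ℝ] EE m) ^ t) ks +
          (z - ((A.symm : EE m →L[ℝ] EE m) ^ (g i - t)) ku))) (e ks)
      rw [dist_comm (e (((A : EE m →L[ℝ] EE m) ^ t) ks))
        (e (((A : EE m →L[ℝ] EE m) ^ t) ks +
          (z - ((A.symm : EE m →L[ℝ] EE m) ^ (g i - t)) ku)))] at h4
      linarith

end Pool.Agent.OmegaFT
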