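import Pool.Agent.Work.MP_814647_an.FT.I_VertBoundOn

/-!
# Item VertBound: the linear a priori estimate along closed pseudo-orbits

Author of this file: helper95.  The case `Λ = N × ℝ^m` of VertBoundOn.
-/

open Set Filter Topology Function
open scoped Manifold ContDiff

noncomputable section

namespace Pool.Agent.OmegaFT

open Pool.Agent.OmegaStab (EE HypLin)

universe u

theorem prf_VertBound : VertBound.{u} := by
  intro m N _ _ A φ f₁ Es Eu C μ hA hf₁ hφ hper hC1 H
  have H' : VSplitOn f₁ (fun x v => A v + φ x v) univ Es Eu C μ :=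
    { one_le := H.one_le
      mu_pos := H.mu_pos
      mu_lt := H.mu_lt
      closed := isClosed_univ
      per := fun _ _ _ _ => mem_univ _
      inv := fun _ _ _ => mem_univ _
      closed_s := by simpa only [mem_univ, true_and] using H.closed_s
      closed_u := by simpa only [mem_univ, true_and] using H.closed_u
      compl := fun x v _ => H.compl x v
      per_s := fun x v k _ => H.per_s x v k
      per_u := fun x v k _ => H.per_u x v k
      inv_s := fun x v _ => H.inv_s x v
      inv_u := fun x v _ => H.inv_u x v
      con_s := fun x v _ => H.con_s x v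
      exp_u := fun x v _ => H.exp_u x v }
  obtain ⟨K, δ, hK, hδ, hb⟩ := prf_VertBoundOn m N A φ f₁ univ Es Eu C μ hA hf₁ hφ hper hC1 H'
  refine ⟨K, δ, hK, hδ, fun n X v hO => hb n X v ⟨hO, fun t _ => ⟨(X t, v t), mem_univ _, ?_, ?_⟩⟩⟩
  · rw [dist_self]
    exact hδ.le
  · rw [sub_self, norm_zero]
    exact hδ.le

end Pool.Agent.OmegaFT
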