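import Pool.Agent.Work.MP_814647_an.FT.Stmts3
import Pool.Agent.Work.MP_814647_an.FT.I_VertShadowOnB

/-!
# Fibred tori, item VertShadowOn: a special case of VertShadowOnB
-/

namespace Pool.Agent.OmegaFT

open Pool.Agent.OmegaStab (EE HypLin)

universe u

theorem prf_VertShadowOn (h1 : PerSolve) : VertShadowOn.{u} := by
  intro m N _ _ A φ f₁ Λ hI _ hp hC hV
  refine prf_VertShadowOnB h1 m N A (fun x v => A v + φ x v) f₁ Λ hI (fun x v k => ?_) hC hV
  simp only [map_add, hp x v k]
  abel

end Pool.Agent.OmegaFT
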