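import Pool.Agent.Work.MP_814647_an.FT.Stmts2

/-!
# Fibred tori: hyperbolicity along the fibres over the chain recurrent set only
-/

open Set Filter Topology Function
open scoped Manifold ContDiff

noncomputable section

namespace Pool.Agent.OmegaFT

open Pool.Agent.OmegaStab (EE Dyn IsFam PP HypAt crTopology HypLin ConjClass)
open Pool.Agent.OmegaStab.FinHyp (der)
open Pool.Agent.OmegaPS
open Pool.Agent.OmegaStability

universe u v w x

/-- The chain recurrent set of `f`: the points on closed pseudo-orbits with arbitrarily small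
jumps. -/
def ChainRec {M : Type*} [MetricSpace M] (f : M → M) : Set M :=
  {x | ∀ ε > 0, ∃ (n : ℕ) (z : ℕ → M), 0 < n ∧ z 0 = x ∧ z n = x ∧
    ∀ i < n, dist (f (z i)) (z (i + 1)) ≤ ε}

section Vertical

variable {m : ℕ} {N : Type*}

/-- As `VSplit`, over a closed periodic invariant subset `Λ` of `N × ℝ^m`. -/
structure VSplitOn [TopologicalSpace N] (f₁ : N → N) (P : N → EE m → EE m)
    (Λ : Set (N × EE m)) (Es Eu : N → EE m → Submodule ℝ (EE m)) (C μ : ℝ) : Prop where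
  one_le : 1 ≤ C
  mu_pos : 0 < μ
  mu_lt : μ < 1
  closed : IsClosed Λ
  per : ∀ x v k, (x, v) ∈ Λ → (x, v + iv k) ∈ Λ
  inv : ∀ x v, (x, v) ∈ Λ → (f₁ x, P x v) ∈ Λ
  closed_s : IsClosed {z : (N × EE m) × EE m | z.1 ∈ Λ ∧ z.2 ∈ Es z.1.1 z.1.2}
  closed_u : IsClosed {z : (N × EE m) × EE m | z.1 ∈ Λ ∧ z.2 ∈ Eu z.1.1 z.1.2}
  compl : ∀ x v, (x, v) ∈ Λ → IsCompl (Es x v) (Eu x v)
  per_s : ∀ x v k, (x, v) ∈ Λ → Es x (v + iv k) = Es x v
  per_u : ∀ x v k, (x, v) ∈ Λ → Eu x (v + iv k) = Eu x v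
  inv_s : ∀ x v, (x, v) ∈ Λ → ∀ c ∈ Es x v, fderiv ℝ (P x) v c ∈ Es (f₁ x) (P x v)
  inv_u : ∀ x v, (x, v) ∈ Λ → ∀ c ∈ Eu x v, fderiv ℝ (P x) v c ∈ Eu (f₁ x) (P x v)
  con_s : ∀ x v, (x, v) ∈ Λ → ∀ c ∈ Es x v, ∀ n : ℕ, ‖vder f₁ P n x v c‖ ≤ C * μ ^ n * ‖c‖
  exp_u : ∀ x v, (x, v) ∈ Λ → ∀ c ∈ Eu x v, ∀ n : ℕ, ‖c‖ ≤ C * μ ^ n * ‖vder f₁ P n x v c‖

/-- The closed sequence `(X t, v t)` is a pseudo-orbit `δ`-close to `Λ`. -/
def PseudoOrbOn [MetricSpace N] (f₁ : N → N) (P : N → EE m → EE m) (Λ : Set (N × EE m)) (δ : ℝ)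
    (n : ℕ) (X : ℕ → N) (v : ℕ → EE m) : Prop :=
  PseudoOrb f₁ P δ n X v ∧ ∀ t < n, ∃ z ∈ Λ, dist (X t) z.1 ≤ δ ∧ ‖v t - z.2‖ ≤ δ

/-- The linear a priori estimate along closed pseudo-orbits close to `Λ`. -/
def VBoundOn [MetricSpace N] (f₁ : N → N) (P : N → EE m → EE m) (Λ : Set (N × EE m)) : Prop :=
  ∃ K δ : ℝ, 0 < K ∧ 0 < δ ∧ ∀ (n : ℕ) (X : ℕ → N) (v : ℕ → EE m), PseudoOrbOn f₁ P Λ δ n X v →
    ∀ (z : ℕ → EE m) (b : ℝ), z n = z 0 →
      (∀ t < n, ‖z (t + 1) - fderiv ℝ (P (X t)) (v t) (z t)‖ ≤ b) → ∀ t ≤ n, ‖z t‖ ≤ K * b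

/-- Vertical shadowing over closed pseudo-orbits of the base, close to `Λ`. -/
def VShadowOn [MetricSpace N] (f₁ : N → N) (P : N → EE m → EE m) (Λ : Set (N × EE m)) : Prop :=
  ∀ ε > 0, ∃ δ > 0, ∀ (n : ℕ) (X : ℕ → N) (v : ℕ → EE m), PseudoOrbOn f₁ P Λ δ n X v →
    ∃ z : ℕ → EE m, z n = z 0 ∧ (∀ t ≤ n, ‖z t‖ ≤ ε) ∧
      ∀ t < n, ∃ k : Fin m → ℤ, P (X t) (v t + z t) + iv k = v (t + 1) + z (t + 1)

end Vertical

/-- Uniform hyperbolicity of `f` along the fibres of the base projection, over `Λ`. -/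
def VertHypOn {d₁ d₂ d : ℕ} {N T M : Type*} [MetricSpace N] [ChartedSpace (EE d₁) N]
    [MetricSpace T] [ChartedSpace (EE d₂) T] [MetricSpace M] [ChartedSpace (EE d) M]
    [IsManifold (𝓡 d) ∞ M] (Φ : Diffeomorph (𝓡 d) ((𝓡 d₁).prod (𝓡 d₂)) M (N × T) ∞)
    (f f' : M → M) (Λ : Set M) (Es Eu : TFamily (EE d) M) (γ : RMetric (EE d) M) (c μ : ℝ) :
    Prop :=
  ClosedOver Es Λ ∧ ClosedOver Eu Λ ∧ InvariantOver f Es Λ ∧ InvariantOver f Eu Λ ∧
    (∀ x ∈ Λ, Disjoint (Es x) (Eu x)) ∧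
    (∀ x ∈ Λ, ∀ v : EE d, dbase Φ x v = 0 ↔
      ∃ s : EE d, s ∈ Es x ∧ ∃ u : EE d, u ∈ Eu x ∧ v = s + u) ∧
    0 < c ∧ 0 < μ ∧ μ < 1 ∧ ContractedOver f γ Es Λ c μ ∧ ContractedOver f' γ Eu Λ c μ

/-- Item VertBoundOn. As VertBound. A pseudo-orbit close to `Λ` is replaced by one in `Λ` (points
`(x', v')` of `Λ` close to `(X t, v t)`): it is a pseudo-orbit with small jumps, and the derivatives
are uniformly close to the given ones (`K * η ≤ 1 / 2`), so it suffices to treat pseudo-orbits in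
`Λ` (note: at the time `n` take the same point as at the time `0`). -/
def VertBoundOn : Prop :=
  ∀ (m : ℕ) (N : Type u) [MetricSpace N] [CompactSpace N] (A : EE m ≃L[ℝ] EE m)
    (φ : N → EE m → EE m) (f₁ : N → N) (Λ : Set (N × EE m))
    (Es Eu : N → EE m → Submodule ℝ (EE m)) (C μ : ℝ),
    Integral A → Continuous f₁ → Continuous (uncurry φ) → (∀ x v k, φ x (v + iv k) = φ x v) →
    VertC1 (fun x v => A v + φ x v) → VSplitOn f₁ (fun x v => A v + φ x v) Λ Es Eu C μ →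
    VBoundOn f₁ (fun x v => A v + φ x v) Λ

/-- Item VertShadowOn. As VertShadow. -/
def VertShadowOn : Prop :=
  ∀ (m : ℕ) (N : Type u) [MetricSpace N] [CompactSpace N] (A : EE m ≃L[ℝ] EE m)
    (φ : N → EE m → EE m) (f₁ : N → N) (Λ : Set (N × EE m)), Integral A → Continuous (uncurry φ) →
    (∀ x v k, φ x (v + iv k) = φ x v) → VertC1 (fun x v => A v + φ x v) →
    VBoundOn f₁ (fun x v => A v + φ x v) Λ → VShadowOn f₁ (fun x v => A v + φ x v) Λ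

/-- Item FibClosedOn. As FibClosed, for the closed set `Λ` of the points `(x, v)` with `(x, e v)`
chain recurrent. New: for every `δ` all points of closed pseudo-orbits with sufficiently small
jumps are `δ`-close to the chain recurrent set (compactness: a limit of points `z_n` on closed
pseudo-orbits with jumps at most `ε_n → 0` is chain recurrent, by the continuity of `F`). The
points `(X t, v t)` are close to the points of the chain, hence to `Λ` (for the lifts: points close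
in `T` have lifts close modulo `ℤ^m`; `Λ` is periodic). -/
def FibClosedOn : Prop :=
  ∀ (m : ℕ) (N : Type u) (T : Type v) [MetricSpace N] [MetricSpace T] [CompactSpace N]
    [CompactSpace T] (e : EE m → T) (A : EE m ≃L[ℝ] EE m) (φ : N → EE m → EE m) (f₁ : N → N)
    (F : N × T → N × T), TopTorus e → Integral A → Continuous f₁ → Continuous F →
    Lifted e A φ f₁ F → ChainTrack f₁ →
    VShadowOn f₁ (fun x v => A v + φ x v) {z | (z.1, e z.2) ∈ ChainRec F} →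
    ∀ p : ℕ, 1 ≤ p → ∀ z : N × T,
      (∀ ε > 0, ∀ n₁ : ℕ, ∃ (y : ZMod p → N × T) (n : ZMod p → ℕ), dist (y 0) z ≤ ε ∧
        (∀ q, n₁ ≤ n q) ∧ ∀ q, dist (F^[n q] (y q)) (y (q + 1)) ≤ ε) →
      z ∈ closure (periodicPts F)

/-- Item VertCoordOn. As VertCoord, over a closed invariant set `Λ` of `M`. -/
def VertCoordOn : Prop :=
  ∀ (d₁ m d : ℕ) (N : Type u) (T : Type v) (M : Type w)
    [MetricSpace N] [ChartedSpace (EE d₁) N] [IsManifold (𝓡 d₁) ∞ N] [CompactSpace N]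
    [MetricSpace T] [ChartedSpace (EE m) T] [IsManifold (𝓡 m) ∞ T] [CompactSpace T]
    [MetricSpace M] [ChartedSpace (EE d) M] [IsManifold (𝓡 d) ∞ M] [CompactSpace M]
    (r : ℕ∞) (_ : 1 ≤ r)
    (Φ : Diffeomorph (𝓡 d) ((𝓡 d₁).prod (𝓡 m)) M (N × T) ∞) (f : Dyn d M r)
    (e : EE m → T) (_ : IsLocalDiffeomorph (𝓡 m) (𝓡 m) ∞ e) (_ : TopTorus e)
    (A : EE m ≃L[ℝ] EE m) (_ : Integral A) (φ : N → EE m → EE m) (f₁ : N → N)
    (_ : Lifted e A φ f₁ (fun z => Φ (f (Φ.symm z))))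
    (_ : VertC1 (fun x v => A v + φ x v)) (Λ : Set M) (_ : IsClosed Λ) (_ : ∀ x ∈ Λ, f x ∈ Λ)
    (Es Eu : TFamily (EE d) M) (γ : RMetric (EE d) M) (c μ : ℝ),
    VertHypOn Φ f f.symm Λ Es Eu γ c μ →
    ∃ (Es' Eu' : N → EE m → Submodule ℝ (EE m)) (C' μ' : ℝ),
      VSplitOn f₁ (fun x v => A v + φ x v) {z | Φ.symm (z.1, e z.2) ∈ Λ} Es' Eu' C' μ'

/-- Item FibHypOn. As FibHyp, for a closed invariant set `Λ` which contains `Omega f`. -/
def FibHypOn : Prop :=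
  ∀ (d₁ d₂ d : ℕ) (N : Type u) (T : Type v) (M : Type w)
    [MetricSpace N] [ChartedSpace (EE d₁) N] [IsManifold (𝓡 d₁) ∞ N] [CompactSpace N]
    [MetricSpace T] [ChartedSpace (EE d₂) T] [IsManifold (𝓡 d₂) ∞ T] [CompactSpace T]
    [MetricSpace M] [ChartedSpace (EE d) M] [IsManifold (𝓡 d) ∞ M] [CompactSpace M]
    (r : ℕ∞) (_ : 1 ≤ r)
    (Φ : Diffeomorph (𝓡 d) ((𝓡 d₁).prod (𝓡 d₂)) M (N × T) ∞) (f : Dyn d M r)
    (f₁ : Dyn d₁ N r) (_ : ∀ z, (Φ (f z)).1 = f₁ (Φ z).1) (Λ : Set M) (_ : Omega f ⊆ Λ)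
    (_ : ∀ x ∈ Λ, f x ∈ Λ) (_ : ∀ x ∈ Λ, f.symm x ∈ Λ)
    (Es Eu : TFamily (EE d) M) (γ : RMetric (EE d) M) (c μ : ℝ),
    VertHypOn Φ f f.symm Λ Es Eu γ c μ → HyperbolicStructure (EE d₁) f₁ f₁.symm (Omega f₁) →
    HyperbolicStructure (EE d) f f.symm (Omega f)

/-- Item CRBasic: the chain recurrent set of a homeomorphism of a compact space is closed and
invariant, contains the nonwandering set, and is natural. Proof: closed and forward invariant by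
continuity (`f z 0, f z 1, ...` is a pseudo-orbit with small jumps through `f x`, by uniform
continuity; for `x ∈ ChainRec f` concatenating closed pseudo-orbits one may assume `n ≥ 2`),
similarly for the inverse; `Omega f ⊆ ChainRec f`: `x, f y, f^[2] y, ..., f^[n-1] y, x` where `y`
and `f^[n] y` are close to `x`. -/
def CRBasic : Prop :=
  (∀ (M : Type u) [MetricSpace M] [CompactSpace M] (f : M ≃ₜ M),
    IsClosed (ChainRec f) ∧ (∀ x ∈ ChainRec f, f x ∈ ChainRec f) ∧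
      (∀ x ∈ ChainRec f, f.symm x ∈ ChainRec f) ∧ Omega f ⊆ ChainRec f) ∧
  ∀ (M : Type u) (Y : Type v) [MetricSpace M] [MetricSpace Y] [CompactSpace M] [CompactSpace Y]
    (h : M ≃ₜ Y) (f : M → M) (F : Y → Y), (∀ x, h (f x) = F (h x)) →
    ∀ x, x ∈ ChainRec f ↔ h x ∈ ChainRec F

end Pool.Agent.OmegaFT
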