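import Pool.Agent.Work.MP_814647_an.PS.Main
import Pool.Agent.Work.MP_814647_an.PS.SwitchRet
import Pool.Agent.Work.MP_814647_an.FT.Stmts3
import Pool.Agent.Work.MP_814647_an.FT.FibredStatement

/-!
# Fibred tori: the assembly
-/

open Set Filter Topology Function
open scoped Manifold ContDiff

noncomputable section

namespace Pool.Agent.OmegaFT

open Pool.Agent.OmegaStab (EE Dyn IsFam PP HypAt crTopology HypLin ConjClass)
open Pool.Agent.OmegaStab.FinHyp (der)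
open Pool.Agent.OmegaPS
open Pool.Agent.OmegaStability

universe u v w x

section Assembly

variable {d₁ d₂ d : ℕ} {N : Type u} {T : Type v} {M : Type w} [MetricSpace N]
  [ChartedSpace (EE d₁) N] [IsManifold (𝓡 d₁) ∞ N] [MetricSpace T] [ChartedSpace (EE d₂) T]
  [IsManifold (𝓡 d₂) ∞ T] [MetricSpace M] [ChartedSpace (EE d) M] [IsManifold (𝓡 d) ∞ M]
  [CompactSpace N] [CompactSpace T] [CompactSpace M] {r : ℕ∞}

/-- The consequences for the base. -/
theorem base_of_tracks (iStar : StarFib.{u, v, w, x}) {Y : Type x} [MetricSpace Y] [CompactSpace Y]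
    (hr : 1 ≤ r)
    (Φ : Diffeomorph (𝓡 d) ((𝓡 d₁).prod (𝓡 d₂)) M (N × T) ∞) (f : Dyn d M r)
    (f₁ : Dyn d₁ N r) (hf : ∀ z, (Φ (f z)).1 = f₁ (Φ z).1) {θ : N × T → Y} (hθ : Continuous θ)
    {B : Y → Y} (hT : StageTracks f₁ (fun z => Φ (f (Φ.symm z))) θ B) (hB : Switchable B)
    (hst : OmegaStable f) :
    ChainClosed f₁ ∧ HyperbolicStructure (EE d₁) f₁ f₁.symm (Omega f₁) ∧ ChainTrack f₁ := by
  have hst' : OmegaStab.OmegaStable f := hst
  obtain ⟨𝒩, h𝒩, hf𝒩, hNconj⟩ := hst'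
  have hconj : OmegaStab.ConjClass 𝒩 := OmegaStab.conjClass_of_conj hNconj
  have hhyp := OmegaStab.hypAt_of_conjClass hr h𝒩 hconj
  have key : ∀ p : ℕ, 1 ≤ p → ∃ (At : Atlas d₁ N r) (ε : ℝ) (_ : 0 < ε) (G : GeoSys At f₁ ε)
      (C δ : ℝ) (n₀ : ℕ), 1 ≤ C ∧ 0 < δ ∧ ChainUH G.S p C δ n₀ := by
    intro p hp
    obtain ⟨At, ε₀, m, hε₀, hm, hstar⟩ :=
      iStar d₁ d₂ d N T M Y r hr Φ f f₁ hf θ hθ B hT hB 𝒩 h𝒩 hf𝒩 hhyp (p + 4)
    have hε : 0 < min ε₀ (1 / 2) := lt_min hε₀ (by norm_num)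
    obtain ⟨G⟩ := exists_geoSys hr At f₁ hε (min_le_right _ _)
    obtain ⟨C, δ, n₀, hC, hδ, h⟩ := chain_uh G.S hp hm (hstar _ (min_le_left _ _) G)
    exact ⟨At, _, hε, G, C, δ, n₀, hC, hδ, h⟩
  have hcc : ChainClosed f₁ := by
    intro p hp x hx
    obtain ⟨At, ε, hε, G, C, δ, n₀, hC, hδ, h⟩ := key p hp
    rw [Metric.mem_closure_iff]
    intro ε₁ hε₁
    obtain ⟨ε₂, n₁, hε₂, hcl⟩ := closing hr hε G hp hC hδ h (half_pos (half_pos hε₁))
    obtain ⟨y, n, hy, hn, hj⟩ := hx (min ε₂ (ε₁ / 4)) (lt_min hε₂ (by positivity)) n₁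
    obtain ⟨u, hu, hud⟩ := hcl y n hn fun q => (hj q).trans (min_le_left _ _)
    refine ⟨u, hu, ?_⟩
    have h1 := hy.trans (min_le_right _ _)
    rw [dist_comm]
    calc dist u x ≤ dist u (y 0) + dist (y 0) x := dist_triangle _ _ _
      _ ≤ ε₁ / 2 / 2 + ε₁ / 4 := add_le_add hud h1
      _ < ε₁ := by linarith
  have hhs : HyperbolicStructure (EE d₁) f₁ f₁.symm (Omega f₁) := by
    obtain ⟨At, ε, hε, G, C, δ, n₀, hC, hδ, h⟩ := key 1 le_rfl
    obtain ⟨γ⟩ := OmegaStab.exists_metric d₁ N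
    obtain ⟨C', hC', hv⟩ := vecHyp_of_chainUH hr hε G hC hδ h γ
    refine hyperbolicStructure_of_vecHyp hr f₁ γ (isClosed_Omega _) ?_ ?_ hC' hδ hv
    · intro x hx
      exact (Omega_map f₁.toHomeomorph hx).1
    · intro x hx
      exact (Omega_map f₁.toHomeomorph hx).2
  refine ⟨hcc, hhs, fun p hp ε₁ hε₁ => ?_⟩
  obtain ⟨At, ε, hε, G, C, δ, n₀, hC, hδ, h⟩ := key p hp
  exact closing_track hr hε G hp hC hδ h hε₁

/-- Periodic points and chains of a conjugate map. -/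
theorem chainClosed_of_conj {X Y : Type*} [MetricSpace X] [MetricSpace Y] [CompactSpace Y]
    (h : X ≃ₜ Y) (f : X → X) (F : Y → Y) (hF : ∀ x, h (f x) = F (h x)) (hc : ChainClosed F)
    [CompactSpace X] : ChainClosed f := by
  have hit : ∀ n x, h (f^[n] x) = F^[n] (h x) := by
    intro n
    induction n with
    | zero => intro x; rfl
    | succ n ih =>
      intro x
      rw [iterate_succ_apply, iterate_succ_apply, ih, hF]
  have hu : UniformContinuous h := CompactSpace.uniformContinuous_of_continuous h.continuous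
  intro p hp x hx
  have h1 : h x ∈ ChainPts F p := by
    intro ε hε n₁
    obtain ⟨δ, hδ, hd⟩ := Metric.uniformContinuous_iff.1 hu ε hε
    obtain ⟨y, n, hy, hn, hj⟩ := hx (δ / 2) (half_pos hδ) n₁
    refine ⟨fun q => h (y q), n, (hd (hy.trans_lt (half_lt_self hδ))).le, hn, fun q => ?_⟩
    rw [← hit]
    exact (hd ((hj q).trans_lt (half_lt_self hδ))).le
  have h2 := hc p hp h1
  have h3 : periodicPts F ⊆ h.symm ⁻¹' periodicPts f := by
    rintro y ⟨n, hn, hy⟩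
    refine ⟨n, hn, ?_⟩
    apply h.injective
    rw [hit, h.apply_symm_apply]
    exact hy
  have h4 : h x ∈ closure (h.symm ⁻¹' periodicPts f) := closure_mono h3 h2
  rw [← h.symm.isOpenMap.preimage_closure_eq_closure_preimage h.symm.continuous] at h4
  simpa using h4

/-- The main theorem. -/
theorem main (iStar : StarFib.{u, v, w, v}) (iUnroll : Unroll.{u, v, v})
    (iSemi : Semi.{u, v}) (iTrack : TrackTorus.{u, v}) (iRet : TorusReturn.{v})
    (iLift : LiftC1.{u, v, w}) (iCoord : VertCoordOn.{u, v, w}) (iBound : VertBoundOn.{u})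
    (iShadow : VertShadowOn.{u}) (iClosed : FibClosedOn.{u, v}) (iHyp : FibHypOn.{u, v, w})
    (iCR : CRBasic.{w, max u v})
    (hr : 1 ≤ r) (Φ : Diffeomorph (𝓡 d) ((𝓡 d₁).prod (𝓡 d₂)) M (N × T) ∞) (f : Dyn d M r)
    (f₁ : Dyn d₁ N r) {e : EE d₂ → T} (hm : 0 < d₂)
    (he : IsLocalDiffeomorph (𝓡 d₂) (𝓡 d₂) ∞ e) (het : TopTorus e)
    {A : EE d₂ ≃L[ℝ] EE d₂} (hA : Integral A) (hA' : HypLin (A : EE d₂ →L[ℝ] EE d₂))
    {φ : N → EE d₂ → EE d₂} (hφ : Lifted e A φ f₁ (fun z => Φ (f (Φ.symm z))))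
    (hst : OmegaStable f) :
    (SatisfiesAxiomA (E := EE d₁) f₁ ∧ HasNoCycles (E := EE d₁) f₁) ∧
      ∀ (Es Eu : TFamily (EE d) M) (γ : RMetric (EE d) M) (c μ : ℝ),
        VertHypOn Φ f f.symm (ChainRec f) Es Eu γ c μ →
        SatisfiesAxiomA (E := EE d) f ∧ HasNoCycles (E := EE d) f := by
  have hbase : ∀ z, (Φ (f z)).1 = f₁ (Φ z).1 := by
    intro z
    obtain ⟨v, hv⟩ := het.surj (Φ z).2
    have h1 := hφ.eq (Φ z).1 v
    have h2 : ((Φ z).1, e v) = Φ z := by rw [hv]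
    simp only [h2] at h1
    rw [Φ.symm_apply_apply] at h1
    rw [h1]
  let F : N × T ≃ₜ N × T := (Φ.symm.toHomeomorph.trans f.toHomeomorph).trans Φ.toHomeomorph
  have hF : ∀ z, F z = Φ (f (Φ.symm z)) := fun z => rfl
  have hφ' : Lifted e A φ f₁ F := hφ
  obtain ⟨w, hw, hwp, hwe⟩ := iSemi d₂ N T e A φ f₁ F het hA hA' hφ'
  obtain ⟨B, hB⟩ : ∃ B : T → T, ∀ v, B (e v) = e (A v) := by
    refine ⟨fun y => e (A (surjInv het.surj y)), fun v => ?_⟩
    have h1 : e (surjInv het.surj (e v)) = e v := surjInv_eq het.surj _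
    obtain ⟨k, hk⟩ := (het.fibre _ _).1 h1
    obtain ⟨l, hl⟩ := hA.1 k
    rw [het.fibre]
    refine ⟨l, ?_⟩
    rw [← hl, ← map_add, ← hk]
  obtain ⟨θ, hθ, hT⟩ := iTrack d₂ N T e A φ w f₁ F B het hA hA' hφ' hB hw hwp hwe
  have hT' : StageTracks f₁ F θ B := by
    refine iUnroll N T T f₁ F θ B (fun z => ?_) hT
    rw [hF, hbase, Φ.apply_symm_apply]
  have hBc : Continuous B := by
    rw [(het.isOpenMap.isQuotientMap het.cont het.surj).continuous_iff]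
    have : B ∘ e = fun v => e (A v) := funext hB
    rw [this]
    exact het.cont.comp A.continuous
  have hsw : Switchable B := switchable_of_returnSeq hBc (iRet d₂ T e A B hm het hA hA' hB)
  obtain ⟨hcc, hhs, htr⟩ := base_of_tracks iStar hr Φ f f₁ hbase hθ hT' hsw hst
  refine ⟨axiomA_of f₁ hcc hhs, fun Es Eu γ c μ hv => ?_⟩
  have hC1 := iLift d₁ d₂ d N T M r hr Φ f e he A φ f₁ hφ
  obtain ⟨hc1, hc2, hc3, hc4⟩ := iCR.1 M f.toHomeomorph
  have hconj : ∀ z, Φ.toHomeomorph (f z) = F (Φ.toHomeomorph z) := by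
    intro z
    change Φ (f z) = Φ (f (Φ.symm (Φ z)))
    rw [Φ.symm_apply_apply]
  have hΛ : {z : N × EE d₂ | Φ.symm (z.1, e z.2) ∈ ChainRec f} =
      {z | (z.1, e z.2) ∈ ChainRec F} := by
    ext z
    have h1 := iCR.2 M (N × T) Φ.toHomeomorph f F hconj (Φ.symm (z.1, e z.2))
    have h2 : Φ.toHomeomorph (Φ.symm (z.1, e z.2)) = (z.1, e z.2) := Φ.apply_symm_apply _
    rw [h2] at h1
    exact h1
  obtain ⟨Es', Eu', C', μ', hsp⟩ :=
    iCoord d₁ d₂ d N T M r hr Φ f e he het A hA φ f₁ hφ hC1 (ChainRec f) hc1 hc2 Es Eu γ c μ hv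
  rw [hΛ] at hsp
  have hvb := iBound d₂ N A φ f₁ _ Es' Eu' C' μ' hA f₁.continuous hφ.cont hφ.per hC1 hsp
  have hvs := iShadow d₂ N A φ f₁ _ hA hφ.cont hφ.per hC1 hvb
  have hcl : ChainClosed F := fun p hp z hz =>
    iClosed d₂ N T e A φ f₁ F het hA f₁.continuous F.continuous hφ' htr hvs p hp z hz
  exact axiomA_of f (chainClosed_of_conj Φ.toHomeomorph f F hconj hcl)
    (iHyp d₁ d₂ d N T M r hr Φ f f₁ hbase (ChainRec f) hc4 hc2 hc3 Es Eu γ c μ hv hhs)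

end Assembly

end Pool.Agent.OmegaFT
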