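import Pool.Agent.Work.MP_814647_an.FT.Stmts

/-!
# Fibred tori, second phase: a switch for affine toral cocycles (the items without manifolds)

The fibre maps are only assumed to be homotopic to the hyperbolic automorphism `A`; the Franks
semiconjugacy leads to the affine skew product `(x, e v) ↦ (f₁ x, e (A v + b x))`.
-/

open Set Filter Topology Function
open scoped Manifold ContDiff

noncomputable section

namespace Pool.Agent.OmegaFT

open Pool.Agent.OmegaStab (EE HypLin)

universe u v w

/-- The functional `v ↦ k · v`. -/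
def kap {m : ℕ} (k : Fin m → ℤ) (v : EE m) : ℝ := ∑ i, (k i : ℝ) * v i

/-- `a` is `ε`-close to `α` modulo one. -/
def Near1 (ε α a : ℝ) : Prop := ∃ p : ℤ, |a - α - p| ≤ ε

/-- Of three elements `a < b < c` of the pattern, two consecutive ones are at least `s` apart. -/
def Sparse2 (s : ℕ) (g : ℕ → Option ℝ) : Prop :=
  ∀ a b c, a < b → b < c → g a ≠ none → g b ≠ none → g c ≠ none → a + s ≤ b ∨ b + s ≤ c

/-- Item PairDense. Proof: `Eu` is the unstable space of `A` (`HypLin.split`, `A` is invertible).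
(1) An integer functional which vanishes on `Eu` is zero: its iterates under the transpose are
integer functionals, they vanish on `Eu` and tend to zero on the stable space, so one of them is
zero. So `kap k` does not vanish on `Eu`. (2) Let `i > 0`. If `u ↦ (kap k u, kap k (A^i u))` maps
`Eu` onto `ℝ²` the last claim is clear (with `ε = 0`). Otherwise the image is a line
`ℝ (x, y)`, `x ≠ 0`, and `y ≠ 0` (as `A^i Eu = Eu`). If `p x + q y = 0` with integers `p, q` not both
zero, then the integer functional `p kap k + q kap k ∘ A^i` vanishes on `Eu`, so it is zero: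
`kap k ∘ A^i = r kap k` with `r` rational. With `k = c k'`, `k'` primitive, `kap k' ∘ A^(in)` is
`r^n kap k'`, integral for all `n : ℤ`, so `r = 1` or `r = -1`; then `kap k ∘ A^(2in) = kap k` for
all `n : ℤ`, so `kap k` vanishes on the stable and on the unstable space, `k = 0`. So `x / y` is
irrational and the line is dense modulo `ℤ²` (`dense_addSubgroupClosure_pair_iff` or Kronecker).
(3) A uniform `W`: compactness of the square of residues modulo one. -/
def PairDense : Prop :=
  ∀ (m : ℕ) (A : EE m ≃L[ℝ] EE m) (k : Fin m → ℤ), Integral A →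
    HypLin (A : EE m →L[ℝ] EE m) → k ≠ 0 →
    ∃ (Eu : Submodule ℝ (EE m)) (C μ : ℝ), 1 ≤ C ∧ 0 < μ ∧ μ < 1 ∧
      (∀ u ∈ Eu, A u ∈ Eu ∧ A.symm u ∈ Eu) ∧
      (∀ u ∈ Eu, ∀ n : ℕ, ‖(A.symm)^[n] u‖ ≤ C * μ ^ n * ‖u‖) ∧ (∃ u ∈ Eu, kap k u ≠ 0) ∧
      ∀ ε > 0, ∀ i : ℕ, 0 < i → ∃ W : ℝ, ∀ α α' : ℝ, ∃ u ∈ Eu, ‖u‖ ≤ W ∧
        Near1 ε α (kap k u) ∧ Near1 ε α' (kap k (A^[i] u))

/-- Item Force: prescribed phases at sparse times. Proof. `W₁`: every real number is `kap k u` modulo
one for some `u ∈ Eu`, `‖u‖ ≤ W₁`. `s₁` such that `|kap k (A^(-j) u)| ≤ ε / 4` for `j ≥ s₁`,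
`‖u‖ ≤ W₁`, `u ∈ Eu`. `W` = maximum of `W₁` and the constants of PairDense for `ε / 4` and
`i < s₁`. `s ≥ s₁` such that `∑_{n ≥ 1} |kap k (A^(-ns-j) u_n)| ≤ ε / 4` for `‖u_n‖ ≤ 2 W`,
`u_n ∈ Eu`, `j ≥ 0`. Now let `g` be as in the statement. Its times come in clusters of one or two
(distance `< s`), different clusters are at least `s` apart. Start with any orbit `η` of the affine
recursion; treat the clusters up to time `H` one after the other: add `A^(t - τ) u` to `η t`, where
`τ` is the first time of the cluster and `u ∈ Eu` is chosen so that the phases at the one or two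
times of the cluster are right up to `ε / 2` (one time: `W₁`; two times at distance `i < s₁`:
PairDense; two times at distance at least `s₁`: first the first one, then the second one, by
`u = u₁ + A^(-i) u₂`). The later corrections change the phases of the earlier clusters by at most
`ε / 4` in total. -/
def Force : Prop :=
  ∀ (m : ℕ) (A : EE m ≃L[ℝ] EE m) (k : Fin m → ℤ), Integral A →
    HypLin (A : EE m →L[ℝ] EE m) → k ≠ 0 → ∀ ε > 0, ∃ s : ℕ, 0 < s ∧
      ∀ g : ℕ → Option ℝ, Sparse2 s g → ∀ (b : ℕ → EE m) (H : ℕ),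
        ∃ η : ℕ → EE m, (∀ t, η (t + 1) = A (η t) + b t) ∧
          ∀ t ≤ H, ∀ α, g t = some α → Near1 ε α (kap k (η t))

/-- Item AffClosed: prescribed phases, closed solutions. Proof: `s` from Force for `ε / 2`. Take a
solution `η` on `[0, R n]`, `R` large. By compactness of `ℝ^m / ℤ^m` (pigeonhole) there are
`r < r' ≤ R` and an integer vector `l` with `‖η (r' n) - η (r n) - iv l‖ ≤ ε'`. Put `Q = r' - r`.
PerSolve (`L t = A`, `K` = constant of PerBound, `ρ = K ε'`, `ψ t` constant: zero except for the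
last `t`, where it is the defect) gives a closed `z` of size `≤ K ε'` such that
`η' t = η (r n + t) + z t` (`t ≤ Q n`) satisfies the recursion (`b` has period `n`) and
`η' (Q n) = η' 0 + iv l`; extend by the recursion: `η' (t + Q n) = η' t + iv (l t)`. The phases of
`η'` at `t < Q n` are those of `η` at `r n + t` up to `ε / 2`, and `g` has period `n`; for other `t`
use periodicity (`kap k (iv l)` is an integer). -/
def AffClosed : Prop :=
  ∀ (m : ℕ) (A : EE m ≃L[ℝ] EE m) (k : Fin m → ℤ), Integral A →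
    HypLin (A : EE m →L[ℝ] EE m) → k ≠ 0 → ∀ ε > 0, ∃ s : ℕ, 0 < s ∧
      ∀ (n : ℕ) (b : ℕ → EE m) (g : ℕ → Option ℝ), 0 < n → (∀ t, b (t + n) = b t) →
        (∀ t, g (t + n) = g t) → Sparse2 s g →
        ∃ (Q : ℕ) (η : ℕ → EE m), 0 < Q ∧ (∀ t, η (t + 1) = A (η t) + b t) ∧
          (∀ t, ∃ l, η (t + Q * n) = η t + iv l) ∧
          ∀ t α, g t = some α → Near1 ε α (kap k (η t))

/-- Item Pattern (purely combinatorial): offsets `o j` and periodic patterns such that the test times
`t + o j` of the special times `t` (where `S t ≠ none`) have phase `0`, and every other time has a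
test time with phase `1 / 2`. PROOF. Let `J = 4 s + 2 (s - 1)`, `o j = 100 s 10^j + (j mod s)`,
`m₀ = o (J + k) + 2 s`. The index `j < 4 s` has no partner, the index `4 s + i - 1` has the partner
shift `i`, the index `4 s + (s - 1) + i - 1` the partner shift `- i` (`1 ≤ i < s`), the indices
`J + l` (`l < k`) have no partner. The special times cut `ℤ` (extend periodically) into intervals of
length at least `m₀`. In the interval which begins at the special time `t₀`, with symbol `i₀`, and
ends at the special time `t₁`, the pattern is at the relative time `r = t - t₀`, `0 ≤ r < t₁ - t₀`: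
`0` at `r = o j` (`j < J`), `1 / 2` at `r = o j + (partner shift)`, `0` or `1 / 2` at
`r = o (J + l)` (`l = i₀` or not), and `1 / 2` at the BACKGROUND times `r ≡ 0 mod s`,
`r + s ≤ t₁ - t₀`, which are at distance at least `s` from all the previous ones. Sparse2 is clear.
SIDON PROPERTY of `o` (growth): `|(o a - o b) - (o c - o d)| < 4 s` and `a ≠ b` imply `a = c`,
`b = d`. Let `t = t₀ + r` not be special, `0 < r < t₁ - t₀`, `d = t₁ - t`. If
`r + o (2 s - 1) + s ≤ t₁ - t₀`: there are two indices `j < 2 s` with `r + o j ≡ 0 mod s`; if one of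
the two times `r + o j` is a background time we are done; otherwise both are closer than `s` to a
template time, `|r + o j - o j'| < 2 s`, by the Sidon property `j' = j` for one, hence both, of them,
so `|r| < 2 s`, and then (no partner) `r < s`; then the index with the partner shift `r` has phase
`1 / 2` at the test time. Otherwise all the test times with `2 s ≤ j < 4 s` are in the next interval,
at relative time `o j - d`; there are two such indices with `o j ≡ d mod s`, and the same argument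
gives a background time or `d < s`, and the index with partner shift `- d`. -/
def Pattern : Prop :=
  ∀ s k : ℕ, 0 < s → ∃ (J : ℕ) (o : ℕ → ℕ) (m₀ : ℕ), 0 < m₀ ∧
    ∀ (n : ℕ) (S : ℕ → Option (Fin k)), 0 < n → (∀ t, S (t + n) = S t) → (∃ t, S t ≠ none) →
      (∀ t t', t < t' → S t ≠ none → S t' ≠ none → t + m₀ ≤ t') →
      ∃ g : ℕ → Option ℝ, (∀ t, g (t + n) = g t) ∧ Sparse2 s g ∧
        (∀ t i, S t = some i → (∀ j < J, g (t + o j) = some 0) ∧
          ∀ l : Fin k, g (t + o (J + l)) = some (if l = i then 0 else 1 / 2)) ∧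
        ∀ t, S t = none → ∃ j < J, g (t + o j) = some (1 / 2)

/-- The switch for fibred maps `B` over `f₁`, along closed pseudo-orbits of the base which consist of
`p` orbit segments of lengths at least `m` (after repeating the sequence `Q` times). -/
def PSwitch {N T : Type*} [MetricSpace N] [MetricSpace T] (f₁ : N → N) (B : N × T → N × T) :
    Prop :=
  ∀ k : ℕ, ∃ (m : ℕ) (D : Fin k → Set (N × T)) (E : Set (N × T)) (δ : ℝ), 1 ≤ m ∧ 0 < δ ∧
    (∀ i, IsClosed (D i)) ∧ IsClosed E ∧ (∀ i j, i ≠ j → Disjoint (D i) (D j)) ∧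
    (∀ i, Disjoint (D i) E) ∧
    ∀ (p : ℕ) (s : ℕ → Fin k) (l : ℕ → ℕ) (a : ℕ → N), 0 < p → (∀ q, s (q + p) = s q) →
      (∀ q, l (q + p) = l q) → (∀ q, a (q + p) = a q) → (∀ q, m ≤ l q) →
      (∀ q, dist (f₁^[l q] (a q)) (a (q + 1)) ≤ δ) →
      ∃ (Q : ℕ) (η : ℕ → T), 0 < Q ∧ η (Q * p) = η 0 ∧ ∀ q < Q * p,
        (B^[l q] (a q, η q)).2 = η (q + 1) ∧ B^[l q] (a q, η q) ∈ D (s (q + 1)) ∧
          ∀ t, 0 < t → t < l q → B^[t] (a q, η q) ∈ E

/-- Item AffSwitch: affine skew products have the switch. Proof. Let `k' ≠ 0` be an integer vector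
(`m' > 0`), `ε = 1 / 20`, `s` from AffClosed, `J`, `o`, `m₀` from Pattern. The sets
`K 0 = {e v | Near1 (1 / 10) 0 (kap k' v)}` and `K 1 = {e v | Near1 (1 / 10) (1 / 2) (kap k' v)}` are
closed in `T`, disjoint, and invariant under `v ↦ v + iv l`. `D i` is the set of `z` with
`(B^[o j] z).2 ∈ K 0` for all `j < J` and `(B^[o (J + l)] z).2 ∈ K 0` (for `l = i`), `∈ K 1` (for
`l ≠ i`); `E` is the set of `z` with `(B^[o j] z).2 ∈ K 1` for some `j < J`. Given `p, s, l, a`: times
`τ q = ∑_{i < q} l i`, `n = τ p`; `X (τ q + t) = f₁^[t] (a q)` (`t < l q`), `S (τ q) = some (s q)`,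
`S = none` elsewhere, all `n`-periodic. Pattern gives `g`, AffClosed with `b t = b' (X t)` (where
`e (b' x)` is the fibre part of `B (x, e 0)`) gives `Q` and `η`; put `η' q = e (η (τ q))`. For a time
`t' = τ q + t` (`0 < t ≤ l q`) the point `z = B^[t] (a q, η' q)` has base point `f₁^[t] (a q)`, close
to `X t'`, and fibre point `e (η t')`; `B^[o j] z` is close to `(X (t' + o j), e (η (t' + o j)))` for
all the finitely many offsets if `δ` is small (uniform continuity of `B`; the pseudo-orbit `X` has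
jumps at most `δ`), uniformly; and `Near1 ε` becomes `Near1 (1 / 10)` (closeness in `T` gives closeness
of lifts modulo `ℤ^m`, `XFibClosed.e_lift` or similar). -/
def AffSwitch : Prop :=
  ∀ (m : ℕ) (N : Type u) (T : Type v) [MetricSpace N] [MetricSpace T] [CompactSpace N]
    [CompactSpace T] (e : EE m → T) (A : EE m ≃L[ℝ] EE m) (b : N → EE m) (f₁ : N → N)
    (B : N × T → N × T), 0 < m → TopTorus e → Integral A → HypLin (A : EE m →L[ℝ] EE m) →
    Continuous f₁ → Continuous B → (∀ x v, B (x, e v) = (f₁ x, e (A v + b x))) → PSwitch f₁ B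

/-- `F` is fibred over `f₁` and has in the fibres the lifts `v ↦ A v + b x + φ x v`. -/
structure LiftedB {m : ℕ} {N T : Type*} [TopologicalSpace N] (e : EE m → T)
    (A : EE m ≃L[ℝ] EE m) (b : N → EE m) (φ : N → EE m → EE m) (f₁ : N → N)
    (F : N × T → N × T) : Prop where
  cont : Continuous (uncurry φ)
  per : ∀ x v k, φ x (v + iv k) = φ x v
  eq : ∀ x v, F (x, e v) = (f₁ x, e (A v + b x + φ x v))

/-- Item Normal: normalisation of the lifts of the fibre maps. Proof: `b x = ψ x 0`,
`φ x v = ψ x v - ψ x 0`. Joint continuity of `φ` at `(x₀, v₀)`: `φ x 0 = 0`, `φ x` is continuous and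
periodic, and `e (A v + b x + φ x v)` is the fibre part of the jointly continuous `F (x, e v)`, which
for `x` close to `x₀` is uniformly close to the one for `x₀`; so (closeness in `T` = closeness of lifts
modulo `ℤ^m`) `φ x v - φ x₀ v = (b x₀ - b x) + iv (l v) + small`; for `v = 0` this gives
`b x₀ - b x = - iv (l 0) - small`, so `φ x v - φ x₀ v` is close to an integer vector for every `v`,
depends continuously on `v`, and is zero for `v = 0`: it is small for all `v`. -/
def Normal : Prop :=
  ∀ (m : ℕ) (N : Type u) (T : Type v) [MetricSpace N] [MetricSpace T] [CompactSpace N]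
    [CompactSpace T] (e : EE m → T) (A : EE m ≃L[ℝ] EE m) (ψ : N → EE m → EE m) (f₁ : N → N)
    (F : N × T → N × T), TopTorus e → Integral A → Continuous F → (∀ x, Continuous (ψ x)) →
    (∀ x v k, ψ x (v + iv k) = ψ x v) → (∀ x v, F (x, e v) = (f₁ x, e (A v + ψ x v))) →
    LiftedB e A (fun x => ψ x 0) (fun x v => ψ x v - ψ x 0) f₁ F

/-- As `Tracks`, with an affine skew product instead of the automorphism `B` of a fibre. -/
def TracksB {N T : Type*} [MetricSpace N] [MetricSpace T] (f₁ : N → N) (F θ B : N × T → N × T) :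
    Prop :=
  ∀ ε > 0, ∃ δ > 0, ∀ (n : ℕ) (X : ℕ → N) (η : ℕ → T), 0 < n → X n = X 0 → η n = η 0 →
    (∀ t < n, dist (f₁ (X t)) (X (t + 1)) ≤ δ) → (∀ t < n, (B (X t, η t)).2 = η (t + 1)) →
    ∃ y : ℕ → T, y n = y 0 ∧ ∀ t < n, (F (X t, y t)).2 = y (t + 1) ∧
      dist (θ (F (X t, y t))) (B (X t, η t)) ≤ ε

/-- As `StageTracks`, for affine skew products. -/
def StageTracksB {N T : Type*} [MetricSpace N] [MetricSpace T] (f₁ : N → N)
    (F θ B : N × T → N × T) : Prop :=
  ∀ ε > 0, ∃ δ > 0, ∀ (p : ℕ) (l : ℕ → ℕ) (a : ℕ → N) (η : ℕ → T), 0 < p → a p = a 0 →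
    η p = η 0 → (∀ q < p, 1 ≤ l q ∧ dist (f₁^[l q] (a q)) (a (q + 1)) ≤ δ ∧
      (B^[l q] (a q, η q)).2 = η (q + 1)) →
    ∃ x : ℕ → T, x p = x 0 ∧ ∀ q < p, (F^[l q] (a q, x q)).2 = x (q + 1) ∧
      ∀ t, 0 < t → t ≤ l q → dist (θ (F^[t] (a q, x q))) (B^[t] (a q, η q)) ≤ ε

/-- Item SemiB: as Semi. -/
def SemiB : Prop :=
  ∀ (m : ℕ) (N : Type u) (T : Type v) [TopologicalSpace N] [TopologicalSpace T] [CompactSpace N]
    [CompactSpace T] (e : EE m → T) (A : EE m ≃L[ℝ] EE m) (b : N → EE m) (φ : N → EE m → EE m)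
    (f₁ : N → N) (F : N × T ≃ₜ N × T), TopTorus e → Integral A →
    HypLin (A : EE m →L[ℝ] EE m) → LiftedB e A b φ f₁ F →
    ∃ w : N → EE m → EE m, Continuous (uncurry w) ∧ (∀ x v k, w x (v + iv k) = w x v) ∧
      ∀ x v, w (f₁ x) (A v + b x + φ x v) = A (w x v) - φ x v

/-- Item TrackTorusB: as TrackTorus, `θ (x, e v) = (x, e (v + w x v))`,
`B (x, e v) = (f₁ x, e (A v + b x))`. With lifts `η' t` of `η t` (`t < n`, `η' n = η' 0`):
`η' (t + 1) = A (η' t) + b (X t) + iv (k t)`; PerSolve with `ψ t z = φ (X t) (η' t + z)`;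
`v t = η' t + z t` satisfies `v (t + 1) = A (v t) + b (X t) + φ (X t) (v t) + iv (k t)`; the rest as
before, `θ (F (X t, y t)) = (f₁ (X t), e (A (η' t) + b (X t) + A (q t)))`. -/
def TrackTorusB : Prop :=
  ∀ (m : ℕ) (N : Type u) (T : Type v) [MetricSpace N] [MetricSpace T] [CompactSpace N]
    [CompactSpace T] (e : EE m → T) (A : EE m ≃L[ℝ] EE m) (b : N → EE m)
    (φ w : N → EE m → EE m) (f₁ : N → N) (F : N × T → N × T) (B : N × T → N × T), TopTorus e →
    Integral A → HypLin (A : EE m →L[ℝ] EE m) → LiftedB e A b φ f₁ F →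
    (∀ x v, B (x, e v) = (f₁ x, e (A v + b x))) →
    Continuous (uncurry w) → (∀ x v k, w x (v + iv k) = w x v) →
    (∀ x v, w (f₁ x) (A v + b x + φ x v) = A (w x v) - φ x v) →
    ∃ θ : N × T → N × T, Continuous θ ∧ (∀ z, (θ z).1 = z.1) ∧ TracksB f₁ F θ B

/-- Item UnrollB: as Unroll. -/
def UnrollB : Prop :=
  ∀ (N : Type u) (T : Type v) [MetricSpace N] [MetricSpace T] (f₁ : N → N)
    (F θ B : N × T → N × T), (∀ z, (F z).1 = f₁ z.1) → (∀ z, (B z).1 = f₁ z.1) →
    TracksB f₁ F θ B → StageTracksB f₁ F θ B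

end Pool.Agent.OmegaFT
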