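import Pool.Agent.Work.MP_814647_an.FT.Stmts3
import Pool.Agent.Work.MP_814647_an.FT.Stmts4

/-!
# Fibred tori, second phase: the items about manifolds and about vertical hyperbolicity

The fibre maps have lifts `P x v = A v + b x + φ x v` with `φ` jointly continuous and periodic, and
`b` arbitrary (it is only continuous modulo `ℤ^m`).
-/

open Set Filter Topology Function
open scoped Manifold ContDiff

noncomputable section

namespace Pool.Agent.OmegaFT

open Pool.Agent.OmegaStab (EE Dyn IsFam PP HypAt crTopology HypLin ConjClass)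
open Pool.Agent.OmegaStab.FinHyp (der)
open Pool.Agent.OmegaPS
open Pool.Agent.OmegaStability

universe u v w x

/-- Uniform continuity modulo `ℤ^m`. -/
def ModUC {m : ℕ} {N : Type*} [MetricSpace N] (P : N → EE m → EE m) : Prop :=
  ∀ ε > 0, ∃ δ > 0, ∀ (x x' : N) (v v' : EE m), dist x x' ≤ δ → ‖v - v'‖ ≤ δ →
    ∃ l : Fin m → ℤ, ‖P x v - P x' v' - iv l‖ ≤ ε

/-- Item ModCont. Proof: `F` is uniformly continuous (compactness), `e` is uniformly continuous
(periodicity and compactness), so `F (x, e v)` and `F (x', e v')` are close; points `e c`, `e c'`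
close in `T` have lifts close modulo `ℤ^m` (`XFibClosed.e_lift` in `I_FibClosed.lean`, or its
analogue in `I_TrackTorus.lean`). -/
def ModCont : Prop :=
  ∀ (m : ℕ) (N : Type u) (T : Type v) [MetricSpace N] [MetricSpace T] [CompactSpace N]
    [CompactSpace T] (e : EE m → T) (P : N → EE m → EE m) (f₁ : N → N) (F : N × T → N × T),
    TopTorus e → Continuous F → (∀ x v, F (x, e v) = (f₁ x, e (P x v))) → ModUC P

/-- Item StarFibB: closed words are hyperbolic, with the switch of an affine skew product. Proof. As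
StarFib (`I_StarFib.lean`), with `Y = N × T`. `PSwitch` for `k` gives `m`, `D`, `E`, `δ₀`; PertFib
(with `Y = N × T`) gives `At`, `U`, `UE`, `c₀`; choose `ε₁ > 0` such that the closed
`ε₁`-thickenings of `D i`, `E` are in `U i`, `UE`; StageTracksB for `ε₁` gives `δ₁`; SmallMove for
the families of `At` and `min δ₀ δ₁` gives `c₁`; `realise` with `min c₀ c₁` gives `ε₀`. For a closed
word take the representation `p`, `s`, `l`, `P` of `path_seq` and extend it `p`-periodically: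
`s' q = s (q % p)`, `l' q = l (q % p)`, `a q = (τ (s' q)).tgt` (so that
`f₁^[l' q] (a q) = (τ (s' (q + 1))).src` is close to `a (q + 1)`). `PSwitch` for the symbols
`emb (s' q)` gives `Q`, `η`, StageTracksB for `Q * p` stages gives `x`, and CoreFib for `Q * p` stages,
with `P' (q + 1) = (τ (s' (q + 1))).mat * G.S.coc (l' q) (τ (s' q)).tgt * P' q`, gives
`Hyp (P' (Q * p))`. By induction `P' (j * p + q) = P' q * (P p) ^ j` for `q ≤ p`, so
`P' (Q * p) = (P p) ^ Q`, and `Hyp (R ^ Q)` implies `Hyp R` (if `R v = cos θ v - sin θ w`,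
`R w = sin θ v + cos θ w` then the same with `R ^ Q` and `Q θ`). -/
def StarFibB : Prop :=
  ∀ (d₁ d₂ d : ℕ) (N : Type u) (T : Type v) (M : Type w)
    [MetricSpace N] [ChartedSpace (EE d₁) N] [IsManifold (𝓡 d₁) ∞ N] [CompactSpace N]
    [MetricSpace T] [ChartedSpace (EE d₂) T] [IsManifold (𝓡 d₂) ∞ T] [CompactSpace T]
    [MetricSpace M] [ChartedSpace (EE d) M] [IsManifold (𝓡 d) ∞ M] [CompactSpace M]
    (r : ℕ∞) (_ : 1 ≤ r)
    (Φ : Diffeomorph (𝓡 d) ((𝓡 d₁).prod (𝓡 d₂)) M (N × T) ∞) (f : Dyn d M r)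
    (f₁ : Dyn d₁ N r) (_ : ∀ z, (Φ (f z)).1 = f₁ (Φ z).1) (θ B : N × T → N × T)
    (_ : Continuous θ) (_ : StageTracksB f₁ (fun z => Φ (f (Φ.symm z))) θ B)
    (_ : PSwitch f₁ B) (𝒩 : Set (Dyn d M r)) (_ : IsOpen[crTopology d M r] 𝒩) (_ : f ∈ 𝒩)
    (_ : ∀ g ∈ 𝒩, ∀ p ∈ periodicPts g, HypAt (d := d) g p) (k : ℕ),
    ∃ (At : Atlas d₁ N r) (ε₀ : ℝ) (m : ℕ), 0 < ε₀ ∧ 1 ≤ m ∧ ∀ ε ≤ ε₀, ∀ G : GeoSys At f₁ ε,
      Star G.S m k

/-- Item LiftC1B. Compare LiftC1 (`I_LiftC1.lean`, theorems `contMDiff_lift`, `vertC1`). Only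
continuity of every single `P x` is assumed. Proof: around `(x₀, v₀)` let `β` be the composition of
the `C^1` map `(x, v) ↦ (Φ (f (Φ.symm (x, e v)))).2` with the smooth local inverse of `e` which maps
`e (P x₀ v₀)` to `P x₀ v₀`; it is defined and `C^1` on `V × B` for a neighbourhood `V` of `x₀` and a
ball `B` around `v₀`. For fixed `x ∈ V` the continuous function `v ↦ P x v - β (x, v)` on `B` has
values in `ℤ^m` (`TopTorus.fibre`), so it is constant: `P x` is differentiable on `B` with the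
derivative `∂β/∂v`, which is continuous on `V × B`. -/
def LiftC1B : Prop :=
  ∀ (d₁ m d : ℕ) (N : Type u) (T : Type v) (M : Type w)
    [MetricSpace N] [ChartedSpace (EE d₁) N] [IsManifold (𝓡 d₁) ∞ N]
    [MetricSpace T] [ChartedSpace (EE m) T] [IsManifold (𝓡 m) ∞ T]
    [MetricSpace M] [ChartedSpace (EE d) M] [IsManifold (𝓡 d) ∞ M] (r : ℕ∞) (_ : 1 ≤ r)
    (Φ : Diffeomorph (𝓡 d) ((𝓡 d₁).prod (𝓡 m)) M (N × T) ∞) (f : Dyn d M r)
    (e : EE m → T) (_ : IsLocalDiffeomorph (𝓡 m) (𝓡 m) ∞ e) (_ : TopTorus e)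
    (P : N → EE m → EE m) (f₁ : N → N), (∀ x, Continuous (P x)) →
    (∀ x v, Φ (f (Φ.symm (x, e v))) = (f₁ x, e (P x v))) → VertC1 P

/-- Item VertBoundOnB. As VertBoundOn (`I_VertBoundOn.lean`), where the continuity of `P` is used
only modulo `ℤ^m` (for the limits of `P (x j i) (r j i)`, which are only needed modulo `ℤ^m`). -/
def VertBoundOnB : Prop :=
  ∀ (m : ℕ) (N : Type u) [MetricSpace N] [CompactSpace N] (A : EE m ≃L[ℝ] EE m)
    (P : N → EE m → EE m) (f₁ : N → N) (Λ : Set (N × EE m))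
    (Es Eu : N → EE m → Submodule ℝ (EE m)) (C μ : ℝ),
    Integral A → Continuous f₁ → ModUC P → (∀ x v k, P x (v + iv k) = P x v + A (iv k)) →
    VertC1 P → VSplitOn f₁ P Λ Es Eu C μ → VBoundOn f₁ P Λ

/-- Item VertShadowOnB. As VertShadowOn (`I_VertShadowOn.lean`); there `P (X t) (v t + z)` is only
used for fixed `X t`, where `P (X t)` is differentiable; the estimate
`‖P x (v + z) - P x v - D x v z‖ ≤ ‖z‖ / (2 * K)` follows from the uniform continuity of
`D x v = fderiv ℝ (P x) v` (periodic in `v`, jointly continuous). -/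
def VertShadowOnB : Prop :=
  ∀ (m : ℕ) (N : Type u) [MetricSpace N] [CompactSpace N] (A : EE m ≃L[ℝ] EE m)
    (P : N → EE m → EE m) (f₁ : N → N) (Λ : Set (N × EE m)), Integral A →
    (∀ x v k, P x (v + iv k) = P x v + A (iv k)) → VertC1 P → VBoundOn f₁ P Λ →
    VShadowOn f₁ P Λ

/-- Item FibClosedOnB. As FibClosedOn (`I_FibClosedOn.lean`), with `P x v` continuous modulo `ℤ^m`
only (`ModUC P` is proved as ModCont). -/
def FibClosedOnB : Prop :=
  ∀ (m : ℕ) (N : Type u) (T : Type v) [MetricSpace N] [MetricSpace T] [CompactSpace N]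
    [CompactSpace T] (e : EE m → T) (A : EE m ≃L[ℝ] EE m) (P : N → EE m → EE m) (f₁ : N → N)
    (F : N × T → N × T), TopTorus e → Integral A → Continuous f₁ → Continuous F → ModUC P →
    (∀ x v k, P x (v + iv k) = P x v + A (iv k)) → (∀ x v, F (x, e v) = (f₁ x, e (P x v))) →
    ChainTrack f₁ → VShadowOn f₁ P {z | (z.1, e z.2) ∈ ChainRec F} →
    ∀ p : ℕ, 1 ≤ p → ∀ z : N × T,
      (∀ ε > 0, ∀ n₁ : ℕ, ∃ (y : ZMod p → N × T) (n : ZMod p → ℕ), dist (y 0) z ≤ ε ∧
        (∀ q, n₁ ≤ n q) ∧ ∀ q, dist (F^[n q] (y q)) (y (q + 1)) ≤ ε) →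
      z ∈ closure (periodicPts F)

/-- Item VertCoordOnB. As VertCoordOn (`I_VertCoordOn.lean`), with `P x v` instead of
`A v + φ x v`. -/
def VertCoordOnB : Prop :=
  ∀ (d₁ m d : ℕ) (N : Type u) (T : Type v) (M : Type w)
    [MetricSpace N] [ChartedSpace (EE d₁) N] [IsManifold (𝓡 d₁) ∞ N] [CompactSpace N]
    [MetricSpace T] [ChartedSpace (EE m) T] [IsManifold (𝓡 m) ∞ T] [CompactSpace T]
    [MetricSpace M] [ChartedSpace (EE d) M] [IsManifold (𝓡 d) ∞ M] [CompactSpace M]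
    (r : ℕ∞) (_ : 1 ≤ r)
    (Φ : Diffeomorph (𝓡 d) ((𝓡 d₁).prod (𝓡 m)) M (N × T) ∞) (f : Dyn d M r)
    (e : EE m → T) (_ : IsLocalDiffeomorph (𝓡 m) (𝓡 m) ∞ e) (_ : TopTorus e)
    (A : EE m ≃L[ℝ] EE m) (_ : Integral A) (P : N → EE m → EE m) (f₁ : N → N)
    (_ : ∀ x v k, P x (v + iv k) = P x v + A (iv k))
    (_ : ∀ x v, Φ (f (Φ.symm (x, e v))) = (f₁ x, e (P x v)))
    (_ : VertC1 P) (Λ : Set M) (_ : IsClosed Λ) (_ : ∀ x ∈ Λ, f x ∈ Λ)
    (Es Eu : TFamily (EE d) M) (γ : RMetric (EE d) M) (c μ : ℝ),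
    VertHypOn Φ f f.symm Λ Es Eu γ c μ →
    ∃ (Es' Eu' : N → EE m → Submodule ℝ (EE m)) (C' μ' : ℝ),
      VSplitOn f₁ P {z | Φ.symm (z.1, e z.2) ∈ Λ} Es' Eu' C' μ'

end Pool.Agent.OmegaFT
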