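import Pool.Agent.Work.MP_814647_an.FT.Final
import Pool.Agent.Work.MP_814647_an.FT.Stmts5
import Pool.Agent.Work.MP_814647_an.FT.FibredStatement2

/-!
# Fibred tori, second phase: the assembly
-/

open Set Filter Topology Function
open scoped Manifold ContDiff

noncomputable section

namespace Pool.Agent.OmegaFT

open Pool.Agent.OmegaStab (EE Dyn IsFam PP HypAt crTopology HypLin ConjClass)
open Pool.Agent.OmegaStab.FinHyp (der)
open Pool.Agent.OmegaPS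
open Pool.Agent.OmegaStability

universe u v w

section Assembly

variable {d₁ d₂ d : ℕ} {N : Type u} {T : Type v} {M : Type w} [MetricSpace N]
  [ChartedSpace (EE d₁) N] [IsManifold (𝓡 d₁) ∞ N] [MetricSpace T] [ChartedSpace (EE d₂) T]
  [IsManifold (𝓡 d₂) ∞ T] [MetricSpace M] [ChartedSpace (EE d) M] [IsManifold (𝓡 d) ∞ M]
  [CompactSpace N] [CompactSpace T] [CompactSpace M] {r : ℕ∞}

/-- The consequences for the base. -/
theorem base_of_tracksB (iStar : StarFibB.{u, v, w}) (hr : 1 ≤ r)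
    (Φ : Diffeomorph (𝓡 d) ((𝓡 d₁).prod (𝓡 d₂)) M (N × T) ∞) (f : Dyn d M r)
    (f₁ : Dyn d₁ N r) (hf : ∀ z, (Φ (f z)).1 = f₁ (Φ z).1) {θ B : N × T → N × T}
    (hθ : Continuous θ)
    (hT : StageTracksB f₁ (fun z => Φ (f (Φ.symm z))) θ B) (hB : PSwitch f₁ B)
    (hst : OmegaStable f) :
    ChainClosed f₁ ∧ HyperbolicStructure (EE d₁) f₁ f₁.symm (Omega f₁) ∧ ChainTrack f₁ := by
  have hst' : OmegaStab.OmegaStable f := hst
  obtain ⟨𝒩, h𝒩, hf𝒩, hNconj⟩ := hst'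
  have hconj : OmegaStab.ConjClass 𝒩 := OmegaStab.conjClass_of_conj hNconj
  have hhyp := OmegaStab.hypAt_of_conjClass hr h𝒩 hconj
  have key : ∀ p : ℕ, 1 ≤ p → ∃ (At : Atlas d₁ N r) (ε : ℝ) (_ : 0 < ε) (G : GeoSys At f₁ ε)
      (C δ : ℝ) (n₀ : ℕ), 1 ≤ C ∧ 0 < δ ∧ ChainUH G.S p C δ n₀ := by
    intro p hp
    obtain ⟨At, ε₀, m, hε₀, hm, hstar⟩ :=
      iStar d₁ d₂ d N T M r hr Φ f f₁ hf θ B hθ hT hB 𝒩 h𝒩 hf𝒩 hhyp (p + 4)
    have hε : 0 < min ε₀ (1 / 2) := lt_min hε₀ (by norm_num)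
    obtain ⟨G⟩ := exists_geoSys hr At f₁ hε (min_le_right _ _)
    obtain ⟨C, δ, n₀, hC, hδ, h⟩ := chain_uh G.S hp hm (hstar _ (min_le_left _ _) G)
    exact ⟨At, _, hε, G, C, δ, n₀, hC, hδ, h⟩
  have hcc : ChainClosed f₁ := by
    intro p hp x hx
    obtain ⟨At, ε, hε, G, C, δ, n₀, hC, hδ, h⟩ := key p hp
    rw [Metric.mem_closure_iff]
    intro ε₁ hε₁
    obtain ⟨ε₂, n₁, hε₂, hcl⟩ := closing hr hε G hp hC hδ h (half_pos (half_pos hε₁))
    obtain ⟨y, n, hy, hn, hj⟩ := hx (min ε₂ (ε₁ / 4)) (lt_min hε₂ (by positivity)) n₁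
    obtain ⟨u, hu, hud⟩ := hcl y n hn fun q => (hj q).trans (min_le_left _ _)
    refine ⟨u, hu, ?_⟩
    have h1 := hy.trans (min_le_right _ _)
    rw [dist_comm]
    calc dist u x ≤ dist u (y 0) + dist (y 0) x := dist_triangle _ _ _
      _ ≤ ε₁ / 2 / 2 + ε₁ / 4 := add_le_add hud h1
      _ < ε₁ := by linarith
  have hhs : HyperbolicStructure (EE d₁) f₁ f₁.symm (Omega f₁) := by
    obtain ⟨At, ε, hε, G, C, δ, n₀, hC, hδ, h⟩ := key 1 le_rfl
    obtain ⟨γ⟩ := OmegaStab.exists_metric d₁ N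
    obtain ⟨C', hC', hv⟩ := vecHyp_of_chainUH hr hε G hC hδ h γ
    refine hyperbolicStructure_of_vecHyp hr f₁ γ (isClosed_Omega _) ?_ ?_ hC' hδ hv
    · intro x hx
      exact (Omega_map f₁.toHomeomorph hx).1
    · intro x hx
      exact (Omega_map f₁.toHomeomorph hx).2
  refine ⟨hcc, hhs, fun p hp ε₁ hε₁ => ?_⟩
  obtain ⟨At, ε, hε, G, C, δ, n₀, hC, hδ, h⟩ := key p hp
  exact closing_track hr hε G hp hC hδ h hε₁

/-- The main theorem, second phase. -/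
theorem main2 (iNormal : Normal.{u, v}) (iMod : ModCont.{u, v}) (iStar : StarFibB.{u, v, w})
    (iUnroll : UnrollB.{u, v}) (iSemi : SemiB.{u, v}) (iTrack : TrackTorusB.{u, v})
    (iSw : AffSwitch.{u, v}) (iLift : LiftC1B.{u, v, w}) (iCoord : VertCoordOnB.{u, v, w})
    (iBound : VertBoundOnB.{u}) (iShadow : VertShadowOnB.{u}) (iClosed : FibClosedOnB.{u, v})
    (iHyp : FibHypOn.{u, v, w}) (iCR : CRBasic.{w, max u v})
    (hr : 1 ≤ r) (Φ : Diffeomorph (𝓡 d) ((𝓡 d₁).prod (𝓡 d₂)) M (N × T) ∞) (f : Dyn d M r)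
    (f₁ : Dyn d₁ N r) {e : EE d₂ → T} (hm : 0 < d₂)
    (he : IsLocalDiffeomorph (𝓡 d₂) (𝓡 d₂) ∞ e) (het : TopTorus e)
    {A : EE d₂ ≃L[ℝ] EE d₂} (hA : Integral A) (hA' : HypLin (A : EE d₂ →L[ℝ] EE d₂))
    {ψ : N → EE d₂ → EE d₂} (hψc : ∀ x, Continuous (ψ x))
    (hψp : ∀ x v k, ψ x (v + iv k) = ψ x v)
    (hψe : ∀ x v, Φ (f (Φ.symm (x, e v))) = (f₁ x, e (A v + ψ x v)))
    (hst : OmegaStable f) :
    (SatisfiesAxiomA (E := EE d₁) f₁ ∧ HasNoCycles (E := EE d₁) f₁) ∧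
      ∀ (Es Eu : TFamily (EE d) M) (γ : RMetric (EE d) M) (c μ : ℝ),
        VertHypOn Φ f f.symm (ChainRec f) Es Eu γ c μ →
        SatisfiesAxiomA (E := EE d) f ∧ HasNoCycles (E := EE d) f := by
  have hbase : ∀ z, (Φ (f z)).1 = f₁ (Φ z).1 := by
    intro z
    obtain ⟨v, hv⟩ := het.surj (Φ z).2
    have h1 := hψe (Φ z).1 v
    have h2 : ((Φ z).1, e v) = Φ z := by rw [hv]
    simp only [h2] at h1
    rw [Φ.symm_apply_apply] at h1
    rw [h1]
  let F : N × T ≃ₜ N × T := (Φ.symm.toHomeomorph.trans f.toHomeomorph).trans Φ.toHomeomorph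
  have hF : ∀ z, F z = Φ (f (Φ.symm z)) := fun z => rfl
  let b : N → EE d₂ := fun x => ψ x 0
  let φ : N → EE d₂ → EE d₂ := fun x v => ψ x v - ψ x 0
  have hL : LiftedB e A b φ f₁ F := iNormal d₂ N T e A ψ f₁ F het hA F.continuous hψc hψp hψe
  obtain ⟨w, hw, hwp, hwe⟩ := iSemi d₂ N T e A b φ f₁ F het hA hA' hL
  -- the affine skew product
  obtain ⟨B, hB⟩ : ∃ B : N × T → N × T, ∀ x v, B (x, e v) = (f₁ x, e (A v + b x)) := by
    refine ⟨fun z => (f₁ z.1, e (A (surjInv het.surj z.2) + b z.1)), fun x v => ?_⟩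
    have h1 : e (surjInv het.surj (e v)) = e v := surjInv_eq het.surj _
    obtain ⟨k, hk⟩ := (het.fibre _ _).1 h1
    obtain ⟨l, hl⟩ := hA.1 k
    refine Prod.ext rfl ?_
    change e (A (surjInv het.surj (e v)) + b x) = e (A v + b x)
    rw [het.fibre]
    refine ⟨l, ?_⟩
    rw [← hl]
    nth_rewrite 1 [hk]
    rw [map_add]
    abel
  have hBc : Continuous B := by
    have hq : IsOpenQuotientMap (Prod.map (id : N → N) e) :=
      IsOpenQuotientMap.prodMap .id ⟨het.surj, het.cont, het.isOpenMap⟩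
    rw [hq.isQuotientMap.continuous_iff]
    have hb : Continuous fun x => e (b x) := by
      have h1 : ∀ x, e (b x) = (F (x, e 0)).2 := by
        intro x
        rw [hF, hψe x 0, map_zero, zero_add]
      have h2 : (fun x => e (b x)) = fun x => (F (x, e 0)).2 := funext h1
      rw [h2]
      exact (F.continuous.comp (continuous_id.prodMk continuous_const)).snd
    have h3 : B ∘ Prod.map (id : N → N) e = fun z : N × EE d₂ => (f₁ z.1, e (A z.2 + b z.1)) :=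
      funext fun z => hB z.1 z.2
    rw [h3]
    refine (f₁.continuous.comp continuous_fst).prodMk ?_
    rw [continuous_iff_continuousAt]
    rintro ⟨x₀, v₀⟩
    -- a local continuous lift of `e (b x)`
    have h4 : ContinuousAt (fun x => e (b x)) x₀ := hb.continuousAt
    rw [ContinuousAt, Metric.tendsto_nhds]
    intro ε hε
    have hadd : ContinuousAt (fun c : EE d₂ × EE d₂ => e (c.1 + c.2)) (A v₀, b x₀) :=
      (het.cont.comp (continuous_fst.add continuous_snd)).continuousAt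
    rw [ContinuousAt, Metric.tendsto_nhds] at hadd
    obtain ⟨s, hs, t, ht, hsub⟩ := mem_nhds_prod_iff.1 (hadd ε hε)
    have h5 : e '' t ∈ 𝓝 (e (b x₀)) := het.isOpenMap.image_mem_nhds ht
    have h6 : ∀ᶠ z : N × EE d₂ in 𝓝 (x₀, v₀), e (b z.1) ∈ e '' t :=
      (continuous_fst.tendsto (x₀, v₀)).eventually (h4.eventually_mem h5)
    have h7 : ∀ᶠ z : N × EE d₂ in 𝓝 (x₀, v₀), A z.2 ∈ s :=
      ((A.continuous.comp continuous_snd).tendsto (x₀, v₀)).eventually_mem hs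
    filter_upwards [h6, h7] with z hz hz'
    obtain ⟨c, hc, hce⟩ := hz
    obtain ⟨k, hk⟩ := (het.fibre _ _).1 hce
    have h8 : e (A z.2 + b z.1) = e (A z.2 + c) := by
      rw [eq_comm, het.fibre]
      exact ⟨k, by rw [hk]; abel⟩
    rw [h8]
    exact hsub (show (A z.2, c) ∈ s ×ˢ t from ⟨hz', hc⟩)
  obtain ⟨θ, hθ, -, hT⟩ := iTrack d₂ N T e A b φ w f₁ F B het hA hA' hL hB hw hwp hwe
  have hB1 : ∀ z, (B z).1 = f₁ z.1 := by
    rintro ⟨x, y⟩
    obtain ⟨v, rfl⟩ := het.surj y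
    rw [hB]
  have hT' : StageTracksB f₁ F θ B := by
    refine iUnroll N T f₁ F θ B (fun z => ?_) hB1 hT
    rw [hF, hbase, Φ.apply_symm_apply]
  have hsw : PSwitch f₁ B := iSw d₂ N T e A b f₁ B hm het hA hA' f₁.continuous hBc hB
  obtain ⟨hcc, hhs, htr⟩ := base_of_tracksB iStar hr Φ f f₁ hbase hθ hT' hsw hst
  refine ⟨axiomA_of f₁ hcc hhs, fun Es Eu γ c μ hv => ?_⟩
  -- the vertical part
  let P : N → EE d₂ → EE d₂ := fun x v => A v + ψ x v
  have hPc : ∀ x, Continuous (P x) := fun x => A.continuous.add (hψc x)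
  have hPp : ∀ x v k, P x (v + iv k) = P x v + A (iv k) := by
    intro x v k
    simp only [P, hψp, map_add]
    abel
  have hC1 : VertC1 P := iLift d₁ d₂ d N T M r hr Φ f e he het P f₁ hPc hψe
  have hmod : ModUC P := iMod d₂ N T e P f₁ F het F.continuous hψe
  obtain ⟨hc1, hc2, hc3, hc4⟩ := iCR.1 M f.toHomeomorph
  have hconj : ∀ z, Φ.toHomeomorph (f z) = F (Φ.toHomeomorph z) := by
    intro z
    change Φ (f z) = Φ (f (Φ.symm (Φ z)))
    rw [Φ.symm_apply_apply]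
  have hΛ : {z : N × EE d₂ | Φ.symm (z.1, e z.2) ∈ ChainRec f} =
      {z | (z.1, e z.2) ∈ ChainRec F} := by
    ext z
    have h1 := iCR.2 M (N × T) Φ.toHomeomorph f F hconj (Φ.symm (z.1, e z.2))
    have h2 : Φ.toHomeomorph (Φ.symm (z.1, e z.2)) = (z.1, e z.2) := Φ.apply_symm_apply _
    rw [h2] at h1
    exact h1
  obtain ⟨Es', Eu', C', μ', hsp⟩ :=
    iCoord d₁ d₂ d N T M r hr Φ f e he het A hA P f₁ hPp hψe hC1 (ChainRec f) hc1 hc2 Es Eu γ c μ
      hv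
  rw [hΛ] at hsp
  have hvb := iBound d₂ N A P f₁ _ Es' Eu' C' μ' hA f₁.continuous hmod hPp hC1 hsp
  have hvs := iShadow d₂ N A P f₁ _ hA hPp hC1 hvb
  have hcl : ChainClosed F := fun p hp z hz =>
    iClosed d₂ N T e A P f₁ F het hA f₁.continuous F.continuous hmod hPp hψe htr hvs p hp z hz
  exact axiomA_of f (chainClosed_of_conj Φ.toHomeomorph f F hconj hcl)
    (iHyp d₁ d₂ d N T M r hr Φ f f₁ hbase (ChainRec f) hc4 hc2 hc3 Es Eu γ c μ hv hhs)

end Assembly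

/-- The final form, second phase. -/
theorem final2 (iMat : MatConv) (iNormal : Normal.{u, v}) (iMod : ModCont.{u, v})
    (iStar : StarFibB.{u, v, w})
    (iUnroll : UnrollB.{u, v}) (iSemi : SemiB.{u, v}) (iTrack : TrackTorusB.{u, v})
    (iSw : AffSwitch.{u, v}) (iLift : LiftC1B.{u, v, w}) (iCoord : VertCoordOnB.{u, v, w})
    (iBound : VertBoundOnB.{u}) (iShadow : VertShadowOnB.{u}) (iClosed : FibClosedOnB.{u, v})
    (iHyp : FibHypOn.{u, v, w}) (iCR : CRBasic.{w, max u v})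
    {M : ClosedManifold.{w}} {N : ClosedManifold.{u}} {T : ClosedManifold.{v}} {r : ℕ∞}
    (hr : 1 ≤ r) {π : M.carrier → N.carrier} {f : CrDiffeo M r} {f₁ : CrDiffeo N r}
    (hf : IsTorusExtension T π f f₁) (hst : OmegaStable f) :
    (SatisfiesAxiomA f₁ ∧ HasNoCycles f₁) ∧
      (HyperbolicAlongFibres π f (ChainRecurrentSet f) → SatisfiesAxiomA f ∧ HasNoCycles f) := by
  obtain ⟨Φ, e, A, ψ, hΦ, he, hA, hψc, hψp, hψe⟩ := hf
  obtain ⟨A', hA1, hA2, hA3⟩ := iMat T.dim A hA.1 hA.2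
  have hlin : ∀ v, linMap A v = A' v := by
    intro v
    ext i
    rw [hA1]
    rfl
  have hψe' : ∀ x v, Φ (f (Φ.symm (x, e v))) = (f₁ x, e (A' v + ψ x v)) := by
    intro x v
    rw [← hlin]
    exact hψe x v
  obtain ⟨h1, h2⟩ := main2 iNormal iMod iStar iUnroll iSemi iTrack iSw iLift iCoord iBound iShadow
    iClosed iHyp iCR hr Φ f f₁ he.1 he.2.1 (topTorus_of he) hA2 hA3 hψc hψp hψe' hst
  refine ⟨h1, fun hv => ?_⟩
  obtain ⟨Es, Eu, c1, c2, c3, c4, c5, γ, c, μ, hc, hμ, hμ1, k1, k2⟩ := hv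
  refine h2 Es Eu γ c μ ⟨c1, c2, c4, c5, fun x hx => ?_, fun x hx v => ?_, hc, hμ, hμ1, k1, k2⟩
  · rw [disjoint_iff]
    exact (c3 x hx).1
  · have hfun : (fun z : M.carrier => (Φ z).1) = π := funext hΦ
    have h3 : dbase Φ x v = mfderiv 𝓘(ℝ, EE M.dim) 𝓘(ℝ, EE N.dim) π x v := by
      unfold dbase
      rw [hfun]
      rfl
    have h4 : v ∈ LinearMap.ker (mfderiv 𝓘(ℝ, EE M.dim) 𝓘(ℝ, EE N.dim) π x).toLinearMap ↔
        dbase Φ x v = 0 := by
      rw [h3]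
      exact Iff.rfl
    exact h4.symm.trans (sup_iff (Es x) (Eu x) _ (c3 x hx).2 v)

end Pool.Agent.OmegaFT
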