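import Pool.Agent.Work.MP_814647_an.FT.Defs

/-!
# Fibred tori: the items which need no manifolds
-/

open Set Filter Topology Function
open scoped Manifold ContDiff

noncomputable section

namespace Pool.Agent.OmegaFT

open Pool.Agent.OmegaStab (EE HypLin)

universe u v w

/-- Item BrBdd: a continuous bounded self-map of a finite-dimensional space has a fixed point.
Proof: choose a linear isomorphism with `Fin n → ℝ`, rescale so that the range lies in the cube
`Icc 0 1`, apply `brouwer_cube` (`Pool/Agent/Work/MP_476501_co/Brouwer.lean`). -/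
def BrBdd : Prop :=
  ∀ (E : Type) [NormedAddCommGroup E] [NormedSpace ℝ E] [FiniteDimensional ℝ E] (F : E → E),
    Continuous F → (∃ B, ∀ x, ‖F x‖ ≤ B) → ∃ x, F x = x

/-- Item PerSolve: a periodic sequence of small nonlinear perturbations of linear maps with an a
priori estimate has a periodic orbit. Proof: on `Fin n → EE m` (indices mod `n`) the linear map
`(Λ z) t = z (t + 1) - L t (z t)` is injective (take `b = 0` and `b ≥ 0` arbitrary), hence
bijective, and its inverse has norm at most `K` for the sup norm of the Euclidean norms. With the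
radial retraction `r` of `EE m` on the ball of radius `ρ` the map
`z ↦ Λ⁻¹ (ψ t (r (z t)))` is continuous, and all its values have coordinates of norm at most `ρ`:
it has a fixed point by BrBdd, and there `r (z t) = z t`. -/
def PerSolve : Prop :=
  ∀ (m n : ℕ) (L : ℕ → EE m →L[ℝ] EE m) (K ρ : ℝ), 0 < n → 0 < K → 0 ≤ ρ →
    (∀ (z : ℕ → EE m) (b : ℝ), z n = z 0 → (∀ t < n, ‖z (t + 1) - L t (z t)‖ ≤ b) →
      ∀ t ≤ n, ‖z t‖ ≤ K * b) →
    ∀ ψ : ℕ → EE m → EE m, (∀ t, ContinuousOn (ψ t) (Metric.closedBall 0 ρ)) →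
      (∀ t < n, ∀ z, ‖z‖ ≤ ρ → K * ‖ψ t z‖ ≤ ρ) →
      ∃ z : ℕ → EE m, z n = z 0 ∧ (∀ t ≤ n, ‖z t‖ ≤ ρ) ∧
        ∀ t < n, z (t + 1) = L t (z t) + ψ t (z t)

/-- Item PerBound: the a priori estimate for a hyperbolic linear map, uniform in the period.
Proof: `HypLin.split` (FinHyp/Linear) gives the splitting `Es ⊕ Eu`, `A` contracts `Es`,
expands `Eu`. Extend `z` periodically; the `Es`-component is `∑_{j ≥ 0} A^j` of the defects, the
`Eu`-component is minus `∑_{j ≥ 1} (A|Eu)^{-j}` of the defects. (Or: compare `z t` with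
`z (t + k n)`, `k → ∞`.) -/
def PerBound : Prop :=
  ∀ (m : ℕ) (A : EE m →L[ℝ] EE m), HypLin A → ∃ C : ℝ, 0 < C ∧
    ∀ (n : ℕ) (z : ℕ → EE m) (b : ℝ), 0 < n → z n = z 0 →
      (∀ t < n, ‖z (t + 1) - A (z t)‖ ≤ b) → ∀ t ≤ n, ‖z t‖ ≤ C * b

/-- Item Semi (Franks): the semiconjugacy in coordinates. Proof: on the compact space `N × T` let
`φ'(x, e v) = φ x v` (well defined by `per`, continuous because `id × e` is an open continuous
surjection). With the projections of `EE m` on the stable and unstable spaces of `A`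
(`HypLin.split`; `A` is invertible) put
`w' = - ∑_{j ≥ 0} A^j (φ'^s ∘ F^{-(j+1)}) + ∑_{j ≥ 0} (A|Eu)^{-(j+1)} (φ'^u ∘ F^j)`; the series
converge uniformly and `w' ∘ F = A w' - φ'`. Finally `w x v = w' (x, e v)`. -/
def Semi : Prop :=
  ∀ (m : ℕ) (N : Type u) (T : Type v) [TopologicalSpace N] [TopologicalSpace T] [CompactSpace N]
    [CompactSpace T] (e : EE m → T) (A : EE m ≃L[ℝ] EE m) (φ : N → EE m → EE m) (f₁ : N → N)
    (F : N × T ≃ₜ N × T), TopTorus e → Integral A → HypLin (A : EE m →L[ℝ] EE m) →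
    Lifted e A φ f₁ F →
    ∃ w : N → EE m → EE m, Continuous (uncurry w) ∧ (∀ x v k, w x (v + iv k) = w x v) ∧
      ∀ x v, w (f₁ x) (A v + φ x v) = A (w x v) - φ x v

/-- Item TorusReturn: a hyperbolic automorphism of the torus realises every cyclic sequence of
long return times to a small neighbourhood of a homoclinic point (the conclusion is `ReturnSeq B`
of `PS/Geo.lean`). Proof: let `k ≠ 0` be an integer vector, `iv k = ks + ku` its components in
the stable and unstable spaces of `A`, `H t = A^t ks` for `t ≥ 0` and `H t = - A^t ku` for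
`t < 0` (`t : ℤ`): `‖H t‖ ≤ c μ^|t|`, `H (t + 1) = A (H t)` for `t ≠ -1` and
`H 0 = A (H (-1)) + iv k`. Put `q = e ks = e (- ku)`. If `B^n q = q`, `n ≥ 1`, then
`l = A^n ks - ks` is integral and in the stable space, `A^j l → 0` are integral, so `l = 0`,
`ks = 0` (as `A^n - 1` is injective), `iv k = ku` and in the same way (with `A⁻¹`) `k = 0`.
So `q` is not periodic, `e (H t) ≠ q` for `t ≠ 0` (orbit of `q`), `e (H t) → e 0 ≠ q` for
`t → ±∞`: there is `ρ₀ > 0` with `dist (e (H t)) q ≥ 3 ρ₀` for all `t ≠ 0`, and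
`dist (e 0) q ≥ 3 ρ₀`. For gaps `g i ≥ n₀` extend the times `τ` periodically to `ℤ` and let
`X t = ∑_{j ∈ ℤ} H (t - τ j)` (absolutely convergent), `x i = e (X (τ i))`; `e` is uniformly
continuous. Between two times only the two nearest terms are not tiny, and one of the two is
small. -/
def TorusReturn : Prop :=
  ∀ (m : ℕ) (T : Type v) [MetricSpace T] (e : EE m → T) (A : EE m ≃L[ℝ] EE m) (B : T → T),
    0 < m → TopTorus e → Integral A → HypLin (A : EE m →L[ℝ] EE m) →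
    (∀ v, B (e v) = e (A v)) →
    ∃ (q : T) (ρ₀ : ℝ), 0 < ρ₀ ∧ q ∉ periodicPts B ∧ ∀ ρ, 0 < ρ → ρ < ρ₀ → ∃ n₀ : ℕ,
      ∀ (p : ℕ) (g : ℕ → ℕ), 0 < p → (∀ i < p, n₀ ≤ g i) →
        ∃ x : ℕ → T, x p = x 0 ∧ ∀ i < p, dist (x i) q ≤ ρ ∧ B^[g i] (x i) = x (i + 1) ∧
          ∀ t, 0 < t → t < g i → ρ₀ ≤ dist (B^[t] (x i)) q

/-- Item TrackTorus: realisation and location. Proof: `θ (x, e v) = e (v + w x v)` (well defined,
continuous as `id × e` is an open continuous surjection). Let `C` be the constant of PerBound for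
`A` and `B₀` a bound of `φ` (periodicity and compactness). `e` is uniformly continuous and
`x ↦ w x v` is uniformly continuous uniformly in `v` (periodicity and compactness).
Given `X` and `η` choose `η' t` with `e (η' t) = η t` for `t < n` and `η' n = η' 0`: then
`η' (t + 1) = A (η' t) + iv (k t)`. PerSolve with `L t = A`, `ρ = C * B₀` and
`ψ t z = φ (X t) (η' t + z)` gives a closed `z` with
`z (t + 1) = A (z t) + φ (X t) (η' t + z t)`. Put `v t = η' t + z t`, `y t = e (v t)`. Then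
`v (t + 1) = A (v t) + φ (X t) (v t) + iv (k t)`, so `(F (X t, y t)).2 = y (t + 1)`. Put
`q t = z t + w (X t) (v t)`, a closed sequence: by the equation for `w` and the periodicity,
`q (t + 1) - A (q t) = w (X (t + 1)) (v (t + 1)) - w (f₁ (X t)) (v (t + 1))` is small, so
`q` is small (PerBound), and
`θ (F (X t, y t)) = B (θ (X t, y t)) = e (A (η' t) + A (q t))`, `η (t + 1) = e (A (η' t))`. -/
def TrackTorus : Prop :=
  ∀ (m : ℕ) (N : Type u) (T : Type v) [MetricSpace N] [MetricSpace T] [CompactSpace N]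
    [CompactSpace T] (e : EE m → T) (A : EE m ≃L[ℝ] EE m) (φ w : N → EE m → EE m) (f₁ : N → N)
    (F : N × T → N × T) (B : T → T), TopTorus e → Integral A →
    HypLin (A : EE m →L[ℝ] EE m) → Lifted e A φ f₁ F → (∀ v, B (e v) = e (A v)) →
    Continuous (uncurry w) → (∀ x v k, w x (v + iv k) = w x v) →
    (∀ x v, w (f₁ x) (A v + φ x v) = A (w x v) - φ x v) →
    ∃ θ : N × T → T, Continuous θ ∧ Tracks f₁ F θ B

/-- Item Unroll: passage from time to stages. Proof: `τ q = ∑_{i < q} l i`, `n = τ p`,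
`X (τ q + t) = f₁^[t] (a q)` and `η' (τ q + t) = B^[t] (η q)` for `q < p`, `t < l q`, `X n = a 0`,
`η' n = η 0`; then `x q = y (τ q)`, and inside a stage
`F^[t] (a q, x q) = (X (τ q + t), y (τ q + t))` by induction, because `(F z).1 = f₁ z.1`. -/
def Unroll : Prop :=
  ∀ (N : Type u) (T : Type v) (Y : Type w) [MetricSpace N] [MetricSpace Y] (f₁ : N → N)
    (F : N × T → N × T) (θ : N × T → Y) (B : Y → Y), (∀ z, (F z).1 = f₁ z.1) →
    Tracks f₁ F θ B → StageTracks f₁ F θ B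

/-- Item VertBound: the linear a priori estimate along closed pseudo-orbits of a vertically
hyperbolic fibred map. Proof. `P x (v + iv k) = P x v + A (iv k)`, so the derivative and everything
else is periodic in `v` and `N × ℝ^m` can be treated as compact. (1) The projections on `Es`,
`Eu` are bounded by a constant `C₂`, and there are `κ₀, δ₁ > 0` such that
`κ₀ * ‖s‖ ≤ ‖s - c‖` for `s ∈ Es x v`, `c ∈ Eu x' v'` if `dist x x' ≤ δ₁`,
`‖v + iv k - v'‖ ≤ δ₁` (otherwise a limit of unit vectors would be in `Es ∩ Eu = 0`, by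
closedness). (2) Fix `N₀` with `C * μ ^ N₀` very small. Extend the closed sequences periodically.
If the jumps are at most `δ` the product of the `N₀` derivatives at times `t, ..., t + N₀ - 1` is
`η`-close to `vder N₀ (X t) (v t)`, `η → 0` for `δ → 0`, and the `N₀`-th image of
`(X t, v t)` is close to `(X (t + N₀), v (t + N₀))` modulo `ℤ^m`. (3) Let `Z = max ‖z t‖`, at
`t`. `‖z (t + N₀) - vder N₀ (X t) (v t) (z t)‖ ≤ C₁ b + η Z`. Decompose `z t = s + u` at
`(X t, v t)`: `‖u‖ ≤ C μ^N₀ (Z + C₁ b + η Z + C μ^N₀ C₂ Z)`. Decompose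
`z (t - N₀) = s' + u'` at time `t - N₀`: `z t` is `(C μ^N₀ C₂ Z + C₁ b + η Z)`-close to
`vder N₀ _ _ u'`, an element of `Eu` at a point close to `(X t, v t)`. By (1)
`κ₀ * ‖s‖` is at most `small * Z + 2 * C₁ * b`, so `Z ≤ Z / 2 + C' b`. -/
def VertBound : Prop :=
  ∀ (m : ℕ) (N : Type u) [MetricSpace N] [CompactSpace N] (A : EE m ≃L[ℝ] EE m)
    (φ : N → EE m → EE m) (f₁ : N → N) (Es Eu : N → EE m → Submodule ℝ (EE m)) (C μ : ℝ),
    Integral A → Continuous f₁ → Continuous (uncurry φ) → (∀ x v k, φ x (v + iv k) = φ x v) →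
    VertC1 (fun x v => A v + φ x v) → VSplit f₁ (fun x v => A v + φ x v) Es Eu C μ →
    VBound f₁ (fun x v => A v + φ x v)

/-- Item VertShadow: vertical shadowing. Proof: let `K`, `δ₀` be the constants of VBound. By
compactness and periodicity (mean value inequality) there is `ρ ≤ ε` with
`‖P x (v + z) - P x v - D x v z‖ ≤ ‖z‖ / (2 * K)` for `‖z‖ ≤ ρ` and all `x`, `v`, where
`D x v = fderiv ℝ (P x) v`. Let `δ = min δ₀ (ρ / (2 * K))`. Given a pseudo-orbit with integer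
vectors `k t`, apply PerSolve with `L t = D (X t) (v t)` and
`ψ t z = P (X t) (v t + z) + iv (k t) - v (t + 1) - D (X t) (v t) z`. -/
def VertShadow : Prop :=
  ∀ (m : ℕ) (N : Type u) [MetricSpace N] [CompactSpace N] (A : EE m ≃L[ℝ] EE m)
    (φ : N → EE m → EE m) (f₁ : N → N), Integral A → Continuous (uncurry φ) →
    (∀ x v k, φ x (v + iv k) = φ x v) → VertC1 (fun x v => A v + φ x v) →
    VBound f₁ (fun x v => A v + φ x v) → VShadow f₁ (fun x v => A v + φ x v)

/-- Item FibClosed: closed chains of `F` are approximated by periodic orbits. Proof. Let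
`P x v = A v + φ x v`. Given `p` and a point `z` of `ChainPts F p` (the set in the hypothesis) and
`ε`, VShadow gives `δ`, and ChainTrack, with `ε₁` small compared with `ε`, `δ` and the modulus of
continuity of `x ↦ φ x v`, gives `ε₂`, `n₁`. Take a closed chain `y`, `n` of `F` with jumps
at most `ε₃ ≤ ε₂` near `z`; its projection to `N` is a closed chain of `f₁`, followed by `u`. Time:
`τ q = ∑_{i < q} n i`, `n' = τ p` (indices in `ZMod p` as numbers below `p`),
`X (τ q + t) = f₁^[t] (u q)`, and `v (τ q + t)`, `t < n q`, with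
`e (v (τ q + t)) = (F^[t] (y q)).2`, `v n' = v 0`. Within a stage `e (P (x') (v t')) = e (v (t' + 1))`
exactly for the point `x' = f₁^[t] ((y q).1)` of the projected chain, which is `ε₁`-close to
`X t'`; at the end of a stage the two sides are `ε₃`-close in `T`. Points close in `T` have lifts
close modulo `ℤ^m` (compactness, `e` open), so this is a pseudo-orbit. VShadow gives `z t`, and
`(X t, e (v t + z t))` is a periodic orbit of `F`; at time `0` it is close to `y 0`. -/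
def FibClosed : Prop :=
  ∀ (m : ℕ) (N : Type u) (T : Type v) [MetricSpace N] [MetricSpace T] [CompactSpace N]
    [CompactSpace T] (e : EE m → T) (A : EE m ≃L[ℝ] EE m) (φ : N → EE m → EE m) (f₁ : N → N)
    (F : N × T → N × T), TopTorus e → Integral A → Continuous f₁ → Lifted e A φ f₁ F →
    ChainTrack f₁ → VShadow f₁ (fun x v => A v + φ x v) →
    ∀ p : ℕ, 1 ≤ p → ∀ z : N × T,
      (∀ ε > 0, ∀ n₁ : ℕ, ∃ (y : ZMod p → N × T) (n : ZMod p → ℕ), dist (y 0) z ≤ ε ∧
        (∀ q, n₁ ≤ n q) ∧ ∀ q, dist (F^[n q] (y q)) (y (q + 1)) ≤ ε) →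
      z ∈ closure (periodicPts F)

/-- Item BlockHyp: an extension of hyperbolic cocycles is hyperbolic. Proof. `W x = ker (S x)` is
`Ws x ⊕ Wu x`; `p^u` is the projection on `Wu` along `Ws`, of norm at most `C + 1`. For
`w ∈ Qs x` let `w j = cocyc σ b j x w` (`j ≥ 0`) and `ℓ j` a lift of `w j` at `σ^j x`,
`‖ℓ j‖ ≤ K * ‖w j‖ ≤ K C μ^j ‖w‖`; the defect `c (j + 1) = ℓ (j + 1) - a (ℓ j)` is in the kernel
`W`, of norm `≤ C' μ^j ‖w‖`. Then
`s = ℓ 0 + ∑_{j ≥ 0} (cocyc (j + 1))⁻¹ (p^u (c (j + 1)))` satisfies `S x s = w`,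
`cocyc n x s = ℓ n - ∑_{j < n} cocyc (n - 1 - j) (p^s (c (j + 1))) +
∑_{j ≥ n} (cocyc (j + 1 - n))⁻¹ (p^u (c (j + 1)))`, of norm at most
`C'' (n + 1) μ^n ‖w‖ ≤ C''' μ'^n ‖w‖` with `μ' = √μ`. So the vectors `v` with `S x v ∈ Qs x` and
bounded forward orbit form an invariant family `V^s x` (also backwards) which maps onto `Qs x` with
kernel `Ws x`, and all of them are contracted with constants `C''''`, `μ'` (a bounded forward orbit
in `Ws ⊕ Wu` is in `Ws`). Contraction at the point `σ^{-n} x` gives the second inequality of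
`Contr`. The other half is the same for `σ⁻¹`. For a vector `v` decompose `S x v = w + w'`, lift
`w`, `w'` to `V^s`, `V^u`; the rest is in `Ws ⊕ Wu`. -/
def BlockHyp : Prop :=
  ∀ (X : Type u) (σ : X ≃ X) (d d₁ : ℕ) (a : X → EE d ≃L[ℝ] EE d) (b : X → EE d₁ ≃L[ℝ] EE d₁)
    (S : X → EE d →L[ℝ] EE d₁) (K C μ : ℝ) (Ws Wu : X → Submodule ℝ (EE d))
    (Qs Qu : X → Submodule ℝ (EE d₁)), 1 ≤ K → 1 ≤ C → 0 < μ → μ < 1 →
    (∀ x v, ‖a x v‖ ≤ K * ‖v‖ ∧ ‖v‖ ≤ K * ‖a x v‖) → (∀ x v, ‖S x v‖ ≤ K * ‖v‖) →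
    (∀ x w, ∃ v, S x v = w ∧ ‖v‖ ≤ K * ‖w‖) → (∀ x v, S (σ x) (a x v) = b x (S x v)) →
    (∀ x v, S x v = 0 ↔ ∃ s ∈ Ws x, ∃ u ∈ Wu x, v = s + u) →
    (∀ x, ∀ s ∈ Ws x, ∀ u ∈ Wu x, ‖s‖ ≤ C * ‖s + u‖) →
    (∀ x s, s ∈ Ws x ↔ a x s ∈ Ws (σ x)) → (∀ x u, u ∈ Wu x ↔ a x u ∈ Wu (σ x)) →
    (∀ x, ∀ s ∈ Ws x, ∀ n : ℕ, ‖cocyc σ a n x s‖ ≤ C * μ ^ n * ‖s‖) →
    (∀ x, ∀ u ∈ Wu x, ∀ n : ℕ, ‖u‖ ≤ C * μ ^ n * ‖cocyc σ a n x u‖) →
    (∀ x w, ∃ s ∈ Qs x, ∃ u ∈ Qu x, w = s + u ∧ ‖s‖ ≤ C * ‖w‖ ∧ ‖u‖ ≤ C * ‖w‖) →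
    (∀ x s, s ∈ Qs x ↔ b x s ∈ Qs (σ x)) → (∀ x u, u ∈ Qu x ↔ b x u ∈ Qu (σ x)) →
    (∀ x, ∀ s ∈ Qs x, ∀ n : ℕ, ‖cocyc σ b n x s‖ ≤ C * μ ^ n * ‖s‖) →
    (∀ x, ∀ u ∈ Qu x, ∀ n : ℕ, ‖u‖ ≤ C * μ ^ n * ‖cocyc σ b n x u‖) →
    ∃ C' μ' : ℝ, 1 ≤ C' ∧ 0 < μ' ∧ μ' < 1 ∧ ∀ x v, ∃ s u, v = s + u ∧
      Contr σ a C' μ' x s ∧ Expan σ a C' μ' x u

end Pool.Agent.OmegaFT
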