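import Pool.Agent.Work.MP_814647_an.PS.Geo
import Pool.Agent.Work.MP_814647_an.FT.Stmts

/-!
# Fibred tori: the items about manifolds
-/

open Set Filter Topology Function
open scoped Manifold ContDiff

noncomputable section

namespace Pool.Agent.OmegaFT

open Pool.Agent.OmegaStab (EE Dyn IsFam PP HypAt crTopology HypLin ConjClass)
open Pool.Agent.OmegaStab.FinHyp (der)
open Pool.Agent.OmegaPS
open Pool.Agent.OmegaStability

universe u v w x

/-- The derivative of the base projection of `M ≅ N × T`. -/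
def dbase {d₁ d₂ d : ℕ} {N T M : Type*} [MetricSpace N] [ChartedSpace (EE d₁) N]
    [MetricSpace T] [ChartedSpace (EE d₂) T] [MetricSpace M] [ChartedSpace (EE d) M]
    (Φ : Diffeomorph (𝓡 d) ((𝓡 d₁).prod (𝓡 d₂)) M (N × T) ∞) (x : M) : EE d →L[ℝ] EE d₁ :=
  mfderiv (𝓡 d) (𝓡 d₁) (fun z : M => (Φ z).1) x

/-- Uniform hyperbolicity of `f` along the fibres of the base projection. -/
def VertHyp {d₁ d₂ d : ℕ} {N T M : Type*} [MetricSpace N] [ChartedSpace (EE d₁) N]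
    [MetricSpace T] [ChartedSpace (EE d₂) T] [MetricSpace M] [ChartedSpace (EE d) M]
    [IsManifold (𝓡 d) ∞ M] (Φ : Diffeomorph (𝓡 d) ((𝓡 d₁).prod (𝓡 d₂)) M (N × T) ∞)
    (f f' : M → M) (Es Eu : TFamily (EE d) M) (γ : RMetric (EE d) M) (c μ : ℝ) : Prop :=
  ClosedOver Es univ ∧ ClosedOver Eu univ ∧ InvariantOver f Es univ ∧ InvariantOver f Eu univ ∧
    (∀ x, Disjoint (Es x) (Eu x)) ∧
    (∀ x (v : EE d), dbase Φ x v = 0 ↔ ∃ s : EE d, s ∈ Es x ∧ ∃ u : EE d, u ∈ Eu x ∧ v = s + u) ∧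
    0 < c ∧ 0 < μ ∧ μ < 1 ∧ ContractedOver f γ Es univ c μ ∧ ContractedOver f' γ Eu univ c μ

/-- Item SmallMove: the diffeomorphisms of a family are uniformly close to the identity for small
parameters. Proof: `(π, z) ↦ h π z` is continuous on `U × N`, `h 0 = id` and `N` is compact (tube
lemma / `IsCompact` argument). -/
def SmallMove : Prop :=
  ∀ (d : ℕ) (N : Type u) [MetricSpace N] [ChartedSpace (EE d) N] [IsManifold (𝓡 d) ∞ N]
    [CompactSpace N] (r : ℕ∞) (h : PP d → Dyn d N r), IsFam h →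
    ∀ ε > 0, ∃ c > 0, ∀ π, ‖π‖ ≤ c → ∀ z, dist (h π z) z ≤ ε

/-- Item SmallAtlas: an atlas whose perturbations have small supports. Proof: as `exists_atlas`
(`Bd/B06.lean`, line 2514) and `exists_fam2` (same file, line 1510). In `exists_fam2` the family
is the identity off the image under the inverse chart of `Metric.closedBall a R`, and `R` can be
taken as small as one likes: take `R` so small that this image is in the closed ball of radius
`δ / 2` about `q`; `V` is that ball. -/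
def SmallAtlas : Prop :=
  ∀ (d : ℕ) (N : Type u) [MetricSpace N] [ChartedSpace (EE d) N] [IsManifold (𝓡 d) ∞ N]
    [CompactSpace N] (r : ℕ∞) (δ : ℝ), 0 < δ →
    ∃ (At : Atlas d N r) (V : At.J → Set N), (∀ j, IsClosed (V j)) ∧ (∀ j, At.ctr j ∈ V j) ∧
      (∀ j, ∀ x ∈ V j, ∀ y ∈ V j, dist x y ≤ δ) ∧
      ∀ j, ∀ᶠ π in 𝓝 (0 : PP d), ∀ z ∉ V j, At.h j π z = z

/-- Item PertFib: perturbations acting on the base at the points which `θ` maps close to `D i`.
Proof (compare `pert`, `PS/Pert.lean`, which has the auxiliary theorems `Q_fam`, `Q_apply`,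
`Q_apply'`, and `cyl_fam`, `Bd/B06.lean` line 1261). Choose `σ > 0` such that the closed
`4 * σ`-thickenings of `D 0, ..., D (k-1), E` are pairwise disjoint (compactness; use
`Metric.thickening`, some of the sets may be empty). `δ > 0` with
`dist (θ (x, y)) (θ (x', y)) ≤ σ / 8` for `dist x x' ≤ δ`, `At`, `V` from SmallAtlas for `δ`.
For `i : Fin k` and `j : At.J` choose a smooth `β i j : T → [0, 1]`, equal to one where
`θ (ctr j, y)` is in the closed `5 σ / 8`-thickening of `D i`, and zero where it is not in the open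
`3 σ / 4`-thickening. `cyl_fam` gives families `P i j` with
`Φ (P i j π (Φ.symm (x, y))) = (At.h j (β i j y • π) x, y)`. `U i` and `UE` are the open
`σ / 4`-thickenings of `D i` and `E`. `c₀`: the composition of the families applied after `f` is in
`𝒩` (as in `pert`), `At.h j π z = z` for `z ∉ V j` if `‖π‖ ≤ c₀`, and
`dist (At.h j π z) z ≤ δ` (SmallMove). Let `a = f p`, `Φ a = (x, y)`. If `θ (Φ a) ∈ UE` then every
`P i (j i) (π i)` fixes `a`: if `x ∉ V (j i)` because `h` does, if `x ∈ V (j i)` because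
`β = 0`. If `θ (Φ a) ∈ U i`: `b = Φ.symm (At.h (j i) (π i) x, y)` is `P i (j i) (π i) a`
(`β = 1` if `x ∈ V (j i)`; if not both are `a`), and for `i' ≠ i` the map `P i' (j i') (π i')`
fixes `a` and `b` (`θ (Φ b)` is `σ / 8`-close to `θ (Φ a)`). -/
def PertFib : Prop :=
  ∀ (d₁ d₂ d : ℕ) (N : Type u) (T : Type v) (M : Type w) (Y : Type x)
    [MetricSpace N] [ChartedSpace (EE d₁) N] [IsManifold (𝓡 d₁) ∞ N] [CompactSpace N]
    [MetricSpace T] [ChartedSpace (EE d₂) T] [IsManifold (𝓡 d₂) ∞ T] [CompactSpace T]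
    [MetricSpace M] [ChartedSpace (EE d) M] [IsManifold (𝓡 d) ∞ M] [CompactSpace M]
    [MetricSpace Y] [CompactSpace Y] (r : ℕ∞)
    (Φ : Diffeomorph (𝓡 d) ((𝓡 d₁).prod (𝓡 d₂)) M (N × T) ∞) (f : Dyn d M r)
    (θ : N × T → Y) (_ : Continuous θ) (𝒩 : Set (Dyn d M r)) (_ : IsOpen[crTopology d M r] 𝒩)
    (_ : f ∈ 𝒩) (k : ℕ) (D : Fin k → Set Y) (E : Set Y), (∀ i, IsClosed (D i)) → IsClosed E →
    (∀ i j, i ≠ j → Disjoint (D i) (D j)) → (∀ i, Disjoint (D i) E) →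
    ∃ (At : Atlas d₁ N r) (U : Fin k → Set Y) (UE : Set Y) (c₀ : ℝ),
      (∀ i, IsOpen (U i) ∧ D i ⊆ U i) ∧ IsOpen UE ∧ E ⊆ UE ∧ 0 < c₀ ∧
      ∀ (j : Fin k → At.J) (π : Fin k → PP d₁), (∀ i, ‖π i‖ ≤ c₀) →
        ∃ g ∈ 𝒩, (∀ p, θ (Φ (f p)) ∈ UE → Φ (g p) = Φ (f p)) ∧
          ∀ i p, θ (Φ (f p)) ∈ U i → Φ (g p) = (At.h (j i) (π i) (Φ (f p)).1, (Φ (f p)).2)

/-- Item QuotHyp: hyperbolicity passes to the quotient (compare `fibre_hyp`,
`PS/FibreHyp.lean`). Proof: `S = dbase Φ p` is surjective, and `S L = B S` with the derivatives `L`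
of `g^[n]` at `p` and `B` of `H`. For a linear map `L` of a finite-dimensional space let
`T_θ L (v, w) = (L v - cos θ v + sin θ w, L w - sin θ v - cos θ w)`; `HypLin L` iff all
`T_θ L` are injective, iff they are surjective. `T_θ B ∘ (S × S) = (S × S) ∘ T_θ L`. The
derivative of `g^[n]` is hyperbolic by `hypLin_iterate`. -/
def QuotHyp : Prop :=
  ∀ (d₁ d₂ d : ℕ) (N : Type u) (T : Type v) (M : Type w)
    [MetricSpace N] [ChartedSpace (EE d₁) N] [IsManifold (𝓡 d₁) ∞ N]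
    [MetricSpace T] [ChartedSpace (EE d₂) T] [IsManifold (𝓡 d₂) ∞ T]
    [MetricSpace M] [ChartedSpace (EE d) M] [IsManifold (𝓡 d) ∞ M] (r : ℕ∞) (_ : 1 ≤ r)
    (Φ : Diffeomorph (𝓡 d) ((𝓡 d₁).prod (𝓡 d₂)) M (N × T) ∞) (g : Dyn d M r) (n : ℕ) (p : M)
    (H : N → N), 0 < n → HypAt (d := d) g p → g^[n] p = p →
    MDifferentiableAt (𝓡 d₁) (𝓡 d₁) H (Φ p).1 →
    (∀ᶠ q in 𝓝 p, (Φ (g^[n] q)).1 = H (Φ q).1) → HypLin (der (d := d₁) H (Φ p).1)

/-- Item CoreFib: a closed sequence of stages makes the product of the transitions hyperbolic.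
Compare `StarSw.core` (`Bd/B08.lean`, line 3049), whose computation of the derivative (`hpt`,
`hframe`) can be copied. Let `a q = Φ.symm ((τ (s q)).tgt, x q)`. For `z` near `a q`:
`g^[t] z = f^[t] z` for `t < l q` (by induction; `UE` is open), and
`Φ (g^[l q] z) = (Hq (Φ z).1, (Φ (f^[l q] z)).2)` with
`Hq y = At.h (jj (s (q + 1))) (ππ (s (q + 1))) (f₁^[l q] y)`; in particular
`g^[l q] (a q) = a (q + 1)`. Compose: near `a 0` the base coordinate of `g^[n] z`,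
`n = ∑ q < p, l q`, is `HH p (Φ z).1`, where `HH p` is the composition of the `Hq`. `a 0` is
periodic for `g`; QuotHyp. -/
def CoreFib : Prop :=
  ∀ (d₁ d₂ d : ℕ) (N : Type u) (T : Type v) (M : Type w) (Y : Type x)
    [MetricSpace N] [ChartedSpace (EE d₁) N] [IsManifold (𝓡 d₁) ∞ N] [CompactSpace N]
    [MetricSpace T] [ChartedSpace (EE d₂) T] [IsManifold (𝓡 d₂) ∞ T] [CompactSpace T]
    [MetricSpace M] [ChartedSpace (EE d) M] [IsManifold (𝓡 d) ∞ M] [CompactSpace M]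
    [MetricSpace Y] (r : ℕ∞) (_ : 1 ≤ r)
    (Φ : Diffeomorph (𝓡 d) ((𝓡 d₁).prod (𝓡 d₂)) M (N × T) ∞) (f : Dyn d M r)
    (f₁ : Dyn d₁ N r) (_ : ∀ z, (Φ (f z)).1 = f₁ (Φ z).1) (θ : N × T → Y) (_ : Continuous θ)
    (g : Dyn d M r) (_ : ∀ p ∈ periodicPts g, HypAt (d := d) g p) (At : Atlas d₁ N r) (ε : ℝ)
    (G : GeoSys At f₁ ε) (ι : Type) (k : ℕ) (emb : ι → Fin k) (U : Fin k → Set Y) (UE : Set Y)
    (_ : ∀ i, IsOpen (U i)) (_ : IsOpen UE)
    (τ : ι → Trans N (EE d₁)) (jj : ι → At.J) (ππ : ι → PP d₁)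
    (_ : ∀ a, At.h (jj a) (ππ a) (τ a).src = (τ a).tgt)
    (_ : ∀ a v, (τ a).mat (G.frame (τ a).src v) =
        G.frame (τ a).tgt (der (d := d₁) (At.h (jj a) (ππ a)) (τ a).src v))
    (_ : ∀ p, θ (Φ (f p)) ∈ UE → Φ (g p) = Φ (f p))
    (_ : ∀ a p, θ (Φ (f p)) ∈ U (emb a) →
      Φ (g p) = (At.h (jj a) (ππ a) (Φ (f p)).1, (Φ (f p)).2))
    (p : ℕ) (s : ℕ → ι) (l : ℕ → ℕ) (P : ℕ → EE d₁ ≃L[ℝ] EE d₁) (_ : 0 < p) (_ : s p = s 0)
    (_ : ∀ q < p, 1 ≤ l q ∧ (G.S.f ^ l q) (τ (s q)).tgt = (τ (s (q + 1))).src)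
    (_ : P 0 = 1)
    (_ : ∀ q < p, P (q + 1) = (τ (s (q + 1))).mat * G.S.coc (l q) (τ (s q)).tgt * P q)
    (x : ℕ → T) (_ : x p = x 0)
    (_ : ∀ q < p, (Φ (f^[l q] (Φ.symm ((τ (s q)).tgt, x q)))).2 = x (q + 1) ∧
      θ (Φ (f^[l q] (Φ.symm ((τ (s q)).tgt, x q)))) ∈ U (emb (s (q + 1))) ∧
      ∀ t, 0 < t → t < l q → θ (Φ (f^[t] (Φ.symm ((τ (s q)).tgt, x q)))) ∈ UE), Hyp (P p)

/-- Item StarFib: closed words are hyperbolic. Proof (compare `star_of_switchable`,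
`Bd/B08.lean` line 3189). `Switchable B` for `k` gives `m`, `D`, `E`; PertFib gives `At`, `U`,
`UE`, `c₀`; choose `ε₁ > 0` such that the closed `ε₁`-thickenings of `D i`, `E` are in `U i`, `UE`
(compactness); StageTracks for `ε₁` gives `δ`; SmallMove for the families of `At` gives `c₁`;
`realise` (`Bd/B06.lean` line 2351) with `min c₀ c₁` gives `ε₀`. For a closed word take the
representation of `path_seq`, `a q = (τ (s q)).tgt`, so that `f₁^[l q] (a q) = (τ (s (q+1))).src`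
is `δ`-close to `a (q + 1)`; `Switchable` for the symbols `emb (s q)` gives `η` (with
`η q ∈ D (emb (s q))`), StageTracks gives `x`, and CoreFib applies. -/
def StarFib : Prop :=
  ∀ (d₁ d₂ d : ℕ) (N : Type u) (T : Type v) (M : Type w) (Y : Type x)
    [MetricSpace N] [ChartedSpace (EE d₁) N] [IsManifold (𝓡 d₁) ∞ N] [CompactSpace N]
    [MetricSpace T] [ChartedSpace (EE d₂) T] [IsManifold (𝓡 d₂) ∞ T] [CompactSpace T]
    [MetricSpace M] [ChartedSpace (EE d) M] [IsManifold (𝓡 d) ∞ M] [CompactSpace M]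
    [MetricSpace Y] [CompactSpace Y] (r : ℕ∞) (_ : 1 ≤ r)
    (Φ : Diffeomorph (𝓡 d) ((𝓡 d₁).prod (𝓡 d₂)) M (N × T) ∞) (f : Dyn d M r)
    (f₁ : Dyn d₁ N r) (_ : ∀ z, (Φ (f z)).1 = f₁ (Φ z).1) (θ : N × T → Y) (_ : Continuous θ)
    (B : Y → Y) (_ : StageTracks f₁ (fun z => Φ (f (Φ.symm z))) θ B) (_ : Switchable B)
    (𝒩 : Set (Dyn d M r)) (_ : IsOpen[crTopology d M r] 𝒩) (_ : f ∈ 𝒩)
    (_ : ∀ g ∈ 𝒩, ∀ p ∈ periodicPts g, HypAt (d := d) g p) (k : ℕ),
    ∃ (At : Atlas d₁ N r) (ε₀ : ℝ) (m : ℕ), 0 < ε₀ ∧ 1 ≤ m ∧ ∀ ε ≤ ε₀, ∀ G : GeoSys At f₁ ε,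
      Star G.S m k

/-- Item LiftC1: the fibre maps are differentiable. Proof: `(x, v) ↦ A v + φ x v` is continuous and
`e (A v + φ x v)` is the fibre coordinate of `Φ (f (Φ.symm (x, e v)))`, a `C^1` function of
`(x, v)`; compose locally with a smooth local inverse of `e`: the map
`(x, v) ↦ A v + φ x v` is `C^1` on `N × ℝ^m`. Its partial derivative in `v` exists and is
continuous (express it in a chart of `N` around a given point, where the map is a `C^1` map of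
`ℝ^{d₁} × ℝ^m`). -/
def LiftC1 : Prop :=
  ∀ (d₁ m d : ℕ) (N : Type u) (T : Type v) (M : Type w)
    [MetricSpace N] [ChartedSpace (EE d₁) N] [IsManifold (𝓡 d₁) ∞ N]
    [MetricSpace T] [ChartedSpace (EE m) T] [IsManifold (𝓡 m) ∞ T]
    [MetricSpace M] [ChartedSpace (EE d) M] [IsManifold (𝓡 d) ∞ M] (r : ℕ∞) (_ : 1 ≤ r)
    (Φ : Diffeomorph (𝓡 d) ((𝓡 d₁).prod (𝓡 m)) M (N × T) ∞) (f : Dyn d M r)
    (e : EE m → T) (_ : IsLocalDiffeomorph (𝓡 m) (𝓡 m) ∞ e) (A : EE m ≃L[ℝ] EE m)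
    (φ : N → EE m → EE m) (f₁ : N → N), Lifted e A φ f₁ (fun z => Φ (f (Φ.symm z))) →
    VertC1 (fun x v => A v + φ x v)

/-- Item VertCoord: the vertical splitting in coordinates. Proof. Let
`Ψ (x, v) = Φ.symm (x, e v)` and `J x v : EE m →L EE d` its partial derivative in `v` (the
derivative of `v ↦ Φ.symm (x, e v)`), injective, with range the kernel of `dbase Φ`. Put
`Es' x v = {c | J x v c ∈ Es (Ψ (x, v))}`. Closedness: `((x, v), c) ↦ ⟨Ψ (x, v), J x v c⟩` is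
continuous into the tangent bundle (`ContMDiff.continuous_tangentMap`). Periodicity: `e` is
periodic. Differentiating `f (Ψ (x, v)) = Ψ (f₁ x, P x v)` gives
`der f (Ψ (x, v)) (J x v c) = J (f₁ x) (P x v) (fderiv ℝ (P x) v c)`, hence invariance, and by
induction the relation between `der f^[n]` and `vder`. By compactness (periodicity) the Riemannian
norm of `J x v c` is comparable with `‖c‖`. For `c ∈ Eu' x v` apply the contraction of the inverse
at `f^[n] (Ψ (x, v))` to the vector `der f^[n] (J x v c)`, which is in `Eu`. -/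
def VertCoord : Prop :=
  ∀ (d₁ m d : ℕ) (N : Type u) (T : Type v) (M : Type w)
    [MetricSpace N] [ChartedSpace (EE d₁) N] [IsManifold (𝓡 d₁) ∞ N] [CompactSpace N]
    [MetricSpace T] [ChartedSpace (EE m) T] [IsManifold (𝓡 m) ∞ T] [CompactSpace T]
    [MetricSpace M] [ChartedSpace (EE d) M] [IsManifold (𝓡 d) ∞ M] [CompactSpace M]
    (r : ℕ∞) (_ : 1 ≤ r)
    (Φ : Diffeomorph (𝓡 d) ((𝓡 d₁).prod (𝓡 m)) M (N × T) ∞) (f : Dyn d M r)
    (e : EE m → T) (_ : IsLocalDiffeomorph (𝓡 m) (𝓡 m) ∞ e) (_ : TopTorus e)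
    (A : EE m ≃L[ℝ] EE m) (_ : Integral A) (φ : N → EE m → EE m) (f₁ : N → N)
    (_ : Lifted e A φ f₁ (fun z => Φ (f (Φ.symm z))))
    (_ : VertC1 (fun x v => A v + φ x v))
    (Es Eu : TFamily (EE d) M) (γ : RMetric (EE d) M) (c μ : ℝ),
    VertHyp Φ f f.symm Es Eu γ c μ →
    ∃ (Es' Eu' : N → EE m → Submodule ℝ (EE m)) (C' μ' : ℝ),
      VSplit f₁ (fun x v => A v + φ x v) Es' Eu' C' μ'

/-- Item FibHyp: the nonwandering set of a vertically hyperbolic fibred diffeomorphism over a map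
with hyperbolic nonwandering set is hyperbolic. Proof. Take geometric systems (`exists_atlas`,
`exists_geoSys`) for `f` and `f₁`, with frames `G`, `G₁`, and apply BlockHyp to `X = Omega f` (as a
subtype, `σ` = the restriction of `f`; `(Φ x).1 ∈ Omega f₁` for `x ∈ Omega f`),
`a x v = G.frame (f x) (der f x ((G.frame x)⁻¹ v))`, `b` likewise for `f₁`,
`S x = G₁.frame (Φ x).1 ∘ dbase Φ x ∘ (G.frame x)⁻¹`. The bounds: `frame_metric`
(`Bd/B08.lean` line 495) and `rnorm_compare` (`Bd/B06.lean` line 1147), the lifts of base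
vectors are the derivatives of `y ↦ Φ.symm (y, (Φ x).2)` (as in `PS/ProdHyp.lean`). `Ws`, `Wu` are
the images of `Es`, `Eu` under the frames, `Qs`, `Qu` the images of the splitting of the hyperbolic
structure of `f₁` (bounded projections by closedness and compactness, see `PS/ProdHyp.lean` or
`Bd`). The result is VecHyp for `f` on `Omega f` (`Bd/B06.lean` line 2475) with
`δ = - log μ'`; then `hyperbolicStructure_of_vecHyp` (`Bd/B08.lean` line 1060). -/
def FibHyp : Prop :=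
  ∀ (d₁ d₂ d : ℕ) (N : Type u) (T : Type v) (M : Type w)
    [MetricSpace N] [ChartedSpace (EE d₁) N] [IsManifold (𝓡 d₁) ∞ N] [CompactSpace N]
    [MetricSpace T] [ChartedSpace (EE d₂) T] [IsManifold (𝓡 d₂) ∞ T] [CompactSpace T]
    [MetricSpace M] [ChartedSpace (EE d) M] [IsManifold (𝓡 d) ∞ M] [CompactSpace M]
    (r : ℕ∞) (_ : 1 ≤ r)
    (Φ : Diffeomorph (𝓡 d) ((𝓡 d₁).prod (𝓡 d₂)) M (N × T) ∞) (f : Dyn d M r)
    (f₁ : Dyn d₁ N r) (_ : ∀ z, (Φ (f z)).1 = f₁ (Φ z).1)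
    (Es Eu : TFamily (EE d) M) (γ : RMetric (EE d) M) (c μ : ℝ),
    VertHyp Φ f f.symm Es Eu γ c μ → HyperbolicStructure (EE d₁) f₁ f₁.symm (Omega f₁) →
    HyperbolicStructure (EE d) f f.symm (Omega f)

/-- Item MatConv: the linear automorphism of a hyperbolic integer matrix. Proof: `Matrix.toEuclideanLin`
/ `Matrix.toLin'` of the real matrix; its inverse is the one of the integral inverse matrix. If
`A v = cos θ v - sin θ w`, `A w = sin θ v + cos θ w` then `A (v + i w) = e^{iθ} (v + i w)` or its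
conjugate for the complex matrix, so `v + i w` or `v - i w` is in the kernel of `A - z` with
`‖z‖ = 1`, which is zero because the determinant is not zero. -/
def MatConv : Prop :=
  ∀ (m : ℕ) (A : Matrix (Fin m) (Fin m) ℤ), IsUnit A.det →
    (∀ z : ℂ, ‖z‖ = 1 → (A.map (Int.cast : ℤ → ℂ) - z • (1 : Matrix (Fin m) (Fin m) ℂ)).det ≠ 0) →
    ∃ A' : EE m ≃L[ℝ] EE m, (∀ v i, A' v i = ∑ j, (A i j : ℝ) * v j) ∧ Integral A' ∧
      HypLin (A' : EE m →L[ℝ] EE m)

end Pool.Agent.OmegaFT
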